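import Pool.Agent.LibRE29.Defs
set_option autoImplicit false
namespace LibRE
open LibRS Equiv

/-- conjugation is multiplicative (see `LibRS.Ext.β_mul` in T23) -/
theorem β_mul' {F G Q : Type} [Field F] [Group G] [Group Q] (X : Ext F G Q) (a b : G) (n : F) :
    X.β (a * b) n = X.β a (X.β b n) := by
  have h1 : a * b * X.ν n = X.ν (X.β (a * b) n) * (a * b) := X.β_spec _ _
  have h2 : a * b * X.ν n = X.ν (X.β a (X.β b n)) * (a * b) := by
    rw [mul_assoc, X.β_spec, ← mul_assoc, X.β_spec, mul_assoc]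
  exact X.ν_inj (mul_right_cancel (h1.symm.trans h2))

/-- elements of the kernel act trivially -/
theorem β_ker {F G Q : Type} [Field F] [Group G] [Group Q] (X : Ext F G Q) (a : G)
    (ha : X.π a = 1) (n : F) : X.β a n = n := by
  have h0 : X.β a n = X.β 1 n := X.β_congr (by rw [ha, map_one]) n
  rw [h0]
  have h1 : 1 * X.ν n = X.ν (X.β 1 n) * 1 := X.β_spec _ _
  rw [one_mul, mul_one] at h1
  exact (X.ν_inj h1).symm

/-- the centraliser of `H` in the kernel -/
private def cent {F G Q : Type} [Field F] [Group G] [Group Q] (X : Ext F G Q) (H : G) :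
    Subgroup G where
  carrier := {g | ∃ n, X.ν n = g ∧ X.β H n = n}
  mul_mem' := by
    rintro a b ⟨n, hn, hn'⟩ ⟨m, hm, hm'⟩
    refine ⟨n + m, ?_, ?_⟩
    · rw [X.ν_add, hn, hm]
    · rw [map_add, hn', hm']
  one_mem' := ⟨0, X.ν_zero, map_zero _⟩
  inv_mem' := by
    rintro a ⟨n, hn, hn'⟩
    refine ⟨-n, ?_, ?_⟩
    · rw [X.ν_neg, hn]
    · rw [map_neg, hn']

/-- A lift `H` of a central involution (or of 1) acts on a minimal normal subgroup of odd order by `±1`:
the centraliser `K = {ν n | β H n = n}` of `H` is normal in `G` (for `g` in `G`, `g * H * g⁻¹` and `H` have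
the same image, so `X.β_congr`), hence `K = ⊥` or everything; in the first case `n + β H n` is fixed by `β H`
(`β H (β H n) = n`, as `X.π (H * H) = 1`), so it is 0. -/
theorem act_pm {F G Q : Type} [Field F] [Fintype F] [Group G] [Group Q] (X : Ext F G Q)
    (hmin : ∀ K : Subgroup G, K.Normal → (∀ k ∈ K, ∃ n, X.ν n = k) → K = ⊥ ∨ ∀ n, X.ν n ∈ K)
    (h : Q) (hh : h * h = 1) (hc : ∀ q, h * q = q * h) (H : G) (hH : X.π H = h) :
    (∀ n, X.β H n = n) ∨ (∀ n, X.β H n = -n) := by
  have hnorm : (cent X H).Normal := by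
    refine ⟨?_⟩
    rintro a ⟨n, hn, hn'⟩ g
    refine ⟨X.β g n, ?_, ?_⟩
    · have h1 := X.β_spec g n
      rw [hn] at h1
      rw [h1, mul_inv_cancel_right]
    · rw [← β_mul', X.β_congr (b := g * H) (by rw [map_mul, map_mul, hH, hc]), β_mul', hn']
  rcases hmin (cent X H) hnorm (fun g hg => by
    obtain ⟨n, hn, -⟩ := hg
    exact ⟨n, hn⟩) with h0 | h0
  · right
    intro n
    have hsq : X.β H (X.β H n) = n := by
      rw [← β_mul']
      exact β_ker X _ (by rw [map_mul, hH, hh]) n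
    have hm : X.ν (n + X.β H n) ∈ cent X H := by
      refine ⟨n + X.β H n, rfl, ?_⟩
      rw [map_add, hsq, add_comm]
    rw [h0, Subgroup.mem_bot] at hm
    have h1 := X.ν_eq_one hm
    exact (neg_eq_of_add_eq_zero_right h1).symm
  · left
    intro n
    obtain ⟨m, hm, hm'⟩ := h0 n
    have := X.ν_inj hm
    rw [this] at hm'
    exact hm'

/-- two different elements not equal to one -/
private theorem exists_two {Q : Type} [Group Q] [Finite Q] (hQ : Nat.card Q = 4) :
    ∃ a b : Q, a ≠ 1 ∧ b ≠ 1 ∧ a ≠ b := by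
  classical
  haveI : Fintype Q := Fintype.ofFinite Q
  rw [Nat.card_eq_fintype_card] at hQ
  have h1 : 1 < (Finset.univ.erase (1 : Q)).card := by
    rw [Finset.card_erase_of_mem (Finset.mem_univ _), Finset.card_univ, hQ]
    norm_num
  obtain ⟨a, ha, b, hb, hab⟩ := Finset.one_lt_card.1 h1
  exact ⟨a, b, (Finset.mem_erase.1 ha).1, (Finset.mem_erase.1 hb).1, hab⟩

/-- Some element outside of the kernel acts trivially: `Q` is the four group; take two lifts `A`, `B` of two
different elements ≠ 1; each acts by `±1` (`act_pm`); if both act by `-1`, then `A * B` acts trivially. -/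
theorem exists_triv_min {F G Q : Type} [Field F] [Fintype F] [Group G] [Group Q] [Finite Q]
    (X : Ext F G Q)
    (hmin : ∀ K : Subgroup G, K.Normal → (∀ k ∈ K, ∃ n, X.ν n = k) → K = ⊥ ∨ ∀ n, X.ν n ∈ K)
    (hQ : Nat.card Q = 4) (hQ2 : ∀ q : Q, q * q = 1) :
    ∃ H : G, X.π H ≠ 1 ∧ ∀ n, X.β H n = n := by
  have hcomm : ∀ a b : Q, a * b = b * a := by
    intro a b
    have h1 : ∀ q : Q, q⁻¹ = q := fun q => inv_eq_of_mul_eq_one_left (hQ2 q)
    have h2 : (a * b)⁻¹ = a * b := h1 _
    rw [mul_inv_rev, h1, h1] at h2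
    exact h2.symm
  obtain ⟨a, b, ha, hb, hab⟩ := exists_two hQ
  obtain ⟨A, hA⟩ := X.π_surj a
  obtain ⟨B, hB⟩ := X.π_surj b
  rcases act_pm X hmin a (hQ2 a) (fun q => hcomm a q) A hA with h1 | h1
  · exact ⟨A, by rw [hA]; exact ha, h1⟩
  rcases act_pm X hmin b (hQ2 b) (fun q => hcomm b q) B hB with h2 | h2
  · exact ⟨B, by rw [hB]; exact hb, h2⟩
  refine ⟨A * B, ?_, ?_⟩
  · rw [map_mul, hA, hB]
    intro h3
    apply hab
    have h4 : a * b = a * a := by rw [h3, hQ2]
    exact (mul_left_cancel h4).symm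
  · intro n
    rw [β_mul', h2, map_neg, h1, neg_neg]

end LibRE
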