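import Pool.Agent.LibRE29.Act
set_option autoImplicit false
namespace LibRE
open LibRS Equiv

/-- characteristic two -/
private theorem ff_add {F : Type} [Field F] [Fintype F] (hF : Fintype.card F = 4) (x : F) :
    x + x = 0 := by
  have h := FiniteField.cast_card_eq_zero F
  rw [hF] at h
  have h2 : (2 : F) * 2 = 0 := by
    push_cast at h
    linear_combination h
  have h3 : (2 : F) = 0 := by
    rcases mul_eq_zero.1 h2 with h | h <;> exact h
  linear_combination x * h3

/-- the four elements -/
private theorem mem_four {F : Type} [Field F] [Fintype F] (hF : Fintype.card F = 4) {n m : F}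
    (hn : n ≠ 0) (hm : m ≠ 0) (hnm : n ≠ m) (x : F) : x = 0 ∨ x = n ∨ x = m ∨ x = n + m := by
  classical
  have h : ({0, n, m, n + m} : Finset F) = Finset.univ := by
    apply Finset.eq_univ_of_card
    have h1 : n + m ≠ 0 := by
      intro h
      apply hnm
      have := ff_add hF m
      exact add_right_cancel (h.trans this.symm)
    have h2 : n ≠ n + m := fun h => hm (left_eq_add.1 h)
    have h3 : m ≠ n + m := fun h => hn (right_eq_add.1 h)
    rw [hF, Finset.card_insert_of_notMem, Finset.card_insert_of_notMem,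
      Finset.card_insert_of_notMem, Finset.card_singleton]
    · simpa using h3
    · simp only [Finset.mem_insert, Finset.mem_singleton, not_or]
      exact ⟨hnm, h2⟩
    · simp only [Finset.mem_insert, Finset.mem_singleton, not_or]
      exact ⟨hn.symm, hm.symm, h1.symm⟩
  have h4 := Finset.mem_univ x
  rw [← h] at h4
  simpa using h4

/-- An additive automorphism τ of a field with four elements with `τ⁴ = 1` satisfies `τ² = 1`: τ permutes the three
non-zero elements; if it fixes no one of them it is a 3-cycle and `τ³ = 1 = τ⁴` gives τ = 1. If `τ w = w ≠ 0`, then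
for `n ∉ {0, w}` the value `τ n` is `n` or `n + w`. (Characteristic two: `n + n = 0`.) -/
theorem four_sq {F : Type} [Field F] [Fintype F] (hF : Fintype.card F = 4) (τ : F ≃+ F)
    (h4 : ∀ n, τ (τ (τ (τ n))) = n) (n : F) : τ (τ n) = n := by
  by_cases hn : n = 0
  · rw [hn, map_zero, map_zero]
  by_cases hm : τ n = n
  · rw [hm, hm]
  have h0 : τ n ≠ 0 := fun h => hn ((map_eq_zero_iff τ τ.injective).1 h)
  rcases mem_four hF hn h0 (Ne.symm hm) (τ (τ n)) with h | h | h | h
  · exact absurd ((map_eq_zero_iff τ τ.injective).1 h) h0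
  · exact h
  · exact absurd (τ.injective h) hm
  · exfalso
    apply hm
    have h5 : τ (τ (τ n)) = n := by
      rw [h, map_add, h, add_comm n (τ n), ← add_assoc, ff_add hF, zero_add]
    have h6 := h4 n
    rw [h5] at h6
    exact h6

/-- Two commuting additive automorphisms ≠ 1 with square 1 of a field with four elements are equal. (If `σ u ≠ u` then
`w = u + σ u` is the unique non-zero element fixed by `σ`; as `τ` commutes with `σ` it fixes `w`.) -/
theorem four_comm {F : Type} [Field F] [Fintype F] (hF : Fintype.card F = 4) (σ τ : F ≃+ F)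
    (h1 : ∀ n, σ (σ n) = n) (h2 : ∀ n, τ (τ n) = n) (hc : ∀ n, σ (τ n) = τ (σ n))
    (hσ : ∃ n, σ n ≠ n) (hτ : ∃ n, τ n ≠ n) (n : F) : σ n = τ n := by
  obtain ⟨u, hu⟩ := hσ
  obtain ⟨t, ht⟩ := hτ
  have hu0 : u ≠ 0 := fun h => hu (by rw [h, map_zero])
  obtain ⟨v, hv⟩ : ∃ v, v = σ u := ⟨_, rfl⟩
  have hv0 : v ≠ 0 := fun h => hu0 ((map_eq_zero_iff σ σ.injective).1 (hv.symm.trans h))
  have huv : u ≠ v := fun h => hu (by rw [← hv, ← h])
  have hσv : σ v = u := by rw [hv, h1]
  have hw0 : u + v ≠ 0 := by
    intro h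
    apply huv
    have := ff_add hF v
    exact add_right_cancel (h.trans this.symm)
  have hτw : τ (u + v) = u + v := by
    have h3 : σ (τ (u + v)) = τ (u + v) := by
      rw [hc, map_add, hσv, ← hv, add_comm v u]
    rcases mem_four hF hu0 hv0 huv (τ (u + v)) with h | h | h | h
    · exact absurd ((map_eq_zero_iff τ τ.injective).1 h) hw0
    · rw [h] at h3
      exact absurd h3 hu
    · rw [h, hσv] at h3
      exact absurd h3 huv
    · exact h
  have hτuv : τ u + τ v = u + v := by rw [← map_add, hτw]
  rcases mem_four hF hu0 hv0 huv (τ u) with h | h | h | h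
  · exact absurd ((map_eq_zero_iff τ τ.injective).1 h) hu0
  · exfalso
    apply ht
    have h5 : τ v = v := by
      rw [h] at hτuv
      exact add_left_cancel hτuv
    rcases mem_four hF hu0 hv0 huv t with h6 | h6 | h6 | h6
    · rw [h6, map_zero]
    · rw [h6, h]
    · rw [h6, h5]
    · rw [h6, hτw]
  · have h5 : τ v = u := by rw [← h, h2]
    rcases mem_four hF hu0 hv0 huv n with h6 | h6 | h6 | h6
    · rw [h6, map_zero, map_zero]
    · rw [h6, h, hv]
    · rw [h6, h5, hσv]
    · rw [h6, hτw, map_add, hσv, ← hv, add_comm]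
  · exfalso
    have h5 : τ u = τ (u + v) := h.trans hτw.symm
    have h6 := τ.injective h5
    exact hv0 (left_eq_add.1 h6)

/-- two different elements not equal to one -/
private theorem exists_two_b {Q : Type} [Group Q] [Finite Q] (hQ : Nat.card Q = 4) :
    ∃ a b : Q, a ≠ 1 ∧ b ≠ 1 ∧ a ≠ b := by
  classical
  have : Fintype Q := Fintype.ofFinite Q
  rw [Nat.card_eq_fintype_card] at hQ
  have h1 : 1 < (Finset.univ.erase (1 : Q)).card := by
    rw [Finset.card_erase_of_mem (Finset.mem_univ _), Finset.card_univ, hQ]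
    norm_num
  obtain ⟨a, ha, b, hb, hab⟩ := Finset.one_lt_card.1 h1
  exact ⟨a, b, (Finset.mem_erase.1 ha).1, (Finset.mem_erase.1 hb).1, hab⟩

/-- quotient the four group, kernel of order four: some element outside of the kernel acts trivially
(lifts `A`, `B` of two different elements ≠ 1 of `Q`; `β A`, `β B` commute by `X.β_congr`, `β_mul'`). -/
theorem exists_triv_four {F G Q : Type} [Field F] [Fintype F] [Group G] [Group Q] [Finite Q]
    (X : Ext F G Q) (hF : Fintype.card F = 4) (hQ : Nat.card Q = 4) (hQ2 : ∀ q : Q, q * q = 1) :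
    ∃ H : G, X.π H ≠ 1 ∧ ∀ n, X.β H n = n := by
  have hcomm : ∀ a b : Q, a * b = b * a := by
    intro a b
    have h1 : ∀ q : Q, q⁻¹ = q := fun q => inv_eq_of_mul_eq_one_left (hQ2 q)
    have h2 : (a * b)⁻¹ = a * b := h1 _
    rw [mul_inv_rev, h1, h1] at h2
    exact h2.symm
  obtain ⟨a, b, ha, hb, hab⟩ := exists_two_b hQ
  obtain ⟨A, hA⟩ := X.π_surj a
  obtain ⟨B, hB⟩ := X.π_surj b
  by_cases h1 : ∀ n, X.β A n = n
  · exact ⟨A, by rw [hA]; exact ha, h1⟩
  by_cases h2 : ∀ n, X.β B n = n
  · exact ⟨B, by rw [hB]; exact hb, h2⟩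
  have hsq : ∀ (C : G) (n : F), X.β C (X.β C n) = n := by
    intro C n
    rw [← β_mul']
    exact β_ker X _ (by rw [map_mul, hQ2]) n
  have h3 : ∀ n, X.β A n = X.β B n := by
    refine four_comm hF (X.β A) (X.β B) (hsq A) (hsq B) ?_ ?_ ?_
    · intro n
      rw [← β_mul', ← β_mul', X.β_congr (b := B * A) (by rw [map_mul, map_mul, hcomm])]
    · push Not at h1
      exact h1
    · push Not at h2
      exact h2
  refine ⟨A * B, ?_, ?_⟩
  · rw [map_mul, hA, hB]
    intro h3
    apply hab
    have h4 : a * b = a * a := by rw [h3, hQ2]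
    exact (mul_left_cancel h4).symm
  · intro n
    rw [β_mul', ← h3, hsq]

/-- quotient the quaternion group, kernel of order four: the lifts of `h = x * x` act trivially. -/
theorem act_four_Q8 {F G Q : Type} [Field F] [Fintype F] [Group G] [Group Q]
    (X : Ext F G Q) (hF : Fintype.card F = 4) (h x : Q) (hh : h * h = 1) (hx : x * x = h) (H : G)
    (hH : X.π H = h) (n : F) : X.β H n = n := by
  obtain ⟨Y, hY⟩ := X.π_surj x
  have h1 : ∀ m, X.β H m = X.β Y (X.β Y m) := by
    intro m
    rw [← β_mul']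
    exact X.β_congr (by rw [map_mul, hY, hx, hH]) m
  rw [h1]
  refine four_sq hF (X.β Y) ?_ n
  intro m
  rw [← h1, ← h1, ← β_mul']
  exact β_ker X _ (by rw [map_mul, hH, hh]) m

end LibRE
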