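import Pool.Agent.LibRE29.RegApi
set_option autoImplicit false
namespace LibRE
open LibRS Equiv

/-- every residue is even or a unit -/
theorem unit_or_even {k : ℕ} (hk : 1 ≤ k) (t : ZMod (2 ^ k)) : IsUnit t ∨ ∃ u, t = 2 * u := by
  haveI : NeZero (2 ^ k) := ⟨by positivity⟩
  rcases Nat.even_or_odd' t.val with ⟨c, hc | hc⟩
  · right
    refine ⟨(c : ZMod (2 ^ k)), ?_⟩
    rw [← ZMod.natCast_zmod_val t, hc]
    push_cast
    ring
  · left
    rw [← ZMod.natCast_zmod_val t, ZMod.isUnit_iff_coprime, hc]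
    apply Nat.Coprime.pow_right
    rw [Nat.coprime_comm, Nat.coprime_two_left]
    exact ⟨c, rfl⟩

private theorem two_pow_half {k : ℕ} (hk : 1 ≤ k) : (2 : ℤ) ^ k = 2 ^ (k - 1) * 2 := by
  rw [← pow_succ]
  congr 1
  omega

private theorem half_cases {k : ℕ} (hk : 1 ≤ k) (a b : ℤ) (h : (2 : ℤ) ^ (k - 1) ∣ a - b) :
    (a : ZMod (2 ^ k)) = b ∨ (a : ZMod (2 ^ k)) = b + hf k := by
  obtain ⟨q, hq⟩ := h
  have hz : ((2 : ZMod (2 ^ k))) ^ k = 0 := by
    have := ZMod.natCast_self (2 ^ k)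
    push_cast at this
    exact this
  have hz' : ((2 : ZMod (2 ^ k))) ^ (k - 1) * 2 = 0 := by
    rw [← pow_succ, show k - 1 + 1 = k by omega]
    exact hz
  have ha : a = b + 2 ^ (k - 1) * q := by linarith
  rcases Int.even_or_odd' q with ⟨r, hr | hr⟩
  · left
    rw [ha, hr]
    push_cast
    rw [← mul_assoc, hz']
    ring
  · right
    rw [ha, hr]
    unfold hf
    push_cast
    rw [mul_add, ← mul_assoc, hz']
    ring

/-- square roots of one modulo `2 ^ k` -/
theorem sq_one_cases {k : ℕ} (hk : 3 ≤ k) (s : ZMod (2 ^ k)) (h : s * s = 1) :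
    s = 1 ∨ s = -1 ∨ s = 1 + hf k ∨ s = -1 + hf k := by
  obtain ⟨a, rfl⟩ := ZMod.intCast_surjective s
  have h1 : ((a * a - 1 : ℤ) : ZMod (2 ^ k)) = 0 := by
    push_cast
    rw [h]
    ring
  rw [ZMod.intCast_zmod_eq_zero_iff_dvd] at h1
  push_cast at h1
  obtain ⟨m, hm⟩ := h1
  rw [two_pow_half (by omega)] at hm
  have hodd : Odd a := by
    rcases Int.even_or_odd' a with ⟨c, hc | hc⟩
    · exfalso
      have : (2 : ℤ) ∣ 1 := ⟨c * a - 2 ^ (k - 1) * m, by
        have : a * a = 2 * (c * a) := by rw [hc]; ring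
        linarith⟩
      norm_num at this
    · exact ⟨c, hc⟩
  obtain ⟨c, hc⟩ := hodd
  have hm2 : (2 : ℤ) ^ (k - 1) * m = 2 * (c * (c + 1)) := by
    have : a * a - 1 = 2 * (2 * (c * (c + 1))) := by rw [hc]; ring
    linarith
  have hk2 : (2 : ℤ) ^ (k - 1) = 2 ^ (k - 2) * 2 := by
    rw [← pow_succ]
    congr 1
    omega
  have hm3 : c * (c + 1) = (2 : ℤ) ^ (k - 2) * m := by
    rw [hk2] at hm2
    linarith
  rcases Int.even_or_odd c with he | ho
  · -- `c + 1` is odd, `2 ^ (k - 2) ∣ c`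
    have hco : IsCoprime ((2 : ℤ) ^ (k - 2)) (c + 1) := by
      apply IsCoprime.pow_left
      rw [Int.isCoprime_iff_gcd_eq_one]
      have := Int.natAbs_odd.mpr he.add_one
      rw [Int.gcd_def]
      exact (Nat.coprime_two_left.mpr this)
    have hd : (2 : ℤ) ^ (k - 2) ∣ c := hco.dvd_of_dvd_mul_right ⟨m, hm3⟩
    obtain ⟨w, hw⟩ := hd
    rcases half_cases (k := k) (by omega) a 1 ⟨w, by rw [hc, hw, hk2]; ring⟩ with h | h
    · left
      rw [h]; push_cast; rfl
    · right; right; left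
      rw [h]; push_cast; rfl
  · have hco : IsCoprime ((2 : ℤ) ^ (k - 2)) c := by
      apply IsCoprime.pow_left
      rw [Int.isCoprime_iff_gcd_eq_one]
      have := Int.natAbs_odd.mpr ho
      rw [Int.gcd_def]
      exact (Nat.coprime_two_left.mpr this)
    have hd : (2 : ℤ) ^ (k - 2) ∣ c + 1 := hco.dvd_of_dvd_mul_left ⟨m, hm3⟩
    obtain ⟨w, hw⟩ := hd
    have hw' : c = 2 ^ (k - 2) * w - 1 := by linarith
    rcases half_cases (k := k) (by omega) a (-1) ⟨w, by rw [hc, hw', hk2]; ring⟩ with h | h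
    · right; left
      rw [h]; push_cast; rfl
    · right; right; right
      rw [h]; push_cast; rfl

theorem sq_one_cases_two (s : ZMod (2 ^ 2)) (h : s * s = 1) : s = 1 ∨ s = -1 := by
  revert s
  decide

theorem eq_zero_or_hf {k : ℕ} (hk : 1 ≤ k) (t : ZMod (2 ^ k)) (h : 2 * t = 0) : t = 0 ∨ t = hf k := by
  obtain ⟨a, rfl⟩ := ZMod.intCast_surjective t
  have h1 : ((2 * a : ℤ) : ZMod (2 ^ k)) = 0 := by
    push_cast
    exact h
  rw [ZMod.intCast_zmod_eq_zero_iff_dvd] at h1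
  push_cast at h1
  obtain ⟨m, hm⟩ := h1
  rw [two_pow_half hk] at hm
  rcases half_cases hk a 0 ⟨m, by linarith⟩ with h | h
  · left
    rw [h]; push_cast; rfl
  · right
    rw [h]; push_cast; rw [zero_add]

private theorem hf_mul_two {k : ℕ} (hk : 1 ≤ k) (u : ZMod (2 ^ k)) : hf k * (2 * u) = 0 := by
  rw [← mul_assoc, mul_comm (hf k) 2, two_hf hk, zero_mul]

private theorem parity {k : ℕ} (t : ZMod (2 ^ k)) : (∃ u, t = 2 * u) ∨ ∃ u, t = 2 * u + 1 := by
  obtain ⟨a, rfl⟩ := ZMod.intCast_surjective t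
  rcases Int.even_or_odd' a with ⟨c, hc | hc⟩
  · left
    exact ⟨(c : ZMod (2 ^ k)), by rw [hc]; push_cast; rfl⟩
  · right
    exact ⟨(c : ZMod (2 ^ k)), by rw [hc]; push_cast; rfl⟩

private theorem hf_mul_odd {k : ℕ} (hk : 1 ≤ k) (u : ZMod (2 ^ k)) : hf k * (2 * u + 1) = hf k := by
  rw [mul_add, hf_mul_two hk, mul_one, zero_add]

/-- the equation solved in the modular case -/
theorem modular_solve {k : ℕ} (hk : 3 ≤ k) (t : ZMod (2 ^ k)) (h : (1 + hf k) * t = t) :
    ∃ j, j + (1 + hf k) * j + t = 0 := by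
  have h0 : hf k * t = 0 := by linear_combination h
  rcases parity t with ⟨u, rfl⟩ | ⟨u, rfl⟩
  · rcases parity u with ⟨v, rfl⟩ | ⟨v, rfl⟩
    · refine ⟨-(2 * v), ?_⟩
      have := hf_mul_two (by omega : 1 ≤ k) v
      linear_combination (-1 : ZMod (2 ^ k)) * this
    · -- `j = 2 ^ (k - 2) - u`
      have h2 : (2 : ZMod (2 ^ k)) * 2 ^ (k - 2) = hf k := by
        unfold hf
        rw [← pow_succ', show k - 2 + 1 = k - 1 by omega]
        push_cast
        rfl
      have h3 : hf k * (2 : ZMod (2 ^ k)) ^ (k - 2) = 0 := by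
        rw [show k - 2 = (k - 3) + 1 by omega, pow_succ', ]
        exact hf_mul_two (by omega) _
      have h4 := hf_mul_odd (by omega : 1 ≤ k) v
      refine ⟨2 ^ (k - 2) - (2 * v + 1), ?_⟩
      linear_combination h2 + h3 - h4
  · exfalso
    rw [hf_mul_odd (by omega)] at h0
    exact hf_ne (by omega) h0

/-- the semidihedral case -/
theorem semidihedral_t {k : ℕ} (hk : 3 ≤ k) (t : ZMod (2 ^ k)) (h : (-1 + hf k) * t = t) :
    t = 0 ∨ t = hf k := by
  have h2 : 2 * t = hf k * t := by linear_combination -h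
  rcases unit_or_even (by omega : 1 ≤ k) t with hu | ⟨u, rfl⟩
  · exfalso
    have h4 : (4 : ZMod (2 ^ k)) * t = 0 := by
      have : (4 : ZMod (2 ^ k)) * t = 2 * hf k * t := by
        rw [mul_assoc, ← h2]; ring
      rw [this, two_hf (by omega), zero_mul]
    have h5 : (4 : ZMod (2 ^ k)) = 0 := (hu.mul_left_eq_zero).1 h4
    have h6 : ((4 : ℕ) : ZMod (2 ^ k)) = 0 := by exact_mod_cast h5
    rw [ZMod.natCast_eq_zero_iff] at h6
    have := Nat.le_of_dvd (by norm_num) h6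
    have h8 : 2 ^ 3 ≤ 2 ^ k := Nat.pow_le_pow_right (by norm_num) hk
    omega
  · apply eq_zero_or_hf (by omega)
    rw [h2, hf_mul_two (by omega)]

end LibRE
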