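import Pool.Agent.LibRE29.Defs
set_option autoImplicit false
namespace LibRE
open LibRS Equiv

variable {G : Type} [Group G] {k : ℕ} {s t : ZMod (2 ^ k)}

/-- `b` or `1` -/
def CM.B (X : CM G k s t) (c : Bool) : G := if c then X.b else 1

theorem CM.A_zero (X : CM G k s t) : X.A 0 = 1 := by
  have h := X.A_add 0 0
  rw [add_zero] at h
  exact (left_eq_mul.1 h)

theorem CM.A_neg (X : CM G k s t) (i : ZMod (2 ^ k)) : X.A (-i) = (X.A i)⁻¹ := by
  rw [eq_inv_iff_mul_eq_one, ← X.A_add, neg_add_cancel, X.A_zero]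

/-- every element is `A i * B c` in exactly one way -/
theorem CM.exists_coord (X : CM G k s t) (g : G) : ∃ i c, g = X.A i * X.B c := by
  obtain ⟨i, h | h⟩ := X.surj g
  · exact ⟨i, false, by simp [CM.B, h]⟩
  · exact ⟨i, true, by simp [CM.B, h]⟩

theorem CM.coord_inj (X : CM G k s t) {i j : ZMod (2 ^ k)} {c d : Bool}
    (h : X.A i * X.B c = X.A j * X.B d) : i = j ∧ c = d := by
  have key : ∀ u v : ZMod (2 ^ k), X.A u ≠ X.A v * X.b := by
    intro u v e
    apply X.b_not (-v + u)
    rw [X.A_add, X.A_neg, e, inv_mul_cancel_left]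
  cases c <;> cases d
  · simp only [CM.B, Bool.false_eq_true, if_false, mul_one] at h
    exact ⟨X.A_inj h, rfl⟩
  · simp only [CM.B, Bool.false_eq_true, if_false, mul_one, if_true] at h
    exact absurd h (key _ _)
  · simp only [CM.B, Bool.false_eq_true, if_false, mul_one, if_true] at h
    exact absurd h.symm (key _ _)
  · simp only [CM.B, if_true, mul_left_inj] at h
    exact ⟨X.A_inj h, rfl⟩

/-- `s * s = 1` and `s * t = t` -/
theorem CM.ss (X : CM G k s t) : s * s = 1 ∧ s * t = t := by
  constructor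
  · have h1 : X.b * (X.b * X.A 1) = X.A (s * s) * (X.b * X.b) := by
      rw [X.b_mul, ← mul_assoc, X.b_mul, mul_one, mul_assoc]
    have h2 : X.b * (X.b * X.A 1) = X.A 1 * (X.b * X.b) := by
      rw [← mul_assoc, X.b_sq, ← X.A_add, ← X.A_add, add_comm]
    rw [h1] at h2
    exact X.A_inj (mul_right_cancel h2)
  · have h1 : X.b * (X.b * X.b) = X.A (s * t) * X.b := by
      rw [X.b_sq, X.b_mul]
    have h2 : X.b * (X.b * X.b) = X.A t * X.b := by
      rw [← mul_assoc, X.b_sq]
    rw [h1] at h2
    exact X.A_inj (mul_right_cancel h2)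

/-- multiplication in coordinates -/
theorem CM.mul (X : CM G k s t) (i j : ZMod (2 ^ k)) (c d : Bool) :
    (X.A i * X.B c) * (X.A j * X.B d) =
      X.A (i + (if c then s * j else j) + (if c && d then t else 0)) * X.B (xor c d) := by
  cases c <;> cases d
  · simp [CM.B, X.A_add]
  · simp [CM.B, X.A_add, mul_assoc]
  · simp [CM.B, X.A_add, mul_assoc, X.b_mul]
  · simp only [CM.B, if_true, Bool.xor_true, Bool.not_true, Bool.false_eq_true, if_false, mul_one,
      Bool.and_true]
    rw [mul_assoc, ← mul_assoc X.b, X.b_mul, mul_assoc (X.A (s * j)), X.b_sq, ← X.A_add, ← X.A_add,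
      add_assoc]

/-- the quotient `x⁻¹ y` in coordinates (`(A i * b)⁻¹ * (A j * B d)`, `b⁻¹ = A (-t) * b`) -/
theorem CM.quot (X : CM G k s t) (i j : ZMod (2 ^ k)) (c d : Bool) :
    (X.A i * X.B c)⁻¹ * (X.A j * X.B d) =
      X.A ((if c then s * (j - i) else j - i) - (if c && !d then t else 0)) * X.B (xor c d) := by
  rw [inv_mul_eq_iff_eq_mul, X.mul]
  have hss := X.ss.1
  have hst := X.ss.2
  have hx : xor c (xor c d) = d := by cases c <;> cases d <;> rfl
  rw [hx]
  congr 2
  cases c <;> cases d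
  · simp
  · simp
  · simp only [if_true, Bool.not_false, Bool.and_true, Bool.xor_false]
    linear_combination (i - j) * hss + hst
  · simp only [if_true, Bool.not_true, Bool.and_false, Bool.xor_true, Bool.false_eq_true, if_false]
    linear_combination (i - j) * hss

/-- `card G = 2 ^ (k + 1)` -/
theorem CM.card [Finite G] (X : CM G k s t) : Nat.card G = 2 ^ (k + 1) := by
  have hb : Function.Bijective (fun p : ZMod (2 ^ k) × Bool => X.A p.1 * X.B p.2) := by
    constructor
    · rintro ⟨i, c⟩ ⟨j, d⟩ h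
      obtain ⟨h1, h2⟩ := X.coord_inj h
      exact Prod.ext h1 h2
    · intro g
      obtain ⟨i, c, h⟩ := X.exists_coord g
      exact ⟨(i, c), h.symm⟩
  rw [← Nat.card_congr (Equiv.ofBijective _ hb), Nat.card_prod, Nat.card_zmod]
  simp [pow_succ]

end LibRE
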