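import Pool.Agent.LibRE29.CMApi
set_option autoImplicit false
namespace LibRE
open LibRS Equiv

/-- A cyclic subgroup of index two. `A i = a ^ i.val`; the subgroup is normal (index two), so `b a b⁻¹ = a ^ r`, and
`b * b` is in it. -/
theorem exists_CM {G : Type} [Group G] [Finite G] (k : ℕ) (hc : Nat.card G = 2 ^ (k + 1)) (a : G)
    (ha : orderOf a = 2 ^ k) : ∃ s t, Nonempty (CM G k s t) := by
  have hpos : 0 < 2 ^ k := by positivity
  haveI : NeZero (2 ^ k) := ⟨hpos.ne'⟩
  have hcast : ∀ n : ℕ, a ^ ((n : ZMod (2 ^ k)).val) = a ^ n := by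
    intro n
    rw [ZMod.val_natCast, ← ha, pow_mod_orderOf]
  have hval : ∀ i : ZMod (2 ^ k), ((i.val : ℕ) : ZMod (2 ^ k)) = i := fun i => ZMod.natCast_zmod_val i
  have hindex : (Subgroup.zpowers a).index = 2 := by
    have h1 := (Subgroup.zpowers a).card_mul_index
    rw [Nat.card_zpowers, ha, hc, pow_succ] at h1
    exact Nat.eq_of_mul_eq_mul_left hpos h1
  have hnorm : (Subgroup.zpowers a).Normal := Subgroup.normal_of_index_eq_two hindex
  have hmem : ∀ x ∈ Subgroup.zpowers a, ∃ i : ZMod (2 ^ k), x = a ^ i.val := by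
    intro x hx
    rw [← mem_powers_iff_mem_zpowers] at hx
    obtain ⟨n, hn⟩ := hx
    exact ⟨(n : ZMod (2 ^ k)), by rw [hcast]; exact hn.symm⟩
  obtain ⟨b, hb⟩ : ∃ b, b ∉ Subgroup.zpowers a := by
    by_contra hcon
    push Not at hcon
    have : Subgroup.zpowers a = ⊤ := by
      rw [Subgroup.eq_top_iff']
      exact hcon
    rw [this, Subgroup.index_top] at hindex
    omega
  obtain ⟨s, hs⟩ := hmem _ (hnorm.conj_mem a (Subgroup.mem_zpowers a) b)
  obtain ⟨t, ht⟩ := hmem _ (Subgroup.mul_self_mem_of_index_two hindex b)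
  refine ⟨s, t, ⟨⟨fun i => a ^ i.val, b, ?_, ?_, ?_, ht, ?_, ?_⟩⟩⟩
  · intro i j
    change a ^ (i + j).val = a ^ i.val * a ^ j.val
    rw [← pow_add, ← hcast (i.val + j.val)]
    push_cast
    rw [hval, hval]
  · intro i j hij
    have h1 : a ^ i.val = a ^ j.val := hij
    have h2 := pow_injOn_Iio_orderOf (x := a) (by rw [ha]; exact ZMod.val_lt i)
      (by rw [ha]; exact ZMod.val_lt j) h1
    exact ZMod.val_injective _ h2
  · intro i
    change b * a ^ i.val = a ^ (s * i).val * b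
    have h1 : (b * a * b⁻¹) ^ i.val = b * a ^ i.val * b⁻¹ := conj_pow
    have h2 : a ^ (s * i).val = (b * a * b⁻¹) ^ i.val := by
      rw [hs, ← pow_mul, ← hcast (s.val * i.val)]
      push_cast
      rw [hval, hval]
    rw [h2, h1]
    group
  · intro i hi
    exact hb (hi ▸ Subgroup.npow_mem_zpowers a _)
  · intro g
    by_cases hg : g ∈ Subgroup.zpowers a
    · obtain ⟨i, hi⟩ := hmem g hg
      exact ⟨i, Or.inl hi⟩
    · have h1 : g * b⁻¹ ∈ Subgroup.zpowers a := by
        rw [Subgroup.mul_mem_iff_of_index_two hindex]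
        constructor
        · intro h; exact absurd h hg
        · intro h; exact absurd ((Subgroup.inv_mem_iff _).1 h) hb
      obtain ⟨i, hi⟩ := hmem _ h1
      refine ⟨i, Or.inr ?_⟩
      change g = a ^ i.val * b
      rw [← hi]; group

/-- change of `b` to `A j * b` -/
def CM.change {G : Type} [Group G] {k : ℕ} {s t : ZMod (2 ^ k)} (X : CM G k s t)
    (j : ZMod (2 ^ k)) : CM G k s (j + s * j + t) where
  A := X.A
  b := X.A j * X.b
  A_add := X.A_add
  A_inj := X.A_inj
  b_mul := fun i => by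
    rw [mul_assoc, X.b_mul, ← mul_assoc, ← mul_assoc, ← X.A_add, ← X.A_add, add_comm]
  b_sq := by
    rw [mul_assoc, ← mul_assoc X.b, X.b_mul, mul_assoc (X.A (s * j)), X.b_sq, X.A_add, X.A_add,
      mul_assoc]
  b_not := fun i hi => by
    apply X.b_not (-j + i)
    rw [X.A_add, X.A_neg, hi]
    group
  surj := fun g => by
    obtain ⟨i, hi | hi⟩ := X.surj g
    · exact ⟨i, Or.inl hi⟩
    · refine ⟨i + -j, Or.inr ?_⟩
      rw [X.A_add, X.A_neg, hi]
      group

/-- `s = 1` and `t` odd: `G` is cyclic, generated by `b` -/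
theorem CM.cyclic {G : Type} [Group G] [Finite G] {k : ℕ} {t : ZMod (2 ^ k)} (X : CM G k 1 t)
    (ht : IsUnit t) : IsCyclic G := by
  haveI : NeZero (2 ^ k) := ⟨(by positivity : 0 < 2 ^ k).ne'⟩
  have hpow : ∀ n : ℕ, X.A ((n : ZMod (2 ^ k)) * t) = (X.A t) ^ n := by
    intro n
    induction n with
    | zero => rw [Nat.cast_zero, zero_mul, X.A_zero, pow_zero]
    | succ n ih => rw [Nat.cast_succ, add_mul, one_mul, X.A_add, ih, pow_succ]
  obtain ⟨u, rfl⟩ := ht
  have hA : ∀ i, X.A i ∈ Subgroup.zpowers X.b := by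
    intro i
    have h1 : i = (((i * (u⁻¹ : (ZMod (2 ^ k))ˣ) : ZMod (2 ^ k)).val : ℕ) : ZMod (2 ^ k)) * u := by
      rw [ZMod.natCast_zmod_val, mul_assoc, Units.inv_mul, mul_one]
    rw [h1, hpow, ← X.b_sq]
    exact Subgroup.pow_mem _ (Subgroup.mul_mem _ (Subgroup.mem_zpowers _) (Subgroup.mem_zpowers _)) _
  refine ⟨⟨X.b, fun g => ?_⟩⟩
  obtain ⟨i, hi | hi⟩ := X.surj g
  · rw [hi]; exact hA i
  · rw [hi]; exact Subgroup.mul_mem _ (hA i) (Subgroup.mem_zpowers _)

end LibRE
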