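import Pool.Agent.LibRE29.Defs
set_option autoImplicit false
namespace LibRE
open LibRS Equiv

/-- `θ = c ∘ (multiplication by α) ∘ c⁻¹`. -/
theorem R2_of_code {G F : Type} [Group G] [Field F] (α : F) (hα : α ≠ 0)
    (gen : ∀ x y : F, x ≠ 0 → y ≠ 0 → ∃ i : ℕ, y = α ^ i * x) (c : F → G)
    (hc : Function.Bijective c) (h0 : c 0 = 1)
    (hD : Function.Injective (fun x => (c x)⁻¹ * c (α * x))) (x y e : F)
    (h1 : c e * c x = c y) (h2 : α * y = e) (h3 : c (α * e) = c e * c (α * x))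
    (hnd : [1, c x, c y, c e, c (α * x), c (α * e)].Nodup) : R2 G := by
  set C : F ≃ G := Equiv.ofBijective c hc with hC
  have hCa : ∀ z, C z = c z := fun z => rfl
  set θ : Perm G := (C.symm.trans (Equiv.mulLeft₀ α hα)).trans C with hθ
  have hθc : ∀ z, θ (c z) = c (α * z) := by
    intro z
    have h4 : C.symm (c z) = z := by
      rw [← hCa, Equiv.symm_apply_apply]
    show C (Equiv.mulLeft₀ α hα (C.symm (c z))) = c (α * z)
    rw [h4]
    rfl
  have hpow : ∀ (i : ℕ) z, (θ ^ i) (c z) = c (α ^ i * z) := by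
    intro i
    induction i with
    | zero => intro z; simp
    | succ i ih =>
      intro z
      rw [pow_succ', Perm.mul_apply, ih, hθc, ← mul_assoc, ← pow_succ']
  refine ⟨θ, c x, c e, ⟨?_, ?_⟩, ?_, ?_, ?_, ?_⟩
  · rw [← h0, hθc, mul_zero]
  · intro g g' hg
    obtain ⟨z, rfl⟩ := hc.2 g
    obtain ⟨z', rfl⟩ := hc.2 g'
    simp only [hθc] at hg
    rw [hD hg]
  · intro g g' hg hg'
    obtain ⟨z, rfl⟩ := hc.2 g
    obtain ⟨z', rfl⟩ := hc.2 g'
    have hz : z ≠ 0 := fun h => hg (by rw [h, h0])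
    have hz' : z' ≠ 0 := fun h => hg' (by rw [h, h0])
    obtain ⟨i, hi⟩ := gen z z' hz hz'
    refine ⟨i, ?_⟩
    rw [zpow_natCast, hpow, ← hi]
  · rw [h1, hθc, h2]
  · rw [hθc, hθc, h3]
  · rw [hθc, h1, ← h3]
    exact hnd

end LibRE
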