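import Pool.Agent.LibRE29.Defs
set_option autoImplicit false
namespace LibRE
open LibRS Equiv

variable {k : ℕ} {F : Type} [Field F]

/-- `2 * hf k = 0` (`2 * 2 ^ (k - 1) = 2 ^ k = 0` in `ZMod (2 ^ k)`) -/
theorem two_hf (hk : 1 ≤ k) : 2 * hf k = 0 := by
  have h : 2 * hf k = ((2 * 2 ^ (k - 1) : ℕ) : ZMod (2 ^ k)) := by
    unfold hf
    push_cast
    ring
  rw [h, ← pow_succ', Nat.sub_add_cancel hk]
  exact ZMod.natCast_self _

theorem hf_add (hk : 1 ≤ k) : hf k + hf k = 0 := by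
  rw [← two_mul]
  exact two_hf hk

theorem hf_ne (hk : 1 ≤ k) : hf k ≠ 0 := by
  intro h
  unfold hf at h
  rw [ZMod.natCast_eq_zero_iff] at h
  have h1 := Nat.le_of_dvd (by positivity) h
  have h2 : 2 ^ (k - 1) < 2 ^ k := Nat.pow_lt_pow_right (by norm_num) (by omega)
  omega

theorem hf_mul_hf (hk : 2 ≤ k) : hf k * hf k = 0 := by
  have h : hf k * hf k = ((2 ^ (k - 1) * 2 ^ (k - 1) : ℕ) : ZMod (2 ^ k)) := by
    unfold hf
    push_cast
    ring
  rw [h, ZMod.natCast_eq_zero_iff, ← pow_add]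
  exact pow_dvd_pow 2 (by omega)

theorem Reg.φ_zero (R : Reg k F) : R.φ 0 = false := by
  have h := R.φ_add 0 0
  rw [add_zero, Bool.xor_self] at h
  exact h

theorem Reg.E_zero (R : Reg k F) : R.E 0 = 0 := by
  have h := R.step 0
  rw [mul_zero, R.φ_zero] at h
  simp only [bz, Bool.false_eq_true, if_false] at h
  linear_combination -h

/-- parity of `E (α x)` is `φ x` -/
theorem Reg.hf_E (hk : 1 ≤ k) (R : Reg k F) (x : F) : hf k * R.E (R.α * x) = hf k * bz (R.φ x) := by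
  rw [R.step]
  linear_combination R.E x * two_hf hk

/-- the all ones state `ω`: `E ω = -1`, `φ ω = true`; `φ (α ω) = false` (otherwise `α ω` has the same `E` and `φ`
as `ω`, so `α ω = ω`, `ω = 0`, but `φ 0 = false`); `E (α ω) = 2 * (-1) + 1 = -1`, so `R.compl` applies to `ω` and
to `α ω`, and `m + (1 + α) * ω = (m + α ω) + ω` has the same `E` as `m`. -/
theorem Reg.exists_ω (R : Reg k F) : ∃ ω : F, R.E ω = -1 ∧ R.φ ω = true ∧ R.φ (R.α * ω) = false ∧
    (∀ x, R.E (x + ω) = -1 - R.E x) ∧ ∀ m, R.E (m + (1 + R.α) * ω) = R.E m := by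
  obtain ⟨ω, h1, h2⟩ := R.surj (-1) true
  have h3 : R.E (R.α * ω) = -1 := by
    rw [R.step, h1, h2]
    simp only [bz, if_true]
    ring
  refine ⟨ω, h1, h2, ?_, fun x => R.compl x ω h1, ?_⟩
  · by_contra h4
    rw [Bool.not_eq_false] at h4
    have h5 : R.α * ω = ω := R.inj _ _ (h3.trans h1.symm) (h4.trans h2.symm)
    have h6 : ω = 0 := by
      by_contra h7
      exact R.α1 (mul_right_cancel₀ h7 (h5.trans (one_mul ω).symm))
    rw [h6, R.φ_zero] at h2
    exact Bool.false_ne_true h2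
  · intro m
    have h4 : m + (1 + R.α) * ω = (m + R.α * ω) + ω := by ring
    rw [h4, R.compl _ ω h1, R.compl _ (R.α * ω) h3]
    ring

/-- the state `e` with only the last bit: `E e = 2 ^ (k - 1)`, `φ e = false`; then `φ (α e) = true`
(else `E (α e) = 0 = E 0`, `φ (α e) = φ 0`, so `α e = 0`), `E (α e) = 0`; its predecessor `y = α⁻¹ e` has
`φ y = false` for `k ≥ 2` (`2 * E y + bz (φ y) = hf k`: multiply by `hf k`, `hf_mul_hf`). For the last clause
`E ((1 + α) e) = E (α e + e) = E (α e) + hf k = hf k` and `R.half`. -/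
theorem Reg.exists_e (hk : 2 ≤ k) (R : Reg k F) : ∃ e y : F, R.E e = hf k ∧ R.φ e = false ∧
    R.φ (R.α * e) = true ∧ R.E (R.α * e) = 0 ∧ R.α * y = e ∧ R.φ y = false ∧ 2 * R.E y = hf k ∧
    (∀ x, R.E (x + e) = R.E x + hf k) ∧ (∀ m, R.E (m + (1 + R.α) * e) = R.E m + hf k) := by
  have hk1 : 1 ≤ k := by omega
  obtain ⟨e, h1, h2⟩ := R.surj (hf k) false
  have h3 : R.E (R.α * e) = 0 := by
    rw [R.step, h1, h2, two_hf hk1]
    simp only [bz, Bool.false_eq_true, if_false]
    ring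
  have h4 : R.φ (R.α * e) = true := by
    by_contra h4
    rw [Bool.not_eq_true] at h4
    have h5 : R.α * e = 0 := R.inj _ _ (h3.trans R.E_zero.symm) (h4.trans R.φ_zero.symm)
    rcases mul_eq_zero.1 h5 with h6 | h6
    · exact R.α0 h6
    · rw [h6, R.E_zero] at h1
      exact hf_ne hk1 h1.symm
  have h5 : R.α * (R.α⁻¹ * e) = e := mul_inv_cancel_left₀ R.α0 e
  have h6 : R.φ (R.α⁻¹ * e) = false := by
    have h7 := R.hf_E hk1 (R.α⁻¹ * e)
    rw [h5, h1, hf_mul_hf hk] at h7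
    by_contra h8
    rw [Bool.not_eq_false] at h8
    rw [h8] at h7
    simp only [bz, if_true, mul_one] at h7
    exact hf_ne hk1 h7.symm
  have h7 : 2 * R.E (R.α⁻¹ * e) = hf k := by
    have h8 := R.step (R.α⁻¹ * e)
    rw [h5, h1, h6] at h8
    simp only [bz, Bool.false_eq_true, if_false, add_zero] at h8
    exact h8.symm
  refine ⟨e, R.α⁻¹ * e, h1, h2, h4, h3, h5, h6, h7, fun x => R.half x e h1, ?_⟩
  intro m
  apply R.half
  have h8 : (1 + R.α) * e = R.α * e + e := by ring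
  rw [h8, R.half _ e h1, h3, zero_add]

/-- `1 + α ≠ 0`; characteristic two -/
theorem Reg.add_self (R : Reg k F) (x : F) : x + x = 0 := by
  obtain ⟨ω, h1, h2, -, h3, -⟩ := R.exists_ω
  have h4 : ω + ω = 0 := by
    apply R.inj
    · rw [h3, h1, R.E_zero]
      ring
    · rw [R.φ_add, Bool.xor_self, R.φ_zero]
  have h5 : ω ≠ 0 := by
    intro h
    rw [h, R.φ_zero] at h2
    exact Bool.false_ne_true h2
  have h6 : (2 : F) = 0 := by
    rw [← two_mul] at h4
    rcases mul_eq_zero.1 h4 with h | h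
    · exact h
    · exact absurd h h5
  linear_combination x * h6

theorem Reg.one_add (R : Reg k F) : 1 + R.α ≠ 0 := by
  intro h
  apply R.α1
  linear_combination h - R.add_self 1

/-- Let `m = (1+α) u`, `m' = (1+α) u'`. If `φ m = φ m'` use `R.inj`. Otherwise `m + (1+α) ω` has the same `E` and `φ`
as `m'`, so `u' = u + ω`, but `φ (u + ω) = !φ u`. -/
theorem Reg.inj1 (R : Reg k F) (u u' : F) (h1 : R.E ((1 + R.α) * u) = R.E ((1 + R.α) * u'))
    (h2 : R.φ u = R.φ u') : u = u' := by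
  by_cases h3 : R.φ ((1 + R.α) * u) = R.φ ((1 + R.α) * u')
  · exact mul_left_cancel₀ R.one_add (R.inj _ _ h1 h3)
  · exfalso
    obtain ⟨ω, h4, h5, h6, -, h7⟩ := R.exists_ω
    have h8 : R.φ ((1 + R.α) * ω) = true := by
      have h9 : (1 + R.α) * ω = ω + R.α * ω := by ring
      rw [h9, R.φ_add, h5, h6]
      rfl
    have h9 : (1 + R.α) * u + (1 + R.α) * ω = (1 + R.α) * u' := by
      apply R.inj
      · rw [h7, h1]
      · rw [R.φ_add, h8]
        revert h3
        cases R.φ ((1 + R.α) * u) <;> cases R.φ ((1 + R.α) * u') <;> simp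
    rw [← mul_add] at h9
    have h10 : u + ω = u' := mul_left_cancel₀ R.one_add h9
    rw [← h10, R.φ_add, h5] at h2
    revert h2
    cases R.φ u <;> simp

/-- `E ((1+α) (α u)) = 2 E ((1+α) u) + bz (xor (φ u) (φ (α u)))` -/
theorem Reg.step1 (R : Reg k F) (u : F) : R.E ((1 + R.α) * (R.α * u)) =
    2 * R.E ((1 + R.α) * u) + bz (xor (R.φ u) (R.φ (R.α * u))) := by
  have h1 : (1 + R.α) * (R.α * u) = R.α * ((1 + R.α) * u) := by ring
  have h2 : (1 + R.α) * u = u + R.α * u := by ring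
  rw [h1, R.step, ← R.φ_add, ← h2]

/-- the number of elements -/
theorem Reg.card [Finite F] (R : Reg k F) : Nat.card F = 2 ^ (k + 1) := by
  have h1 : Function.Bijective (fun x : F => (R.E x, R.φ x)) := by
    constructor
    · intro x y h
      have h' := Prod.ext_iff.1 h
      exact R.inj x y h'.1 h'.2
    · rintro ⟨i, c⟩
      obtain ⟨x, hx, hx'⟩ := R.surj i c
      exact ⟨x, Prod.ext hx hx'⟩
  rw [Nat.card_congr (Equiv.ofBijective _ h1), Nat.card_prod, Nat.card_zmod,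
    Nat.card_eq_fintype_card, Fintype.card_bool, pow_succ]

end LibRE
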