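import Pool.Agent.LibRE29.CMApi
import Pool.Agent.LibRE29.RegApi
import Pool.Agent.LibRE29.OfCode
set_option autoImplicit false
namespace LibRE
open LibRS Equiv

/-- `ℤ/2^k × ℤ/2`. `R2_of_code` with `c u = A (E ((1 + α) u)) * B (φ u)`: injective by `CM.coord_inj`, `Reg.inj1`;
bijective because `card F = card G`. With `i = E ((1+α) u)`, `τ = xor (φ u) (φ (α u)) = φ ((1+α) u)`:
 `c (α u) = A (2 * i + bz τ) * B (φ (α u))` (`Reg.step1`), `(c u)⁻¹ * c (α u) = A (i + bz τ) * B τ` (`CM.quot`, `s = 1`,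
 `t = 0`), which determines `τ` and `i`, hence `(1+α) u` (`R.inj`) and `u` (`Reg.one_add`).
Pattern: `e`, `y` from `Reg.exists_e`, `x = y + e`: `c e = A (hf k)`, `c y = A i` with `2 * i = hf k` (step1 for `y`),
 `c x = A (i + hf k)`, `c (α e) = A 1 * b`, `α x = e + α e`, `c (α x) = A (1 + hf k) * b`. -/
theorem fam_A {G F : Type} [Group G] [Finite G] [Field F] [Finite F] {k : ℕ} (hk : 2 ≤ k)
    (X : CM G k 1 0) (R : Reg k F) : R2 G := by
  have hk1 : 1 ≤ k := by omega
  obtain ⟨c, hcd⟩ : ∃ c : F → G, ∀ u, c u = X.A (R.E ((1 + R.α) * u)) * X.B (R.φ u) :=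
    ⟨_, fun _ => rfl⟩
  have hcinj : Function.Injective c := by
    intro u u' h
    rw [hcd, hcd] at h
    obtain ⟨h1, h2⟩ := X.coord_inj h
    exact R.inj1 u u' h1 h2
  have hc : Function.Bijective c :=
    (Nat.bijective_iff_injective_and_card c).2 ⟨hcinj, by rw [R.card, X.card]⟩
  have hm : ∀ (i j : ZMod (2 ^ k)) (c d : Bool), (X.A i * X.B c) * (X.A j * X.B d) =
      X.A (i + j) * X.B (xor c d) := by
    intro i j c d
    rw [X.mul]
    congr 2
    split_ifs <;> ring
  have hq : ∀ (i j : ZMod (2 ^ k)) (c d : Bool), (X.A i * X.B c)⁻¹ * (X.A j * X.B d) =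
      X.A (j - i) * X.B (xor c d) := by
    intro i j c d
    rw [X.quot]
    congr 2
    split_ifs <;> ring
  obtain ⟨e, y, he1, he2, he3, he4, hy1, hy2, hy3, hE1, hE2⟩ := R.exists_e hk
  have hEe : R.E ((1 + R.α) * e) = hf k := by
    have := hE2 0
    rwa [zero_add, R.E_zero, zero_add] at this
  have hφ0 : R.φ 0 = false := R.φ_zero
  have hc0 : c 0 = X.A 0 * X.B false := by
    rw [hcd, mul_zero, R.E_zero, hφ0]
  have h1c : X.A 0 * X.B false = 1 := by
    rw [X.A_zero, one_mul]; rfl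
  obtain ⟨i, hi⟩ : ∃ i, i = R.E ((1 + R.α) * y) := ⟨_, rfl⟩
  have h2i : 2 * i = hf k := by
    have := R.step1 y
    rw [hy1, hEe, hy2, he2, ← hi] at this
    simpa [bz] using this.symm
  have hce : c e = X.A (hf k) * X.B false := by rw [hcd, hEe, he2]
  have hcy : c y = X.A i * X.B false := by rw [hcd, ← hi, hy2]
  have hcx : c (y + e) = X.A (i + hf k) * X.B false := by
    rw [hcd, mul_add, hE2, ← hi, R.φ_add, hy2, he2]
    rfl
  have hEae : R.E ((1 + R.α) * (R.α * e)) = 1 := by
    rw [R.step1, hEe, two_hf hk1, he2, he3]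
    simp [bz]
  have hcae : c (R.α * e) = X.A 1 * X.B true := by rw [hcd, hEae, he3]
  have hcax : c (R.α * (y + e)) = X.A (1 + hf k) * X.B true := by
    have h1 : R.α * (y + e) = R.α * e + e := by rw [mul_add, hy1, add_comm]
    rw [h1, hcd, mul_add, hE2, hEae, R.φ_add, he3, he2]
    rfl
  have hff := hf_add (k := k) hk1
  have hfn := hf_ne (k := k) hk1
  refine R2_of_code R.α R.α0 R.gen c hc (by rw [hc0, h1c]) ?_ (y + e) y e ?_ hy1 ?_ ?_
  · intro u u' h
    have hstep : ∀ u, (c u)⁻¹ * c (R.α * u) =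
        X.A (R.E ((1 + R.α) * u) + bz (R.φ ((1 + R.α) * u))) * X.B (R.φ ((1 + R.α) * u)) := by
      intro u
      have hτ : R.φ ((1 + R.α) * u) = xor (R.φ u) (R.φ (R.α * u)) := by
        rw [add_mul, one_mul, R.φ_add]
      rw [hcd, hcd, R.step1, hq, hτ]
      congr 2
      ring
    dsimp only at h
    rw [hstep, hstep] at h
    obtain ⟨h1, h2⟩ := X.coord_inj h
    rw [h2] at h1
    exact mul_left_cancel₀ R.one_add (R.inj _ _ (add_right_cancel h1) h2)
  · rw [hce, hcx, hcy, hm]
    congr 2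
    rw [add_comm i, ← add_assoc, hff, zero_add]
  · rw [hce, hcae, hcax, hm]
    congr 2
    rw [add_comm 1, ← add_assoc, hff, zero_add]
  · rw [hce, hcy, hcx, hcae, hcax, ← h1c]
    have hinj : Function.Injective (fun p : ZMod (2 ^ k) × Bool => X.A p.1 * X.B p.2) := by
      intro p q h
      obtain ⟨h1, h2⟩ := X.coord_inj h
      exact Prod.ext h1 h2
    have hl : ([(0, false), (i + hf k, false), (i, false), (hf k, false), (1 + hf k, true),
        (1, true)] : List (ZMod (2 ^ k) × Bool)).Nodup := by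
      have n1 : i ≠ 0 := by
        rintro h; rw [h, mul_zero] at h2i; exact hfn h2i.symm
      have n2 : i + hf k ≠ 0 := by
        intro h
        have : 2 * (i + hf k) = 0 := by rw [h, mul_zero]
        rw [mul_add, h2i, two_hf hk1, add_zero] at this
        exact hfn this
      have n3 : i ≠ hf k := by
        rintro h; rw [h, two_hf hk1] at h2i; exact hfn h2i.symm
      simp [n1, n3, hfn, hfn.symm, n2.symm, n1.symm]
    exact hl.map hinj

end LibRE
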