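import Pool.Agent.LibRE29.CMApi
import Pool.Agent.LibRE29.RegApi
import Pool.Agent.LibRE29.OfCode
set_option autoImplicit false
namespace LibRE
open LibRS Equiv

/-- Dihedral groups. `R2_of_code` with `c u = A (E u) * B (φ u)` (bijective by `R.inj`, `R.surj`).
`c (α u) = A (2 * E u + bz (φ u)) * B (φ (α u))`. By `CM.quot` (`s = -1`, `t = 0`): if `φ u = false` the quotient is
 `A (E u) * B (φ (α u))`; if `φ u = true` it is `A (- E u - 1) * B (!φ (α u))`, and with `v = u + ω` (`Reg.exists_ω`)
 `φ v = false`, `E v = -1 - E u`, `φ (α v) = φ (α u)`, it is `A (E v) * B (!φ (α v))`. So the quotients are distinct.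
Pattern: `e`, `y` from `Reg.exists_e`, `x = y + e`: `c e = A (hf k)`, `c y = A (E y)`, `c x = A (E y + hf k)`,
 `c (α e) = b`, `α x = e + α e`, `c (α x) = A (hf k) * b`; `2 * E y = hf k ≠ 0`. -/
theorem fam_D {G F : Type} [Group G] [Finite G] [Field F] [Finite F] {k : ℕ} (hk : 2 ≤ k)
    (X : CM G k (-1) 0) (R : Reg k F) : R2 G := by
  have hk1 : 1 ≤ k := le_trans one_le_two hk
  obtain ⟨ω, hω1, hω2, hω3, hω4, -⟩ := R.exists_ω
  obtain ⟨e, y, he1, he2, he3, he4, hy1, hy2, hy3, he5, -⟩ := R.exists_e hk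
  have hh0 := hf_ne hk1
  have hh2 := two_hf hk1
  have hc : Function.Bijective (fun u => X.A (R.E u) * X.B (R.φ u)) := by
    constructor
    · intro u v h
      obtain ⟨h1, h2⟩ := X.coord_inj h
      exact R.inj u v h1 h2
    · intro g
      obtain ⟨i, c, h⟩ := X.exists_coord g
      obtain ⟨x, hx1, hx2⟩ := R.surj i c
      exact ⟨x, by simp only [hx1, hx2, h]⟩
  have hq : ∀ u, (X.A (R.E u) * X.B (R.φ u))⁻¹ * (X.A (R.E (R.α * u)) * X.B (R.φ (R.α * u))) =
      if R.φ u then X.A (R.E (u + ω)) * X.B (!R.φ (R.α * (u + ω)))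
      else X.A (R.E u) * X.B (R.φ (R.α * u)) := by
    intro u
    rw [X.quot, R.step]
    cases hu : R.φ u
    · simp only [bz, Bool.false_eq_true, if_false, Bool.false_and, Bool.false_xor]
      congr 2
      ring
    · have h2 : R.φ (R.α * (u + ω)) = R.φ (R.α * u) := by
        rw [mul_add, R.φ_add, hω3, Bool.xor_false]
      rw [hω4, h2]
      simp only [bz, if_true, Bool.true_xor]
      congr 2
      have : (if (true && !R.φ (R.α * u)) then (0 : ZMod (2 ^ k)) else 0) = 0 := by split_ifs <;> rfl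
      rw [this]
      ring
  have hφω : ∀ u, R.φ (u + ω) = !R.φ u := by
    intro u
    rw [R.φ_add, hω2, Bool.xor_true]
  have hD : Function.Injective (fun u => (X.A (R.E u) * X.B (R.φ u))⁻¹ *
      (X.A (R.E (R.α * u)) * X.B (R.φ (R.α * u)))) := by
    have key : ∀ u v, R.φ u = false → R.φ v = true →
        X.A (R.E u) * X.B (R.φ (R.α * u)) = X.A (R.E (v + ω)) * X.B (!R.φ (R.α * (v + ω))) →
        False := by
      intro u v hu hv h
      obtain ⟨h1, h2⟩ := X.coord_inj h
      have h3 : u = v + ω := R.inj _ _ h1 (by rw [hφω, hu, hv]; rfl)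
      rw [h3] at h2
      exact absurd h2 (by simp)
    intro u v h
    simp only [hq] at h
    cases hu : R.φ u <;> cases hv : R.φ v
    · simp only [hu, hv, Bool.false_eq_true, if_false] at h
      obtain ⟨h1, -⟩ := X.coord_inj h
      exact R.inj _ _ h1 (by rw [hu, hv])
    · simp only [hu, hv, Bool.false_eq_true, if_false, if_true] at h
      exact (key u v hu hv h).elim
    · simp only [hu, hv, Bool.false_eq_true, if_false, if_true] at h
      exact (key v u hv hu h.symm).elim
    · simp only [hu, hv, if_true] at h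
      obtain ⟨h1, -⟩ := X.coord_inj h
      have h3 : u + ω = v + ω := R.inj _ _ h1 (by rw [hφω, hφω, hu, hv])
      exact add_right_cancel h3
  have hx1 : R.E (y + e) = R.E y + hf k := he5 y
  have hx2 : R.φ (y + e) = false := by rw [R.φ_add, hy2, he2]; rfl
  have hαx : R.α * (y + e) = R.α * e + e := by rw [mul_add, hy1, add_comm]
  have hx3 : R.E (R.α * (y + e)) = hf k := by rw [hαx, he5, he4, zero_add]
  have hx4 : R.φ (R.α * (y + e)) = true := by rw [hαx, R.φ_add, he3, he2]; rfl
  refine R2_of_code R.α R.α0 R.gen (fun u => X.A (R.E u) * X.B (R.φ u)) hc ?_ hD (y + e) y e ?_ hy1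
    ?_ ?_
  · simp only [R.E_zero, R.φ_zero, X.A_zero, CM.B, Bool.false_eq_true, if_false, mul_one]
  · simp only [he1, he2, hx1, hx2, hy2, CM.B, Bool.false_eq_true, if_false, mul_one, ← X.A_add]
    congr 1
    linear_combination hh2
  · simp only [he1, he2, he3, he4, hx3, hx4, CM.B, Bool.false_eq_true, if_false, if_true, mul_one]
    rw [← mul_assoc, ← X.A_add]
    congr 2
    linear_combination -hh2
  · have hinj : Function.Injective (fun p : ZMod (2 ^ k) × Bool => X.A p.1 * X.B p.2) := by
      rintro ⟨i, c⟩ ⟨j, d⟩ h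
      obtain ⟨h1, h2⟩ := X.coord_inj h
      exact Prod.ext h1 h2
    have hl : [1, X.A (R.E (y + e)) * X.B (R.φ (y + e)), X.A (R.E y) * X.B (R.φ y),
        X.A (R.E e) * X.B (R.φ e), X.A (R.E (R.α * (y + e))) * X.B (R.φ (R.α * (y + e))),
        X.A (R.E (R.α * e)) * X.B (R.φ (R.α * e))] =
        List.map (fun p : ZMod (2 ^ k) × Bool => X.A p.1 * X.B p.2)
          [(0, false), (R.E y + hf k, false), (R.E y, false), (hf k, false), (hf k, true),
            (0, true)] := by
      simp only [List.map_cons, List.map_nil, hx1, hx2, hy2, he1, he2, hx3, hx4, he3, he4, X.A_zero]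
      simp [CM.B]
    show [1, X.A (R.E (y + e)) * X.B (R.φ (y + e)), X.A (R.E y) * X.B (R.φ y),
        X.A (R.E e) * X.B (R.φ e), X.A (R.E (R.α * (y + e))) * X.B (R.φ (R.α * (y + e))),
        X.A (R.E (R.α * e)) * X.B (R.φ (R.α * e))].Nodup
    rw [hl]
    apply List.Nodup.map hinj
    have n1 : R.E y ≠ 0 := by
      intro h
      rw [h, mul_zero] at hy3
      exact hh0 hy3.symm
    have n2 : R.E y + hf k ≠ 0 := by
      intro h
      apply hh0
      linear_combination 2 * h - hy3 - hh2
    have n3 : R.E y ≠ hf k := by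
      intro h
      apply hh0
      rw [h, hh2] at hy3
      exact hy3.symm
    simp [n1, n2, n3, hh0, n1.symm, n2.symm, hh0.symm]

end LibRE
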