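import Pool.Agent.LibRE29.CMApi
import Pool.Agent.LibRE29.RegApi
import Pool.Agent.LibRE29.OfCode
set_option autoImplicit false
namespace LibRE
open LibRS Equiv

private theorem fm_nodup {k : ℕ} {F G : Type} [Field F] [Group G] (R : Reg k F) (c : F → G)
    (hc : Function.Injective c) (h0 : c 0 = 1) (e y : F) (he : R.φ e = false)
    (hae : R.φ (R.α * e) = true) (hye : R.α * y = e) (hy : R.φ y = false) :
    [1, c (y + e), c y, c e, c (R.α * (y + e)), c (R.α * e)].Nodup := by
  have hφ0 := R.φ_zero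
  have e0 : e ≠ 0 := by
    rintro rfl
    rw [mul_zero, hφ0] at hae
    exact Bool.noConfusion hae
  have y0 : y ≠ 0 := by
    rintro rfl
    rw [mul_zero] at hye
    exact e0 hye.symm
  have ye : y ≠ e := by
    intro h
    rw [← h, hye, he] at hae
    exact Bool.noConfusion hae
  have x0 : y + e ≠ 0 := by
    intro h
    apply ye
    have h1 := R.add_self e
    rw [← h1] at h
    exact add_right_cancel h
  have hx : R.φ (y + e) = false := by rw [R.φ_add, hy, he]; rfl
  have hax : R.φ (R.α * (y + e)) = true := by rw [mul_add, R.φ_add, hye, he, hae]; rfl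
  have h1 : [0, y + e, y, e, R.α * (y + e), R.α * e].Nodup := by
    have d1 : ∀ p q : F, R.φ p = false → R.φ q = true → p ≠ q := by
      intro p q hp hq h
      rw [h, hq] at hp
      exact Bool.noConfusion hp
    simp only [List.nodup_cons, List.mem_cons, List.not_mem_nil, or_false, not_or,
      List.nodup_nil, and_true, not_false_eq_true]
    refine ⟨⟨x0.symm, y0.symm, e0.symm, d1 _ _ hφ0 hax, d1 _ _ hφ0 hae⟩, ⟨?_, ?_, d1 _ _ hx hax,
      d1 _ _ hx hae⟩, ⟨ye, d1 _ _ hy hax, d1 _ _ hy hae⟩, ⟨d1 _ _ he hax, d1 _ _ he hae⟩, ?_⟩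
    · intro h
      exact e0 (left_eq_add.1 h.symm)
    · intro h
      exact y0 (right_eq_add.1 h.symm)
    · intro h
      exact y0 (right_eq_add.1 (mul_left_cancel₀ R.α0 h).symm)
  have h2 := h1.map hc
  simpa [h0] using h2

/-- `b A(i) b⁻¹ = A ((1 + 2^(k-1)) i)`, `b² = 1`. `R2_of_code` with
 `c u = A (E ((1 + α) u) + hf k * bz (φ (α⁻¹ u) && !φ u)) * B (φ u)`.
Injective: `bz (φ (α⁻¹ u) && !φ u)`: multiply by `hf k`: `hf k * E ((1+α) u) = hf k * bz (xor (φ (α⁻¹ u)) (φ u))`
 (`Reg.hf_E` for `(1+α) (α⁻¹ u)`), so `φ (α⁻¹ u)` is determined by the code (`hf * hf = 0`), then `Reg.inj1`.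
Let `u₁ = (1+α) u`, `i = E u₁`, `τ = φ u₁ = xor (φ u) (φ (α u))`, `ρ = φ (α⁻¹ u)`, `β = φ u`. Tail exponent
 `p = i + hf * (ρ && !β)`, head exponent `p' = 2 * i + bz τ + hf * (β && !φ (α u))`. In all cases
 `(c u)⁻¹ * c (α u) = A (i + bz τ + hf * i) * B τ` (`CM.quot`; `hf * i = hf * bz (xor ρ β)`; check the cases of
 `ρ, β, τ`; `(1 + hf) * (p' - p) = (p' - p) + hf * (i + bz τ)`). This determines `τ`, then `(1 + hf) * i`, and
 `(1 + hf) * (1 + hf) = 1`, so `i`, so `u₁`, so `u`.
Pattern: `e`, `y` from `Reg.exists_e`, `x = y + e`, `ρ' = φ (α⁻¹ y)`: `c e = A (hf k)` (`φ (α⁻¹ e) = φ y = false`),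
 `c y = A (i + hf * ρ')`, `2 * i = hf k`, `c x = A (i + hf + hf * ρ')`, `c (α e) = A 1 * b`,
 `c (α x) = A (1 + hf k) * b` (`α x = e + α e`). -/
theorem fam_M {G F : Type} [Group G] [Finite G] [Field F] [Finite F] {k : ℕ} (hk : 3 ≤ k)
    (X : CM G k (1 + hf k) 0) (R : Reg k F) : R2 G := by
  have hk1 : 1 ≤ k := by omega
  have hk2 : 2 ≤ k := by omega
  have hff := hf_add hk1
  have h2f := two_hf hk1
  have hfm := hf_mul_hf hk2
  have hαi : ∀ u, R.α⁻¹ * (R.α * u) = u := fun u => inv_mul_cancel_left₀ R.α0 u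
  have hbz : ∀ a b : Bool, hf k * bz a = hf k * bz b → a = b := by
    intro a b hab
    cases a <;> cases b
    · rfl
    · exact absurd (by simpa [bz] using hab.symm) (hf_ne hk1)
    · exact absurd (by simpa [bz] using hab) (hf_ne hk1)
    · rfl
  have hEρ : ∀ u, hf k * R.E ((1 + R.α) * u) = hf k * bz (xor (R.φ (R.α⁻¹ * u)) (R.φ u)) := by
    intro u
    have h1 := R.hf_E hk1 ((1 + R.α) * (R.α⁻¹ * u))
    have h2 : R.α * ((1 + R.α) * (R.α⁻¹ * u)) = (1 + R.α) * u := by
      have := R.α0
      field_simp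
    have h3 : (1 + R.α) * (R.α⁻¹ * u) = R.α⁻¹ * u + u := by
      rw [add_mul, one_mul, mul_inv_cancel_left₀ R.α0]
    rwa [h2, h3, R.φ_add] at h1
  let c : F → G := fun u =>
    X.A (R.E ((1 + R.α) * u) + hf k * bz (R.φ (R.α⁻¹ * u) && !(R.φ u))) * X.B (R.φ u)
  have hcdef : ∀ u, c u =
      X.A (R.E ((1 + R.α) * u) + hf k * bz (R.φ (R.α⁻¹ * u) && !(R.φ u))) * X.B (R.φ u) :=
    fun u => rfl
  have hinj : Function.Injective c := by
    intro u u' h
    obtain ⟨h1, h2⟩ := X.coord_inj h
    have h3 : hf k * R.E ((1 + R.α) * u) = hf k * R.E ((1 + R.α) * u') := by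
      have := congrArg (fun z => hf k * z) h1
      simp only [mul_add, ← mul_assoc, hfm, zero_mul, add_zero] at this
      exact this
    rw [hEρ, hEρ] at h3
    have h4 := hbz _ _ h3
    rw [h2] at h4
    have h5 : R.φ (R.α⁻¹ * u) = R.φ (R.α⁻¹ * u') := by
      revert h4
      cases R.φ (R.α⁻¹ * u) <;> cases R.φ (R.α⁻¹ * u') <;> cases R.φ u' <;> simp
    rw [h2, h5] at h1
    exact R.inj1 u u' (add_right_cancel h1) h2
  have hbij : Function.Bijective c := by
    refine hinj.bijective_of_nat_card_le ?_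
    rw [X.card, R.card]
  have h0 : c 0 = 1 := by
    rw [hcdef, mul_zero, mul_zero, R.E_zero, R.φ_zero, Bool.false_and]
    simp [bz, CM.B, X.A_zero]
  -- the quotients
  have hq : ∀ u, (c u)⁻¹ * c (R.α * u) =
      X.A (R.E ((1 + R.α) * u) + bz (xor (R.φ u) (R.φ (R.α * u))) + hf k * R.E ((1 + R.α) * u)) *
        X.B (xor (R.φ u) (R.φ (R.α * u))) := by
    intro u
    have h1 := hEρ u
    rw [hcdef, hcdef, X.quot, hαi, R.step1]
    congr 2
    generalize R.φ (R.α⁻¹ * u) = ρ at h1 ⊢
    generalize R.E ((1 + R.α) * u) = E at h1 ⊢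
    generalize R.φ (R.α * u) = δ
    generalize R.φ u = β at h1 ⊢
    cases ρ <;> cases δ <;> cases β <;> simp only [bz, if_true, if_false, Bool.not_true,
      Bool.not_false, Bool.false_eq_true, mul_one, mul_zero, add_zero, sub_zero, Bool.true_and,
      Bool.and_true, Bool.false_and, Bool.and_false, Bool.xor_true, Bool.xor_false, Bool.true_xor,
      Bool.false_xor, Bool.and_self] at h1 ⊢
    all_goals first
      | linear_combination h1
      | linear_combination -h1
      | linear_combination (0 : ZMod (2 ^ k)) * h1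
      | linear_combination -h1 + h2f
      | linear_combination h1 + h2f
      | linear_combination -h1 - h2f
      | linear_combination h1 - h2f
      | linear_combination h2f
      | linear_combination h2f + hfm
      | linear_combination hfm
      | linear_combination -h2f
      | linear_combination -h1 + hfm
      | linear_combination h1 + hfm
      | linear_combination -h1 + hfm + h2f
      | linear_combination h1 + hfm + h2f
  have hD : Function.Injective (fun x => (c x)⁻¹ * c (R.α * x)) := by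
    intro u u' h
    simp only at h
    rw [hq, hq] at h
    obtain ⟨h1, h2⟩ := X.coord_inj h
    rw [h2] at h1
    have h3 : R.E ((1 + R.α) * u) = R.E ((1 + R.α) * u') := by
      have h4 : R.E ((1 + R.α) * u) + hf k * R.E ((1 + R.α) * u) =
          R.E ((1 + R.α) * u') + hf k * R.E ((1 + R.α) * u') := by
        linear_combination h1
      have h5 := congrArg (fun z => (1 + hf k) * z) h4
      linear_combination h5 - R.E ((1 + R.α) * u) * h2f - R.E ((1 + R.α) * u) * hfm +
        R.E ((1 + R.α) * u') * h2f + R.E ((1 + R.α) * u') * hfm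
    have h6 : R.φ ((1 + R.α) * u) = R.φ ((1 + R.α) * u') := by
      rw [add_mul, add_mul, one_mul, one_mul, R.φ_add, R.φ_add]
      exact h2
    have h7 := R.inj _ _ h3 h6
    exact mul_left_cancel₀ R.one_add h7
  obtain ⟨e, y, he1, he2, he3, he4, hye, hy1, hy2, hE, hE1⟩ := R.exists_e hk2
  have hx : R.φ (y + e) = false := by rw [R.φ_add, hy1, he2]; rfl
  have hey : R.α⁻¹ * e = y := by rw [← hye, hαi]
  have hEe : R.E ((1 + R.α) * e) = hf k := by
    have := hE1 0
    rwa [zero_add, R.E_zero, zero_add] at this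
  have hEy : 2 * R.E ((1 + R.α) * y) = hf k := by
    have := R.step1 y
    rw [hye, hEe, hy1, he2] at this
    simp only [Bool.xor_false, bz, Bool.false_eq_true, if_false, add_zero] at this
    exact this.symm
  have hEx : R.E ((1 + R.α) * (y + e)) = R.E ((1 + R.α) * y) + hf k := by
    rw [mul_add, hE1]
  refine R2_of_code R.α R.α0 R.gen c hbij h0 hD (y + e) y e ?_ hye ?_
    (fm_nodup R c hinj h0 e y he2 he3 hye hy1)
  · rw [hcdef, hcdef, hcdef, he2, hx, hy1, hEe, hEx, hey, hy1, mul_add, hey, R.φ_add, hy1]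
    simp only [Bool.false_and, Bool.xor_false, Bool.not_false, Bool.and_true, bz, if_false,
      mul_zero, add_zero, Bool.false_eq_true, CM.B, mul_one]
    rw [← X.A_add]
    congr 1
    linear_combination hff
  · have h2 : R.φ (R.α * (y + e)) = true := by rw [mul_add, R.φ_add, hye, he2, he3]; rfl
    rw [hcdef, hcdef, hcdef, R.step1, R.step1, hαi, hαi, hey, he2, hx, h2, he3, hEe, hEx, hy1]
    simp only [Bool.false_and, Bool.not_true, Bool.false_xor, bz, if_false, mul_zero, add_zero,
      Bool.false_eq_true, CM.B, mul_one, if_true]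
    rw [← mul_assoc, ← X.A_add]
    congr 2
    linear_combination -hEy - h2f

end LibRE
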