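import Pool.Agent.LibRE29.Defs
set_option autoImplicit false
namespace LibRE
open LibRS Equiv

/-- the permutation σ for `M = 8 H` (`K = 2 H`) -/
def sig (H a : ℕ) : ℕ :=
  if a < 2 * H then 2 * a
  else if a = 2 * H then 4 * H + 1
  else if a = 4 * H - 1 then 8 * H - 1
  else if a ≤ 4 * H then (if a % 2 = 0 then 2 * a - 2 else 2 * a + 2)
  else if a = 6 * H then 1
  else if a = 8 * H - 1 then 4 * H
  else 2 * a + 1 - 8 * H

private theorem sig_lt (H : ℕ) (hH : 1 ≤ H) (a : ℕ) (ha : a < 8 * H) : sig H a < 8 * H := by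
  unfold sig; split_ifs <;> omega

private theorem sig_inj (H : ℕ) (hH : 1 ≤ H) (a : ℕ) (ha : a < 8 * H) (b : ℕ) (hb : b < 8 * H)
    (h : sig H a = sig H b) : a = b := by
  unfold sig at h; split_ifs at h <;> omega

private theorem sig_diff (H : ℕ) (hH : 1 ≤ H) (a : ℕ) (ha : a < 8 * H) (b : ℕ) (hb : b < 8 * H)
    (h : sig H a + b = sig H b + a) : a = b := by
  unfold sig at h; split_ifs at h <;> omega

private theorem sig_4 (H : ℕ) (hH : 1 ≤ H) (a : ℕ) (ha : a < 8 * H) (b : ℕ) (hb : b < 8 * H - 1)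
    (h : sig H a + sig H b + 8 * H = a + b + 2) : False := by
  unfold sig at h; split_ifs at h <;> omega

private theorem sig_5 (H : ℕ) (hH : 1 ≤ H) (a : ℕ) (ha : a < 8 * H) (b : ℕ) (hb : b < 8 * H - 1)
    (h : sig H a + sig H b = a + b + 2 + 8 * H) : False := by
  unfold sig at h; split_ifs at h <;> omega

/-- all by `unfold sig`, `split_ifs`, `omega` -/
theorem sig_spec (H : ℕ) (hH : 1 ≤ H) :
    (∀ a < 8 * H, sig H a < 8 * H) ∧ (∀ a < 8 * H, ∀ b < 8 * H, sig H a = sig H b → a = b) ∧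
    (∀ a < 8 * H, ∀ b < 8 * H, sig H a + b = sig H b + a → a = b) ∧
    (∀ a < 8 * H, ∀ b < 8 * H - 1, sig H a + sig H b + 8 * H ≠ a + b + 2) ∧
    (∀ a < 8 * H, ∀ b < 8 * H - 1, sig H a + sig H b ≠ a + b + 2 + 8 * H) ∧
    (∀ a < 8 * H, sig H a ≠ a + 1 + 4 * H) ∧ sig H (4 * H - 1) = 8 * H - 1 ∧
    sig H (8 * H - 1) = 4 * H := by
  refine ⟨sig_lt H hH, sig_inj H hH, sig_diff H hH, fun a ha b hb h => sig_4 H hH a ha b hb h,
    fun a ha b hb h => sig_5 H hH a ha b hb h, ?_, ?_, ?_⟩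
  · intro a ha h
    unfold sig at h; split_ifs at h <;> omega
  · unfold sig; split_ifs <;> omega
  · unfold sig; split_ifs <;> omega

end LibRE
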