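import Pool.Agent.LibRE29.Zig
import Pool.Agent.LibRE29.ZigSig
set_option autoImplicit false
namespace LibRE
open LibRS Equiv

/-- `k = 3`: `M = 4`, `σ = 1, 3, 0, 2`; `k ≥ 4`: `M = 2 ^ (k - 1) = 8 H`, `H = 2 ^ (k - 4)`, `sig_spec`. -/
theorem fam_Q {G : Type} [Group G] [Finite G] {k : ℕ} (hk : 3 ≤ k) (X : CM G k (-1) (hf k)) :
    R2 G := by
  rcases Nat.lt_or_ge k 4 with h | h
  · have hk3 : k = 3 := by omega
    subst hk3
    refine zig X 4 (by norm_num) le_rfl
      (fun a => if a = 0 then 1 else if a = 1 then 3 else if a = 2 then 0 else 2) ?_ ?_ ?_ ?_ ?_ ?_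
      ?_ ?_
    · intro a _
      split_ifs <;> norm_num
    · intro a ha b hb
      interval_cases a <;> interval_cases b <;> simp
    · intro a ha b hb
      interval_cases a <;> interval_cases b <;> simp
    · intro a ha b hb
      have hb' : b < 3 := by omega
      clear hb
      interval_cases a <;> interval_cases b <;> simp
    · intro a ha b hb
      have hb' : b < 3 := by omega
      clear hb
      interval_cases a <;> interval_cases b <;> simp
    · intro a ha
      interval_cases a <;> simp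
    · simp
    · simp
  · obtain ⟨H, hH⟩ : ∃ H : ℕ, H = 2 ^ (k - 4) := ⟨_, rfl⟩
    have hH1 : 1 ≤ H := by
      rw [hH]; exact Nat.one_le_two_pow
    have hM : 2 * (8 * H) = 2 ^ k := by
      have : 2 ^ k = 2 ^ 4 * 2 ^ (k - 4) := by rw [← pow_add]; congr 1; omega
      rw [this, hH]; ring
    obtain ⟨s1, s2, s3, s4, s5, s6, s7, s8⟩ := sig_spec H hH1
    have e1 : 8 * H / 2 = 4 * H := by omega
    refine zig X (8 * H) hM (by omega) (sig H) s1 s2 s3 s4 s5 ?_ ?_ ?_
    · rw [e1]; exact s6
    · rw [e1]; exact s7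
    · rw [e1]; exact s8

end LibRE
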