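import Pool.Agent.LibRE29.CMApi
import Pool.Agent.LibRE29.RegApi
import Pool.Agent.LibRE29.OfCode
set_option autoImplicit false
namespace LibRE
open LibRS Equiv

private theorem sd_nodup {k : ℕ} {F G : Type} [Field F] [Group G] (R : Reg k F) (c : F → G)
    (hc : Function.Injective c) (h0 : c 0 = 1) (e y : F) (he : R.φ e = false)
    (hae : R.φ (R.α * e) = true) (hye : R.α * y = e) (hy : R.φ y = false) :
    [1, c (y + e), c y, c e, c (R.α * (y + e)), c (R.α * e)].Nodup := by
  have hφ0 := R.φ_zero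
  have e0 : e ≠ 0 := by
    rintro rfl
    rw [mul_zero, hφ0] at hae
    exact Bool.noConfusion hae
  have y0 : y ≠ 0 := by
    rintro rfl
    rw [mul_zero] at hye
    exact e0 hye.symm
  have ye : y ≠ e := by
    intro h
    rw [← h, hye, he] at hae
    exact Bool.noConfusion hae
  have x0 : y + e ≠ 0 := by
    intro h
    apply ye
    have h1 := R.add_self e
    rw [← h1] at h
    exact add_right_cancel h
  have hx : R.φ (y + e) = false := by rw [R.φ_add, hy, he]; rfl
  have hax : R.φ (R.α * (y + e)) = true := by rw [mul_add, R.φ_add, hye, he, hae]; rfl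
  have h1 : [0, y + e, y, e, R.α * (y + e), R.α * e].Nodup := by
    have d1 : ∀ p q : F, R.φ p = false → R.φ q = true → p ≠ q := by
      intro p q hp hq h
      rw [h, hq] at hp
      exact Bool.noConfusion hp
    simp only [List.nodup_cons, List.mem_cons, List.not_mem_nil, or_false, not_or,
      List.nodup_nil, and_true, not_false_eq_true]
    refine ⟨⟨x0.symm, y0.symm, e0.symm, d1 _ _ hφ0 hax, d1 _ _ hφ0 hae⟩, ⟨?_, ?_, d1 _ _ hx hax,
      d1 _ _ hx hae⟩, ⟨ye, d1 _ _ hy hax, d1 _ _ hy hae⟩, ⟨d1 _ _ he hax, d1 _ _ he hae⟩, ?_⟩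
    · intro h
      exact e0 (left_eq_add.1 h.symm)
    · intro h
      exact y0 (right_eq_add.1 h.symm)
    · intro h
      exact y0 (right_eq_add.1 (mul_left_cancel₀ R.α0 h).symm)
  have h2 := h1.map hc
  simpa [h0] using h2

/-- Semidihedral groups, in the form `b A(i) b⁻¹ = A ((-1 + 2^(k-1)) i)`, `b² = A (2^(k-1))`. `R2_of_code` with
 `c u = A (E u + hf k * bz (φ u && φ (α⁻¹ u))) * B (φ u)`. (`hf k * E u = hf k * bz (φ (α⁻¹ u))` by `Reg.hf_E` for
 `α⁻¹ u`, so `φ (α⁻¹ u)` is determined by the code: injective; `card F = card G`.)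
The quotient `(c u)⁻¹ * c (α u)` is the same as in the dihedral case: if `φ u = false`: `A (E u) * B (φ (α u))`;
 if `φ u = true`: `p = E u + hf * ρ`, `ρ = φ (α⁻¹ u)`, `p' = 2 * E u + 1 + hf * φ (α u)`,
 `p' - p = E u + 1 + hf * (φ (α u) + ρ)`, `(-1 + hf) (p' - p) = - E u - 1 + hf * (ρ + 1) + hf * (φ (α u) + ρ)
 = - E u - 1 + hf * (1 + φ (α u))`, and if `φ (α u) = false` then `t = hf` is subtracted, so it is `A (- E u - 1) * B (!φ (α u))`.
 Then with `v = u + ω` (`Reg.exists_ω`) as for the dihedral groups (FamD).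
Pattern: `e`, `y` from `Reg.exists_e`, `x = y + e`: `c e = A (hf k)`, `c y = A (E y)`, `c x = A (E y + hf k)`,
 `c (α e) = b` (`φ e = false`), `α x = e + α e`, `c (α x) = A (hf k) * b` (`φ x = false`). -/
theorem fam_SD {G F : Type} [Group G] [Finite G] [Field F] [Finite F] {k : ℕ} (hk : 3 ≤ k)
    (X : CM G k (-1 + hf k) (hf k)) (R : Reg k F) : R2 G := by
  have hk1 : 1 ≤ k := by omega
  have hk2 : 2 ≤ k := by omega
  have hff := hf_add hk1
  have h2f := two_hf hk1
  have hfm := hf_mul_hf hk2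
  have hEρ : ∀ u, hf k * R.E u = hf k * bz (R.φ (R.α⁻¹ * u)) := by
    intro u
    have := R.hf_E hk1 (R.α⁻¹ * u)
    rwa [mul_inv_cancel_left₀ R.α0] at this
  have hbz : ∀ a b : Bool, hf k * bz a = hf k * bz b → a = b := by
    intro a b hab
    cases a <;> cases b
    · rfl
    · exact absurd (by simpa [bz] using hab.symm) (hf_ne hk1)
    · exact absurd (by simpa [bz] using hab) (hf_ne hk1)
    · rfl
  let c : F → G := fun u => X.A (R.E u + hf k * bz (R.φ u && R.φ (R.α⁻¹ * u))) * X.B (R.φ u)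
  have hcdef : ∀ u, c u = X.A (R.E u + hf k * bz (R.φ u && R.φ (R.α⁻¹ * u))) * X.B (R.φ u) :=
    fun u => rfl
  have hinj : Function.Injective c := by
    intro u u' h
    obtain ⟨h1, h2⟩ := X.coord_inj h
    have h3 : hf k * R.E u = hf k * R.E u' := by
      have := congrArg (fun z => hf k * z) h1
      simp only [mul_add, ← mul_assoc, hfm, zero_mul, add_zero] at this
      exact this
    rw [hEρ, hEρ] at h3
    have h4 := hbz _ _ h3
    rw [h2, h4] at h1
    exact R.inj u u' (add_right_cancel h1) h2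
  have hbij : Function.Bijective c := by
    refine hinj.bijective_of_nat_card_le ?_
    rw [X.card, R.card]
  have h0 : c 0 = 1 := by
    rw [hcdef, R.E_zero, R.φ_zero, Bool.false_and]
    simp [bz, CM.B, X.A_zero]
  -- the quotients
  have hαi : ∀ u, R.α⁻¹ * (R.α * u) = u := fun u => inv_mul_cancel_left₀ R.α0 u
  have hq0 : ∀ u, R.φ u = false → (c u)⁻¹ * c (R.α * u) = X.A (R.E u) * X.B (R.φ (R.α * u)) := by
    intro u hu
    rw [hcdef, hcdef, X.quot, hαi, hu, R.step, hu]
    simp only [Bool.false_and, Bool.and_false, Bool.false_xor, bz, if_false, mul_zero, add_zero,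
      Bool.false_eq_true, sub_zero]
    congr 2
    ring
  have hq1 : ∀ u, R.φ u = true →
      (c u)⁻¹ * c (R.α * u) = X.A (-1 - R.E u) * X.B (!(R.φ (R.α * u))) := by
    intro u hu
    have h1 := hEρ u
    rw [hcdef, hcdef, X.quot, hαi, hu, R.step, hu]
    simp only [Bool.true_and, Bool.and_true, Bool.true_xor, if_true]
    congr 2
    generalize R.φ (R.α⁻¹ * u) = ρ at h1 ⊢
    generalize R.E u = E at h1 ⊢
    generalize R.φ (R.α * u) = δ
    cases ρ <;> cases δ <;> simp only [bz, if_true, if_false, Bool.not_true, Bool.not_false,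
      Bool.false_eq_true, mul_one, mul_zero, add_zero, sub_zero] at h1 ⊢
    · linear_combination h1
    · linear_combination h1 + hfm
    · linear_combination h1 + h2f - hfm
    · linear_combination h1 + h2f
  obtain ⟨ω, hω1, hω2, hω3, hω4, -⟩ := R.exists_ω
  have hD : Function.Injective (fun x => (c x)⁻¹ * c (R.α * x)) := by
    -- normal form
    have hn : ∀ u, ∃ m, R.φ m = false ∧ u = m + (if R.φ u then ω else 0) ∧
        (c u)⁻¹ * c (R.α * u) = X.A (R.E m) * X.B (xor (R.φ (R.α * m)) (R.φ u)) := by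
      intro u
      cases hu : R.φ u
      · refine ⟨u, hu, by simp, ?_⟩
        rw [hq0 u hu, Bool.xor_false]
      · refine ⟨u + ω, ?_, ?_, ?_⟩
        · rw [R.φ_add, hu, hω2]; rfl
        · rw [if_pos rfl, add_assoc, R.add_self, add_zero]
        · rw [hq1 u hu, hω4, mul_add, R.φ_add, hω3, Bool.xor_false, Bool.xor_true]
    intro u u' h
    obtain ⟨m, hm1, hm2, hm3⟩ := hn u
    obtain ⟨m', hm1', hm2', hm3'⟩ := hn u'
    simp only at h
    rw [hm3, hm3'] at h
    obtain ⟨h1, h2⟩ := X.coord_inj h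
    have h3 : m = m' := R.inj m m' h1 (by rw [hm1, hm1'])
    subst h3
    have h4 : R.φ u = R.φ u' := by
      revert h2
      cases R.φ (R.α * m) <;> cases R.φ u <;> cases R.φ u' <;> simp
    rw [hm2, hm2', h4]
  obtain ⟨e, y, he1, he2, he3, he4, hye, hy1, hy2, hE, -⟩ := R.exists_e hk2
  have hx : R.φ (y + e) = false := by rw [R.φ_add, hy1, he2]; rfl
  refine R2_of_code R.α R.α0 R.gen c hbij h0 hD (y + e) y e ?_ hye ?_
    (sd_nodup R c hinj h0 e y he2 he3 hye hy1)
  · rw [hcdef, hcdef, hcdef, he2, hx, hy1, he1, hE]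
    simp only [Bool.false_and, bz, if_false, mul_zero, add_zero, Bool.false_eq_true, CM.B, mul_one]
    rw [← X.A_add]
    congr 1
    linear_combination hff
  · have h1 : R.E (R.α * (y + e)) = hf k := by
      rw [mul_add, hye, add_comm, hE, he4, zero_add]
    have h2 : R.φ (R.α * (y + e)) = true := by rw [mul_add, R.φ_add, hye, he2, he3]; rfl
    rw [hcdef, hcdef, hcdef, hαi, hαi, he2, hx, h1, h2, he1, he3, he4]
    simp only [Bool.false_and, Bool.and_false, bz, if_false, mul_zero, add_zero,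
      Bool.false_eq_true, CM.B, mul_one, if_true]
    rw [← mul_assoc, ← X.A_add, hff]

end LibRE
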