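import Pool.Agent.LibRE29.Num
set_option autoImplicit false
namespace LibRE
open LibRS Equiv

/-- `F` finite field with `2 ^ (k + 1)` elements, `α` a generator of the multiplicative group, `φ` a non-zero additive
map to `Bool` (xor). If `φ (α⁻¹ ^ l * z) = false` for `l = 0, ..., k` then `z = 0`.
(The minimal polynomial of `α⁻¹` over the prime field has degree `d ≤ k + 1 = finrank`, so there are `c j` in the prime
field `{0, 1}` with `(α⁻¹) ^ d = ∑ j < d, c j * (α⁻¹) ^ j`; hence by induction `φ ((α⁻¹) ^ l * z) = false` for all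
`l`; if `z ≠ 0` every non-zero element has the form `(α⁻¹) ^ l * z` (α has finite order), so `φ = false`, contradiction.) -/
theorem window_inj {F : Type} [Field F] [Finite F] (k : ℕ) (hF : Nat.card F = 2 ^ (k + 1)) (α : F)
    (hα : α ≠ 0) (gen : ∀ x y : F, x ≠ 0 → y ≠ 0 → ∃ i : ℕ, y = α ^ i * x) (φ : F → Bool)
    (hφ : ∀ x y, φ (x + y) = xor (φ x) (φ y)) (hne : ∃ x, φ x = true) (z : F)
    (hz : ∀ l, l ≤ k → φ (α⁻¹ ^ l * z) = false) : z = 0 := by
  classical
  haveI : Fact (Nat.Prime 2) := ⟨Nat.prime_two⟩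
  haveI : Fintype F := Fintype.ofFinite F
  haveI hch : CharP F 2 := by
    obtain ⟨p, hp⟩ := CharP.exists F
    haveI := hp
    obtain ⟨n, hpp, hn⟩ := FiniteField.card F p
    rw [Nat.card_eq_fintype_card, hn] at hF
    have h1 : p ∣ 2 ^ (k + 1) := by
      rw [← hF]
      exact dvd_pow_self p n.ne_zero
    have h2 : p = 2 := (Nat.prime_dvd_prime_iff_eq hpp Nat.prime_two).1 (hpp.dvd_of_dvd_pow h1)
    rwa [h2] at hp
  letI : Algebra (ZMod 2) F := ZMod.algebra F 2
  have hfr : Module.finrank (ZMod 2) F = k + 1 := by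
    have h1 := Module.card_eq_pow_finrank (K := ZMod 2) (V := F)
    rw [← Nat.card_eq_fintype_card, hF, ZMod.card] at h1
    exact (Nat.pow_right_injective le_rfl h1).symm
  have h0 : φ 0 = false := by
    have := hφ 0 0
    rw [add_zero] at this
    cases h : φ 0
    · rfl
    · rw [h] at this
      exact absurd this (by decide)
  let S : AddSubgroup F :=
    { carrier := {w | φ w = false}
      add_mem' := by
        intro a b ha hb
        rw [Set.mem_ofPred_eq] at ha hb ⊢
        rw [hφ, ha, hb]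
        rfl
      zero_mem' := h0
      neg_mem' := by
        intro a ha
        rw [Set.mem_ofPred_eq] at ha ⊢
        rwa [CharTwo.neg_eq] }
  let T : Submodule (ZMod 2) F := AddSubgroup.toZModSubmodule 2 S
  have hT : ∀ w, w ∈ T ↔ φ w = false := fun w => Iff.rfl
  set β : F := α⁻¹ with hβ
  have hint : IsIntegral (ZMod 2) β := Algebra.IsIntegral.isIntegral β
  set p := minpoly (ZMod 2) β with hp
  have hd : p.natDegree ≤ k + 1 := by
    rw [← hfr]
    exact minpoly.natDegree_le β
  have hmon : p.Monic := minpoly.monic hint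
  have haev : ∑ i ∈ Finset.range p.natDegree, p.coeff i • β ^ i + β ^ p.natDegree = 0 := by
    have h1 := minpoly.aeval (ZMod 2) β
    rw [← hp, Polynomial.aeval_eq_sum_range, Finset.sum_range_succ, hmon.coeff_natDegree,
      one_smul] at h1
    exact h1
  have hall : ∀ l, β ^ l * z ∈ T := by
    intro l
    induction l using Nat.strong_induction_on with
    | _ l ih =>
      by_cases hl : l ≤ k
      · exact hz l hl
      · have h1 : β ^ l * z = -∑ i ∈ Finset.range p.natDegree,
            p.coeff i • (β ^ (l - p.natDegree + i) * z) := by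
          have h2 : β ^ l = β ^ (l - p.natDegree) * β ^ p.natDegree := by
            rw [← pow_add]
            congr 1
            omega
          rw [h2, eq_neg_of_add_eq_zero_right haev, mul_neg, neg_mul, Finset.mul_sum,
            Finset.sum_mul]
          congr 1
          refine Finset.sum_congr rfl fun i _ => ?_
          rw [mul_smul_comm, ← pow_add, smul_mul_assoc]
        rw [h1]
        refine T.neg_mem (T.sum_mem fun i hi => T.smul_mem _ (ih _ ?_))
        rw [Finset.mem_range] at hi
        omega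
  by_contra hz0
  obtain ⟨x, hx⟩ := hne
  have hx0 : x ≠ 0 := by
    rintro rfl
    rw [h0] at hx
    exact Bool.noConfusion hx
  obtain ⟨i, hi⟩ := gen x z hx0 hz0
  have h1 : x = β ^ i * z := by
    rw [hi, hβ, inv_pow, inv_mul_cancel_left₀ (pow_ne_zero i hα)]
  have h2 := (hT _).1 (hall i)
  rw [← h1, hx] at h2
  exact Bool.noConfusion h2

private def re_zb (a : ZMod 2) : Bool := !(decide (a = 0))

private theorem re_zb_add : ∀ a b : ZMod 2, re_zb (a + b) = xor (re_zb a) (re_zb b) := by decide

private theorem re_zb_true : ∀ a : ZMod 2, a ≠ 0 → re_zb a = true := by decide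

/-- existence of a non-zero additive map to `Bool` in characteristic two -/
theorem exists_phi {F : Type} [Field F] [Finite F] (h2 : (2 : F) = 0) :
    ∃ φ : F → Bool, (∀ x y, φ (x + y) = xor (φ x) (φ y)) ∧ ∃ x, φ x = true := by
  classical
  haveI : Fact (Nat.Prime 2) := ⟨Nat.prime_two⟩
  haveI hch : CharP F 2 := CharTwo.of_one_ne_zero_of_two_eq_zero one_ne_zero h2
  letI : Algebra (ZMod 2) F := ZMod.algebra F 2
  have h1 : ∃ f : Module.Dual (ZMod 2) F, f 1 ≠ 0 := by
    by_contra hcon
    push Not at hcon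
    exact one_ne_zero ((Module.forall_dual_apply_eq_zero_iff (ZMod 2) (1 : F)).1 hcon)
  obtain ⟨f, hf⟩ := h1
  refine ⟨fun x => re_zb (f x), fun x y => ?_, 1, re_zb_true _ hf⟩
  change re_zb (f (x + y)) = _
  rw [map_add]
  exact re_zb_add _ _

/-- `F = GaloisField 2 (k + 1)`, `α` generator, `φ`, `E x = num k (fun l => φ (α⁻¹ ^ (l + 1) * x))`. `inj` from
`num_inj` and `window_inj` for `x + y` (= `x - y`); `surj` from `inj` by counting (`card (ZMod (2^k) × Bool) = 2^(k+1)`);
`compl`: `E y = -1 = num k (fun _ => true)`, so the digits of `y` are all 1 (`num_inj`) and `num_compl`; `half` similarly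
from `num_hf`, `num_flip`; `step` from `num_step`. -/
theorem exists_reg (k : ℕ) (hk : 1 ≤ k) : ∃ (F : Type) (_ : Field F) (_ : Finite F),
    Nonempty (Reg k F) := by
  classical
  haveI : Fact (Nat.Prime 2) := ⟨Nat.prime_two⟩
  obtain ⟨F, hfield, hfin, hcard, h2⟩ : ∃ (F : Type) (_ : Field F) (_ : Finite F),
      Nat.card F = 2 ^ (k + 1) ∧ (2 : F) = 0 := by
    refine ⟨GaloisField 2 (k + 1), inferInstance, inferInstance,
      GaloisField.card 2 (k + 1) (Nat.succ_ne_zero k), ?_⟩
    exact CharTwo.two_eq_zero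
  refine ⟨F, hfield, hfin, ?_⟩
  obtain ⟨φ, hφ, hne⟩ := exists_phi h2
  obtain ⟨a, ha⟩ := IsCyclic.exists_monoid_generator (α := Fˣ)
  set α : F := (a : F) with hα
  have α0 : α ≠ 0 := a.ne_zero
  have gen : ∀ x y : F, x ≠ 0 → y ≠ 0 → ∃ i : ℕ, y = α ^ i * x := by
    intro x y hx hy
    obtain ⟨i, hi⟩ := ha (Units.mk0 y hy * (Units.mk0 x hx)⁻¹)
    refine ⟨i, ?_⟩
    have h1 := congrArg (fun u : Fˣ => (u : F)) hi
    simp only [Units.val_pow_eq_pow_val, Units.val_mul, Units.val_mk0, Units.val_inv_eq_inv_val] at h1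
    rw [hα, h1, inv_mul_cancel_right₀ hx]
  have α1 : α ≠ 1 := by
    intro h1
    have h3 : ∀ x : F, x ≠ 0 → x = 1 := by
      intro x hx
      obtain ⟨i, hi⟩ := gen 1 x one_ne_zero hx
      rw [hi, h1, one_pow, mul_one]
    have h4 : Function.Injective (fun x : F => decide (x = 0)) := by
      intro x y hxy'
      have hxy : decide (x = 0) = decide (y = 0) := hxy'
      by_cases hx : x = 0
      · have : decide (y = 0) = true := by rw [← hxy]; simpa using hx
        rw [hx, of_decide_eq_true this]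
      · have : decide (y = 0) = false := by rw [← hxy]; simpa using hx
        rw [h3 x hx, h3 y (of_decide_eq_false this)]
    have h5 := Nat.card_le_card_of_injective _ h4
    rw [hcard, Nat.card_eq_fintype_card (α := Bool), Fintype.card_bool] at h5
    have h6 : 2 ^ 2 ≤ 2 ^ (k + 1) := Nat.pow_le_pow_right (by norm_num) (by omega)
    omega
  have hself : ∀ x : F, x + x = 0 := fun x => by rw [← two_mul, h2, zero_mul]
  let E : F → ZMod (2 ^ k) := fun x => num k (fun l => φ (α⁻¹ ^ (l + 1) * x))
  have hadd : ∀ x y, E (x + y) = num k (fun l => xor (φ (α⁻¹ ^ (l + 1) * x)) (φ (α⁻¹ ^ (l + 1) * y))) := by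
    intro x y
    refine num_congr fun l _ => ?_
    rw [mul_add, hφ]
  have inj : ∀ x y, E x = E y → φ x = φ y → x = y := by
    intro x y h3 h4
    have h5 := num_inj h3
    have h6 : x + y = 0 := by
      refine window_inj k hcard α α0 gen φ hφ hne (x + y) ?_
      intro l hl
      rw [mul_add, hφ]
      rcases Nat.eq_zero_or_pos l with rfl | hl0
      · rw [pow_zero, one_mul, one_mul, h4, Bool.xor_self]
      · obtain ⟨l', rfl⟩ : ∃ l', l = l' + 1 := ⟨l - 1, by omega⟩
        rw [h5 l' (by omega), Bool.xor_self]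
    have h7 := hself y
    rw [← h7] at h6
    exact add_right_cancel h6
  have surj : ∀ (i : ZMod (2 ^ k)) (c : Bool), ∃ x, E x = i ∧ φ x = c := by
    haveI : NeZero (2 ^ k) := ⟨by positivity⟩
    have h3 : Function.Injective (fun x : F => (E x, φ x)) := by
      intro x y hxy
      exact inj x y (congrArg Prod.fst hxy) (congrArg Prod.snd hxy)
    have h4 : Nat.card (ZMod (2 ^ k) × Bool) ≤ Nat.card F := by
      rw [hcard, Nat.card_prod, Nat.card_zmod, Nat.card_eq_fintype_card (α := Bool),
        Fintype.card_bool, pow_succ]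
    have h5 := h3.bijective_of_nat_card_le h4
    intro i c
    obtain ⟨x, hx⟩ := h5.2 (i, c)
    exact ⟨x, congrArg Prod.fst hx, congrArg Prod.snd hx⟩
  refine ⟨⟨α, φ, E, α0, α1, gen, hφ, inj, surj, ?_, ?_, ?_⟩⟩
  · intro x
    have h3 : ∀ l, φ (α⁻¹ ^ ((l + 1) + 1) * (α * x)) = φ (α⁻¹ ^ (l + 1) * x) := by
      intro l
      congr 1
      rw [pow_succ (α⁻¹) (l + 1), mul_assoc, inv_mul_cancel_left₀ α0]
    have h4 := num_step (k := k) (c := fun l => φ (α⁻¹ ^ (l + 1) * x))
      (d := fun l => φ (α⁻¹ ^ (l + 1) * (α * x))) h3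
    have h5 : φ (α⁻¹ ^ (0 + 1) * (α * x)) = φ x := by
      rw [zero_add, pow_one, inv_mul_cancel_left₀ α0]
    simp only [h5] at h4
    exact h4
  · intro x y hy
    have h3 := num_inj ((hy.trans num_ones.symm : num k (fun l => φ (α⁻¹ ^ (l + 1) * y)) =
      num k (fun _ => true)))
    rw [hadd]
    have h4 := num_compl (k := k) (fun l => φ (α⁻¹ ^ (l + 1) * x))
    rw [← h4]
    refine num_congr fun l hl => ?_
    rw [h3 l hl, Bool.xor_true]
  · intro x y hy
    have h3 := num_inj ((hy.trans (num_hf hk).symm : num k (fun l => φ (α⁻¹ ^ (l + 1) * y)) =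
      num k (fun l => decide (l + 1 = k))))
    rw [hadd]
    have h4 := num_flip hk (fun l => φ (α⁻¹ ^ (l + 1) * x))
    rw [← h4]
    refine num_congr fun l hl => ?_
    rw [h3 l hl]

end LibRE
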