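import Pool.Agent.LibRS.T09
import Pool.Agent.LibRE29.CMApi
set_option autoImplicit false
namespace LibRE
open LibRS Equiv

private def quatFun {G : Type} [Group G] (X : CM G 2 (-1) (hf 2)) : QuaternionGroup 2 → G
  | .a i => X.A i
  | .xa i => X.b * X.A i

private theorem cm_neg {G : Type} [Group G] (X : CM G 2 (-1) (hf 2)) (i : ZMod (2 ^ 2)) :
    X.A i * X.b = X.b * X.A (-i) := by
  rw [X.b_mul]; simp

private def quatHom {G : Type} [Group G] (X : CM G 2 (-1) (hf 2)) : QuaternionGroup 2 →* G :=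
  MonoidHom.mk' (quatFun X) (by
    rintro (i | i) (j | j)
    · rw [QuaternionGroup.a_mul_a]
      exact X.A_add i j
    · rw [QuaternionGroup.a_mul_xa]
      change X.b * X.A (j - i) = X.A i * (X.b * X.A j)
      rw [← mul_assoc, cm_neg, mul_assoc, ← X.A_add]
      congr 2
      exact sub_eq_neg_add j i
    · rw [QuaternionGroup.xa_mul_a]
      change X.b * X.A (i + j) = X.b * X.A i * X.A j
      rw [mul_assoc, ← X.A_add]
    · rw [QuaternionGroup.xa_mul_xa]
      change X.A _ = X.b * X.A i * (X.b * X.A j)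
      rw [mul_assoc, ← mul_assoc (X.A i), cm_neg, ← mul_assoc, ← mul_assoc, X.b_sq, mul_assoc,
        ← X.A_add, ← X.A_add]
      congr 1
      have : ∀ i j : ZMod 4, ((2 : ℕ) : ZMod 4) + j - i = ((2 ^ (2 - 1) : ℕ) : ZMod 4) + (-i + j) := by
        decide
      exact this i j)

/-- the quaternion group of order eight is recognised by its normal form -/
theorem cm_quat {G : Type} [Group G] [Finite G] (X : CM G 2 (-1) (hf 2)) :
    Nonempty (G ≃* QuaternionGroup 2) := by
  refine ⟨(MulEquiv.ofBijective (quatHom X) ⟨?_, ?_⟩).symm⟩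
  · intro x y hxy
    change quatFun X x = quatFun X y at hxy
    rcases x with i | i <;> rcases y with j | j
    · exact congrArg _ (X.A_inj hxy)
    · exfalso
      change X.A i = X.b * X.A j at hxy
      apply X.b_not (i + -j)
      rw [X.A_add, hxy, mul_assoc, ← X.A_add]
      have h0 : X.A 0 = 1 := by
        have h1 := X.A_add 0 0
        rw [add_zero] at h1
        exact (left_eq_mul.mp h1)
      rw [add_neg_cancel, h0, mul_one]
    · exfalso
      change X.b * X.A i = X.A j at hxy
      apply X.b_not (j + -i)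
      rw [X.A_add, ← hxy, mul_assoc, ← X.A_add]
      have h0 : X.A 0 = 1 := by
        have h1 := X.A_add 0 0
        rw [add_zero] at h1
        exact (left_eq_mul.mp h1)
      rw [add_neg_cancel, h0, mul_one]
    · change X.b * X.A i = X.b * X.A j at hxy
      exact congrArg _ (X.A_inj (mul_left_cancel hxy))
  · intro g
    obtain ⟨i, hi | hi⟩ := X.surj g
    · exact ⟨.a i, hi.symm⟩
    · refine ⟨.xa (-i), ?_⟩
      change X.b * X.A (-i) = g
      rw [hi, cm_neg]

private abbrev V8 : Type := Multiplicative (ZMod 2 × ZMod 2 × ZMod 2)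

private def th8 : Perm V8 where
  toFun p := Multiplicative.ofAdd (p.toAdd.2.2, p.toAdd.1 + p.toAdd.2.2, p.toAdd.2.1)
  invFun p := Multiplicative.ofAdd (p.toAdd.2.1 - p.toAdd.1, p.toAdd.2.2, p.toAdd.1)
  left_inv := by decide
  right_inv := by decide

private theorem th8_cyc : ∀ x : V8, x ≠ 1 →
    ∃ i : Fin 7, (th8^[i.val]) (Multiplicative.ofAdd (1, 0, 0)) = x := by
  decide

private theorem R2_V8 : R2 V8 := by
  refine ⟨th8, Multiplicative.ofAdd (1, 0, 0), Multiplicative.ofAdd (1, 1, 1), ⟨?_, ?_⟩, ?_, ?_⟩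
  · decide
  · have : ∀ x y : V8, x⁻¹ * th8 x = y⁻¹ * th8 y → x = y := by decide
    exact this
  · intro x y hx hy
    obtain ⟨i, hi⟩ := th8_cyc x hx
    obtain ⟨j, hj⟩ := th8_cyc y hy
    rw [← Equiv.Perm.coe_pow] at hi hj
    have h1 : th8.SameCycle (Multiplicative.ofAdd (1, 0, 0)) x := ⟨(i : ℕ), by
      rw [zpow_natCast]; exact hi⟩
    have h2 : th8.SameCycle (Multiplicative.ofAdd (1, 0, 0)) y := ⟨(j : ℕ), by
      rw [zpow_natCast]; exact hj⟩
    exact h1.symm.trans h2
  · refine ⟨?_, ?_, ?_⟩ <;> decide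

private theorem elem8_iso {A : Type} [CommGroup A] [Finite A]
    (h : Nat.card A = 8) (hpow : ∀ x : A, x ^ 2 = 1) : Nonempty (V8 ≃* A) := by
  have hf : Finite (Additive A) := inferInstanceAs (Finite A)
  let : Module (ZMod 2) (Additive A) := AddCommGroup.zmodModule (n := 2) fun x => hpow x.toMul
  have : Module.Finite (ZMod 2) (Additive A) := inferInstance
  have : Module.Free (ZMod 2) (Additive A) := inferInstance
  have hfr : Module.finrank (ZMod 2) (Additive A) = 3 := by
    have h4 := Module.natCard_eq_pow_finrank (K := ZMod 2) (V := Additive A)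
    have h5 : Nat.card (Additive A) = 8 := h
    rw [Nat.card_zmod, h5] at h4
    exact (Nat.pow_right_injective le_rfl (show 2 ^ 3 = 2 ^ _ from h4)).symm
  have hfr2 : Module.finrank (ZMod 2) (ZMod 2 × ZMod 2 × ZMod 2) = 3 := by
    rw [Module.finrank_prod, Module.finrank_prod]; simp
  have e : (ZMod 2 × ZMod 2 × ZMod 2) ≃ₗ[ZMod 2] Additive A :=
    LinearEquiv.ofFinrankEq _ _ (hfr2.trans hfr.symm)
  exact ⟨AddEquiv.toMultiplicativeLeft e.toAddEquiv⟩

/-- An explicit sequencing of `(ℤ/2)³` with the first pattern (`decide`) and `R2_of_equiv`; the isomorphism as in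
`LibRS.T17_elem` (Pool/Agent/LibRS/T17.lean). -/
theorem R2_elem8 {G : Type} [Group G] [Finite G] (hc : Nat.card G = 8) (h2 : ∀ g : G, g * g = 1) :
    R2 G := by
  have hcomm : ∀ a b : G, a * b = b * a := by
    intro a b
    have hinv : ∀ g : G, g⁻¹ = g := fun g => inv_eq_of_mul_eq_one_left (h2 g)
    calc a * b = (a * b)⁻¹ := (hinv _).symm
      _ = b * a := by rw [mul_inv_rev, hinv, hinv]
  let I : CommGroup G := { (inferInstance : Group G) with mul_comm := hcomm }
  obtain ⟨e⟩ := @elem8_iso G I _ hc (fun x => by rw [pow_two]; exact h2 x)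
  exact R2_of_equiv e R2_V8

end LibRE
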