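import Pool.Agent.LibRE29.Norm
import Pool.Agent.LibRE29.Small
import Pool.Agent.LibRE29.FamA
import Pool.Agent.LibRE29.FamM
import Pool.Agent.LibRE29.FamD
import Pool.Agent.LibRE29.FamSD
import Pool.Agent.LibRE29.FamQ
import Pool.Agent.LibRE29.RegEx
set_option autoImplicit false
namespace LibRE
open LibRS Equiv

/-- groups with a cyclic subgroup of index two: `exists_CM` with `k = n - 1` (an element of order `2 ^ n` would make `G` cyclic),
`cm_normal`, the five families with `exists_reg`, and `cm_quat` for the quaternion case with `k = 2`. -/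
theorem R2_of_cyc2 {G : Type} [Group G] [Finite G] (n : ℕ) (hc : Nat.card G = 2 ^ n) (hn : 3 ≤ n)
    (hnc : ¬ IsCyclic G) (h : HasCyc2 G) : R2 G ∨ Nonempty (G ≃* QuaternionGroup 2) := by
  obtain ⟨k, rfl⟩ : ∃ k, n = k + 1 := ⟨n - 1, by omega⟩
  have hk : 2 ≤ k := by omega
  obtain ⟨a, ha⟩ := h
  have hdvd : orderOf a ∣ 2 ^ (k + 1) := hc ▸ orderOf_dvd_natCard a
  obtain ⟨j, hj, hja⟩ := (Nat.dvd_prime_pow Nat.prime_two).1 hdvd
  have hjk : j = k := by
    have h1 : j ≠ k + 1 := by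
      intro hh
      exact hnc (isCyclic_of_orderOf_eq_card a (by rw [hja, hh, hc]))
    have h2 : k ≤ j := by
      rw [hc, hja, ← pow_succ'] at ha
      have := (Nat.pow_le_pow_iff_right (by norm_num : 1 < 2)).1 ha
      omega
    omega
  rw [hjk] at hja
  obtain ⟨s, t, ⟨X⟩⟩ := exists_CM k hc a hja
  obtain ⟨F, hF, hFf, ⟨R⟩⟩ := exists_reg k (by omega)
  rcases cm_normal hk X hnc with ⟨⟨Y⟩⟩ | ⟨⟨Y⟩⟩ | ⟨⟨Y⟩⟩ | ⟨hk3, ⟨Y⟩⟩ | ⟨hk3, ⟨Y⟩⟩
  · exact Or.inl (fam_A hk Y R)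
  · exact Or.inl (fam_D hk Y R)
  · by_cases hk3 : 3 ≤ k
    · exact Or.inl (fam_Q hk3 Y)
    · obtain rfl : k = 2 := by omega
      exact Or.inr (cm_quat Y)
  · exact Or.inl (fam_M hk3 Y R)
  · exact Or.inl (fam_SD hk3 Y R)

end LibRE
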