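import Pool.Agent.LibRS.Basics

/-!
# R-sequenceability of groups with a normal 2-complement: definitions
-/

set_option autoImplicit false

namespace LibRE

open LibRS Equiv

/-- `G` has a cyclic subgroup `A (ℤ/2^k)` of order `2 ^ k` and index two, and an element `b` outside,
with `b * A i * b⁻¹ = A (s * i)` and `b ^ 2 = A t`. -/
structure CM (G : Type) [Group G] (k : ℕ) (s t : ZMod (2 ^ k)) where
  A : ZMod (2 ^ k) → G
  b : G
  A_add : ∀ i j, A (i + j) = A i * A j
  A_inj : Function.Injective A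
  b_mul : ∀ i, b * A i = A (s * i) * b
  b_sq : b * b = A t
  b_not : ∀ i, A i ≠ b
  surj : ∀ g, ∃ i, g = A i ∨ g = A i * b

/-- `0` or `1` as a residue -/
def bz {k : ℕ} (c : Bool) : ZMod (2 ^ k) := if c then 1 else 0

/-- `2 ^ (k - 1)` as a residue modulo `2 ^ k` -/
def hf (k : ℕ) : ZMod (2 ^ k) := ((2 ^ (k - 1) : ℕ) : ZMod (2 ^ k))

/-- A maximal length linear shift register with `2 ^ (k + 1) - 1` states: the states are the elements of the
field `F`, the step is multiplication by `α`, `φ` is the newest bit and `E` is the number with the `k`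
previous bits. -/
structure Reg (k : ℕ) (F : Type) [Field F] where
  α : F
  φ : F → Bool
  E : F → ZMod (2 ^ k)
  α0 : α ≠ 0
  α1 : α ≠ 1
  gen : ∀ x y : F, x ≠ 0 → y ≠ 0 → ∃ i : ℕ, y = α ^ i * x
  φ_add : ∀ x y, φ (x + y) = xor (φ x) (φ y)
  inj : ∀ x y, E x = E y → φ x = φ y → x = y
  surj : ∀ (i : ZMod (2 ^ k)) (c : Bool), ∃ x, E x = i ∧ φ x = c
  step : ∀ x, E (α * x) = 2 * E x + bz (φ x)
  compl : ∀ x y, E y = -1 → E (x + y) = -1 - E x
  half : ∀ x y, E y = hf k → E (x + y) = E x + hf k

/-- The orthomorphism of the quaternion group with the cycles `x → f → w → h w → x` and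
`h x → h → h f → h x`. -/
structure Q8P {Q : Type} [Group Q] (θ : Perm Q) (h x f w : Q) : Prop where
  orth : Orth θ
  hh : h * h = 1
  xx : x * x = h
  comm : ∀ y, h * y = y * h
  nodup : [1, h, x, h * x, f, h * f, w, h * w].Nodup
  all : ∀ y, y ∈ [1, h, x, h * x, f, h * f, w, h * w]
  θx : θ x = f
  θf : θ f = w
  θw : θ w = h * w
  θhw : θ (h * w) = x
  θhx : θ (h * x) = h
  θh : θ h = h * f
  θhf : θ (h * f) = h * x

/-- `V` is a normal subgroup of order four and exponent two. -/
structure IsV4 {G : Type} [Group G] (V : Subgroup G) : Prop where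
  normal : V.Normal
  card : Nat.card V = 4
  sq : ∀ v ∈ V, v * v = 1

/-- `G` has a cyclic subgroup of index at most two. -/
def HasCyc2 (G : Type) [Group G] : Prop := ∃ a : G, Nat.card G ≤ 2 * orderOf a

end LibRE
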