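import Pool.Agent.LibRS.T20
import Pool.Agent.LibRE29.Defs
set_option autoImplicit false
namespace LibRE
open LibRS Equiv

/-- The extension step for a normal subgroup of order three and a quotient of even order.
Proof: `LibRS.ext_core2` with `g = a = -1` and the constant function `c = -1` (in the field with three
elements every element is 0, 1 or -1, so `Prim (-1)`; `X.β h'` is additive, so `X.β h' (-z) = - X.β h' z`;
the product over `univ.erase 1` is `(-1) ^ (card Q - 1) = -1`); `z = 1`. -/
theorem ext_R2_three {F G Q : Type} [Field F] [Fintype F] [Group G] [Finite G] [Group Q] [Finite Q]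
    (X : Ext F G Q) (hF : Fintype.card F = 3) (hQ : Even (Nat.card Q)) (h : R2 Q) : R2 G := by
  classical
  obtain ⟨θ, x, h0, hθ, hc, hp⟩ := h
  have _inst : Fintype Q := Fintype.ofFinite Q
  obtain ⟨h', hh'⟩ := X.π_surj h0
  have h3 : ((3 : ℕ) : F) = 0 := by
    rw [← hF]
    exact FiniteField.cast_card_eq_zero F
  have hn0 : (-1 : F) ≠ 0 := neg_ne_zero.2 one_ne_zero
  have hn1 : (-1 : F) ≠ 1 := by
    intro hh
    apply one_ne_zero (α := F)
    have h3' : (3 : F) = 0 := by exact_mod_cast h3
    linear_combination h3' + hh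
  have hprim : Prim (-1 : F) := by
    refine ⟨hn0, fun a ha => ?_⟩
    have h2 : a ^ 2 = 1 := by
      have := FiniteField.pow_card_sub_one_eq_one a ha
      rwa [hF] at this
    rcases mul_self_eq_one_iff.1 ((sq a).symm.trans h2) with h4 | h4
    · exact ⟨0, by rw [h4, pow_zero]⟩
    · exact ⟨1, by rw [h4, pow_one]⟩
  have hcard : 1 ≤ Fintype.card Q := Fintype.card_pos
  have hQ' : Even (Fintype.card Q) := by rwa [Nat.card_eq_fintype_card] at hQ
  obtain ⟨Θ, x', k', hΘ, hΘc, hΘp, _⟩ := ext_core2 X θ x h0 hθ hc hp (-1) hprim 1 one_ne_zero h' hh'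
    (-1) hn0 hn1 (fun _ => -1) (fun _ => hn0) (fun _ => hn1) rfl rfl
    (by
      change (-1 : F) * X.β h' 1 = X.β h' (-1 * 1)
      rw [mul_one, map_neg, neg_mul, one_mul])
    (by
      change (-1 : F) * X.β h' 1 = X.β h' (-1 * 1)
      rw [mul_one, map_neg, neg_mul, one_mul])
    (by
      rw [Finset.prod_const, Finset.card_erase_of_mem (Finset.mem_univ _), Finset.card_univ]
      exact (Nat.Even.sub_odd hcard hQ' odd_one).neg_one_pow)
  exact ⟨Θ, x', k', hΘ, hΘc, hΘp⟩

end LibRE
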