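import Pool.Agent.LibRS.T09
import Pool.Agent.LibRE29.Defs
set_option autoImplicit false
namespace LibRE
open LibRS Equiv

/-- the action of `QuaternionGroup 2` on `ZMod 3` given by the signs `si` of `a 1` and `sj` of `xa 0` -/
def sgn3 (si sj : ZMod 3) : QuaternionGroup 2 → ZMod 3
  | .a i => si ^ i.val
  | .xa i => sj * si ^ i.val

private def mul3 (si sj : ZMod 3) (g h : ZMod 3 × QuaternionGroup 2) : ZMod 3 × QuaternionGroup 2 :=
  (g.1 + sgn3 si sj g.2 * h.1, g.2 * h.2)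

private def L1 : Fin 23 → ZMod 3 × QuaternionGroup 2 :=
  ![(0, .a 1), (0, .a 2), (0, .xa 0), (0, .a 3), (0, .xa 1), (0, .xa 3), (0, .xa 2), (1, .a 0), (2, .a 0), (1, .a 1), (2, .a 2), (1, .xa 1), (2, .xa 3), (1, .a 3), (2, .xa 0), (1, .xa 0), (2, .a 3), (1, .xa 2), (2, .xa 1), (1, .xa 3), (2, .a 1), (2, .xa 2), (1, .a 2)]

private def D1 : Fin 23 → ZMod 3 × QuaternionGroup 2 :=
  ![(0, .a 1), (0, .xa 2), (0, .xa 1), (0, .xa 0), (0, .a 2), (0, .a 3), (1, .xa 0), (1, .a 0), (2, .a 1), (1, .a 1), (2, .xa 3), (1, .a 2), (2, .xa 0), (1, .xa 3), (2, .a 0), (1, .xa 1), (2, .xa 1), (1, .a 3), (2, .a 2), (1, .xa 2), (0, .xa 3), (2, .xa 2), (2, .a 3)]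

private def L2 : Fin 23 → ZMod 3 × QuaternionGroup 2 :=
  ![(0, .a 1), (0, .a 2), (0, .xa 0), (0, .a 3), (0, .xa 1), (0, .xa 3), (0, .xa 2), (1, .a 0), (2, .a 0), (1, .a 1), (2, .a 2), (1, .xa 3), (2, .xa 2), (2, .a 3), (1, .xa 0), (2, .xa 0), (1, .a 2), (2, .xa 1), (1, .a 3), (2, .a 1), (1, .xa 1), (2, .xa 3), (1, .xa 2)]

private def D2 : Fin 23 → ZMod 3 × QuaternionGroup 2 :=
  ![(0, .a 1), (0, .xa 2), (0, .xa 1), (0, .xa 0), (0, .a 2), (0, .a 3), (2, .xa 0), (1, .a 0), (2, .a 1), (1, .a 1), (2, .xa 1), (2, .a 3), (0, .xa 3), (2, .xa 3), (2, .a 0), (1, .xa 0), (1, .xa 3), (1, .xa 2), (1, .a 2), (2, .xa 2), (2, .a 2), (1, .a 3), (1, .xa 1)]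

private def L3 : Fin 23 → ZMod 3 × QuaternionGroup 2 :=
  ![(0, .a 1), (0, .a 2), (0, .xa 0), (0, .a 3), (0, .xa 1), (0, .xa 3), (0, .xa 2), (1, .a 1), (2, .a 0), (1, .a 0), (2, .a 1), (1, .a 3), (2, .xa 3), (1, .a 2), (2, .xa 0), (1, .xa 2), (2, .xa 2), (1, .xa 3), (2, .a 3), (1, .xa 1), (2, .a 2), (2, .xa 1), (1, .xa 0)]

private def D3 : Fin 23 → ZMod 3 × QuaternionGroup 2 :=
  ![(0, .a 1), (0, .xa 2), (0, .xa 1), (0, .xa 0), (0, .a 2), (0, .a 3), (1, .xa 1), (2, .a 3), (2, .a 0), (1, .a 1), (1, .a 2), (2, .xa 2), (1, .xa 3), (1, .xa 2), (2, .a 2), (1, .a 0), (2, .a 1), (2, .xa 0), (1, .xa 0), (2, .xa 1), (0, .xa 3), (1, .a 3), (2, .xa 3)]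

private def L4 : Fin 23 → ZMod 3 × QuaternionGroup 2 :=
  ![(0, .a 1), (0, .a 2), (0, .xa 0), (0, .a 3), (0, .xa 1), (0, .xa 3), (0, .xa 2), (1, .a 1), (2, .a 0), (1, .a 0), (2, .a 1), (1, .a 3), (2, .xa 3), (1, .a 2), (2, .xa 2), (1, .xa 1), (2, .a 3), (2, .xa 0), (1, .xa 0), (2, .xa 1), (1, .xa 3), (2, .a 2), (1, .xa 2)]

private def D4 : Fin 23 → ZMod 3 × QuaternionGroup 2 :=
  ![(0, .a 1), (0, .xa 2), (0, .xa 1), (0, .xa 0), (0, .a 2), (0, .a 3), (2, .xa 1), (2, .a 3), (2, .a 0), (1, .a 1), (1, .a 2), (2, .xa 2), (2, .xa 3), (1, .xa 0), (1, .a 3), (1, .xa 2), (0, .xa 3), (1, .a 0), (2, .a 1), (2, .a 2), (1, .xa 3), (2, .xa 0), (1, .xa 1)]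


/-- from a table to `R2` -/
private theorem R2_of_table {G : Type} [Group G] (e : ZMod 3 × QuaternionGroup 2 → G)
    (he : Function.Bijective e) (si sj : ZMod 3)
    (hmul : ∀ g h, e g * e h = e (mul3 si sj g h)) (h11 : mul3 si sj (0, 1) (0, 1) = (0, 1))
    (L D : Fin 23 → ZMod 3 × QuaternionGroup 2)
    (hL : Function.Injective L) (hD : Function.Injective D)
    (hL1 : ∀ i, L i ≠ (0, 1)) (hD1 : ∀ i, D i ≠ (0, 1))
    (hsurj : ∀ g : ZMod 3 × QuaternionGroup 2, g ≠ (0, 1) → ∃ i, L i = g)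
    (hLD : ∀ i, mul3 si sj (L i) (D i) = L (i + 1)) (i0 j0 : Fin 23)
    (hx : mul3 si sj (L j0) (L i0) = L (j0 - 1))
    (hf : mul3 si sj (L j0) (L (i0 + 1)) = L (j0 + 1))
    (hnd : [i0, j0 - 1, j0, i0 + 1, j0 + 1].Nodup) : R2 G := by
  have he1 : e (0, 1) = 1 := by
    have h := hmul (0, 1) (0, 1)
    rw [h11] at h
    exact mul_eq_left.mp h
  -- the coding of the elements
  set c : Option (Fin 23) → G := fun o => o.elim 1 (fun i => e (L i)) with hc
  have c0 : c none = 1 := rfl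
  have c1 : ∀ i, c (some i) = e (L i) := fun i => rfl
  have hcb : Function.Bijective c := by
    constructor
    · intro a b hab
      cases a with
      | none =>
        cases b with
        | none => rfl
        | some j =>
          exfalso
          rw [c0, c1, ← he1] at hab
          exact hL1 j (he.1 hab).symm
      | some i =>
        cases b with
        | none =>
          exfalso
          rw [c0, c1, ← he1] at hab
          exact hL1 i (he.1 hab)
        | some j =>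
          rw [c1, c1] at hab
          rw [hL (he.1 hab)]
    · intro g
      obtain ⟨m, hm⟩ := he.2 g
      by_cases h : m = (0, 1)
      · exact ⟨none, by rw [c0, ← hm, h, he1]⟩
      · obtain ⟨i, hi⟩ := hsurj m h
        exact ⟨some i, by rw [c1, hi, hm]⟩
  set E : Option (Fin 23) ≃ G := Equiv.ofBijective c hcb with hE
  set θ : Perm G := E.permCongr (Equiv.optionCongr (Equiv.addRight (1 : Fin 23))) with hθ
  have θ0 : θ 1 = 1 := by
    have h1 : E.symm 1 = none := by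
      rw [Equiv.symm_apply_eq]; rfl
    rw [hθ, Equiv.permCongr_apply, h1]
    rfl
  have θ1 : ∀ i, θ (e (L i)) = e (L (i + 1)) := by
    intro i
    have h1 : E.symm (e (L i)) = some i := by
      rw [Equiv.symm_apply_eq]; rfl
    rw [hθ, Equiv.permCongr_apply, h1]
    rfl
  have quot : ∀ i, (e (L i))⁻¹ * θ (e (L i)) = e (D i) := by
    intro i
    rw [inv_mul_eq_iff_eq_mul, θ1, hmul, hLD]
  have hcov : ∀ g : G, g = 1 ∨ ∃ i, g = e (L i) := by
    intro g
    obtain ⟨o, ho⟩ := hcb.2 g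
    cases o with
    | none => left; rw [← ho, c0]
    | some i => right; exact ⟨i, by rw [← ho, c1]⟩
  have heD : ∀ i, e (D i) ≠ 1 := by
    intro i h
    rw [← he1] at h
    exact hD1 i (he.1 h)
  refine ⟨θ, e (L i0), e (L j0), ⟨θ0, ?_⟩, ?_, ?_, ?_, ?_⟩
  · intro x y hxy
    rcases hcov x with hx' | ⟨i, hi⟩
    · rcases hcov y with hy' | ⟨j, hj⟩
      · rw [hx', hy']
      · exfalso
        have : (1 : G)⁻¹ * θ 1 = (e (L j))⁻¹ * θ (e (L j)) := by
          rw [hx', hj] at hxy; exact hxy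
        rw [θ0, quot, inv_one, mul_one] at this
        exact heD j this.symm
    · rcases hcov y with hy' | ⟨j, hj⟩
      · exfalso
        have : (e (L i))⁻¹ * θ (e (L i)) = (1 : G)⁻¹ * θ 1 := by
          rw [hi, hy'] at hxy; exact hxy
        rw [θ0, quot, inv_one, mul_one] at this
        exact heD i this
      · have : (e (L i))⁻¹ * θ (e (L i)) = (e (L j))⁻¹ * θ (e (L j)) := by
          rw [hi, hj] at hxy; exact hxy
        rw [quot, quot] at this
        rw [hi, hj, hD (he.1 this)]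
  · have hpow : ∀ (m : ℕ) (i : Fin 23), (θ ^ m) (e (L i)) = e (L (i + m • (1 : Fin 23))) := by
      intro m
      induction m with
      | zero => intro i; simp
      | succ m ih =>
        intro i
        rw [pow_succ', Perm.mul_apply, ih, θ1, succ_nsmul, add_assoc]
    intro x y hx' hy'
    rcases hcov x with h | ⟨i, hi⟩
    · exact absurd h hx'
    rcases hcov y with h | ⟨j, hj⟩
    · exact absurd h hy'
    refine ⟨((j - i : Fin 23).val : ℤ), ?_⟩
    have hd : ∀ x : Fin 23, x.val • (1 : Fin 23) = x := by decide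
    rw [zpow_natCast, hi, hj, hpow, hd, add_sub_cancel]
  · rw [hmul, hx, θ1, sub_add_cancel]
  · rw [θ1, θ1, hmul, hf]
  · rw [hmul, hx, θ1, hmul, hf]
    have h1 : Function.Injective (fun i => e (L i)) := he.1.comp hL
    have h2 := hnd.map h1
    rw [List.nodup_cons]
    refine ⟨?_, h2⟩
    intro hmem
    simp only [List.mem_cons, List.not_mem_nil, or_false] at hmem
    have h3 : ∀ i, (1 : G) ≠ e (L i) := by
      intro i h
      rw [← he1] at h
      exact hL1 i (he.1 h).symm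
    rcases hmem with h | h | h | h | h
    · exact h3 _ h
    · exact h3 _ h
    · exact h3 _ h
    · exact h3 _ h
    · exact h3 _ h

/-- Groups of order 24 with a normal subgroup of order three and quotient `Q_8`, in coordinates `g = N n * C q`
(`(N n * C q) * (N n' * C q') = N (n + sgn3 q * n') * C (q * q')`). The sequencings below (found by computer; cyclic list of the
23 elements `(n, q)`, to be verified by `decide` on tables, e.g. in the explicit group structure on `ZMod 3 × QuaternionGroup 2`, and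
transported with `R2_of_equiv`) have the pattern with the given `x`, `h`:
(si,sj)=(1,1): (0,a 1) (0,a 2) (0,xa 0) (0,a 3) (0,xa 1) (0,xa 3) (0,xa 2) (1,a 0) (2,a 0) (1,a 1) (2,a 2) (1,xa 1) (2,xa 3) (1,a 3) (2,xa 0) (1,xa 0) (2,a 3) (1,xa 2) (2,xa 1) (1,xa 3) (2,a 1) (2,xa 2) (1,a 2) ; x = (1,xa 0) h = (1,a 2)
(si,sj)=(1,-1): (0,a 1) (0,a 2) (0,xa 0) (0,a 3) (0,xa 1) (0,xa 3) (0,xa 2) (1,a 0) (2,a 0) (1,a 1) (2,a 2) (1,xa 3) (2,xa 2) (2,a 3) (1,xa 0) (2,xa 0) (1,a 2) (2,xa 1) (1,a 3) (2,a 1) (1,xa 1) (2,xa 3) (1,xa 2) ; x = (2,a 1) h = (1,xa 2)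
(si,sj)=(-1,1): (0,a 1) (0,a 2) (0,xa 0) (0,a 3) (0,xa 1) (0,xa 3) (0,xa 2) (1,a 1) (2,a 0) (1,a 0) (2,a 1) (1,a 3) (2,xa 3) (1,a 2) (2,xa 0) (1,xa 2) (2,xa 2) (1,xa 3) (2,a 3) (1,xa 1) (2,a 2) (2,xa 1) (1,xa 0) ; x = (1,xa 3) h = (1,a 1)
(si,sj)=(-1,-1): (0,a 1) (0,a 2) (0,xa 0) (0,a 3) (0,xa 1) (0,xa 3) (0,xa 2) (1,a 1) (2,a 0) (1,a 0) (2,a 1) (1,a 3) (2,xa 3) (1,a 2) (2,xa 2) (1,xa 1) (2,a 3) (2,xa 0) (1,xa 0) (2,xa 1) (1,xa 3) (2,a 2) (1,xa 2) ; x = (2,xa 2) h = (1,xa 2)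
-/
theorem Q8_three_model {G : Type} [Group G] [Finite G] (N : ZMod 3 → G)
    (N_add : ∀ i j, N (i + j) = N i * N j) (C : QuaternionGroup 2 →* G) (si sj : ZMod 3)
    (hsi : si = 1 ∨ si = -1) (hsj : sj = 1 ∨ sj = -1)
    (hact : ∀ q n, C q * N n = N (sgn3 si sj q * n) * C q)
    (hinj : ∀ n q n' q', N n * C q = N n' * C q' → n = n' ∧ q = q')
    (hsurj : ∀ g, ∃ n q, g = N n * C q) : R2 G := by
  have hb : Function.Bijective (fun g : ZMod 3 × QuaternionGroup 2 => N g.1 * C g.2) := by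
    constructor
    · rintro ⟨n, q⟩ ⟨n', q'⟩ h
      obtain ⟨h1, h2⟩ := hinj n q n' q' h
      rw [h1, h2]
    · intro g
      obtain ⟨n, q, h⟩ := hsurj g
      exact ⟨(n, q), h.symm⟩
  have hm : ∀ g h : ZMod 3 × QuaternionGroup 2,
      (N g.1 * C g.2) * (N h.1 * C h.2) = N (mul3 si sj g h).1 * C (mul3 si sj g h).2 := by
    intro g h
    show _ = N (g.1 + sgn3 si sj g.2 * h.1) * C (g.2 * h.2)
    rw [N_add, map_mul]
    calc (N g.1 * C g.2) * (N h.1 * C h.2) = N g.1 * (C g.2 * N h.1) * C h.2 := by group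
      _ = N g.1 * (N (sgn3 si sj g.2 * h.1) * C g.2) * C h.2 := by rw [hact]
      _ = _ := by group
  rcases hsi with rfl | rfl
  · rcases hsj with rfl | rfl
    · exact R2_of_table _ hb 1 1 hm (by decide) L1 D1 (by decide) (by decide) (by decide)
        (by decide) (by decide) (by decide) 15 22 (by decide) (by decide) (by decide)
    · exact R2_of_table _ hb 1 (-1) hm (by decide) L2 D2 (by decide) (by decide) (by decide)
        (by decide) (by decide) (by decide) 19 22 (by decide) (by decide) (by decide)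
  · rcases hsj with rfl | rfl
    · exact R2_of_table _ hb (-1) 1 hm (by decide) L3 D3 (by decide) (by decide) (by decide)
        (by decide) (by decide) (by decide) 17 7 (by decide) (by decide) (by decide)
    · exact R2_of_table _ hb (-1) (-1) hm (by decide) L4 D4 (by decide) (by decide) (by decide)
        (by decide) (by decide) (by decide) 14 22 (by decide) (by decide) (by decide)

end LibRE
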