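import Pool.Agent.LibRE29.Act
import Pool.Agent.LibRE29.Q8ThreeA
set_option autoImplicit false
namespace LibRE
open LibRS Equiv

private theorem q3_nu_zero {F G Q : Type} [Field F] [Group G] [Group Q] (X : Ext F G Q) :
    X.ν 0 = 1 := by
  have h := X.ν_add 0 0
  rw [add_zero] at h
  exact (mul_eq_left.mp h.symm)

private theorem q3_card {F G Q : Type} [Field F] [Fintype F] [Group G] [Finite G] [Group Q]
    (X : Ext F G Q) : Nat.card X.π.ker = Fintype.card F := by
  let f : F → X.π.ker := fun n => ⟨X.ν n, by rw [MonoidHom.mem_ker, X.π_ker]; exact ⟨n, rfl⟩⟩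
  have hf : Function.Bijective f := by
    constructor
    · intro a b hab
      exact X.ν_inj (congrArg Subtype.val hab)
    · rintro ⟨g, hg⟩
      rw [MonoidHom.mem_ker, X.π_ker] at hg
      obtain ⟨n, hn⟩ := hg
      exact ⟨n, Subtype.ext hn⟩
  rw [← Nat.card_eq_of_bijective f hf, Nat.card_eq_fintype_card]

/-- a section which is a homomorphism -/
private theorem q3_section {F G Q : Type} [Field F] [Fintype F] [Group G] [Finite G] [Group Q]
    (X : Ext F G Q) (hF : Fintype.card F = 3) (e : Q ≃* QuaternionGroup 2) :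
    ∃ C : QuaternionGroup 2 →* G, ∀ q, X.π (C q) = e.symm q := by
  have hK : Nat.card X.π.ker = 3 := by rw [q3_card X, hF]
  have hQ : Nat.card Q = 8 := by
    rw [Nat.card_congr e.toEquiv, Nat.card_eq_fintype_card, QuaternionGroup.card]
  have hI : X.π.ker.index = 8 := by
    rw [Subgroup.index_ker, MonoidHom.range_eq_top.mpr X.π_surj, Subgroup.card_top, hQ]
  obtain ⟨H, hH⟩ := Subgroup.exists_right_complement'_of_coprime (N := X.π.ker)
    (by rw [hK, hI]; norm_num)
  let f : H →* Q := X.π.comp H.subtype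
  have hf : Function.Bijective f := by
    constructor
    · rw [injective_iff_map_eq_one]
      intro a ha
      have h1 : (a : G) ∈ X.π.ker := ha
      have h2 : (a : G) ∈ X.π.ker ⊓ H := ⟨h1, a.2⟩
      rw [hH.disjoint.eq_bot, Subgroup.mem_bot] at h2
      exact Subtype.ext h2
    · intro q
      obtain ⟨g, hg⟩ := X.π_surj q
      obtain ⟨⟨k, h⟩, hkh⟩ := hH.2 g
      refine ⟨h, ?_⟩
      have h3 : X.π (k : G) = 1 := k.2
      show X.π (h : G) = q
      rw [← hg, ← hkh]
      show _ = X.π ((k : G) * (h : G))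
      rw [map_mul, h3, one_mul]
  let E : H ≃* Q := MulEquiv.ofBijective f hf
  refine ⟨H.subtype.comp (E.symm.toMonoidHom.comp e.symm.toMonoidHom), fun q => ?_⟩
  show E (E.symm (e.symm q)) = e.symm q
  exact E.apply_symm_apply _

/-- `N` of order three, quotient `Q_8`: the kernel has a complement (Schur-Zassenhaus,
`Subgroup.exists_right_complement'_of_coprime`), which is isomorphic to `Q ≃* QuaternionGroup 2` by `X.π`; so there is a
homomorphism `C : QuaternionGroup 2 →* G` with `X.π (C q) = e.symm q`. `N n = X.ν (n : F)` (`F ≃+* ZMod 3`, or `N n = ν (n.val • 1)`);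
`X.β (C q)` is an additive automorphism of a group of order three, so it is `±1`, multiplicative in `q` (`β_mul'`); `si`, `sj` its values at
`a 1`, `xa 0`; `a i = (a 1) ^ i`, `xa i = xa 0 * a i`. Then `Q8_three_model`. -/
theorem ext_Q8_three {F G Q : Type} [Field F] [Fintype F] [Group G] [Finite G] [Group Q]
    (X : Ext F G Q) (hF : Fintype.card F = 3) (e : Q ≃* QuaternionGroup 2) : R2 G := by
  obtain ⟨C, hC⟩ := q3_section X hF e
  let ψ : ZMod 3 ≃+* F := ZMod.ringEquivOfPrime F Nat.prime_three hF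
  -- the action in coordinates
  let s : QuaternionGroup 2 → ZMod 3 := fun q => ψ.symm (X.β (C q) (ψ 1))
  have hlin : ∀ q n, X.β (C q) (ψ n) = ψ (s q * n) := by
    intro q n
    have h1 : ∀ m : ℕ, X.β (C q) (ψ (m : ZMod 3)) = ψ (s q * (m : ZMod 3)) := by
      intro m
      induction m with
      | zero => simp
      | succ m ih =>
        rw [Nat.cast_succ, map_add, map_add, ih, mul_add, map_add, mul_one]
        congr 1
        exact (ψ.apply_symm_apply _).symm
    have h2 := h1 n.val
    rwa [ZMod.natCast_zmod_val] at h2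
  have hs1 : s 1 = 1 := by
    show ψ.symm (X.β (C 1) (ψ 1)) = 1
    rw [map_one C]
    have h1 : X.β 1 (ψ 1) = ψ 1 := by
      have h2 := X.β_spec 1 (ψ 1)
      rw [one_mul, mul_one] at h2
      exact (X.ν_inj h2).symm
    rw [h1, RingEquiv.symm_apply_apply]
  have hsm : ∀ q q', s (q * q') = s q * s q' := by
    intro q q'
    show ψ.symm (X.β (C (q * q')) (ψ 1)) = _
    rw [map_mul C, β_mul', hlin q' 1, mul_one, hlin, RingEquiv.symm_apply_apply]
  let S : QuaternionGroup 2 →* ZMod 3 := ⟨⟨s, hs1⟩, hsm⟩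
  have hunit : ∀ q, s q = 1 ∨ s q = -1 := by
    intro q
    have h1 : s q * s q⁻¹ = 1 := by rw [← hsm, mul_inv_cancel, hs1]
    have h2 : s q ≠ 0 := by
      intro h0
      rw [h0, zero_mul] at h1
      exact absurd h1 (by decide)
    revert h2
    generalize s q = y
    revert y
    decide
  have hsg : ∀ q, s q = sgn3 (s (.a 1)) (s (.xa 0)) q := by
    intro q
    have ha : ∀ i : ZMod (2 * 2), s (.a i) = s (.a 1) ^ i.val := by
      intro i
      have h1 : (QuaternionGroup.a i : QuaternionGroup 2) = (QuaternionGroup.a 1) ^ i.val := by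
        rw [QuaternionGroup.a_one_pow, ZMod.natCast_zmod_val]
      rw [h1]
      exact map_pow S _ _
    cases q with
    | a i => exact ha i
    | xa i =>
      have h1 : (QuaternionGroup.xa i : QuaternionGroup 2)
          = QuaternionGroup.xa 0 * QuaternionGroup.a i := by
        rw [QuaternionGroup.xa_mul_a, zero_add]
      rw [h1, hsm, ha]
      rw [← h1]
      rfl
  refine Q8_three_model (fun n => X.ν (ψ n)) ?_ C (s (.a 1)) (s (.xa 0)) (hunit _) (hunit _)
    ?_ ?_ ?_
  · intro i j
    show X.ν (ψ (i + j)) = X.ν (ψ i) * X.ν (ψ j)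
    rw [map_add, X.ν_add]
  · intro q n
    show C q * X.ν (ψ n) = X.ν (ψ (sgn3 (s (.a 1)) (s (.xa 0)) q * n)) * C q
    rw [X.β_spec, hlin, ← hsg]
  · intro n q n' q' h
    have h1 : X.π (X.ν (ψ n)) = 1 := (X.π_ker _).mpr ⟨_, rfl⟩
    have h2 : X.π (X.ν (ψ n')) = 1 := (X.π_ker _).mpr ⟨_, rfl⟩
    have h3 := congrArg X.π h
    simp only [map_mul, h1, h2, one_mul, hC] at h3
    have h4 : q = q' := e.symm.injective h3
    subst h4
    have h5 : X.ν (ψ n) = X.ν (ψ n') := mul_right_cancel h
    exact ⟨ψ.injective (X.ν_inj h5), rfl⟩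
  · intro g
    have h1 : X.π (g * (C (e (X.π g)))⁻¹) = 1 := by
      rw [map_mul, map_inv, hC, MulEquiv.symm_apply_apply, mul_inv_cancel]
    obtain ⟨m, hm⟩ := (X.π_ker _).mp h1
    refine ⟨ψ.symm m, e (X.π g), ?_⟩
    show g = X.ν (ψ (ψ.symm m)) * C (e (X.π g))
    rw [RingEquiv.apply_symm_apply, hm, inv_mul_cancel_right]

end LibRE
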