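import Pool.Agent.LibRS.T02
import Pool.Agent.LibRS.T06
import Pool.Agent.LibRS.T07
import Pool.Agent.LibRE29.Defs
set_option autoImplicit false
namespace LibRE
open LibRS Equiv

theorem Q8Core_fun {Q T : Type} [DecidableEq Q] {a1 a2 a3 a4 a5 a6 a7 a8 : Q}
    (h : [a1, a2, a3, a4, a5, a6, a7, a8].Nodup) (v1 v2 v3 v4 v5 v6 v7 v8 : T) :
    ∃ E : Q → T, E a1 = v1 ∧ E a2 = v2 ∧ E a3 = v3 ∧ E a4 = v4 ∧ E a5 = v5 ∧ E a6 = v6 ∧
      E a7 = v7 ∧ E a8 = v8 := by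
  simp only [List.nodup_cons, List.mem_cons, List.not_mem_nil, or_false, not_or,
    List.nodup_nil, and_true, not_false_eq_true] at h
  obtain ⟨⟨h12, h13, h14, h15, h16, h17, h18⟩, ⟨h23, h24, h25, h26, h27, h28⟩,
    ⟨h34, h35, h36, h37, h38⟩, ⟨h45, h46, h47, h48⟩, ⟨h56, h57, h58⟩, ⟨h67, h68⟩, h78⟩ := h
  refine ⟨fun y => if y = a8 then v8 else if y = a7 then v7 else if y = a6 then v6 else
    if y = a5 then v5 else if y = a4 then v4 else if y = a3 then v3 else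
    if y = a2 then v2 else v1, ?_, ?_, ?_, ?_, ?_, ?_, ?_, ?_⟩
  · simp [h12, h13, h14, h15, h16, h17, h18]
  · simp [h23, h24, h25, h26, h27, h28]
  · simp [h34, h35, h36, h37, h38]
  · simp [h45, h46, h47, h48]
  · simp [h56, h57, h58]
  · simp [h67, h68]
  · simp [h78]
  · simp

theorem Q8Core_inv {α : Type} [DecidableEq α] (f : Perm α) (S : Set α) (a b : α)
    (hS : ∀ y ∈ S, f y ∈ S) (hab : a ∈ S ↔ b ∈ S) : ∀ y ∈ S, (f * swap a b) y ∈ S := by
  intro y hy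
  rw [Perm.mul_apply]
  apply hS
  by_cases h1 : y = a
  · rw [h1, swap_apply_left]
    exact hab.1 (h1 ▸ hy)
  by_cases h2 : y = b
  · rw [h2, swap_apply_right]
    exact hab.2 (h2 ▸ hy)
  rw [swap_apply_of_ne_of_ne h1 h2]
  exact hy

theorem Q8Core_trade {G : Type} [Group G] [Finite G] [DecidableEq G] (Θ : Perm G) (hΘ : Orth Θ)
    (H p q : G) (h1 : Θ (H * p) = H * Θ q) (h2 : Θ (H * q) = H * Θ p)
    (n12 : p ≠ q) (n13 : p ≠ H * p) (n14 : p ≠ H * q) (n23 : q ≠ H * p) (n24 : q ≠ H * q)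
    (n34 : H * p ≠ H * q) (o1 : 1 ≠ p) (o2 : 1 ≠ q) (o3 : 1 ≠ H * p) (o4 : 1 ≠ H * q) :
    Orth (Θ * (swap p q * swap (H * p) (H * q))) ∧
    ∀ y, y ≠ p → y ≠ q → y ≠ H * p → y ≠ H * q →
      (Θ * (swap p q * swap (H * p) (H * q))) y = Θ y := by
  obtain ⟨s1, s2, s3, s4, s5⟩ := swap_swap_apply n13 n14 n23 n24
  obtain ⟨t1, t3, t2, t4, t5⟩ := swap_swap_apply (a := p) (b := H * p) (c := q) (d := H * q)
    n12 n14 n23.symm n34
  refine ⟨?_, ?_⟩
  · apply orth_trade Θ _ (swap p (H * p) * swap q (H * q)) hΘ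
    · rw [s5 1 o1 o2 o3 o4]; exact hΘ.1
    · intro y
      by_cases y1 : y = p
      · rw [y1, s1, t1, h1]; group
      by_cases y2 : y = q
      · rw [y2, s2, t2, h2]; group
      by_cases y3 : y = H * p
      · rw [y3, s3, t3, h2]; group
      by_cases y4 : y = H * q
      · rw [y4, s4, t4, h1]; group
      rw [s5 y y1 y2 y3 y4, t5 y y1 y3 y2 y4]
  · intro y y1 y2 y3 y4
    rw [Perm.mul_apply, s5 y y1 y2 y3 y4]

theorem Q8Core_turn {F G Q : Type} [Field F] [Group G] [Group Q]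
    (X : Ext F G Q) (Θ : Perm G) (k : F) (hk : Prim k) (e : G)
    (h : ∀ n, Θ.SameCycle (X.ν n * e) (X.ν (k * n) * e)) (n n' : F) (hn : n ≠ 0) (hn' : n' ≠ 0) :
    Θ.SameCycle (X.ν n * e) (X.ν n' * e) := by
  have hp : ∀ j : ℕ, Θ.SameCycle (X.ν n * e) (X.ν (k ^ j * n) * e) := by
    intro j
    induction j with
    | zero => rw [pow_zero, one_mul]
    | succ j ih =>
      refine ih.trans ?_
      have := h (k ^ j * n)
      rwa [← mul_assoc, ← pow_succ'] at this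
  obtain ⟨j, hj⟩ := hk.2 (n' / n) (div_ne_zero hn' hn)
  have h5 := hp j
  rwa [← hj, div_mul_cancel₀ _ hn] at h5

/-- Extension of the quaternion group (core). The proof is a variant of `LibRS.ext_core2`
(Pool/Agent/LibRS/T20.lean), please copy its structure; there are two trades instead of one.
Section: `E 1 = 1`, `E x = Ex`, `E f = Ef`, `E w = Ew`, `E h = H * ν z`, `E (h f) = H * Ef`,
 `E (h x) = ν (-α) * (H * Ex)`, `E (h w) = ν κ * (H * Ew)`, `κ = -(cw * s2) - η`.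
Scalars: `c 1 = g`, `c x = a`, `c (h x) = g`, `c h = a`, `c (h f) = chf`, `c f = cf`, `c w = cw`, `c (h w) = chw`.
`Θ₀ (ν n * E y) = ν (c y * n) * E (θ y)` (`LibRS.exists_lift`). Note `ε * η = η` (H commutes with H * H).
Trade A: `p₁ = Ex`, `p₂ = ν z`, `p₃ = H * Ex = ν α * E (h x)`, `p₄ = H * ν z = E h`:
 `Θ₀ p₁ = Ef`, `Θ₀ p₂ = ν (g z)`, `Θ₀ p₃ = ν (g α) * E h = H * ν (g z)` (hα), `Θ₀ p₄ = E (h f) = H * Ef`.
Trade B: `t₁ = ν (-η) * E (h f)`, `t₂ = ν s2 * Ew`, `H * t₁ = Ef`, `H * t₂ = ν (ε * s2 - κ) * E (h w)`: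
 `Θ₀ (H * t₁) = Ew = H * Θ₀ t₂` (choice of κ), `Θ₀ (H * t₂) = H * Θ₀ t₁` (this is e1).
The eight points are distinct (different cosets). `Orth` by `LibRS.orth_trade` twice (or once with the product).
Cycles of `Θ₀` on `G \ 1`: `N = ν (F \ 0)`; `S1 = {E (h x), E h, E (h f)}`, `R1 = {ν n * E y | n ≠ 0, y one of these}`,
 `S2 = {Ex, Ef, Ew, E (h w)}`, `R2 = {ν n * E y | n ≠ 0, y ∈ {x, f, w, h w}}` (hP1, hP2 primitive).
 Use `LibRS.sameCycle_mul_swap` four times: `p₁ p₂` joins S2 and N; `p₃ p₄` joins R1 (α ≠ 0) and S1; `t₁ t₂` joins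
 `S1 ∪ R1` with the cycle of `t₂` (S2 ∪ N or R2); `H t₁, H t₂` joins the two remaining cycles (`Ef ∈ S2`,
 `H t₂ ∈ R2` because `ε * s2 - κ ≠ 0` by e1, e2). (A set invariant under `f` containing both or none of `a, b` is
 invariant under `f * swap a b`: use `LibRS.not_sameCycle_of_inv`.)
Pattern: `x' = ν (-z) * Ex`, `h' = H = ν (-(ε z)) * E h`: `Θ x' = ν (-(a z)) * Ef`,
 `H * x' = ν (α - ε z) * E (h x) ↦ ν (-(ε z)) * E h = H`, `Θ H = ν (-(a ε z)) * E (h f) = H * Θ x'`; the projections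
 `1, x, h x, h, f, h f` are distinct. These three points are not among the eight points of the trades. -/
theorem ext_Q8_core {F G Q : Type} [Field F] [Fintype F] [Group G] [Finite G] [Group Q] [Fintype Q]
    [DecidableEq Q] (X : Ext F G Q) (θ : Perm Q) (h x f w : Q) (hP : Q8P θ h x f w)
    (H Ex Ef Ew : G) (hH : X.π H = h) (hEx : X.π Ex = x) (hEf : X.π Ef = f) (hEw : X.π Ew = w)
    (ε : F) (hβ : ∀ n, X.β H n = ε * n) (hε : ε * ε = 1) (η : F) (hη : H * H = X.ν η)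
    (g a chf cf cw chw z s2 α : F) (hg : Prim g) (hg1 : g ≠ 1)
    (hP1 : Prim (g * a * chf)) (hP2 : Prim (a * cf * cw * chw))
    (ha0 : a ≠ 0) (ha1 : a ≠ 1) (h10 : chf ≠ 0) (h11 : chf ≠ 1) (h20 : cf ≠ 0) (h21 : cf ≠ 1)
    (h30 : cw ≠ 0) (h31 : cw ≠ 1) (h40 : chw ≠ 0) (h41 : chw ≠ 1) (hz : z ≠ 0)
    (hα : g * α = ε * (g * z - z))
    (e1 : chw * (ε * s2 + cw * s2 + η) = η - chf * η - ε * α)
    (e2 : η - chf * η - ε * α ≠ 0) : R2 G := by
  classical
  have hnd := hP.nodup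
  simp only [List.nodup_cons, List.mem_cons, List.not_mem_nil, or_false, not_or,
    List.nodup_nil, and_true, not_false_eq_true] at hnd
  obtain ⟨⟨u1h, u1x, u1hx, u1f, u1hf, u1w, u1hw⟩, ⟨uhx, uhhx, uhf, uhhf, uhw, uhhw⟩,
    ⟨uxhx, uxf, uxhf, uxw, uxhw⟩, ⟨uhxf, uhxhf, uhxw, uhxhw⟩, ⟨ufhf, ufw, ufhw⟩,
    ⟨uhfw, uhfhw⟩, uwhw⟩ := hnd
  have hall : ∀ y : Q, y = 1 ∨ y = h ∨ y = x ∨ y = h * x ∨ y = f ∨ y = h * f ∨ y = w ∨
      y = h * w := by
    intro y
    have := hP.all y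
    simpa only [List.mem_cons, List.not_mem_nil, or_false] using this
  have hθ := hP.orth
  have hθ1 : θ 1 = 1 := hθ.1
  obtain ⟨κ, hκ⟩ : ∃ κ : F, κ = -(cw * s2) - η := ⟨_, rfl⟩
  have hε0 : ε ≠ 0 := by
    rintro rfl
    rw [mul_zero] at hε
    exact zero_ne_one hε
  -- commutation with `H`
  have hHν : ∀ (n : F) (y : G), H * (X.ν n * y) = X.ν (ε * n) * (H * y) := by
    intro n y
    rw [X.mul_ν', hβ]
  have hHν1 : ∀ n : F, H * X.ν n = X.ν (ε * n) * H := by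
    intro n
    rw [X.mul_ν, hβ]
  have hεη : ε * η = η := by
    have h5 : H * (H * H) = (H * H) * H := (mul_assoc _ _ _).symm
    rw [hη, hHν1] at h5
    exact X.ν_inj (mul_right_cancel h5)
  have hHH : ∀ y : G, H * (H * y) = X.ν η * y := by
    intro y
    rw [← mul_assoc, hη]
  -- the section
  obtain ⟨E, hE1, hEh, hEx', hEhx, hEf', hEhf, hEw', hEhw⟩ := Q8Core_fun hP.nodup (1 : G)
    (H * X.ν z) Ex (X.ν (-α) * (H * Ex)) Ef (H * Ef) Ew (X.ν κ * (H * Ew))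
  have hEπ : ∀ y, X.π (E y) = y := by
    intro y
    rcases hall y with rfl | rfl | rfl | rfl | rfl | rfl | rfl | rfl
    · rw [hE1, map_one]
    · rw [hEh, map_mul, X.π_ν, hH, mul_one]
    · rw [hEx', hEx]
    · rw [hEhx, map_mul, map_mul, X.π_ν, hH, hEx, one_mul]
    · rw [hEf', hEf]
    · rw [hEhf, map_mul, hH, hEf]
    · rw [hEw', hEw]
    · rw [hEhw, map_mul, map_mul, X.π_ν, hH, hEw, one_mul]
  -- the scalars
  obtain ⟨c, c1, ch, cx, chx, cf', chf', cw', chw'⟩ := Q8Core_fun hP.nodup g a a g cf chf cw chw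
  have hc0 : ∀ y, c y ≠ 0 := by
    intro y
    rcases hall y with h0 | h0 | h0 | h0 | h0 | h0 | h0 | h0 <;> rw [h0]
    · rw [c1]; exact hg.1
    · rw [ch]; exact ha0
    · rw [cx]; exact ha0
    · rw [chx]; exact hg.1
    · rw [cf']; exact h20
    · rw [chf']; exact h10
    · rw [cw']; exact h30
    · rw [chw']; exact h40
  have hc1 : ∀ y, c y ≠ 1 := by
    intro y
    rcases hall y with h0 | h0 | h0 | h0 | h0 | h0 | h0 | h0 <;> rw [h0]
    · rw [c1]; exact hg1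
    · rw [ch]; exact ha1
    · rw [cx]; exact ha1
    · rw [chx]; exact hg1
    · rw [cf']; exact h21
    · rw [chf']; exact h11
    · rw [cw']; exact h31
    · rw [chw']; exact h41
  obtain ⟨Θ₀, hΘ₀, hform⟩ := exists_lift X θ hθ c hc0 hc1 E hEπ hE1
  have hΘE : ∀ y, Θ₀ (E y) = E (θ y) := by
    intro y
    have := hform 0 y
    rwa [mul_zero, X.ν_zero, one_mul, one_mul] at this
  have hΘN : ∀ n, Θ₀ (X.ν n) = X.ν (g * n) := by
    intro n
    have := hform n 1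
    rwa [hE1, mul_one, c1, hθ1, hE1, mul_one] at this
  -- multiplication by `H`
  have hHx : H * Ex = X.ν α * E (h * x) := by
    rw [hEhx, X.ν_mul', add_neg_cancel, X.ν_zero, one_mul]
  have hHE : H = X.ν (-(ε * z)) * E h := by
    rw [hEh, hHν1, ← mul_assoc, X.ν_mul, neg_add_cancel, X.ν_zero, one_mul]
  have hHw : H * Ew = X.ν (-κ) * E (h * w) := by
    rw [hEhw, X.ν_mul', neg_add_cancel, X.ν_zero, one_mul]
  have hHEhx : H * E (h * x) = X.ν (η - ε * α) * Ex := by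
    rw [hEhx, hHν, hHH, X.ν_mul']
    congr 2
    ring
  have hHEhf : H * E (h * f) = X.ν η * Ef := by
    rw [hEhf, hHH]
  have hHEhw : H * E (h * w) = X.ν (ε * κ + η) * Ew := by
    rw [hEhw, hHν, hHH, X.ν_mul']
  -- trade A
  obtain ⟨p₁, hp₁⟩ : ∃ p : G, p = Ex := ⟨_, rfl⟩
  obtain ⟨p₂, hp₂⟩ : ∃ p : G, p = X.ν z := ⟨_, rfl⟩
  obtain ⟨t₁, ht₁⟩ : ∃ p : G, p = X.ν (-η) * E (h * f) := ⟨_, rfl⟩
  obtain ⟨t₂, ht₂⟩ : ∃ p : G, p = X.ν s2 * Ew := ⟨_, rfl⟩
  have hp₁E : p₁ = E x := by rw [hp₁, hEx']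
  have hp₃E : H * p₁ = X.ν α * E (h * x) := by rw [hp₁, hHx]
  have hp₄E : H * p₂ = E h := by rw [hp₂, hEh]
  have ht₂E : t₂ = X.ν s2 * E w := by rw [ht₂, hEw']
  have ht₃E : H * t₁ = E f := by
    rw [ht₁, hHν, hHEhf, X.ν_mul', hEf', mul_neg, hεη, neg_add_cancel, X.ν_zero, one_mul]
  have ht₄E : H * t₂ = X.ν (ε * s2 - κ) * E (h * w) := by
    rw [ht₂, hHν, hHw, X.ν_mul', sub_eq_add_neg]
  have π₁ : X.π p₁ = x := by rw [hp₁, hEx]
  have π₂ : X.π p₂ = 1 := by rw [hp₂]; exact X.π_ν z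
  have π₃ : X.π (H * p₁) = h * x := by rw [map_mul, hH, π₁]
  have π₄ : X.π (H * p₂) = h := by rw [map_mul, hH, π₂, mul_one]
  have π₅ : X.π t₁ = h * f := by rw [ht₁, map_mul, X.π_ν, one_mul, hEπ]
  have π₆ : X.π t₂ = w := by rw [ht₂, map_mul, X.π_ν, one_mul, hEw]
  have π₇ : X.π (H * t₁) = f := by rw [ht₃E, hEπ]
  have π₈ : X.π (H * t₂) = h * w := by rw [map_mul, hH, π₆]
  have ne_of_π : ∀ {a b : G}, X.π a ≠ X.π b → a ≠ b := fun hab hab' => hab (by rw [hab'])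
  have np : ∀ {a b : G} {q r : Q}, X.π a = q → X.π b = r → q ≠ r → a ≠ b := by
    intro a b q r ha hb hqr
    exact ne_of_π (by rw [ha, hb]; exact hqr)
  have a₁ : Θ₀ p₁ = Ef := by rw [hp₁E, hΘE, hP.θx, hEf']
  have a₂ : Θ₀ p₂ = X.ν (g * z) := by rw [hp₂]; exact hΘN z
  have a₃ : Θ₀ (H * p₁) = H * Θ₀ p₂ := by
    rw [hp₃E, hform, chx, hP.θhx, hα, hEh, a₂, hHν1, hHν1, X.ν_mul']
    congr 2
    ring
  have a₄ : Θ₀ (H * p₂) = H * Θ₀ p₁ := by
    rw [hp₄E, hΘE, hP.θh, hEhf, a₁]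
  obtain ⟨hOA, hoffA⟩ := Q8Core_trade Θ₀ hΘ₀ H p₁ p₂ a₃ a₄
    (np π₁ π₂ (Ne.symm u1x)) (np π₁ π₃ uxhx) (np π₁ π₄ (Ne.symm uhx))
    (np π₂ π₃ u1hx) (np π₂ π₄ u1h) (np π₃ π₄ (Ne.symm uhhx))
    (np (map_one _) π₁ u1x) (fun h0 => hz (X.ν_eq_one (hp₂.symm.trans h0.symm)))
    (np (map_one _) π₃ u1hx) (np (map_one _) π₄ u1h)
  -- trade B
  have b₁ : Θ₀ t₁ = X.ν (chf * -η) * E (h * x) := by rw [ht₁, hform, chf', hP.θhf]
  have b₂ : Θ₀ t₂ = X.ν (cw * s2) * E (h * w) := by rw [ht₂E, hform, cw', hP.θw]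
  have b₃ : Θ₀ (H * t₁) = H * Θ₀ t₂ := by
    rw [b₂, hHν, hHEhw, X.ν_mul', ht₃E, hΘE, hP.θf, hEw']
    have : ε * (cw * s2) + (ε * κ + η) = 0 := by
      rw [hκ]
      linear_combination -hεη
    rw [this, X.ν_zero, one_mul]
  have b₄ : Θ₀ (H * t₂) = H * Θ₀ t₁ := by
    rw [b₁, hHν, hHEhx, X.ν_mul', ht₄E, hform, chw', hP.θhw, hEx']
    congr 2
    rw [hκ]
    linear_combination e1 + chf * hεη
  have off : ∀ y, y ≠ p₁ → y ≠ p₂ → y ≠ H * p₁ → y ≠ H * p₂ →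
      (Θ₀ * (swap p₁ p₂ * swap (H * p₁) (H * p₂))) y = Θ₀ y := hoffA
  have q₁ := off t₁ (np π₅ π₁ (Ne.symm uxhf)) (np π₅ π₂ (Ne.symm u1hf))
    (np π₅ π₃ (Ne.symm uhxhf)) (np π₅ π₄ (Ne.symm uhhf))
  have q₂ := off t₂ (np π₆ π₁ (Ne.symm uxw)) (np π₆ π₂ (Ne.symm u1w))
    (np π₆ π₃ (Ne.symm uhxw)) (np π₆ π₄ (Ne.symm uhw))
  have q₃ := off (H * t₁) (np π₇ π₁ (Ne.symm uxf)) (np π₇ π₂ (Ne.symm u1f))
    (np π₇ π₃ (Ne.symm uhxf)) (np π₇ π₄ (Ne.symm uhf))
  have q₄ := off (H * t₂) (np π₈ π₁ (Ne.symm uxhw)) (np π₈ π₂ (Ne.symm u1hw))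
    (np π₈ π₃ (Ne.symm uhxhw)) (np π₈ π₄ (Ne.symm uhhw))
  obtain ⟨hOB, hoffB⟩ := Q8Core_trade (Θ₀ * (swap p₁ p₂ * swap (H * p₁) (H * p₂))) hOA H t₁ t₂
    (by rw [q₃, q₂]; exact b₃) (by rw [q₄, q₁]; exact b₄)
    (np π₅ π₆ uhfw) (np π₅ π₇ (Ne.symm ufhf)) (np π₅ π₈ uhfhw)
    (np π₆ π₇ (Ne.symm ufw)) (np π₆ π₈ uwhw) (np π₇ π₈ ufhw)
    (np (map_one _) π₅ u1hf) (np (map_one _) π₆ u1w)
    (np (map_one _) π₇ u1f) (np (map_one _) π₈ u1hw)
  set Θ : Perm G := Θ₀ * (swap p₁ p₂ * swap (H * p₁) (H * p₂)) *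
    (swap t₁ t₂ * swap (H * t₁) (H * t₂)) with hΘ
  -- non-vanishing
  have hgz : g * z - z ≠ 0 := by
    intro h0
    have : (g - 1) * z = 0 := by linear_combination h0
    rcases mul_eq_zero.1 this with h2 | h2
    · exact hg1 (sub_eq_zero.1 h2)
    · exact hz h2
  have hα0 : α ≠ 0 := by
    rintro rfl
    rw [mul_zero] at hα
    exact mul_ne_zero hε0 hgz hα.symm
  have hr0 : ε * s2 - κ ≠ 0 := by
    intro h0
    have h5 : ε * s2 + cw * s2 + η = 0 := by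
      rw [hκ] at h0
      linear_combination h0
    rw [h5, mul_zero] at e1
    exact e2 e1.symm
  -- the four steps
  obtain ⟨f1, hf1⟩ : ∃ k : Perm G, k = Θ₀ * swap p₁ p₂ := ⟨_, rfl⟩
  obtain ⟨f2, hf2⟩ : ∃ k : Perm G, k = f1 * swap (H * p₁) (H * p₂) := ⟨_, rfl⟩
  obtain ⟨f3, hf3⟩ : ∃ k : Perm G, k = f2 * swap t₁ t₂ := ⟨_, rfl⟩
  have hΘf : Θ = f3 * swap (H * t₁) (H * t₂) := by
    rw [hΘ, hf3, hf2, hf1]
    simp only [mul_assoc]
  -- invariant sets
  have m0 : ¬ Θ₀.SameCycle p₁ p₂ := by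
    intro hs
    refine not_sameCycle_of_inv Θ₀ {y | X.π y = 1} ?_ (a := p₂) (b := p₁) π₂ ?_ hs.symm
    · intro y hy
      obtain ⟨n, rfl⟩ := (X.π_ker y).1 hy
      rw [hΘN]
      exact X.π_ν _
    · intro hy
      exact u1x (π₁.symm.trans hy).symm
  -- `S₁`
  have m2 : ¬ f1.SameCycle (H * p₁) (H * p₂) := by
    intro hs
    refine not_sameCycle_of_inv f1 {y | y = E (h * x) ∨ y = E h ∨ y = E (h * f)} ?_
      (a := H * p₂) (b := H * p₁) ?_ ?_ hs.symm
    · rw [hf1]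
      apply Q8Core_inv
      · rintro y (rfl | rfl | rfl)
        · exact Or.inr (Or.inl (by rw [hΘE, hP.θhx]))
        · exact Or.inr (Or.inr (by rw [hΘE, hP.θh]))
        · exact Or.inl (by rw [hΘE, hP.θhf])
      · refine iff_of_false ?_ ?_
        · rintro (h0 | h0 | h0)
          · exact np π₁ (hEπ _) uxhx h0
          · exact np π₁ (hEπ _) (Ne.symm uhx) h0
          · exact np π₁ (hEπ _) uxhf h0
        · rintro (h0 | h0 | h0)
          · exact np π₂ (hEπ _) u1hx h0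
          · exact np π₂ (hEπ _) u1h h0
          · exact np π₂ (hEπ _) u1hf h0
    · exact Or.inr (Or.inl hp₄E)
    · rintro (h0 | h0 | h0)
      · have h2 : X.ν α * E (h * x) = X.ν 0 * E (h * x) := by
          rw [← hp₃E, h0, X.ν_zero, one_mul]
        exact hα0 (X.coord_inj hEπ h2).1
      · exact np π₃ (hEπ _) (Ne.symm uhhx) h0
      · exact np π₃ (hEπ _) uhxhf h0
  have hπΘ : ∀ y, X.π (Θ₀ y) = θ (X.π y) := by
    intro y
    obtain ⟨n, hn⟩ := X.exists_coord hEπ y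
    conv_lhs => rw [hn]
    rw [hform, map_mul, X.π_ν, one_mul, hEπ]
  -- `U₁`
  have m4 : ¬ f2.SameCycle t₁ t₂ := by
    refine not_sameCycle_of_inv f2 {y | X.π y = h * x ∨ X.π y = h ∨ X.π y = h * f} ?_ ?_ ?_
    · rw [hf2]
      apply Q8Core_inv
      · rw [hf1]
        apply Q8Core_inv
        · rintro y (h0 | h0 | h0)
          · exact Or.inr (Or.inl (by rw [hπΘ, h0, hP.θhx]))
          · exact Or.inr (Or.inr (by rw [hπΘ, h0, hP.θh]))
          · exact Or.inl (by rw [hπΘ, h0, hP.θhf])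
        · refine iff_of_false ?_ ?_
          · rintro (h0 | h0 | h0)
            · exact uxhx (π₁.symm.trans h0)
            · exact uhx (π₁.symm.trans h0).symm
            · exact uxhf (π₁.symm.trans h0)
          · rintro (h0 | h0 | h0)
            · exact u1hx (π₂.symm.trans h0)
            · exact u1h (π₂.symm.trans h0)
            · exact u1hf (π₂.symm.trans h0)
      · exact iff_of_true (Or.inl π₃) (Or.inr (Or.inl π₄))
    · exact Or.inr (Or.inr π₅)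
    · rintro (h0 | h0 | h0)
      · exact uhxw (h0.symm.trans π₆)
      · exact uhw (h0.symm.trans π₆)
      · exact uhfw (h0.symm.trans π₆)
  have m6 : ¬ f3.SameCycle (H * t₁) (H * t₂) := by
    by_cases hs0 : s2 = 0
    · intro hs
      refine not_sameCycle_of_inv f3 {y | ∃ n q, n ≠ 0 ∧ (q = x ∨ q = f ∨ q = w ∨ q = h * w) ∧
        y = X.ν n * E q} ?_ (a := H * t₂) (b := H * t₁) ?_ ?_ hs.symm
      · have hπn : ∀ (y : G) (r : Q), X.π y = r → r ≠ x → r ≠ f → r ≠ w → r ≠ h * w →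
            ¬ ∃ n q, n ≠ 0 ∧ (q = x ∨ q = f ∨ q = w ∨ q = h * w) ∧ y = X.ν n * E q := by
          rintro y r hy r1 r2 r3 r4 ⟨n, q, -, hq, rfl⟩
          rw [map_mul, X.π_ν, one_mul, hEπ] at hy
          rcases hq with rfl | rfl | rfl | rfl
          · exact r1 hy.symm
          · exact r2 hy.symm
          · exact r3 hy.symm
          · exact r4 hy.symm
        have hEn : ∀ r : Q, ¬ ∃ n q, n ≠ 0 ∧ (q = x ∨ q = f ∨ q = w ∨ q = h * w) ∧
            E r = X.ν n * E q := by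
          rintro r ⟨n, q, hn, -, h0⟩
          have h2 : X.ν 0 * E r = X.ν n * E q := by rw [X.ν_zero, one_mul, h0]
          exact hn (X.coord_inj hEπ h2).1.symm
        rw [hf3]
        apply Q8Core_inv
        · rw [hf2]
          apply Q8Core_inv
          · rw [hf1]
            apply Q8Core_inv
            · rintro y ⟨n, q, hn, hq, rfl⟩
              refine ⟨c q * n, θ q, mul_ne_zero (hc0 q) hn, ?_, hform n q⟩
              rcases hq with rfl | rfl | rfl | rfl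
              · rw [hP.θx]; exact Or.inr (Or.inl rfl)
              · rw [hP.θf]; exact Or.inr (Or.inr (Or.inl rfl))
              · rw [hP.θw]; exact Or.inr (Or.inr (Or.inr rfl))
              · rw [hP.θhw]; exact Or.inl rfl
            · refine iff_of_false ?_ (hπn p₂ _ π₂ u1x u1f u1w u1hw)
              show ¬ ∃ n q, n ≠ 0 ∧ (q = x ∨ q = f ∨ q = w ∨ q = h * w) ∧ p₁ = X.ν n * E q
              rw [hp₁E]
              exact hEn x
          · exact iff_of_false (hπn _ _ π₃ (Ne.symm uxhx) uhxf uhxw uhxhw)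
              (hπn _ _ π₄ uhx uhf uhw uhhw)
        · refine iff_of_false (hπn _ _ π₅ (Ne.symm uxhf) (Ne.symm ufhf) uhfw uhfhw) ?_
          show ¬ ∃ n q, n ≠ 0 ∧ (q = x ∨ q = f ∨ q = w ∨ q = h * w) ∧ t₂ = X.ν n * E q
          rw [ht₂E, hs0, X.ν_zero, one_mul]
          exact hEn w
      · exact ⟨_, _, hr0, Or.inr (Or.inr (Or.inr rfl)), ht₄E⟩
      · rintro ⟨n, q, hn, -, h0⟩
        have h2 : X.ν 0 * E f = X.ν n * E q := by rw [X.ν_zero, one_mul, ← ht₃E, h0]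
        exact hn (X.coord_inj hEπ h2).1.symm
    · refine not_sameCycle_of_inv f3 {y | X.π y = 1 ∨ ∃ q, (q = x ∨ q = f ∨ q = w ∨ q = h * w) ∧
        y = E q} ?_ ?_ ?_
      · have hπn : ∀ (y : G) (r : Q), X.π y = r → r ≠ 1 → r ≠ x → r ≠ f → r ≠ w → r ≠ h * w →
            ¬ (X.π y = 1 ∨ ∃ q, (q = x ∨ q = f ∨ q = w ∨ q = h * w) ∧ y = E q) := by
          rintro y r hy r0 r1 r2 r3 r4 (h0 | ⟨q, hq, rfl⟩)
          · exact r0 (hy.symm.trans h0)
          rw [hEπ] at hy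
          rcases hq with rfl | rfl | rfl | rfl
          · exact r1 hy.symm
          · exact r2 hy.symm
          · exact r3 hy.symm
          · exact r4 hy.symm
        rw [hf3]
        apply Q8Core_inv
        · rw [hf2]
          apply Q8Core_inv
          · rw [hf1]
            apply Q8Core_inv
            · rintro y (h0 | ⟨q, hq, rfl⟩)
              · exact Or.inl (by rw [hπΘ, h0, hθ1])
              · refine Or.inr ⟨θ q, ?_, hΘE q⟩
                rcases hq with rfl | rfl | rfl | rfl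
                · rw [hP.θx]; exact Or.inr (Or.inl rfl)
                · rw [hP.θf]; exact Or.inr (Or.inr (Or.inl rfl))
                · rw [hP.θw]; exact Or.inr (Or.inr (Or.inr rfl))
                · rw [hP.θhw]; exact Or.inl rfl
            · exact iff_of_true (Or.inr ⟨x, Or.inl rfl, hp₁E⟩) (Or.inl π₂)
          · exact iff_of_false (hπn _ _ π₃ (Ne.symm u1hx) (Ne.symm uxhx) uhxf uhxw uhxhw)
              (hπn _ _ π₄ (Ne.symm u1h) uhx uhf uhw uhhw)
        · refine iff_of_false (hπn _ _ π₅ (Ne.symm u1hf) (Ne.symm uxhf) (Ne.symm ufhf) uhfw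
            uhfhw) ?_
          rintro (h0 | ⟨q, hq, h0⟩)
          · exact u1w (π₆.symm.trans h0).symm
          · have h2 : X.ν s2 * E w = X.ν 0 * E q := by rw [X.ν_zero, one_mul, ← ht₂E, h0]
            exact hs0 (X.coord_inj hEπ h2).1
      · exact Or.inr ⟨f, Or.inr (Or.inl rfl), ht₃E⟩
      · rintro (h0 | ⟨q, hq, h0⟩)
        · exact u1hw (π₈.symm.trans h0).symm
        · have h2 : X.ν (ε * s2 - κ) * E (h * w) = X.ν 0 * E q := by
            rw [X.ν_zero, one_mul, ← ht₄E, h0]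
          exact hr0 (X.coord_inj hEπ h2).1
  obtain ⟨k1, j1⟩ := sameCycle_mul_swap Θ₀ p₁ p₂ m0
  rw [← hf1] at k1 j1
  obtain ⟨k2, j2⟩ := sameCycle_mul_swap f1 (H * p₁) (H * p₂) m2
  rw [← hf2] at k2 j2
  obtain ⟨k3, j3⟩ := sameCycle_mul_swap f2 t₁ t₂ m4
  rw [← hf3] at k3 j3
  obtain ⟨k4, j4⟩ := sameCycle_mul_swap f3 (H * t₁) (H * t₂) m6
  rw [← hΘf] at k4 j4
  have K : ∀ y y', Θ₀.SameCycle y y' → Θ.SameCycle y y' :=
    fun y y' hs => k4 _ _ (k3 _ _ (k2 _ _ (k1 _ _ hs)))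
  have J1 : Θ.SameCycle p₁ p₂ := k4 _ _ (k3 _ _ (k2 _ _ j1))
  have J2 : Θ.SameCycle (H * p₁) (H * p₂) := k4 _ _ (k3 _ _ j2)
  have J3 : Θ.SameCycle t₁ t₂ := k4 _ _ j3
  have J4 : Θ.SameCycle (H * t₁) (H * t₂) := j4
  -- the cycles of `Θ₀`
  have st : ∀ y, Θ₀.SameCycle y (Θ₀ y) := fun y => ⟨1, by rw [zpow_one]⟩
  have stE : ∀ y, Θ₀.SameCycle (E y) (E (θ y)) := by
    intro y
    have := st (E y)
    rwa [hΘE] at this
  have stn : ∀ n y, Θ₀.SameCycle (X.ν n * E y) (X.ν (c y * n) * E (θ y)) := by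
    intro n y
    have := st (X.ν n * E y)
    rwa [hform] at this
  have sxf := stE x
  rw [hP.θx] at sxf
  have sfw := stE f
  rw [hP.θf] at sfw
  have swv := stE w
  rw [hP.θw] at swv
  have shxh := stE (h * x)
  rw [hP.θhx] at shxh
  have shhf := stE h
  rw [hP.θh] at shhf
  have nx : ∀ n, Θ₀.SameCycle (X.ν n * E x) (X.ν (a * n) * E f) := by
    intro n; have := stn n x; rwa [cx, hP.θx] at this
  have nf : ∀ n, Θ₀.SameCycle (X.ν n * E f) (X.ν (cf * n) * E w) := by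
    intro n; have := stn n f; rwa [cf', hP.θf] at this
  have nw : ∀ n, Θ₀.SameCycle (X.ν n * E w) (X.ν (cw * n) * E (h * w)) := by
    intro n; have := stn n w; rwa [cw', hP.θw] at this
  have nhw : ∀ n, Θ₀.SameCycle (X.ν n * E (h * w)) (X.ν (chw * n) * E x) := by
    intro n; have := stn n (h * w); rwa [chw', hP.θhw] at this
  have nhx : ∀ n, Θ₀.SameCycle (X.ν n * E (h * x)) (X.ν (g * n) * E h) := by
    intro n; have := stn n (h * x); rwa [chx, hP.θhx] at this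
  have nh : ∀ n, Θ₀.SameCycle (X.ν n * E h) (X.ν (a * n) * E (h * f)) := by
    intro n; have := stn n h; rwa [ch, hP.θh] at this
  have nhf : ∀ n, Θ₀.SameCycle (X.ν n * E (h * f)) (X.ν (chf * n) * E (h * x)) := by
    intro n; have := stn n (h * f); rwa [chf', hP.θhf] at this
  have big2 : ∀ n n' : F, n ≠ 0 → n' ≠ 0 → Θ₀.SameCycle (X.ν n * E x) (X.ν n' * E x) := by
    intro n n' hn hn'
    apply Q8Core_turn X Θ₀ _ hP2 (E x) _ n n' hn hn'
    intro n
    have h5 := (((nx n).trans (nf _)).trans (nw _)).trans (nhw _)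
    have h6 : chw * (cw * (cf * (a * n))) = a * cf * cw * chw * n := by ring
    rwa [h6] at h5
  have big1 : ∀ n n' : F, n ≠ 0 → n' ≠ 0 →
      Θ₀.SameCycle (X.ν n * E (h * x)) (X.ν n' * E (h * x)) := by
    intro n n' hn hn'
    apply Q8Core_turn X Θ₀ _ hP1 (E (h * x)) _ n n' hn hn'
    intro n
    have h5 := ((nhx n).trans (nh _)).trans (nhf _)
    have h6 : chf * (a * (g * n)) = g * a * chf * n := by ring
    rwa [h6] at h5
  -- everything is in the cycle of `p₁`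
  have S2c : ∀ q, (q = x ∨ q = f ∨ q = w ∨ q = h * w) → Θ.SameCycle (E q) p₁ := by
    intro q hq
    apply K
    rw [hp₁E]
    rcases hq with rfl | rfl | rfl | rfl
    · exact Perm.SameCycle.refl _ _
    · exact sxf.symm
    · exact (sxf.trans sfw).symm
    · exact ((sxf.trans sfw).trans swv).symm
  have R2c : ∀ q n, (q = x ∨ q = f ∨ q = w ∨ q = h * w) → n ≠ 0 →
      Θ.SameCycle (X.ν n * E q) p₁ := by
    have hx0 : Θ.SameCycle (X.ν 1 * E x) p₁ := by
      have h5 : Θ₀.SameCycle (X.ν 1 * E x) (H * t₂) := by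
        rw [ht₄E]
        exact (big2 _ (chw * (ε * s2 - κ)) one_ne_zero (mul_ne_zero h40 hr0)).trans
          (nhw _).symm
      have h6 : Θ.SameCycle (H * t₁) p₁ := by
        rw [ht₃E]
        exact S2c f (Or.inr (Or.inl rfl))
      exact ((K _ _ h5).trans J4.symm).trans h6
    intro q n hq hn
    refine Perm.SameCycle.trans ?_ hx0
    apply K
    rcases hq with rfl | rfl | rfl | rfl
    · exact big2 _ _ hn one_ne_zero
    · exact (((nf n).trans (nw _)).trans (nhw _)).trans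
        (big2 _ _ (mul_ne_zero h40 (mul_ne_zero h30 (mul_ne_zero h20 hn))) one_ne_zero)
    · exact ((nw n).trans (nhw _)).trans
        (big2 _ _ (mul_ne_zero h40 (mul_ne_zero h30 hn)) one_ne_zero)
    · exact (nhw n).trans (big2 _ _ (mul_ne_zero h40 hn) one_ne_zero)
  have U2c : ∀ q n, (q = x ∨ q = f ∨ q = w ∨ q = h * w) → Θ.SameCycle (X.ν n * E q) p₁ := by
    intro q n hq
    by_cases hn : n = 0
    · rw [hn, X.ν_zero, one_mul]
      exact S2c q hq
    · exact R2c q n hq hn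
  -- the other class is in the cycle of `E h`
  have U1c : ∀ q n, (q = h * x ∨ q = h ∨ q = h * f) → Θ.SameCycle (X.ν n * E q) (E h) := by
    intro q n hq
    by_cases hn : n = 0
    · rw [hn, X.ν_zero, one_mul]
      apply K
      rcases hq with rfl | rfl | rfl
      · exact shxh
      · exact Perm.SameCycle.refl _ _
      · exact shhf.symm
    · rw [← hp₄E]
      refine Perm.SameCycle.trans ?_ J2
      apply K
      rw [hp₃E]
      rcases hq with rfl | rfl | rfl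
      · exact big1 _ _ hn hα0
      · exact ((nh n).trans (nhf _)).trans
          (big1 _ _ (mul_ne_zero h10 (mul_ne_zero ha0 hn)) hα0)
      · exact (nhf n).trans (big1 _ _ (mul_ne_zero h10 hn) hα0)
  have hjoin : Θ.SameCycle (E h) p₁ := by
    have h5 : Θ.SameCycle t₁ (E h) := by
      rw [ht₁]
      exact U1c _ _ (Or.inr (Or.inr rfl))
    have h6 : Θ.SameCycle t₂ p₁ := by
      rw [ht₂E]
      exact U2c _ _ (Or.inr (Or.inr (Or.inl rfl)))
    exact (h5.symm.trans J3).trans h6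
  have hallc : ∀ y, y ≠ 1 → Θ.SameCycle y p₁ := by
    intro y hy
    obtain ⟨n, hn⟩ := X.exists_coord hEπ y
    rcases hall (X.π y) with h0 | h0 | h0 | h0 | h0 | h0 | h0 | h0
    · rw [h0, hE1, mul_one] at hn
      have hn0 : n ≠ 0 := by
        rintro rfl
        rw [X.ν_zero] at hn
        exact hy hn
      have h2 : Θ₀.SameCycle y p₂ := by
        rw [hn, hp₂]
        exact lift_cyc_N X Θ₀ g hg hΘN n z hn0 hz
      exact (K _ _ h2).trans J1.symm
    · rw [hn, h0]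
      exact (U1c _ _ (Or.inr (Or.inl rfl))).trans hjoin
    · rw [hn, h0]
      exact U2c _ _ (Or.inl rfl)
    · rw [hn, h0]
      exact (U1c _ _ (Or.inl rfl)).trans hjoin
    · rw [hn, h0]
      exact U2c _ _ (Or.inr (Or.inl rfl))
    · rw [hn, h0]
      exact (U1c _ _ (Or.inr (Or.inr rfl))).trans hjoin
    · rw [hn, h0]
      exact U2c _ _ (Or.inr (Or.inr (Or.inl rfl)))
    · rw [hn, h0]
      exact U2c _ _ (Or.inr (Or.inr (Or.inr rfl)))
  have hcyc : OneCyc Θ := fun y y' hy hy' => (hallc y hy).trans (hallc y' hy').symm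
  have hoff : ∀ y, y ≠ p₁ → y ≠ p₂ → y ≠ H * p₁ → y ≠ H * p₂ → y ≠ t₁ → y ≠ t₂ →
      y ≠ H * t₁ → y ≠ H * t₂ → Θ y = Θ₀ y := by
    intro y y1 y2 y3 y4 y5 y6 y7 y8
    rw [hoffB y y5 y6 y7 y8, off y y1 y2 y3 y4]
  -- the pattern
  obtain ⟨x', hx'⟩ : ∃ p : G, p = X.ν (-z) * Ex := ⟨_, rfl⟩
  have πx' : X.π x' = x := by rw [hx', map_mul, X.π_ν, one_mul, hEx]
  have hx'E : x' = X.ν (-z) * E x := by rw [hEx', hx']
  have hHx' : H * x' = X.ν (α - ε * z) * E (h * x) := by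
    rw [hx', hHν, hHx, X.ν_mul']
    congr 2
    ring
  have πHx' : X.π (H * x') = h * x := by rw [map_mul, hH, πx']
  have v1 : Θ x' = X.ν (a * -z) * Ef := by
    rw [hoff]
    · rw [hx'E, hform, cx, hP.θx, hEf']
    · intro h0
      have h2 : X.ν (-z) * E x = X.ν 0 * E x := by
        rw [← hx'E, X.ν_zero, one_mul, ← hp₁E]
        exact h0
      exact hz (neg_eq_zero.1 (X.coord_inj hEπ h2).1)
    · exact np πx' π₂ (Ne.symm u1x)
    · exact np πx' π₃ uxhx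
    · exact np πx' π₄ (Ne.symm uhx)
    · exact np πx' π₅ uxhf
    · exact np πx' π₆ uxw
    · exact np πx' π₇ uxf
    · exact np πx' π₈ uxhw
  have v2 : Θ (H * x') = H := by
    rw [hoff]
    · rw [hHx', hform, chx, hP.θhx]
      have h5 : g * (α - ε * z) = -(ε * z) := by linear_combination hα
      rw [h5, ← hHE]
    · exact np πHx' π₁ (Ne.symm uxhx)
    · exact np πHx' π₂ (Ne.symm u1hx)
    · intro h0
      rw [hHx', hp₃E] at h0
      have h2 := (X.coord_inj hEπ h0).1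
      have h6 : ε * z = 0 := by linear_combination -h2
      exact mul_ne_zero hε0 hz h6
    · exact np πHx' π₄ (Ne.symm uhhx)
    · exact np πHx' π₅ uhxhf
    · exact np πHx' π₆ uhxw
    · exact np πHx' π₇ uhxf
    · exact np πHx' π₈ uhxhw
  have v3 : Θ H = X.ν (a * -(ε * z)) * E (h * f) := by
    rw [hoff]
    · conv_lhs => rw [hHE]
      rw [hform, ch, hP.θh]
    · exact np hH π₁ uhx
    · exact np hH π₂ (Ne.symm u1h)
    · exact np hH π₃ uhhx
    · intro h0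
      have h2 : H * 1 = H * X.ν z := by rw [mul_one, ← hp₂]; exact h0
      exact hz (X.ν_eq_one (mul_left_cancel h2).symm)
    · exact np hH π₅ uhhf
    · exact np hH π₆ uhw
    · exact np hH π₇ uhf
    · exact np hH π₈ uhhw
  have v4 : H * Θ x' = X.ν (a * -(ε * z)) * E (h * f) := by
    rw [v1, hHν, ← hEhf]
    congr 2
    ring
  refine ⟨Θ, x', H, hOB, hcyc, v2, ?_, ?_⟩
  · rw [v3, v4]
  · rw [v4, v1]
    have πa : X.π (X.ν (a * -z) * Ef) = f := by rw [map_mul, X.π_ν, one_mul, hEf]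
    have πb : X.π (X.ν (a * -(ε * z)) * E (h * f)) = h * f := by
      rw [map_mul, X.π_ν, one_mul, hEπ]
    simp only [List.nodup_cons, List.mem_cons, List.not_mem_nil, or_false, not_or,
      List.nodup_nil, and_true, not_false_eq_true]
    refine ⟨⟨?_, ?_, ?_, ?_, ?_⟩, ⟨?_, ?_, ?_, ?_⟩, ⟨?_, ?_, ?_⟩, ⟨?_, ?_⟩, ?_⟩
    · exact np (map_one _) πx' u1x
    · exact np (map_one _) πHx' u1hx
    · exact np (map_one _) hH u1h
    · exact np (map_one _) πa u1f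
    · exact np (map_one _) πb u1hf
    · exact np πx' πHx' uxhx
    · exact np πx' hH (Ne.symm uhx)
    · exact np πx' πa uxf
    · exact np πx' πb uxhf
    · exact np πHx' hH (Ne.symm uhhx)
    · exact np πHx' πa uhxf
    · exact np πHx' πb uhxhf
    · exact np hH πa uhf
    · exact np hH πb uhhf
    · exact np πa πb ufhf

end LibRE
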