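import Pool.Agent.LibRS.T05
import Pool.Agent.LibRE29.Q8Core
set_option autoImplicit false
namespace LibRE
open LibRS Equiv

private theorem q8e_nu_zero {F G Q : Type} [Field F] [Group G] [Group Q] (X : Ext F G Q) :
    X.ν 0 = 1 := by
  have h := X.ν_add 0 0
  rw [add_zero] at h
  exact (mul_eq_left.mp h.symm)

private theorem q8e_beta {F G Q : Type} [Field F] [Group G] [Group Q] (X : Ext F G Q)
    (H : G) (m n : F) : X.β (H * X.ν m) n = X.β H n := by
  apply X.ν_inj
  have h1 := X.β_spec (H * X.ν m) n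
  have h2 : H * X.ν m * X.ν n = X.ν (X.β H n) * (H * X.ν m) := by
    have e : X.ν m * X.ν n = X.ν n * X.ν m := by rw [← X.ν_add, add_comm, X.ν_add]
    rw [mul_assoc, e, ← mul_assoc, X.β_spec H n, mul_assoc]
  exact mul_right_cancel (h1.symm.trans h2)

private theorem q8e_avoid {F : Type} [Fintype F] [DecidableEq F] (S : Finset F)
    (h : S.card < Fintype.card F) : ∃ x : F, x ∉ S := by
  by_contra hc
  push Not at hc
  have : S = Finset.univ := Finset.eq_univ_of_forall hc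
  rw [this, Finset.card_univ] at h
  omega

/-- the case `H * H = 1` -/
private theorem q8e_odd_aux {F G Q : Type} [Field F] [Fintype F] [Group G] [Finite G] [Group Q]
    [Finite Q] (X : Ext F G Q) (h5 : 5 ≤ Fintype.card F) (θ : Perm Q)
    (h x f w : Q) (hP : Q8P θ h x f w) (H : G) (hH : X.π H = h) (ε : F) (hε : ε = 1 ∨ ε = -1)
    (hβ : ∀ n, X.β H n = ε * n) (hHH : H * H = 1) : R2 G := by
  classical
  have : Fintype Q := Fintype.ofFinite Q
  obtain ⟨Ex, hEx⟩ := X.π_surj x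
  obtain ⟨Ef, hEf⟩ := X.π_surj f
  obtain ⟨Ew, hEw⟩ := X.π_surj w
  obtain ⟨g, hg, hg1⟩ := exists_prim_ne h5 (1 : F)
  have hg0 : g ≠ 0 := hg.1
  have hεε : ε * ε = 1 := by
    rcases hε with h | h <;> rw [h] <;> ring
  have hε0 : ε ≠ 0 := by
    intro h0
    rw [h0] at hεε
    simp at hεε
  have h3 : ∀ p q r : F, ∃ y : F, y ≠ p ∧ y ≠ q ∧ y ≠ r := by
    intro p q r
    obtain ⟨y, hy⟩ := q8e_avoid ({p, q, r} : Finset F) (lt_of_le_of_lt Finset.card_le_three (by omega))
    simp only [Finset.mem_insert, Finset.mem_singleton, not_or] at hy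
    exact ⟨y, hy⟩
  obtain ⟨a, ha0, ha1, -⟩ := h3 0 1 1
  obtain ⟨cw, hw0, hw1, hwε⟩ := h3 0 1 (-ε)
  obtain ⟨cf, hf0, hf1, hfT⟩ := h3 0 1 (g / (a * cw))
  have hsum : ε + cw ≠ 0 := by
    intro h0
    apply hwε
    linear_combination h0
  have hT0 : g / (a * cw) ≠ 0 := div_ne_zero hg0 (mul_ne_zero ha0 hw0)
  have hchw0 : g / (a * cw) / cf ≠ 0 := div_ne_zero hT0 hf0
  have hchw1 : g / (a * cw) / cf ≠ 1 := by
    intro h1
    rw [div_eq_one_iff_eq hf0] at h1
    exact hfT h1.symm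
  have hα0 : ε * (g - 1) / g ≠ 0 :=
    div_ne_zero (mul_ne_zero hε0 (sub_ne_zero.mpr hg1)) hg0
  refine ext_Q8_core X θ h x f w hP H Ex Ef Ew hH hEx hEf hEw ε hβ hεε 0 ?_ g a a⁻¹ cf cw
    (g / (a * cw) / cf) 1 (-(ε * (ε * (g - 1) / g)) / (g / (a * cw) / cf * (ε + cw)))
    (ε * (g - 1) / g) hg hg1 ?_ ?_ ha0 ha1 (inv_ne_zero ha0) ?_ hf0 hf1 hw0 hw1 hchw0 hchw1
    one_ne_zero ?_ ?_ ?_
  · rw [hHH, q8e_nu_zero]
  · rw [mul_assoc, mul_inv_cancel₀ ha0, mul_one]
    exact hg
  · have : a * cf * cw * (g / (a * cw) / cf) = g := by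
      field_simp
    rw [this]
    exact hg
  · intro h1
    apply ha1
    have := congrArg (fun t => a * t) h1
    simp only [mul_inv_cancel₀ ha0, mul_one] at this
    exact this.symm
  · field_simp
  · have hne : g / (a * cw) / cf * (ε + cw) ≠ 0 := mul_ne_zero hchw0 hsum
    set T := g / (a * cw) / cf with hT
    set s := -(ε * (ε * (g - 1) / g)) / (T * (ε + cw)) with hs
    have h1 : s * (T * (ε + cw)) = -(ε * (ε * (g - 1) / g)) := by
      rw [hs, div_mul_cancel₀ _ hne]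
    linear_combination h1
  · rw [mul_zero, sub_zero, zero_sub]
    exact neg_ne_zero.mpr (mul_ne_zero hε0 hα0)

/-- `q` odd, `q ≥ 5`. If `ε = -1` then `η = 0` (`ε η = η` since `H` commutes with `H * H`); if `ε = 1` replace
`H` by `H * ν (-η / 2)`: so we may assume `H * H = 1`, `η = 0`. `z = 1`, `g` primitive (≠ 1), `α = ε (g - 1) / g`,
`a ∉ {0, 1}`, `chf = a⁻¹`, `cw ∉ {0, 1, -ε}`, `T = g / (a * cw)`, `cf ∉ {0, 1, T}`, `chw = T / cf`,
`s2 = - ε α / (chw * (ε + cw))`. -/
theorem ext_Q8_odd {F G Q : Type} [Field F] [Fintype F] [Group G] [Finite G] [Group Q] [Finite Q]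
    (X : Ext F G Q) (hF : Odd (Fintype.card F)) (h5 : 5 ≤ Fintype.card F) (θ : Perm Q)
    (h x f w : Q) (hP : Q8P θ h x f w) (H : G) (hH : X.π H = h) (ε : F) (hε : ε = 1 ∨ ε = -1)
    (hβ : ∀ n, X.β H n = ε * n) : R2 G := by
  classical
  have h20 : (2 : F) ≠ 0 := by
    intro h0
    have h1 : ((Fintype.card F : ℕ) : F) = 0 := FiniteField.cast_card_eq_zero F
    obtain ⟨k, hk⟩ := hF
    rw [hk] at h1
    push_cast at h1
    rw [h0, zero_mul, zero_add] at h1
    exact one_ne_zero h1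
  have hπ : X.π (H * H) = 1 := by
    rw [map_mul, hH]
    exact hP.hh
  obtain ⟨η, hη⟩ := (X.π_ker (H * H)).mp hπ
  have hcomm : X.β H η = η := by
    apply X.ν_inj
    have h1 := X.β_spec H η
    rw [hη] at h1
    have h2 : H * (H * H) = X.ν η * H := by rw [hη, mul_assoc]
    exact mul_right_cancel (h1.symm.trans h2)
  rcases hε with h1 | h1
  · -- replace H
    refine q8e_odd_aux X h5 θ h x f w hP (H * X.ν (-η / 2)) ?_ ε (Or.inl h1) ?_ ?_
    · rw [map_mul, hH, (X.π_ker (X.ν (-η / 2))).mpr ⟨_, rfl⟩, mul_one]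
    · intro n
      rw [q8e_beta, hβ]
    · have e1 : X.ν (-η / 2) * H = H * X.ν (-η / 2) := by
        have := X.β_spec H (-η / 2)
        rw [hβ, h1, one_mul] at this
        exact this.symm
      have e2 : H * X.ν (-η / 2) * (H * X.ν (-η / 2)) = (H * H) * (X.ν (-η / 2) * X.ν (-η / 2)) := by
        rw [mul_assoc, ← mul_assoc (X.ν (-η / 2)) H, e1]
        group
      rw [e2, ← hη, ← X.ν_add, ← X.ν_add]
      have : η + (-η / 2 + -η / 2) = 0 := by
        field_simp
        ring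
      rw [this, q8e_nu_zero]
  · refine q8e_odd_aux X h5 θ h x f w hP H hH ε (Or.inr h1) hβ ?_
    have h3 : η = 0 := by
      rw [hβ, h1] at hcomm
      have h4 : 2 * η = 0 := by linear_combination -hcomm
      rcases mul_eq_zero.mp h4 with h5 | h5
      · exact absurd h5 h20
      · exact h5
    rw [← hη, h3, q8e_nu_zero]

/-- `q = 4`: `ε = 1`, `g` primitive, `g ^ 2 = g + 1`, `g ^ 3 = 1`, characteristic two; `a = cf = cw = chw = g`,
`chf = g ^ 2`; `z ∉ {0, η}`, `α = g * z`, `s2 = g * z`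
(e2: `η - g ^ 2 * η - g * z = g * (η + z)`; e1: `g * (s2 + g * s2 + η) = g * (g ^ 2 * s2 + η) = g * (z + η)`). -/
theorem ext_Q8_four {F G Q : Type} [Field F] [Fintype F] [Group G] [Finite G] [Group Q] [Finite Q]
    (X : Ext F G Q) (hF : Fintype.card F = 4) (θ : Perm Q) (h x f w : Q) (hP : Q8P θ h x f w)
    (H : G) (hH : X.π H = h) (hβ : ∀ n, X.β H n = n) : R2 G := by
  classical
  have : Fintype Q := Fintype.ofFinite Q
  obtain ⟨Ex, hEx⟩ := X.π_surj x
  obtain ⟨Ef, hEf⟩ := X.π_surj f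
  obtain ⟨Ew, hEw⟩ := X.π_surj w
  obtain ⟨g, hg⟩ := exists_prim F
  have hg0 : g ≠ 0 := hg.1
  have h2 : (2 : F) = 0 := by
    have h1 : ((Fintype.card F : ℕ) : F) = 0 := FiniteField.cast_card_eq_zero F
    rw [hF] at h1
    have h3 : (2 : F) * 2 = 0 := by
      push_cast at h1
      linear_combination h1
    rcases mul_eq_zero.mp h3 with h4 | h4 <;> exact h4
  have hg1 : g ≠ 1 := by
    intro h1
    have h3 := t05_card_le g hg (by rw [h1]; ring)
    omega
  have hg2 : g ^ 2 ≠ 1 := by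
    intro h1
    have h3 := t05_card_le g hg h1
    omega
  have hg3 : g ^ 3 = 1 := by
    have h1 := FiniteField.pow_card_sub_one_eq_one g hg0
    rw [hF] at h1
    exact h1
  have hgg : g ^ 2 = g + 1 := by
    have h1 : (g - 1) * (g ^ 2 + g + 1) = 0 := by linear_combination hg3
    rcases mul_eq_zero.mp h1 with h3 | h3
    · exact absurd (sub_eq_zero.mp h3) hg1
    · linear_combination h3 - (g + 1) * h2
  have hg4 : g ^ 4 = g := by linear_combination g * hg3
  have hπ : X.π (H * H) = 1 := by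
    rw [map_mul, hH]
    exact hP.hh
  obtain ⟨η, hη⟩ := (X.π_ker (H * H)).mp hπ
  obtain ⟨z, hz⟩ := q8e_avoid ({0, η} : Finset F)
    (lt_of_le_of_lt Finset.card_le_two (by omega))
  simp only [Finset.mem_insert, Finset.mem_singleton, not_or] at hz
  refine ext_Q8_core X θ h x f w hP H Ex Ef Ew hH hEx hEf hEw 1 (fun n => by rw [hβ, one_mul])
    (one_mul 1) η hη.symm g g (g ^ 2) g g g z (g * z) (g * z) hg hg1 ?_ ?_ hg0 hg1
    (pow_ne_zero 2 hg0) hg2 hg0 hg1 hg0 hg1 hg0 hg1 hz.1 ?_ ?_ ?_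
  · have : g * g * g ^ 2 = g := by linear_combination hg4
    rw [this]
    exact hg
  · have : g * g * g * g = g := by linear_combination hg4
    rw [this]
    exact hg
  · linear_combination z * hgg + z * h2
  · linear_combination (z + η) * hgg + z * hg3 + (g * z + z + g * η) * h2
  · intro h1
    have h3 : g * (η + z) = 0 := by
      linear_combination -h1 - η * hgg
    rcases mul_eq_zero.mp h3 with h4 | h4
    · exact hg0 h4
    · apply hz.2
      linear_combination h4 - η * h2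

end LibRE
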