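import Pool.Agent.LibRE29.Defs
set_option autoImplicit false
namespace LibRE
open LibRS Equiv

private def Q8Pat_fwd (y : QuaternionGroup 2) : QuaternionGroup 2 :=
  if y = .a 3 then .xa 2 else if y = .xa 2 then .xa 1 else if y = .xa 1 then .xa 3
  else if y = .xa 3 then .a 3 else if y = .a 1 then .a 2 else if y = .a 2 then .xa 0
  else if y = .xa 0 then .a 1 else y

private def Q8Pat_bwd (y : QuaternionGroup 2) : QuaternionGroup 2 :=
  if y = .xa 2 then .a 3 else if y = .xa 1 then .xa 2 else if y = .xa 3 then .xa 1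
  else if y = .a 3 then .xa 3 else if y = .a 2 then .a 1 else if y = .xa 0 then .a 2
  else if y = .a 1 then .xa 0 else y

private def Q8Pat_perm : Perm (QuaternionGroup 2) where
  toFun := Q8Pat_fwd
  invFun := Q8Pat_bwd
  left_inv := by
    have : ∀ y, Q8Pat_bwd (Q8Pat_fwd y) = y := by decide +kernel
    exact this
  right_inv := by
    have : ∀ y, Q8Pat_fwd (Q8Pat_bwd y) = y := by decide +kernel
    exact this

private theorem Q8Pat_std : Q8P Q8Pat_perm (.a 2) (.a 3) (.xa 2) (.xa 1) where
  orth := by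
    refine ⟨by decide +kernel, ?_⟩
    have : ∀ x y : QuaternionGroup 2, x⁻¹ * Q8Pat_perm x = y⁻¹ * Q8Pat_perm y → x = y := by
      decide +kernel
    exact fun x y h => this x y h
  hh := by decide +kernel
  xx := by decide +kernel
  comm := by decide +kernel
  nodup := by decide +kernel
  all := by decide +kernel
  θx := by decide +kernel
  θf := by decide +kernel
  θw := by decide +kernel
  θhw := by decide +kernel
  θhx := by decide +kernel
  θh := by decide +kernel
  θhf := by decide +kernel

/-- For `QuaternionGroup 2` (elements `a i`, `xa i`, `i : ZMod 4`): with `i = a 1`, `j = xa 0` (`j * j = a 2`, `k = i * j`),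
`h = a 2 = -1`, `x = -i = a 3`, `f = -j = xa 2`, `w = h * x * f = - k`; θ has the cycles `x → f → w → h w → x`,
`h x → h → h f → h x`. Define θ explicitly and use `decide`; then transport along `e`. -/
theorem exists_Q8P {Q : Type} [Group Q] (e : Q ≃* QuaternionGroup 2) :
    ∃ (θ : Perm Q) (h x f w : Q), Q8P θ h x f w := by
  have key := Q8Pat_std
  refine ⟨e.toEquiv.trans (Q8Pat_perm.trans e.symm.toEquiv), e.symm (.a 2), e.symm (.a 3),
    e.symm (.xa 2), e.symm (.xa 1), ?_⟩
  have hθ : ∀ y, (e.toEquiv.trans (Q8Pat_perm.trans e.symm.toEquiv)) (e.symm y) =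
      e.symm (Q8Pat_perm y) := fun y => by simp
  have hl : [1, e.symm (.a 2), e.symm (.a 3), e.symm (.a 2) * e.symm (.a 3), e.symm (.xa 2),
      e.symm (.a 2) * e.symm (.xa 2), e.symm (.xa 1), e.symm (.a 2) * e.symm (.xa 1)] =
      [1, .a 2, .a 3, .a 2 * .a 3, .xa 2, .a 2 * .xa 2, .xa 1, .a 2 * .xa 1].map e.symm := by
    simp only [List.map_cons, List.map_nil, map_mul, map_one]
  constructor
  · refine ⟨?_, fun x y hxy => ?_⟩
    · rw [← map_one e.symm, hθ, key.orth.1]
    · obtain ⟨x, rfl⟩ := e.symm.surjective x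
      obtain ⟨y, rfl⟩ := e.symm.surjective y
      simp only [hθ, ← map_inv, ← map_mul] at hxy
      exact congrArg e.symm (key.orth.2 (e.symm.injective hxy))
  · rw [← map_mul, key.hh, map_one]
  · rw [← map_mul, key.xx]
  · intro y
    obtain ⟨y, rfl⟩ := e.symm.surjective y
    rw [← map_mul, key.comm, map_mul]
  · rw [hl]
    exact key.nodup.map e.symm.injective
  · intro y
    obtain ⟨y, rfl⟩ := e.symm.surjective y
    rw [hl]
    exact List.mem_map_of_mem (key.all y)
  · rw [hθ, key.θx]
  · rw [hθ, key.θf]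
  · rw [hθ, key.θw, map_mul]
  · rw [← map_mul, hθ, key.θhw]
  · rw [← map_mul, hθ, key.θhx]
  · rw [hθ, key.θh, map_mul]
  · rw [← map_mul, hθ, key.θhf, map_mul]

end LibRE
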