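import Pool.Agent.LibRE29.V4a
set_option autoImplicit false
namespace LibRE
open LibRS Equiv

private theorem V4c_four : ∀ u v : ZMod 4, u * v = 1 → u * u = 1 := by decide

private theorem V4c_four_ne : (-1 : ZMod 4) ≠ 1 := by decide

/-- squares of units are 1 modulo 4 -/
theorem sq_ne {k : ℕ} (hk : 2 ≤ k) (u : ZMod (2 ^ k)) (hu : IsUnit u) :
    u * u ≠ -1 ∧ (3 ≤ k → u * u ≠ -1 + hf k) := by
  have hdvd : 4 ∣ 2 ^ k := by
    have : (2 : ℕ) ^ 2 ∣ 2 ^ k := pow_dvd_pow 2 hk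
    simpa using this
  let φ : ZMod (2 ^ k) →+* ZMod 4 := ZMod.castHom hdvd (ZMod 4)
  have h1 : φ (u * u) = 1 := by
    obtain ⟨v, hv⟩ := hu.exists_right_inv
    rw [map_mul]
    refine V4c_four (φ u) (φ v) ?_
    rw [← map_mul, hv, map_one]
  refine ⟨fun h => ?_, fun hk3 h => ?_⟩
  · rw [h, map_neg, map_one] at h1
    exact V4c_four_ne h1
  · have h2 : φ (hf k) = 0 := by
      unfold hf
      rw [map_natCast, ZMod.natCast_eq_zero_iff]
      have : (2 : ℕ) ^ 2 ∣ 2 ^ (k - 1) := pow_dvd_pow 2 (by omega)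
      simpa using this
    rw [h, map_add, map_neg, map_one, h2, add_zero] at h1
    exact V4c_four_ne h1

section
variable {G : Type} [Group G] {k : ℕ}

private theorem V4c_normal (X : NC G k) (hself : ∀ g, X.conj g = 1 → ∃ i, X.A i = g) (b g : G) :
    ∃ j, g * b * g⁻¹ = X.A j * b := by
  obtain ⟨j, hj⟩ := hself (g * b * g⁻¹ * b⁻¹) (by
    have e1 := X.conj_inv g
    have e2 := X.conj_inv b
    rw [X.conj_mul, X.conj_mul, X.conj_mul]
    calc X.conj g * X.conj b * X.conj g⁻¹ * X.conj b⁻¹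
        = (X.conj g * X.conj g⁻¹) * (X.conj b * X.conj b⁻¹) := by ring
      _ = 1 := by rw [e1, e2, one_mul])
  refine ⟨j, ?_⟩
  rw [hj, inv_mul_cancel_right]

private theorem V4c_conj_sq (X : NC G k) {b : G} (hb : ∃ i, X.A i = b * b) :
    X.conj b * X.conj b = 1 := by
  obtain ⟨i, hi⟩ := hb
  rw [← X.conj_mul, ← hi, X.conj_A]

/-- the second part of (b) -/
private theorem V4c_ne_mod [Finite G] (X : NC G k) (hself : ∀ g, X.conj g = 1 → ∃ i, X.A i = g)
    (hV : ¬ ∃ V : Subgroup G, IsV4 V) (hk : 3 ≤ k) {b : G} (hb : ¬ ∃ i, X.A i = b)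
    (hbb : ∃ i, X.A i = b * b) : X.conj b ≠ 1 + hf k := by
  intro h
  obtain ⟨t, ht⟩ := hbb
  exact hV (V4_of_sub (by omega) X b (fun i hi => hb ⟨i, hi⟩) t ht.symm
    (V4c_normal X hself b) (Or.inr ⟨hk, h⟩))

/-- (b) -/
private theorem V4c_cases [Finite G] (X : NC G k) (hself : ∀ g, X.conj g = 1 → ∃ i, X.A i = g)
    (hV : ¬ ∃ V : Subgroup G, IsV4 V) {b : G} (hb : ¬ ∃ i, X.A i = b)
    (hbb : ∃ i, X.A i = b * b) :
    2 ≤ k ∧ (X.conj b = -1 ∨ (3 ≤ k ∧ X.conj b = -1 + hf k)) := by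
  have hs := V4c_conj_sq X hbb
  have hne : X.conj b ≠ 1 := fun h => hb (hself b h)
  rcases Nat.lt_or_ge k 3 with hk | hk
  · interval_cases k
    · exact absurd (Subsingleton.elim (α := ZMod 1) _ _) hne
    · exfalso
      revert hs hne
      generalize X.conj b = s
      revert s
      decide
    · refine ⟨le_rfl, Or.inl ?_⟩
      rcases sq_one_cases_two _ hs with h | h
      · exact absurd h hne
      · exact h
  · refine ⟨by omega, ?_⟩
    rcases sq_one_cases hk _ hs with h | h | h | h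
    · exact absurd h hne
    · exact Or.inl h
    · exact absurd h (V4c_ne_mod X hself hV hk hb hbb)
    · exact Or.inr ⟨hk, h⟩

/-- (c) -/
private theorem V4c_mul [Finite G] (X : NC G k) (hself : ∀ g, X.conj g = 1 → ∃ i, X.A i = g)
    (hV : ¬ ∃ V : Subgroup G, IsV4 V) {b b' : G} (hb : ¬ ∃ i, X.A i = b)
    (hbb : ∃ i, X.A i = b * b) (hb' : ¬ ∃ i, X.A i = b') (hbb' : ∃ i, X.A i = b' * b') :
    ∃ i, X.A i = b * b' := by
  have key : X.conj (b * b') = 1 ∨ (3 ≤ k ∧ X.conj (b * b') = 1 + hf k) := by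
    rw [X.conj_mul]
    obtain ⟨hk2, h1⟩ := V4c_cases X hself hV hb hbb
    obtain ⟨_, h2⟩ := V4c_cases X hself hV hb' hbb'
    have hh : hf k + hf k = 0 := hf_add (by omega)
    have hm : hf k * hf k = 0 := hf_mul_hf hk2
    have hneg : - hf k = hf k := neg_eq_of_add_eq_zero_left hh
    rcases h1 with h1 | ⟨h3, h1⟩ <;> rcases h2 with h2 | ⟨h3, h2⟩ <;> rw [h1, h2]
    · left; ring
    · right
      refine ⟨h3, ?_⟩
      linear_combination hneg
    · right
      refine ⟨h3, ?_⟩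
      linear_combination hneg
    · left
      linear_combination hm - hh
  rcases key with h | ⟨h3, h⟩
  · exact hself _ h
  · by_contra hcon
    refine V4c_ne_mod X hself hV h3 hcon ?_ h
    apply hself
    have hh : hf k + hf k = 0 := hf_add (by omega)
    have hm : hf k * hf k = 0 := hf_mul_hf (by omega)
    rw [X.conj_mul, h]
    linear_combination hm + hh

/-- (d) -/
private theorem V4c_sq [Finite G] (hG : IsPGroup 2 G) (X : NC G k)
    (hself : ∀ g, X.conj g = 1 → ∃ i, X.A i = g)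
    (hV : ¬ ∃ V : Subgroup G, IsV4 V) (c : G) : ∃ i, X.A i = c * c := by
  by_contra hcon
  have hex : ∃ n, ∃ i, X.A i = c ^ 2 ^ n := by
    obtain ⟨n, hn⟩ := hG c
    exact ⟨n, 0, by rw [hn, X.A_zero]⟩
  classical
  let N := Nat.find hex
  have hN : ∃ i, X.A i = c ^ 2 ^ N := Nat.find_spec hex
  have hmin : ∀ m < N, ¬ ∃ i, X.A i = c ^ 2 ^ m := fun m hm => Nat.find_min hex hm
  have hN1 : N ≠ 1 := by
    intro h1
    rw [h1, pow_one, pow_two] at hN
    exact hcon hN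
  have hN0 : N ≠ 0 := by
    intro h0
    rw [h0, pow_zero, pow_one] at hN
    obtain ⟨i, hi⟩ := hN
    exact hcon ⟨i + i, by rw [X.A_add, hi]⟩
  obtain ⟨m, hm⟩ : ∃ m, N = m + 2 := ⟨N - 2, by omega⟩
  have e1 : c ^ 2 ^ m * c ^ 2 ^ m = c ^ 2 ^ (m + 1) := by
    rw [← pow_add, pow_succ, mul_two]
  have e2 : c ^ 2 ^ (m + 1) * c ^ 2 ^ (m + 1) = c ^ 2 ^ (m + 2) := by
    rw [← pow_add, pow_succ 2 (m + 1), mul_two]
  have h1 : ¬ ∃ i, X.A i = c ^ 2 ^ (m + 1) := hmin _ (by omega)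
  have h2 : ∃ i, X.A i = c ^ 2 ^ (m + 1) * c ^ 2 ^ (m + 1) := by
    rw [e2, ← hm]; exact hN
  obtain ⟨hk, h3⟩ := V4c_cases X hself hV h1 h2
  rw [← e1, X.conj_mul] at h3
  have hu : IsUnit (X.conj (c ^ 2 ^ m)) := IsUnit.of_mul_eq_one _ (X.conj_inv _)
  obtain ⟨h4, h5⟩ := sq_ne hk _ hu
  rcases h3 with h3 | ⟨hk3, h3⟩
  · exact h4 h3
  · exact h5 hk3 h3

end

/-- `A` normal cyclic and self-centralising in the 2-group `G` without normal four group: index at most two.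
(a) `g * h * g⁻¹ * h⁻¹` has `conj = 1`, so it is in `A`: the quotient by `A` is abelian.
(b) If `b ∉ A`, `b * b ∈ A` then `conj b * conj b = 1`, `conj b ≠ 1`, and `conj b ≠ 1 + hf` for `k ≥ 3` (`V4_of_sub`, using (a)),
 so `conj b = -1` or (`k ≥ 3`) `conj b = -1 + hf` (`sq_one_cases`, `sq_one_cases_two`; impossible for `k ≤ 1`, where -1 = 1).
(c) If `b, b' ∉ A` have squares in `A`, then `conj (b * b') ∈ {1, 1 + hf}`, and `1 + hf` is impossible by (b) for `b * b'`; so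
 `b * b' ∈ A`, i.e. `b' ∈ A b`.
(d) If `c ∉ A` and `c * c ∉ A`: replace `c` by a power `c ^ (2 ^ m)` such that moreover `(c * c) * (c * c) ∈ A`; then
 `conj (c * c) = conj c * conj c` is `-1` or `-1 + hf` by (b), contradicting `sq_ne`.
So every element outside of `A` has its square in `A` and `G = A ∪ A b`. -/
theorem index_le_two {G : Type} [Group G] [Finite G] (hG : IsPGroup 2 G) {k : ℕ} (X : NC G k)
    (hself : ∀ g, X.conj g = 1 → ∃ i, X.A i = g) (hV : ¬ ∃ V : Subgroup G, IsV4 V) :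
    Nat.card G ≤ 2 * 2 ^ k := by
  have hcard : Nat.card (Bool × ZMod (2 ^ k)) = 2 * 2 ^ k := by
    rw [Nat.card_prod, Nat.card_zmod, Nat.card_eq_fintype_card, Fintype.card_bool]
  have : NeZero (2 ^ k) := ⟨pow_ne_zero _ two_ne_zero⟩
  by_cases hall : ∀ b : G, ∃ i, X.A i = b
  · have h1 : Nat.card G ≤ Nat.card (ZMod (2 ^ k)) :=
      Nat.card_le_card_of_surjective X.A hall
    rw [Nat.card_zmod] at h1
    omega
  · push Not at hall
    obtain ⟨b, hb⟩ := hall
    have hb' : ¬ ∃ i, X.A i = b := fun ⟨i, hi⟩ => hb i hi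
    rw [← hcard]
    refine Nat.card_le_card_of_surjective
      (fun p : Bool × ZMod (2 ^ k) => if p.1 then b⁻¹ * X.A p.2 else X.A p.2) ?_
    intro g
    by_cases hg : ∃ i, X.A i = g
    · obtain ⟨i, hi⟩ := hg
      exact ⟨(false, i), by simpa using hi⟩
    · obtain ⟨i, hi⟩ := V4c_mul X hself hV hb' (V4c_sq hG X hself hV b) hg
        (V4c_sq hG X hself hV g)
      exact ⟨(true, i), by simp [hi]⟩

end LibRE
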