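import Pool.Agent.LibRE29.V4b
import Pool.Agent.LibRE29.V4c
set_option autoImplicit false
namespace LibRE
open LibRS Equiv

/-- A finite 2-group without cyclic subgroup of index at most two has a normal four group. -/
theorem exists_V4 {G : Type} [Group G] [Finite G] (hG : IsPGroup 2 G) (h : ¬ HasCyc2 G) :
    ∃ V : Subgroup G, IsV4 V := by
  by_contra hV
  obtain ⟨k, X, hmax⟩ := exists_max_NC hG
  have h1 := index_le_two hG X (fun g hg => self_centralizing hG X hmax hV g hg) hV
  exact h ⟨X.A 1, by rw [X.order]; exact h1⟩

end LibRE
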