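import Pool.Agent.LibRE29.Defs
set_option autoImplicit false
namespace LibRE
open LibRS Equiv

private theorem V4n_central {G : Type} [Group G] [Finite G] (hG : IsPGroup 2 G) (V : Subgroup G)
    [V.Normal] (hV : IsV4 V) : ∃ z ∈ V, z ≠ 1 ∧ ∀ a : G, a * z = z * a := by
  have : Fact (Nat.Prime 2) := ⟨Nat.prime_two⟩
  have h1 := (hG.of_equiv ConjAct.toConjAct).exists_fixed_point_of_prime_dvd_card_of_fixed_point V
    (by rw [hV.card]; norm_num) (a := 1) (fun g => smul_one g)
  obtain ⟨⟨z, hz⟩, hf, hne⟩ := h1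
  refine ⟨z, hz, fun h => hne (Subtype.ext h.symm), fun a => ?_⟩
  have h2 := congrArg Subtype.val (hf (ConjAct.toConjAct a))
  rw [ConjAct.Subgroup.val_conj_smul, ConjAct.toConjAct_smul] at h2
  exact mul_inv_eq_iff_eq_mul.1 h2

private theorem V4n_elts {G : Type} [Group G] [Finite G] (V : Subgroup G) (hV : IsV4 V) {z v : G}
    (hz : z ∈ V) (hz1 : z ≠ 1) (hv : v ∈ V) (hv1 : v ≠ 1) (hvz : v ≠ z) {w : G} (hw : w ∈ V) :
    w = 1 ∨ w = z ∨ w = v ∨ w = v * z := by
  classical
  have hzz := hV.sq z hz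
  have e1 : v * z ≠ 1 := fun h => hvz (by
    have := congrArg (· * z) h
    simpa [mul_assoc, hzz] using this)
  have e2 : v * z ≠ z := fun h => hv1 (mul_eq_right.1 h)
  have e3 : v * z ≠ v := fun h => hz1 (mul_eq_left.1 h)
  have h4 : ({1, z, v, v * z} : Finset G).card = 4 := by
    rw [Finset.card_insert_of_notMem, Finset.card_insert_of_notMem, Finset.card_insert_of_notMem,
      Finset.card_singleton]
    · simpa using e3.symm
    · simp only [Finset.mem_insert, Finset.mem_singleton, not_or]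
      exact ⟨hvz.symm, e2.symm⟩
    · simp only [Finset.mem_insert, Finset.mem_singleton, not_or]
      exact ⟨hz1.symm, hv1.symm, e1.symm⟩
  have hsub : ((({1, z, v, v * z} : Finset G)) : Set G) ⊆ (V : Set G) := by
    intro x hx
    simp only [Finset.coe_insert, Finset.coe_singleton, Set.mem_insert_iff,
      Set.mem_singleton_iff] at hx
    rcases hx with rfl | rfl | rfl | rfl
    · exact V.one_mem
    · exact hz
    · exact hv
    · exact V.mul_mem hv hz
  have heq := Set.eq_of_subset_of_ncard_le hsub (by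
    rw [Set.ncard_coe_finset, h4]
    exact le_of_eq hV.card) (Set.toFinite _)
  have : w ∈ (((({1, z, v, v * z} : Finset G)) : Set G)) := heq ▸ hw
  simpa using this

private theorem V4n_sq {G : Type} [Group G] [Finite G] (V : Subgroup G) [V.Normal] (hV : IsV4 V)
    {z : G} (hz : z ∈ V) (hz1 : z ≠ 1) (hzc : ∀ a : G, a * z = z * a) (a v : G) (hv : v ∈ V) :
    (a * a) * v = v * (a * a) := by
  by_cases hv1 : v = 1
  · subst hv1; simp
  by_cases hvz : v = z
  · subst hvz; exact hzc _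
  have hw : a * v * a⁻¹ ∈ V := Subgroup.Normal.conj_mem inferInstance v hv a
  rcases V4n_elts V hV hz hz1 hv hv1 hvz hw with h | h | h | h
  · exact absurd (conj_eq_one_iff.1 h) hv1
  · have h2 : a * v = a * z := by rw [hzc a]; exact mul_inv_eq_iff_eq_mul.1 h
    exact absurd (mul_left_cancel h2) hvz
  · have h2 : a * v = v * a := mul_inv_eq_iff_eq_mul.1 h
    rw [mul_assoc, h2, ← mul_assoc, h2, mul_assoc]
  · have h2 : a * v = v * z * a := mul_inv_eq_iff_eq_mul.1 h
    calc a * a * v = a * (a * v) := mul_assoc _ _ _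
      _ = a * (v * z * a) := by rw [h2]
      _ = (a * v) * z * a := by simp only [mul_assoc]
      _ = (v * z * a) * z * a := by rw [h2]
      _ = v * z * (a * z) * a := by simp only [mul_assoc]
      _ = v * z * (z * a) * a := by rw [hzc a]
      _ = v * (z * z) * (a * a) := by simp only [mul_assoc]
      _ = v * (a * a) := by rw [hV.sq z hz, mul_one]

private theorem V4n_core {G : Type} [Group G] [Finite G] (hG : IsPGroup 2 G)
    (h16 : 16 ≤ Nat.card G) (hc : ¬ HasCyc2 G) (V : Subgroup G) [V.Normal] (hV : IsV4 V)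
    (hq : IsCyclic (G ⧸ V)) : ∃ (g z : G) (s : ℕ), Nat.card G = 4 * 2 ^ (s + 2) ∧
      z ∈ V ∧ z ≠ 1 ∧ (∀ a, a * z = z * a) ∧ g ^ 2 ^ (s + 1) ∉ V ∧
      g ^ 2 ^ (s + 1) * g ^ 2 ^ (s + 1) = 1 ∧ (∀ a, a * g ^ 2 ^ (s + 1) = g ^ 2 ^ (s + 1) * a) ∧
      ∀ a : G, ∃ v ∈ V, ∃ i : ℤ, a = v * g ^ i := by
  have : Fact (Nat.Prime 2) := ⟨Nat.prime_two⟩
  obtain ⟨z, hz, hz1, hzc⟩ := V4n_central hG V hV
  have hcard : Nat.card G = Nat.card (G ⧸ V) * 4 := by
    rw [Subgroup.card_eq_card_quotient_mul_card_subgroup V, hV.card]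
  obtain ⟨n, hn⟩ := IsPGroup.iff_card.1 (hG.to_quotient V)
  have hn2 : 2 ≤ n := by
    by_contra hlt
    have : n ≤ 1 := by omega
    have h3 : Nat.card (G ⧸ V) ≤ 2 ^ 1 := by
      rw [hn]; exact Nat.pow_le_pow_right (by norm_num) this
    omega
  obtain ⟨s, rfl⟩ := Nat.exists_eq_add_of_le hn2
  rw [show 2 + s = s + 2 from by ring] at hn
  obtain ⟨x, hx⟩ := IsCyclic.exists_generator (α := G ⧸ V)
  have hox : orderOf x = 2 ^ (s + 2) := by
    rw [orderOf_eq_card_of_forall_mem_zpowers hx, hn]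
  obtain ⟨g, rfl⟩ := QuotientGroup.mk_surjective x
  have hgV : g ^ 2 ^ (s + 2) ∈ V := by
    rw [← QuotientGroup.eq_one_iff, QuotientGroup.mk_pow, ← hox, pow_orderOf_eq_one]
  have hg1 : g ^ 2 ^ (s + 2) = 1 := by
    by_contra hne
    have h3 : g ^ 2 ^ (s + 2 + 1) = 1 := by
      rw [pow_succ, pow_mul, pow_two]
      exact hV.sq _ hgV
    have h4 := orderOf_eq_prime_pow hne h3
    refine hc ⟨g, ?_⟩
    rw [h4, hcard, hn]
    have h5 := pow_succ 2 (s + 2)
    omega
  have hyy : g ^ 2 ^ (s + 1) * g ^ 2 ^ (s + 1) = 1 := by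
    rw [← pow_add, ← hg1]
    congr 1
    ring
  have hyV : g ^ 2 ^ (s + 1) ∉ V := by
    intro h
    rw [← QuotientGroup.eq_one_iff, QuotientGroup.mk_pow] at h
    have h5 := orderOf_dvd_of_pow_eq_one h
    rw [hox] at h5
    have h6 := Nat.le_of_dvd (by positivity) h5
    have h7 : 2 ^ (s + 1) < 2 ^ (s + 2) := Nat.pow_lt_pow_right (by norm_num) (by omega)
    omega
  have hgen : ∀ a : G, ∃ v ∈ V, ∃ i : ℤ, a = v * g ^ i := by
    intro a
    obtain ⟨i, hi⟩ := Subgroup.mem_zpowers_iff.1 (hx (a : G ⧸ V))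
    refine ⟨a * (g ^ i)⁻¹, ?_, i, by group⟩
    rw [← QuotientGroup.eq_one_iff, QuotientGroup.mk_mul, QuotientGroup.mk_inv,
      QuotientGroup.mk_zpow, hi, mul_inv_cancel]
  refine ⟨g, z, s, ?_, hz, hz1, hzc, hyV, hyy, ?_, hgen⟩
  · rw [hcard, hn, mul_comm]
  · intro a
    obtain ⟨v, hv, i, rfl⟩ := hgen a
    have h8 : g ^ 2 ^ (s + 1) = g ^ 2 ^ s * g ^ 2 ^ s := by
      rw [← pow_add]; congr 1; ring
    have h9 : g ^ 2 ^ (s + 1) * v = v * g ^ 2 ^ (s + 1) := by
      rw [h8]; exact V4n_sq V hV hz hz1 hzc _ v hv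
    have h10 : g ^ i * g ^ 2 ^ (s + 1) = g ^ 2 ^ (s + 1) * g ^ i :=
      ((Commute.refl g).zpow_left i).pow_right _
    rw [mul_assoc, h10, ← mul_assoc, ← h9, mul_assoc]

/-- `G ⧸ V` cyclic case: there is a central involution `y` outside of `V`. Let `g` map to a generator of `G ⧸ V`, of order
`2 ^ r`, `4 * 2 ^ r = card G ≥ 16`, so `r ≥ 2`. `g ^ (2 ^ r) ∈ V`; if it is not 1 then `g` has order `2 ^ (r + 1)` and `HasCyc2`.
So `g` has order `2 ^ r`; `y = g ^ (2 ^ (r - 1))` has order 2, is not in `V` (its image has order 2), commutes with `g`, and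
`g ^ 2` centralises `V` (g permutes the three elements ≠ 1 of V; a 2-power order permutation of 3 elements has square 1), so
`y` centralises `V`; `G` is generated by `g` and `V`. -/
theorem exists_central_inv {G : Type} [Group G] [Finite G] (hG : IsPGroup 2 G)
    (h16 : 16 ≤ Nat.card G) (hc : ¬ HasCyc2 G) (V : Subgroup G) [V.Normal] (hV : IsV4 V)
    (hq : IsCyclic (G ⧸ V)) : ∃ y : G, y ∉ V ∧ y * y = 1 ∧ ∀ a, a * y = y * a := by
  obtain ⟨g, z, s, _, _, _, _, h1, h2, h3, _⟩ := V4n_core hG h16 hc V hV hq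
  exact ⟨_, h1, h2, h3⟩

private theorem V4n_group {G : Type} [Group G] [Finite G] {y z : G} (hy : y * y = 1)
    (hz : z * z = 1) (hyc : ∀ a, a * y = y * a) (hzc : ∀ a, a * z = z * a) (hy1 : y ≠ 1)
    (hz1 : z ≠ 1) (hyz : y ≠ z) : ∃ V' : Subgroup G, IsV4 V' ∧ V' ≤ Subgroup.center G ∧ y ∈ V' := by
  classical
  have h1 : y * (y * z) = z := by rw [← mul_assoc, hy, one_mul]
  have h2 : z * (y * z) = y := by rw [← mul_assoc, hyc z, mul_assoc, hz, mul_one]
  have h3 : y * z * y = z := by rw [hyc, h1]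
  have h4 : y * z * z = y := by rw [mul_assoc, hz, mul_one]
  have h5 : y * z * (y * z) = 1 := by rw [mul_assoc, h2, hy]
  have h6 : z * y = y * z := hyc z
  have hyzc : ∀ a, a * (y * z) = y * z * a := fun a => by
    rw [← mul_assoc, hyc a, mul_assoc, hzc a, mul_assoc]
  have hmem : ∀ a : G, a ∈ ({1, y, z, y * z} : Set G) ↔ a = 1 ∨ a = y ∨ a = z ∨ a = y * z := by
    intro a; simp
  have hsq : ∀ a ∈ ({1, y, z, y * z} : Set G), a * a = 1 := by
    intro a ha
    rcases (hmem a).1 ha with rfl | rfl | rfl | rfl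
    · exact one_mul 1
    · exact hy
    · exact hz
    · exact h5
  have hcen : ∀ a ∈ ({1, y, z, y * z} : Set G), ∀ b, b * a = a * b := by
    intro a ha b
    rcases (hmem a).1 ha with rfl | rfl | rfl | rfl
    · simp
    · exact hyc b
    · exact hzc b
    · exact hyzc b
  let V' : Subgroup G :=
    { carrier := {1, y, z, y * z}
      mul_mem' := by
        intro a b ha hb
        rw [hmem] at ha hb ⊢
        rcases ha with rfl | rfl | rfl | rfl <;> rcases hb with hb | hb | hb | hb <;> rw [hb] <;>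
          simp [h1, h2, h3, h4, h5, h6, hy, hz]
      one_mem' := by simp
      inv_mem' := by
        intro a ha
        have h7 : a⁻¹ = a := inv_eq_of_mul_eq_one_right (hsq a ha)
        rw [h7]
        exact ha }
  have hcard : Nat.card V' = 4 := by
    have h8 : Nat.card V' = (({1, y, z, y * z} : Finset G) : Set G).ncard := by
      have : ((({1, y, z, y * z} : Finset G)) : Set G) = (V' : Set G) := by
        simp [V']
      rw [this]
      rfl
    rw [h8, Set.ncard_coe_finset]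
    rw [Finset.card_insert_of_notMem, Finset.card_insert_of_notMem, Finset.card_insert_of_notMem,
      Finset.card_singleton]
    · simp only [Finset.mem_singleton]
      intro h
      exact hy1 (mul_eq_right.1 h.symm)
    · simp only [Finset.mem_insert, Finset.mem_singleton, not_or]
      exact ⟨hyz, fun h => hz1 (mul_eq_left.1 h.symm)⟩
    · simp only [Finset.mem_insert, Finset.mem_singleton, not_or]
      refine ⟨hy1.symm, hz1.symm, fun h => hyz ?_⟩
      have := congrArg (· * z) h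
      simpa [mul_assoc, hz] using this.symm
  refine ⟨V', ⟨⟨fun a ha b => ?_⟩, hcard, hsq⟩, fun a ha => ?_, ?_⟩
  · have h9 := hcen a ha b
    rw [h9, mul_inv_cancel_right]
    exact ha
  · rw [Subgroup.mem_center_iff]
    exact hcen a ha
  · exact (hmem y).2 (Or.inr (Or.inl rfl))

/-- `V' = {1, y, z, y z}` for a central involution `z ∈ V` (the centre of the 2-group meets the normal subgroup V; or: V has three
elements ≠ 1). If `G ⧸ V'` is cyclic then `G` is abelian (`V'` central), `G ⧸ V` is cyclic of order `2 ^ r`, `r ≥ 2`; `w ↦ w ^ 2 ^ (r-1)`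
is a homomorphism killing `V`, its image is generated by one element of order ≤ 2 ..., precisely: every `a` is `v * g ^ i`, so
`a ^ (2 ^ (r - 1)) = y₁ ^ i` with `y₁ = g ^ (2 ^ (r-1))`, which is in `V'` if we choose `y = y₁`; then `G ⧸ V'` has exponent
`2 ^ (r - 1)` but order `2 ^ r`. (You may strengthen `exists_central_inv` so that it also gives `g`, `r` with these properties;
it is only used here.) -/
theorem V4_noncyc {G : Type} [Group G] [Finite G] (hG : IsPGroup 2 G)
    (h16 : 16 ≤ Nat.card G) (hc : ¬ HasCyc2 G) (V : Subgroup G) (hV : IsV4 V) :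
    ∃ (V' : Subgroup G) (_ : V'.Normal), IsV4 V' ∧ ¬ IsCyclic (G ⧸ V') := by
  have := hV.normal
  by_cases hq : IsCyclic (G ⧸ V)
  swap
  · exact ⟨V, hV.normal, hV, hq⟩
  obtain ⟨g, z, s, hcard, hz, hz1, hzc, hyV, hyy, hyc, hgen⟩ := V4n_core hG h16 hc V hV hq
  obtain ⟨V', hV', hcen, hyV'⟩ := V4n_group hyy (hV.sq z hz) hyc hzc
    (fun h => hyV (h ▸ V.one_mem)) hz1 (fun h => hyV (h ▸ hz))
  have := hV'.normal
  refine ⟨V', hV'.normal, hV', fun hcyc => ?_⟩
  have hcomm : ∀ a b : G, a * b = b * a := fun a b =>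
    (MonoidHom.isMulCommutative_of_isCyclic_of_ker_le_center (QuotientGroup.mk' V')
      (by rw [QuotientGroup.ker_mk']; exact hcen)).is_comm.comm a b
  have hcard' : Nat.card (G ⧸ V') = 2 ^ (s + 2) := by
    have h1 := Subgroup.card_eq_card_quotient_mul_card_subgroup V'
    rw [hV'.card, hcard] at h1
    omega
  obtain ⟨x, hx⟩ := IsCyclic.exists_generator (α := G ⧸ V')
  have hox : orderOf x = 2 ^ (s + 2) := by
    rw [orderOf_eq_card_of_forall_mem_zpowers hx, hcard']
  obtain ⟨a, rfl⟩ := QuotientGroup.mk_surjective x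
  obtain ⟨v, hv, i, rfl⟩ := hgen a
  have h2 : (v * g ^ i) ^ 2 ^ (s + 1) = (g ^ 2 ^ (s + 1)) ^ i := by
    rw [(show Commute v (g ^ i) from hcomm _ _).mul_pow]
    have h3 : v ^ 2 ^ (s + 1) = 1 := by
      rw [pow_succ' 2 s, pow_mul, pow_two, hV.sq v hv, one_pow]
    rw [h3, one_mul, ← zpow_natCast, ← zpow_natCast, ← zpow_mul, ← zpow_mul, mul_comm]
  have h4 : ((v * g ^ i : G) : G ⧸ V') ^ 2 ^ (s + 1) = 1 := by
    rw [← QuotientGroup.mk_pow, h2, QuotientGroup.eq_one_iff]
    exact V'.zpow_mem hyV' i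
  have h5 := orderOf_dvd_of_pow_eq_one h4
  rw [hox] at h5
  have h6 := Nat.le_of_dvd (by positivity) h5
  have h7 : 2 ^ (s + 1) < 2 ^ (s + 2) := Nat.pow_lt_pow_right (by norm_num) (by omega)
  omega

end LibRE
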