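import Pool.Agent.LibRS.T02
import Pool.Agent.LibRS.T06
import Pool.Agent.LibRS.T07
import Pool.Agent.LibRE29.Defs
set_option autoImplicit false
namespace LibRE
open LibRS Equiv

/-- Extension of the four group `Q = {1, x, h x, h}`, `θ : x → h x → h → x` (core).
The proof is a variant of `LibRS.ext_core2` (Pool/Agent/LibRS/T20.lean), please copy its structure.
Put `α₀ = cx * s + η` and take the section
  `E 1 = 1`, `E x = Ex`, `E (h x) = ν (-α₀) * (H * Ex)`, `E h = H * ν z`,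
scalars `c 1 = g`, `c x = cx`, `c (h x) = cu`, `c h = ch`, and `Θ₀` from `LibRS.exists_lift`
(`Θ₀ (ν n * E y) = ν (c y * n) * E (θ y)`). `ν n` and `H` commute.
Trade: `p₁ = ν s * Ex`, `p₂ = ν z`, `p₃ = H * p₁ = ν (s + α₀) * E (h x)`, `p₄ = H * ν z = E h`.
 `Θ₀ p₂ = ν (g z)`, `Θ₀ p₃ = ν (cu (s + α₀)) * E h = H * ν (g z)` (by e1), `Θ₀ p₄ = Ex = H * Θ₀ p₁`
 (`Θ₀ p₁ = ν (cx s) * E (h x)`, `H * H = ν η`). So with `σ = swap p₁ p₂ * swap p₃ p₄`,
 `τ = swap p₁ p₃ * swap p₂ p₄` the lemma `LibRS.orth_trade` gives `Orth (Θ₀ * σ)`.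
Cycles of `Θ₀` on `G \ 1`: `ν (F \ 0)`; `{Ex, E (h x), E h}`; `{ν n * E y | n ≠ 0, y ≠ 1}` (here
 `cx * cu * ch` primitive is used: the cube of `Θ₀` maps `ν n * E y` to `ν (cx * cu * ch * n) * E y`).
 `swap p₁ p₂` joins the first cycle with the one of `p₁` (invariant set `{g | π g = 1}`), and
 `swap p₃ p₄` joins the two others (`p₄ = E h`, `p₃ = ν (s + α₀) * E (h x)` with `s + α₀ ≠ 0` by e1, g ≠ 1;
 after the first swap the set `{E y | y ≠ 1}` or its union with `{g | g ≠ 1, π g = 1}` (if `s = 0`) is invariant).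
Pattern for `Θ = Θ₀ * σ`: `x' = ν (s - δ) * Ex`, `h' = H = ν (-z) * E h`:
 `H * x' = ν (s - δ + α₀) * E (h x)` is mapped to `ν (-z) * E h = H` (as `cu (s - δ + α₀) = g z - z - g z`),
 `Θ H = ν (- ch z) * Ex`, `Θ x' = ν (cx (s - δ)) * E (h x)`, `H * Θ x' = ν (- cx δ) * Ex`, equal because
 `ch * z = cx * δ` (from e2, hδ). None of `x', H x', H` is one of the `p`s (`δ ≠ 0`, `z ≠ 0`). The six elements
 are distinct by e3, e4. -/
theorem ext_V_core {F G Q : Type} [Field F] [Fintype F] [Group G] [Finite G] [Group Q] [Fintype Q]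
    [DecidableEq Q] (X : Ext F G Q) (θ : Perm Q) (x h : Q) (hθ : Orth θ) (hh : h * h = 1)
    (h1 : θ x = h * x) (h2 : θ (h * x) = h) (h3 : θ h = x) (hnd : [1, x, h * x, h].Nodup)
    (hall : ∀ y : Q, y = 1 ∨ y = x ∨ y = h * x ∨ y = h) (H Ex : G) (hH : X.π H = h)
    (hEx : X.π Ex = x) (hβ : ∀ n, X.β H n = n) (η : F) (hη : H * H = X.ν η)
    (g cx cu ch z s δ : F) (hg : Prim g) (hprod : Prim (cx * cu * ch)) (hg1 : g ≠ 1)
    (hcx0 : cx ≠ 0) (hcx1 : cx ≠ 1) (hcu0 : cu ≠ 0) (hcu1 : cu ≠ 1) (hch0 : ch ≠ 0) (hch1 : ch ≠ 1)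
    (hz : z ≠ 0) (hδ : cu * δ = g * z) (e1 : cu * (s + (cx * s + η)) = g * z - z)
    (e2 : ch * cu = cx * g) (e3 : cx * (s - δ) ≠ (s - δ) + (cx * s + η))
    (e4 : -(ch * z) ≠ s - δ) : R2 G := by
  classical
  simp only [List.nodup_cons, List.mem_cons, List.not_mem_nil, or_false, not_or,
    List.nodup_nil, and_true, not_false_eq_true] at hnd
  obtain ⟨⟨h1x, h1u, h1h⟩, ⟨hxu, hxh⟩, huh⟩ := hnd
  have hθ1 : θ 1 = 1 := hθ.1
  set u := h * x with hu
  set α₀ : F := cx * s + η with hα₀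
  -- the section
  set E : Q → G := fun y => if y = 1 then 1 else if y = x then Ex else
    if y = u then X.ν (-α₀) * (H * Ex) else H * X.ν z with hE
  have hE1 : E 1 = 1 := by simp [hE]
  have hEx' : E x = Ex := by simp [hE, Ne.symm h1x]
  have hEu : E u = X.ν (-α₀) * (H * Ex) := by simp [hE, Ne.symm h1u, Ne.symm hxu]
  have hEh : E h = H * X.ν z := by simp [hE, Ne.symm h1h, Ne.symm hxh, Ne.symm huh]
  have hEπ : ∀ y, X.π (E y) = y := by
    intro y
    rcases hall y with rfl | rfl | rfl | rfl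
    · rw [hE1, map_one]
    · rw [hEx', hEx]
    · rw [hEu, map_mul, map_mul, X.π_ν, hH, hEx, one_mul]
    · rw [hEh, map_mul, X.π_ν, hH, mul_one]
  -- the scalars
  set c : Q → F := fun y => if y = 1 then g else if y = x then cx else
    if y = u then cu else ch with hc
  have hc1' : c 1 = g := by simp [hc]
  have hcx' : c x = cx := by simp [hc, Ne.symm h1x]
  have hcu' : c u = cu := by simp [hc, Ne.symm h1u, Ne.symm hxu]
  have hch' : c h = ch := by simp [hc, Ne.symm h1h, Ne.symm hxh, Ne.symm huh]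
  have hc0 : ∀ y, c y ≠ 0 := by
    intro y
    rcases hall y with rfl | rfl | rfl | rfl
    · rw [hc1']; exact hg.1
    · rw [hcx']; exact hcx0
    · rw [hcu']; exact hcu0
    · rw [hch']; exact hch0
  have hc1 : ∀ y, c y ≠ 1 := by
    intro y
    rcases hall y with rfl | rfl | rfl | rfl
    · rw [hc1']; exact hg1
    · rw [hcx']; exact hcx1
    · rw [hcu']; exact hcu1
    · rw [hch']; exact hch1
  clear_value E c
  have hcprod : ∏ y ∈ Finset.univ.erase (1 : Q), c y = cx * cu * ch := by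
    have hs : Finset.univ.erase (1 : Q) = {x, u, h} := by
      ext y
      simp only [Finset.mem_erase, Finset.mem_univ, and_true, Finset.mem_insert,
        Finset.mem_singleton]
      constructor
      · intro hy
        rcases hall y with h0 | h0 | h0 | h0
        · exact absurd h0 hy
        · exact Or.inl h0
        · exact Or.inr (Or.inl h0)
        · exact Or.inr (Or.inr h0)
      · rintro (rfl | rfl | rfl)
        · exact Ne.symm h1x
        · exact Ne.symm h1u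
        · exact Ne.symm h1h
    rw [hs, Finset.prod_insert (by simp [hxu, hxh]), Finset.prod_insert (by simp [huh]),
      Finset.prod_singleton, hcx', hcu', hch']
    ring
  -- the small cycle
  have hcyc0 : OneCyc θ := by
    have hx : ∀ y, y ≠ 1 → θ.SameCycle y x := by
      intro y hy
      rcases hall y with h0 | h0 | h0 | h0
      · exact absurd h0 hy
      · rw [h0]
      · rw [h0]
        exact ⟨2, by
          rw [show (2 : ℤ) = ((2 : ℕ) : ℤ) by norm_num, zpow_natCast, pow_two, Perm.mul_apply,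
            h2, h3]⟩
      · rw [h0]
        exact ⟨1, by rw [zpow_one, h3]⟩
    intro y y' hy hy'
    exact (hx y hy).trans (hx y' hy').symm
  obtain ⟨Θ₀, hΘ₀, hform⟩ := exists_lift X θ hθ c hc0 hc1 E hEπ hE1
  have hΘE : ∀ y, Θ₀ (E y) = E (θ y) := by
    intro y
    have := hform 0 y
    rwa [mul_zero, X.ν_zero, one_mul, one_mul] at this
  have hΘN : ∀ n, Θ₀ (X.ν n) = X.ν (g * n) := by
    intro n
    have := hform n 1
    rwa [hE1, mul_one, hc1', hθ1, hE1, mul_one] at this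
  -- commutation with `H`
  have hHν : ∀ (n : F) (y : G), H * (X.ν n * y) = X.ν n * (H * y) := by
    intro n y
    rw [X.mul_ν', hβ]
  have hHν1 : ∀ n : F, H * X.ν n = X.ν n * H := by
    intro n
    rw [X.mul_ν, hβ]
  have hHHE : H * (H * Ex) = X.ν η * Ex := by rw [← mul_assoc, hη]
  have hHu : H * E u = X.ν (-α₀ + η) * Ex := by
    rw [hEu, hHν, hHHE, X.ν_mul']
  have hHx : H * Ex = X.ν α₀ * E u := by
    rw [hEu, X.ν_mul', add_neg_cancel, X.ν_zero, one_mul]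
  have hHE : H = X.ν (-z) * E h := by
    rw [hEh, hHν1, ← mul_assoc, X.ν_mul, neg_add_cancel, X.ν_zero, one_mul]
  -- the four points
  obtain ⟨p₁, hp₁⟩ : ∃ p : G, p = X.ν s * Ex := ⟨_, rfl⟩
  obtain ⟨p₂, hp₂⟩ : ∃ p : G, p = X.ν z := ⟨_, rfl⟩
  obtain ⟨p₃, hp₃⟩ : ∃ p : G, p = H * p₁ := ⟨_, rfl⟩
  obtain ⟨p₄, hp₄⟩ : ∃ p : G, p = H * p₂ := ⟨_, rfl⟩
  have π₁ : X.π p₁ = x := by rw [hp₁, map_mul, X.π_ν, one_mul, hEx]
  have π₂ : X.π p₂ = 1 := by rw [hp₂]; exact X.π_ν z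
  have π₃ : X.π p₃ = u := by rw [hp₃, map_mul, hH, π₁]
  have π₄ : X.π p₄ = h := by rw [hp₄, map_mul, hH, π₂, mul_one]
  have ne_of_π : ∀ {a b : G}, X.π a ≠ X.π b → a ≠ b := fun hab hab' => hab (by rw [hab'])
  have n12 : p₁ ≠ p₂ := ne_of_π (by rw [π₁, π₂]; exact Ne.symm h1x)
  have n13 : p₁ ≠ p₃ := ne_of_π (by rw [π₁, π₃]; exact hxu)
  have n14 : p₁ ≠ p₄ := ne_of_π (by rw [π₁, π₄]; exact hxh)
  have n23 : p₂ ≠ p₃ := ne_of_π (by rw [π₂, π₃]; exact h1u)
  have n24 : p₂ ≠ p₄ := ne_of_π (by rw [π₂, π₄]; exact h1h)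
  have n34 : p₃ ≠ p₄ := ne_of_π (by rw [π₃, π₄]; exact huh)
  have hp₁E : p₁ = X.ν s * E x := by rw [hEx', hp₁]
  have hp₃E : p₃ = X.ν (s + α₀) * E u := by rw [hp₃, hp₁, hHν, hHx, X.ν_mul']
  have hp₄E : p₄ = E h := by rw [hp₄, hp₂, hEh]
  have e₁ : Θ₀ p₁ = X.ν (cx * s) * E u := by rw [hp₁E, hform, hcx', h1]
  have e₂ : Θ₀ p₂ = X.ν (g * z) := by rw [hp₂]; exact hΘN z
  have e₃ : Θ₀ p₃ = H * Θ₀ p₂ := by
    rw [hp₃E, hform, hcu', h2, e1, hEh, e₂, hHν1, hHν1, X.ν_mul']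
    congr 2
    ring
  have e₄ : Θ₀ p₄ = H * Θ₀ p₁ := by
    rw [hp₄E, hΘE, h3, hEx', e₁, hHν, hHu, X.ν_mul']
    have : cx * s + (-α₀ + η) = 0 := by rw [hα₀]; ring
    rw [this, X.ν_zero, one_mul]
  -- the trade
  obtain ⟨s1, s2, s3, s4, s5⟩ := swap_swap_apply n13 n14 n23 n24
  obtain ⟨t1, t3, t2, t4, t5⟩ := swap_swap_apply (a := p₁) (b := p₃) (c := p₂) (d := p₄)
    n12 n14 n23.symm n34
  set σ : Perm G := swap p₁ p₂ * swap p₃ p₄ with hσ
  set τ : Perm G := swap p₁ p₃ * swap p₂ p₄ with hτ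
  have one_ne₁ : (1 : G) ≠ p₁ := ne_of_π (by rw [π₁, map_one]; exact h1x)
  have one_ne₂ : (1 : G) ≠ p₂ := fun h0 => hz (X.ν_eq_one (hp₂.symm.trans h0.symm))
  have one_ne₃ : (1 : G) ≠ p₃ := ne_of_π (by rw [π₃, map_one]; exact h1u)
  have one_ne₄ : (1 : G) ≠ p₄ := ne_of_π (by rw [π₄, map_one]; exact h1h)
  have hOrth : Orth (Θ₀ * σ) := by
    apply orth_trade Θ₀ σ τ hΘ₀
    · rw [s5 1 one_ne₁ one_ne₂ one_ne₃ one_ne₄]; exact hΘ₀.1
    · intro y
      by_cases y1 : y = p₁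
      · rw [y1, s1, t1, e₃, hp₃]; group
      by_cases y2 : y = p₂
      · rw [y2, s2, t2, e₄, hp₄]; group
      by_cases y3 : y = p₃
      · rw [y3, s3, t3, e₄, hp₃]; group
      by_cases y4 : y = p₄
      · rw [y4, s4, t4, e₃, hp₄]; group
      rw [s5 y y1 y2 y3 y4, t5 y y1 y3 y2 y4]
  -- the cycles
  have hgz : g * z - z ≠ 0 := by
    intro h0
    have : (g - 1) * z = 0 := by linear_combination h0
    rcases mul_eq_zero.1 this with h2 | h2
    · exact hg1 (sub_eq_zero.1 h2)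
    · exact hz h2
  have hsα : s + α₀ ≠ 0 := by
    intro h0
    rw [h0, mul_zero] at e1
    exact hgz e1.symm
  have hΘσ : Θ₀ * σ = (Θ₀ * swap p₁ p₂) * swap p₃ p₄ := by rw [hσ, mul_assoc]
  have m0 : ¬ Θ₀.SameCycle p₁ p₂ := by
    intro hs
    refine not_sameCycle_of_inv Θ₀ {y | X.π y = 1} ?_ (a := p₂) (b := p₁) π₂ ?_ hs.symm
    · intro y hy
      obtain ⟨n, rfl⟩ := (X.π_ker y).1 hy
      rw [hΘN]
      exact X.π_ν _
    · intro hy
      exact h1x (π₁.symm.trans hy).symm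
  obtain ⟨m1, m1'⟩ := sameCycle_mul_swap Θ₀ p₁ p₂ m0
  have m2 : ¬ (Θ₀ * swap p₁ p₂).SameCycle p₃ p₄ := by
    by_cases hs0 : s = 0
    · refine not_sameCycle_of_inv _ {y | ∃ n q, n ≠ 0 ∧ q ≠ 1 ∧ y = X.ν n * E q} ?_ ?_ ?_
      · rintro y ⟨n, q, hn, hq, rfl⟩
        have hne1 : X.ν n * E q ≠ p₁ := by
          intro h0
          rw [hp₁E] at h0
          exact hn ((X.coord_inj hEπ h0).1.trans hs0)
        have hne2 : X.ν n * E q ≠ p₂ := by
          apply ne_of_π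
          rw [π₂, map_mul, X.π_ν, hEπ, one_mul]
          exact hq
        refine ⟨c q * n, θ q, mul_ne_zero (hc0 q) hn, ?_, ?_⟩
        · intro h0
          exact hq (θ.injective (h0.trans hθ1.symm))
        · rw [Perm.mul_apply, swap_apply_of_ne_of_ne hne1 hne2, hform]
      · exact ⟨s + α₀, u, hsα, Ne.symm h1u, hp₃E⟩
      · rintro ⟨n, q, hn, hq, h0⟩
        have h2 : X.ν 0 * E h = X.ν n * E q := by rw [← h0, X.ν_zero, one_mul, hp₄E]
        exact hn (X.coord_inj hEπ h2).1.symm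
    · intro hs
      refine not_sameCycle_of_inv (Θ₀ * swap p₁ p₂) {y | ∃ q, q ≠ 1 ∧ y = E q} ?_
        (a := p₄) (b := p₃) ?_ ?_ hs.symm
      · rintro y ⟨q, hq, rfl⟩
        have hne1 : E q ≠ p₁ := by
          intro h0
          have h2 : X.ν 0 * E q = X.ν s * E x := by rw [← hp₁E, X.ν_zero, one_mul, h0]
          exact hs0 (X.coord_inj hEπ h2).1.symm
        have hne2 : E q ≠ p₂ := by
          apply ne_of_π
          rw [π₂, hEπ]
          exact hq
        refine ⟨θ q, ?_, ?_⟩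
        · intro h0
          exact hq (θ.injective (h0.trans hθ1.symm))
        · rw [Perm.mul_apply, swap_apply_of_ne_of_ne hne1 hne2, hΘE]
      · exact ⟨h, Ne.symm h1h, hp₄E⟩
      · rintro ⟨q, hq, h0⟩
        have h2 : X.ν (s + α₀) * E u = X.ν 0 * E q := by
          rw [← hp₃E, h0, X.ν_zero, one_mul]
        exact hsα (X.coord_inj hEπ h2).1
  obtain ⟨m3, m3'⟩ := sameCycle_mul_swap (Θ₀ * swap p₁ p₂) p₃ p₄ m2
  rw [← hΘσ] at m3 m3'
  have hsmall : ∀ q, q ≠ 1 → (Θ₀ * σ).SameCycle (E q) p₄ := by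
    intro q hq
    have h2 : Θ₀.SameCycle (E q) p₄ := by
      rw [hp₄E]
      exact lift_cyc_E θ hcyc0 Θ₀ E hΘE q h hq (Ne.symm h1h)
    exact m3 _ _ (m1 _ _ h2)
  have hbig : ∀ n q, n ≠ 0 → q ≠ 1 → (Θ₀ * σ).SameCycle (X.ν n * E q) p₄ := by
    intro n q hn hq
    have h2 : Θ₀.SameCycle (X.ν n * E q) p₃ := by
      rw [hp₃E]
      exact lift_cyc_one X θ hθ1 hcyc0 c hc0 (cx * cu * ch) hprod hcprod E Θ₀ hform n (s + α₀) q u
        hn hsα hq (Ne.symm h1u)
    exact (m3 _ _ (m1 _ _ h2)).trans m3'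
  have h14 : (Θ₀ * σ).SameCycle p₁ p₄ := by
    by_cases hs0 : s = 0
    · rw [hp₁E, hs0, X.ν_zero, one_mul]
      exact hsmall x (Ne.symm h1x)
    · rw [hp₁E]
      exact hbig s x hs0 (Ne.symm h1x)
  have hallc : ∀ y, y ≠ 1 → (Θ₀ * σ).SameCycle y p₄ := by
    intro y hy
    obtain ⟨n, hn⟩ := X.exists_coord hEπ y
    by_cases hq : X.π y = 1
    · rw [hq, hE1, mul_one] at hn
      have hn0 : n ≠ 0 := by
        rintro rfl
        rw [X.ν_zero] at hn
        exact hy hn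
      have h2 : Θ₀.SameCycle y p₂ := by
        rw [hn, hp₂]
        exact lift_cyc_N X Θ₀ g hg hΘN n z hn0 hz
      exact ((m3 _ _ (m1 _ _ h2)).trans (m3 _ _ m1').symm).trans h14
    · by_cases hn0 : n = 0
      · rw [hn0, X.ν_zero, one_mul] at hn
        rw [hn]
        exact hsmall _ hq
      · rw [hn]
        exact hbig n _ hn0 hq
  have hcyc : OneCyc (Θ₀ * σ) := fun y y' hy hy' => (hallc y hy).trans (hallc y' hy').symm
  have hoff : ∀ y, y ≠ p₁ → y ≠ p₂ → y ≠ p₃ → y ≠ p₄ → (Θ₀ * σ) y = Θ₀ y := by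
    intro y y1 y2 y3 y4
    rw [Perm.mul_apply, s5 y y1 y2 y3 y4]
  -- the pattern
  have hδ0 : δ ≠ 0 := by
    rintro rfl
    rw [mul_zero] at hδ
    exact mul_ne_zero hg.1 hz hδ.symm
  have hchz : ch * z = cx * δ := by
    apply mul_left_cancel₀ hcu0
    linear_combination z * e2 - cx * hδ
  set x' : G := X.ν (s - δ) * Ex with hx'
  have πx' : X.π x' = x := by rw [hx', map_mul, X.π_ν, one_mul, hEx]
  have hx'E : x' = X.ν (s - δ) * E x := by rw [hEx', hx']
  have hHx' : H * x' = X.ν (s - δ + α₀) * E u := by rw [hx', hHν, hHx, X.ν_mul']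
  have πHx' : X.π (H * x') = u := by rw [map_mul, hH, πx']
  have v1 : (Θ₀ * σ) x' = X.ν (cx * (s - δ)) * E u := by
    rw [hoff]
    · rw [hx'E, hform, hcx', h1]
    · intro h0
      rw [hx'E, hp₁E] at h0
      have h2 := (X.coord_inj hEπ h0).1
      exact hδ0 (by linear_combination -h2)
    · exact ne_of_π (by rw [πx', π₂]; exact Ne.symm h1x)
    · exact ne_of_π (by rw [πx', π₃]; exact hxu)
    · exact ne_of_π (by rw [πx', π₄]; exact hxh)
  have v2 : (Θ₀ * σ) (H * x') = H := by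
    rw [hoff]
    · rw [hHx', hform, hcu', h2]
      have h5 : cu * (s - δ + α₀) = -z := by
        have : cu * (s - δ + α₀) = cu * (s + α₀) - cu * δ := by ring
        rw [this, hδ, e1]
        ring
      rw [h5, ← hHE]
    · exact ne_of_π (by rw [πHx', π₁]; exact Ne.symm hxu)
    · exact ne_of_π (by rw [πHx', π₂]; exact Ne.symm h1u)
    · intro h0
      rw [hHx', hp₃E] at h0
      have h2 := (X.coord_inj hEπ h0).1
      exact hδ0 (by linear_combination -h2)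
    · exact ne_of_π (by rw [πHx', π₄]; exact huh)
  have v3 : (Θ₀ * σ) H = X.ν (-(ch * z)) * Ex := by
    rw [hoff]
    · conv_lhs => rw [hHE]
      rw [hform, hch', h3, hEx']
      congr 2
      ring
    · exact ne_of_π (by rw [hH, π₁]; exact Ne.symm hxh)
    · exact ne_of_π (by rw [hH, π₂]; exact Ne.symm h1h)
    · exact ne_of_π (by rw [hH, π₃]; exact Ne.symm huh)
    · intro h0
      have h2 : H * 1 = H * X.ν z := by rw [mul_one, ← hp₂, ← hp₄]; exact h0
      exact hz (X.ν_eq_one (mul_left_cancel h2).symm)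
  have v4 : H * (Θ₀ * σ) x' = X.ν (-(ch * z)) * Ex := by
    rw [v1, hHν, hHu, X.ν_mul', hchz]
    congr 2
    rw [hα₀]
    ring
  refine ⟨Θ₀ * σ, x', H, hOrth, hcyc, v2, ?_, ?_⟩
  · rw [v3, v4]
  · rw [v4, v1]
    have πa : X.π (X.ν (cx * (s - δ)) * E u) = u := by rw [map_mul, X.π_ν, one_mul, hEπ]
    have πb : X.π (X.ν (-(ch * z)) * Ex) = x := by rw [map_mul, X.π_ν, one_mul, hEx]
    simp only [List.nodup_cons, List.mem_cons, List.not_mem_nil, or_false, not_or,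
      List.nodup_nil, and_true, not_false_eq_true]
    refine ⟨⟨?_, ?_, ?_, ?_, ?_⟩, ⟨?_, ?_, ?_, ?_⟩, ⟨?_, ?_, ?_⟩, ⟨?_, ?_⟩, ?_⟩
    · exact ne_of_π (by rw [map_one, πx']; exact h1x)
    · exact ne_of_π (by rw [map_one, πHx']; exact h1u)
    · exact ne_of_π (by rw [map_one, hH]; exact h1h)
    · exact ne_of_π (by rw [map_one, πa]; exact h1u)
    · exact ne_of_π (by rw [map_one, πb]; exact h1x)
    · exact ne_of_π (by rw [πx', πHx']; exact hxu)
    · exact ne_of_π (by rw [πx', hH]; exact hxh)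
    · exact ne_of_π (by rw [πx', πa]; exact hxu)
    · intro h0
      rw [hx'E, ← hEx'] at h0
      exact e4 (X.coord_inj hEπ h0).1.symm
    · exact ne_of_π (by rw [πHx', hH]; exact huh)
    · intro h0
      rw [hHx'] at h0
      exact e3 ((X.coord_inj hEπ h0).1.symm)
    · exact ne_of_π (by rw [πHx', πb]; exact Ne.symm hxu)
    · exact ne_of_π (by rw [hH, πa]; exact Ne.symm huh)
    · exact ne_of_π (by rw [hH, πb]; exact Ne.symm hxh)
    · exact ne_of_π (by rw [πa, πb]; exact Ne.symm hxu)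

end LibRE
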