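import Pool.Agent.LibRS.T05
import Pool.Agent.LibRE29.VCore
set_option autoImplicit false
namespace LibRE
open LibRS Equiv

/-- The orthomorphism of the four group with given `h`: `x → h x → h → x`. -/
theorem four_pat {Q : Type} [Group Q] [Finite Q] (hQ : Nat.card Q = 4) (hQ2 : ∀ q : Q, q * q = 1)
    (h : Q) (hh : h ≠ 1) : ∃ (θ : Perm Q) (x : Q), Orth θ ∧ θ x = h * x ∧ θ (h * x) = h ∧ θ h = x ∧
      [1, x, h * x, h].Nodup ∧ ∀ y : Q, y = 1 ∨ y = x ∨ y = h * x ∨ y = h := by
  classical
  have : Fintype Q := Fintype.ofFinite Q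
  have hcard : Fintype.card Q = 4 := by rw [← Nat.card_eq_fintype_card]; exact hQ
  have hinv : ∀ q : Q, q⁻¹ = q := fun q => inv_eq_of_mul_eq_one_left (hQ2 q)
  have hcomm : ∀ a b : Q, a * b = b * a := by
    intro a b
    have h1 := hQ2 (a * b)
    calc a * b = (a * b)⁻¹ := (hinv _).symm
      _ = b⁻¹ * a⁻¹ := mul_inv_rev a b
      _ = b * a := by rw [hinv, hinv]
  obtain ⟨x, hx⟩ : ∃ x : Q, x ∉ ({1, h} : Finset Q) := by
    by_contra hcon
    push Not at hcon
    have h1 : Fintype.card Q ≤ ({1, h} : Finset Q).card := Finset.card_le_card (fun a _ => hcon a)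
    have h2 : ({1, h} : Finset Q).card ≤ 2 := Finset.card_le_two
    omega
  simp only [Finset.mem_insert, Finset.mem_singleton, not_or] at hx
  obtain ⟨hx1, hxh⟩ := hx
  have hu1 : h * x ≠ 1 := by
    intro h0
    apply hxh
    have : x = h⁻¹ := by rw [eq_inv_iff_mul_eq_one, hcomm]; exact h0
    rw [this, hinv]
  have huh : h * x ≠ h := by
    intro h0
    exact hx1 (mul_eq_left.1 h0)
  have hux : h * x ≠ x := by
    intro h0
    exact hh (mul_eq_right.1 h0)
  have hall : ∀ y : Q, y = 1 ∨ y = x ∨ y = h * x ∨ y = h := by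
    have h1 : ({1, x, h * x, h} : Finset Q).card = 4 := by
      rw [Finset.card_insert_of_notMem, Finset.card_insert_of_notMem,
        Finset.card_insert_of_notMem, Finset.card_singleton]
      · simpa using huh
      · simp only [Finset.mem_insert, Finset.mem_singleton, not_or]
        exact ⟨Ne.symm hux, hxh⟩
      · simp only [Finset.mem_insert, Finset.mem_singleton, not_or]
        exact ⟨Ne.symm hx1, Ne.symm hu1, Ne.symm hh⟩
    have h2 : ({1, x, h * x, h} : Finset Q) = Finset.univ :=
      Finset.eq_univ_of_card _ (by rw [h1, hcard])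
    intro y
    have h3 : y ∈ ({1, x, h * x, h} : Finset Q) := by rw [h2]; exact Finset.mem_univ y
    simpa using h3
  set θ : Perm Q := swap x (h * x) * swap (h * x) h with hθ
  have θx : θ x = h * x := by
    rw [hθ, Perm.mul_apply, swap_apply_of_ne_of_ne (Ne.symm hux) hxh, swap_apply_left]
  have θu : θ (h * x) = h := by
    rw [hθ, Perm.mul_apply, swap_apply_left, swap_apply_of_ne_of_ne (Ne.symm hxh) (Ne.symm huh)]
  have θh : θ h = x := by
    rw [hθ, Perm.mul_apply, swap_apply_right, swap_apply_right]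
  have θ1 : θ 1 = 1 := by
    rw [hθ, Perm.mul_apply, swap_apply_of_ne_of_ne (Ne.symm hu1) (Ne.symm hh),
      swap_apply_of_ne_of_ne (Ne.symm hx1) (Ne.symm hu1)]
  clear_value θ
  refine ⟨θ, x, ⟨θ1, ?_⟩, θx, θu, θh, ?_, hall⟩
  · have v1 : (1 : Q)⁻¹ * θ 1 = 1 := by rw [θ1, inv_one, one_mul]
    have vx : x⁻¹ * θ x = h := by
      rw [θx, hinv, hcomm h x, ← mul_assoc, hQ2, one_mul]
    have vu : (h * x)⁻¹ * θ (h * x) = x := by
      rw [θu, hinv, hcomm h x, mul_assoc, hQ2, mul_one]
    have vh : h⁻¹ * θ h = h * x := by rw [θh, hinv]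
    intro a b hab
    simp only at hab
    rcases hall a with rfl | rfl | rfl | rfl <;> rcases hall b with rfl | rfl | rfl | rfl
    all_goals first
      | rfl
      | (exfalso
         simp only [v1, vx, vu, vh] at hab
         first
          | exact hh hab
          | exact hh hab.symm
          | exact hx1 hab
          | exact hx1 hab.symm
          | exact hu1 hab
          | exact hu1 hab.symm
          | exact hxh hab
          | exact hxh hab.symm
          | exact huh hab
          | exact huh hab.symm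
          | exact hux hab
          | exact hux hab.symm)
  · simp only [List.nodup_cons, List.mem_cons, List.not_mem_nil, or_false, not_or,
      List.nodup_nil, and_true, not_false_eq_true]
    exact ⟨⟨Ne.symm hx1, Ne.symm hu1, Ne.symm hh⟩, ⟨Ne.symm hux, hxh⟩, huh⟩

theorem VExtOdd_exists_notMem {F : Type} [Fintype F] [DecidableEq F] (S : Finset F)
    (h : S.card < Fintype.card F) : ∃ a, a ∉ S := by
  by_contra hcon
  push Not at hcon
  have : Fintype.card F ≤ S.card := Finset.card_le_card (fun a _ => hcon a)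
  omega

theorem VExtOdd_prim_ne_one {F : Type} [Field F] [Fintype F] {g : F} (hg : Prim g)
    (hF : 3 ≤ Fintype.card F) : g ≠ 1 := by
  classical
  rintro rfl
  have : (Finset.univ : Finset F) ⊆ {0, 1} := by
    intro a _
    by_cases ha : a = 0
    · simp [ha]
    · obtain ⟨i, hi⟩ := hg.2 a ha
      simp [hi]
  have h1 := Finset.card_le_card this
  have h2 : ({0, 1} : Finset F).card ≤ 2 := Finset.card_le_two
  rw [Finset.card_univ] at h1
  omega

theorem VExtOdd_two_ne {F : Type} [Field F] [Fintype F] (hF : Odd (Fintype.card F)) :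
    (2 : F) ≠ 0 := by
  intro h
  have h1 : ringChar F ∣ 2 := ringChar.dvd (by exact_mod_cast h)
  rcases (Nat.dvd_prime Nat.prime_two).1 h1 with h2 | h2
  · exact CharP.ringChar_ne_one h2
  · have h3 := FiniteField.even_card_iff_char_two.1 h2
    rw [Nat.odd_iff] at hF
    omega

/-- `q` odd: by `ext_V_core`. If `H * H = 1` replace `H` by `H * ν 1`, so that `η ≠ 0` (characteristic ≠ 2;
`H ν η' H ν η' = H H ν (2 η')`). Take `g` primitive, `g ≠ 1` (`LibRS.exists_prim`), `cx = -1`;
if `card F = 3`: `cu = ch = -1 = g`; otherwise `cu ∉ {0, 1, -g}`, `ch = -g / cu`; then `cx * cu * ch = g`.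
`z = cu * η / (g - 1)`, `δ = g * z / cu`, and `s` with `s ≠ 2 * δ - η`, `s ≠ δ - ch * z` (at least three elements);
e3 is `s ≠ 2 δ - η` (cx = -1). (`card F = 3` need not be separated: `cu ∉ {0, 1, -g}` exists, as -g = 1 there.) -/
theorem ext_V_odd {F G Q : Type} [Field F] [Fintype F] [Group G] [Finite G] [Group Q] [Finite Q]
    (X : Ext F G Q) (hF : Odd (Fintype.card F)) (hQ : Nat.card Q = 4) (hQ2 : ∀ q : Q, q * q = 1)
    (H : G) (hH : X.π H ≠ 1) (hβ : ∀ n, X.β H n = n) : R2 G := by
  classical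
  have : Fintype Q := Fintype.ofFinite Q
  have h2 : (2 : F) ≠ 0 := VExtOdd_two_ne hF
  have hcard : 3 ≤ Fintype.card F := by
    have h3 : 1 < Fintype.card F := Fintype.one_lt_card
    rw [Nat.odd_iff] at hF
    omega
  -- make `η ≠ 0`
  obtain ⟨H', hH', hβ', η, hη, hη0⟩ : ∃ H' : G, X.π H' = X.π H ∧ (∀ n, X.β H' n = n) ∧
      ∃ η : F, H' * H' = X.ν η ∧ η ≠ 0 := by
    have hk : X.π (H * H) = 1 := by rw [map_mul, hQ2]
    obtain ⟨η, hη⟩ := (X.π_ker _).1 hk
    by_cases hη0 : η = 0
    · refine ⟨H * X.ν 1, ?_, ?_, 2, ?_, h2⟩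
      · rw [map_mul, X.π_ν, mul_one]
      · intro n
        rw [X.β_congr (b := H) (by rw [map_mul, X.π_ν, mul_one])]
        exact hβ n
      · have h3 : H * X.ν 1 = X.ν 1 * H := by rw [X.mul_ν, hβ]
        have h4 : H * H = 1 := by rw [← hη, hη0, X.ν_zero]
        calc H * X.ν 1 * (H * X.ν 1) = (X.ν 1 * H) * (H * X.ν 1) := by rw [h3]
          _ = X.ν 1 * (H * H) * X.ν 1 := by group
          _ = X.ν 1 * X.ν 1 := by rw [h4, mul_one]
          _ = X.ν 2 := by rw [X.ν_mul]; norm_num
    · exact ⟨H, rfl, hβ, η, hη.symm, hη0⟩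
  obtain ⟨θ, x, hθ, h1', h2', h3', hnd, hall⟩ := four_pat hQ hQ2 (X.π H) hH
  obtain ⟨Ex, hEx⟩ := X.π_surj x
  obtain ⟨g, hg⟩ := exists_prim F
  have hg1 : g ≠ 1 := VExtOdd_prim_ne_one hg hcard
  have hg0 : g ≠ 0 := hg.1
  have hneg : (-1 : F) ≠ 1 := by
    intro h0
    apply h2
    linear_combination -h0
  obtain ⟨cu, hcu⟩ : ∃ cu : F, cu ∉ ({0, 1, -g} : Finset F) := by
    apply VExtOdd_exists_notMem
    by_cases h3 : Fintype.card F = 3
    · -- then `-g = 1`
      have h4 : g = -1 := by
        have h5 : g ^ 2 = 1 := by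
          have := FiniteField.pow_card_sub_one_eq_one g hg0
          rwa [h3] at this
        have h6 : (g - 1) * (g + 1) = 0 := by linear_combination h5
        rcases mul_eq_zero.1 h6 with h7 | h7
        · exact absurd (sub_eq_zero.1 h7) hg1
        · linear_combination h7
      rw [h4, neg_neg]
      have h5 : ({0, 1, 1} : Finset F) = {0, 1} := by simp
      rw [h5, h3]
      have : ({0, 1} : Finset F).card ≤ 2 := Finset.card_le_two
      omega
    · have h4 : ({0, 1, -g} : Finset F).card ≤ 3 := Finset.card_le_three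
      omega
  simp only [Finset.mem_insert, Finset.mem_singleton, not_or] at hcu
  obtain ⟨hcu0, hcu1, hcug⟩ := hcu
  set ch : F := -g / cu with hch
  have hchcu : ch * cu = -g := by rw [hch, div_mul_cancel₀ _ hcu0]
  have hch0 : ch ≠ 0 := by
    rw [hch]
    exact div_ne_zero (neg_ne_zero.2 hg0) hcu0
  have hch1 : ch ≠ 1 := by
    intro h0
    rw [h0, one_mul] at hchcu
    exact hcug hchcu
  have hg1' : g - 1 ≠ 0 := sub_ne_zero.2 hg1
  set z : F := cu * η / (g - 1) with hz
  have hz0 : z ≠ 0 := div_ne_zero (mul_ne_zero hcu0 hη0) hg1'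
  have hzg : (g - 1) * z = cu * η := by rw [hz, mul_div_cancel₀ _ hg1']
  set δ : F := g * z / cu with hδ
  have hδc : cu * δ = g * z := by rw [hδ, mul_div_cancel₀ _ hcu0]
  obtain ⟨s, hs⟩ : ∃ s : F, s ∉ ({2 * δ - η, δ - ch * z} : Finset F) := by
    apply VExtOdd_exists_notMem
    have : ({2 * δ - η, δ - ch * z} : Finset F).card ≤ 2 := Finset.card_le_two
    omega
  simp only [Finset.mem_insert, Finset.mem_singleton, not_or] at hs
  obtain ⟨hs1, hs2⟩ := hs
  have hprod : Prim ((-1) * cu * ch) := by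
    have : (-1) * cu * ch = g := by linear_combination -hchcu
    rw [this]
    exact hg
  refine ext_V_core X θ x (X.π H) hθ (hQ2 _) h1' h2' h3' hnd hall H' Ex hH' hEx hβ' η hη
    g (-1) cu ch z s δ hg hprod hg1 (neg_ne_zero.2 one_ne_zero) hneg hcu0 hcu1 hch0 hch1
    hz0 hδc ?_ ?_ ?_ ?_
  · linear_combination -hzg
  · linear_combination hchcu
  · intro h0
    apply hs1
    linear_combination -h0
  · intro h0
    apply hs2
    linear_combination -h0

end LibRE
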