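import Pool.Agent.LibRS.T05
import Pool.Agent.LibRE29.VExtOdd
set_option autoImplicit false
namespace LibRE
open LibRS Equiv

/-- `q = 4`: by `four_pat`, `ext_V_core`. `g` primitive: `g ^ 2 = g + 1`, `g ^ 3 = 1`, characteristic two.
`cx = g ^ 2`, `cu = g`, `ch = g ^ 2` (product `g ^ 5 = g ^ 2`, primitive), `H * H = ν η`,
`s ∉ {0, g * η, g ^ 2 * η}` (the field has four elements), `z = g ^ 2 * (g * s + η)`, `δ = g * z / cu = z`. -/
theorem ext_V_four {F G Q : Type} [Field F] [Fintype F] [Group G] [Finite G] [Group Q] [Finite Q]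
    (X : Ext F G Q) (hF : Fintype.card F = 4) (hQ : Nat.card Q = 4) (hQ2 : ∀ q : Q, q * q = 1)
    (H : G) (hH : X.π H ≠ 1) (hβ : ∀ n, X.β H n = n) : R2 G := by
  classical
  have : Fintype Q := Fintype.ofFinite Q
  -- characteristic two
  have h2 : (2 : F) = 0 := by
    have h3 : ringChar F = 2 := FiniteField.even_card_iff_char_two.2 (by rw [hF])
    have h4 : ((ringChar F : ℕ) : F) = 0 := ringChar.Nat.cast_ringChar
    rw [h3] at h4
    exact_mod_cast h4
  obtain ⟨g, hg⟩ := exists_prim F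
  have hg1 : g ≠ 1 := VExtOdd_prim_ne_one hg (by rw [hF]; norm_num)
  have hg0 : g ≠ 0 := hg.1
  have hg3 : g ^ 3 = 1 := by
    have := FiniteField.pow_card_sub_one_eq_one g hg0
    rwa [hF] at this
  have hq : g ^ 2 = g + 1 := by
    have h6 : (g - 1) * (g ^ 2 + g + 1) = 0 := by linear_combination hg3
    rcases mul_eq_zero.1 h6 with h7 | h7
    · exact absurd (sub_eq_zero.1 h7) hg1
    · linear_combination h7 - (g + 1) * h2
  have hk : X.π (H * H) = 1 := by rw [map_mul, hQ2]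
  obtain ⟨η, hη⟩ := (X.π_ker _).1 hk
  obtain ⟨θ, x, hθ, h1', h2', h3', hnd, hall⟩ := four_pat hQ hQ2 (X.π H) hH
  obtain ⟨Ex, hEx⟩ := X.π_surj x
  obtain ⟨s, hs⟩ : ∃ s : F, s ∉ ({0, g * η, g ^ 2 * η} : Finset F) := by
    apply VExtOdd_exists_notMem
    have : ({0, g * η, g ^ 2 * η} : Finset F).card ≤ 3 := Finset.card_le_three
    omega
  simp only [Finset.mem_insert, Finset.mem_singleton, not_or] at hs
  obtain ⟨hs0, hs1, hs2⟩ := hs
  set z : F := g ^ 2 * (g * s + η) with hz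
  have hz0 : z ≠ 0 := by
    refine mul_ne_zero (pow_ne_zero 2 hg0) ?_
    intro h0
    apply hs2
    -- `s = g ^ 3 s = - g ^ 2 η`
    linear_combination g ^ 2 * h0 - s * hg3 - g ^ 2 * η * h2
  have hg2 : Prim (g ^ 2 * g * g ^ 2) := by
    have h5 : g ^ 2 * g * g ^ 2 = g⁻¹ := by
      apply eq_inv_of_mul_eq_one_left
      calc g ^ 2 * g * g ^ 2 * g = (g ^ 3) ^ 2 := by ring
        _ = 1 := by rw [hg3, one_pow]
    rw [h5]
    exact t05_inv g hg
  have hsq1 : g ^ 2 ≠ 1 := by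
    intro h0
    rw [hq] at h0
    exact hg0 (by linear_combination h0)
  refine ext_V_core X θ x (X.π H) hθ (hQ2 _) h1' h2' h3' hnd hall H Ex rfl hEx hβ η hη.symm
    g (g ^ 2) g (g ^ 2) z s z hg hg2 hg1 (pow_ne_zero 2 hg0) hsq1 hg0 hg1
    (pow_ne_zero 2 hg0) hsq1 hz0 rfl ?_ ?_ ?_ ?_
  · -- `g (s + (g² s + η)) = g z - z`
    rw [hz]
    linear_combination (2 * s - g * s - η) * hg3 + η * hq + (s + g * η) * h2
  · ring
  · intro h0
    apply hs0
    rw [hz] at h0
    linear_combination (-g) * h0 + (g * (-g ^ 2 * s - g * η + s) - s) * hg3 + g * η * hq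
  · intro h0
    apply hs1
    rw [hz] at h0
    linear_combination (-g) * h0 + (g * (-g ^ 2 * s - g * η + s) - s) * hg3 + g * η * hq

end LibRE
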