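import Pool.Agent.LibRS.T14
import Pool.Agent.LibRS.T21
import Pool.Agent.LibRE29.Cyc2
import Pool.Agent.LibRE29.V4
import Pool.Agent.LibRE29.V4n
import Pool.Agent.LibRE29.VExtFour
import Pool.Agent.LibRE29.Q8Ext
import Pool.Agent.LibRE29.Q8Pat
import Pool.Agent.LibRE29.ActFour
set_option autoImplicit false
namespace LibRE
open LibRS Equiv

/-- a non-cyclic group of order four has exponent two -/
theorem sq_of_card_four {G : Type} [Group G] [Finite G] (hc : Nat.card G = 4) (hnc : ¬ IsCyclic G)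
    (g : G) : g * g = 1 := by
  have h1 : orderOf g ∣ 2 ^ 2 := by
    have := orderOf_dvd_natCard g
    rw [hc] at this
    exact this
  obtain ⟨i, hi, hx⟩ := (Nat.dvd_prime_pow Nat.prime_two).mp h1
  have hi2 : i ≠ 2 := by
    intro h2
    apply hnc
    rw [h2] at hx
    exact isCyclic_of_orderOf_eq_card g (by rw [hx, hc]; norm_num)
  have h3 : orderOf g ∣ 2 := by
    rw [hx]
    calc 2 ^ i ∣ 2 ^ 1 := pow_dvd_pow 2 (by omega)
      _ = 2 := pow_one 2
  have h4 := orderOf_dvd_iff_pow_eq_one.mp h3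
  rwa [pow_two] at h4

/-- one step: `V` normal four group, `G ⧸ V` known -/
theorem R2_step {G : Type} [Group G] [Finite G] (V : Subgroup G) [V.Normal] (hV : IsV4 V)
    (h : R2 (G ⧸ V) ∨ (Nat.card (G ⧸ V) = 4 ∧ ¬ IsCyclic (G ⧸ V)) ∨
      Nonempty ((G ⧸ V) ≃* QuaternionGroup 2)) : R2 G := by
  have hne : V ≠ ⊥ := by
    intro h0
    have h1 := hV.card
    rw [h0, Subgroup.card_bot] at h1
    omega
  have hab : ∀ a ∈ V, ∀ b ∈ V, a * b = b * a := by
    intro a ha b hb
    have h1 := hV.sq a ha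
    have h2 := hV.sq b hb
    have h3 := hV.sq (a * b) (V.mul_mem ha hb)
    have ea : a⁻¹ = a := inv_eq_of_mul_eq_one_left h1
    have eb : b⁻¹ = b := inv_eq_of_mul_eq_one_left h2
    have eab : (a * b)⁻¹ = a * b := inv_eq_of_mul_eq_one_left h3
    rw [← eab, mul_inv_rev, ea, eb]
  have hexp : ∀ a ∈ V, a ^ 2 = 1 := by
    intro a ha
    rw [pow_two]
    exact hV.sq a ha
  obtain ⟨F, iF, iF', X, hchar, hcard, hmem, hπ⟩ := exists_ext 2 Nat.prime_two V hne hab hexp
  have hF : Fintype.card F = 4 := by rw [hcard, hV.card]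
  rcases h with h | ⟨hQ, hnc⟩ | ⟨⟨e⟩⟩
  · exact ext_R2 X (by rw [hF]) h
  · have hQ2 : ∀ q : G ⧸ V, q * q = 1 := fun q => sq_of_card_four hQ hnc q
    obtain ⟨H, hH, hβ⟩ := exists_triv_four X hF hQ hQ2
    exact ext_V_four X hF hQ hQ2 H hH hβ
  · obtain ⟨θ, h, x, f, w, hP⟩ := exists_Q8P e
    obtain ⟨H, hH⟩ := X.π_surj h
    exact ext_Q8_four X hF θ h x f w hP H hH
      (fun n => act_four_Q8 X hF h x hP.hh hP.xx H hH n)

/-- Non-cyclic 2-groups of order at least eight (strong induction on `n`). `HasCyc2`: `R2_of_cyc2`. Otherwise `n = 3`: all elements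
have square 1, `R2_elem8`; `n ≥ 4`: `exists_V4`, `V4_noncyc`, `R2_step`. -/
theorem R2_two (n : ℕ) : ∀ (G : Type) [Group G] [Finite G], Nat.card G = 2 ^ n → 3 ≤ n →
    ¬ IsCyclic G → R2 G ∨ Nonempty (G ≃* QuaternionGroup 2) := by
  induction n using Nat.strong_induction_on with
  | _ n ih =>
  intro G _ _ hc hn hnc
  by_cases h : HasCyc2 G
  · exact R2_of_cyc2 n hc hn hnc h
  left
  rcases Nat.lt_or_ge n 4 with h4 | h4
  · have h3 : n = 3 := by omega
    subst h3
    refine R2_elem8 (by rw [hc]; norm_num) (fun g => ?_)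
    have h1 : orderOf g ∣ 2 ^ 3 := by
      have := orderOf_dvd_natCard g
      rwa [hc] at this
    obtain ⟨i, hi, hx⟩ := (Nat.dvd_prime_pow Nat.prime_two).mp h1
    have hi2 : i ≤ 1 := by
      by_contra h2
      push Not at h2
      apply h
      refine ⟨g, ?_⟩
      rw [hc, hx]
      have : 2 ^ 2 ≤ 2 ^ i := Nat.pow_le_pow_right (by norm_num) h2
      omega
    have h3 : orderOf g ∣ 2 := by
      rw [hx]
      calc 2 ^ i ∣ 2 ^ 1 := pow_dvd_pow 2 (by omega)
        _ = 2 := pow_one 2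
    have h4 := orderOf_dvd_iff_pow_eq_one.mp h3
    rwa [pow_two] at h4
  · have hG : IsPGroup 2 G := IsPGroup.of_card hc
    have h16 : 16 ≤ Nat.card G := by
      rw [hc]
      calc 16 = 2 ^ 4 := by norm_num
        _ ≤ 2 ^ n := Nat.pow_le_pow_right (by norm_num) h4
    obtain ⟨V, hV⟩ := exists_V4 hG h
    obtain ⟨V', hn', hV', hnc'⟩ := V4_noncyc hG h16 h V hV
    have hcq : Nat.card (G ⧸ V') = 2 ^ (n - 2) := by
      have h1 := Subgroup.card_eq_card_quotient_mul_card_subgroup V'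
      rw [hc, hV'.card] at h1
      have h2 : 2 ^ n = 2 ^ (n - 2) * 4 := by
        rw [show (4 : ℕ) = 2 ^ 2 by norm_num, ← pow_add]
        congr 1
        omega
      omega
    refine R2_step V' hV' ?_
    rcases Nat.lt_or_ge n 5 with h5 | h5
    · right; left
      refine ⟨?_, hnc'⟩
      rw [hcq, show n - 2 = 2 by omega]
      norm_num
    · rcases ih (n - 2) (by omega) (G ⧸ V') hcq (by omega) hnc' with h6 | h6
      · left; exact h6
      · right; right; exact h6

end LibRE
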