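import Pool.Agent.LibRS.T13
import Pool.Agent.LibRE29.Two
import Pool.Agent.LibRE29.ExtThree
import Pool.Agent.LibRE29.Q8Three
set_option autoImplicit false
namespace LibRE
open LibRS Equiv

/-- one step: `N` minimal normal of odd order, `G ⧸ N` known (`exists_ext`, then `ext_R2` or `ext_R2_three`; `exists_triv_min`,
`ext_V_odd`; `exists_Q8P`, `act_pm`, `ext_Q8_odd`; `ext_Q8_three`). -/
theorem R2_step_odd {G : Type} [Group G] [Finite G] (p : ℕ) (hp : p.Prime) (hp2 : p ≠ 2)
    (N : Subgroup G) [N.Normal] (hne : N ≠ ⊥) (hab : ∀ a ∈ N, ∀ b ∈ N, a * b = b * a)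
    (hexp : ∀ a ∈ N, a ^ p = 1) (hmin : ∀ K : Subgroup G, K.Normal → K ≤ N → K = ⊥ ∨ K = N)
    (h : (R2 (G ⧸ N) ∧ Even (Nat.card (G ⧸ N))) ∨ (Nat.card (G ⧸ N) = 4 ∧ ¬ IsCyclic (G ⧸ N)) ∨
      Nonempty ((G ⧸ N) ≃* QuaternionGroup 2)) : R2 G := by
  obtain ⟨F, iF, iFt, X, hchar, hcard, hN, hπ⟩ := exists_ext p hp N hne hab hexp
  have hodd : Odd (Fintype.card F) := by
    obtain ⟨n, _, hn⟩ := FiniteField.card F p
    rw [hn]
    exact (hp.odd_of_ne_two hp2).pow
  have h1 : 1 < Fintype.card F := Fintype.one_lt_card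
  have hmin' : ∀ K : Subgroup G, K.Normal → (∀ k ∈ K, ∃ n, X.ν n = k) →
      K = ⊥ ∨ ∀ n, X.ν n ∈ K := by
    intro K hK hKN
    rcases hmin K hK (fun k hk => (hN k).2 (hKN k hk)) with h0 | h0
    · exact Or.inl h0
    · refine Or.inr fun n => ?_
      rw [h0]
      exact (hN _).2 ⟨n, rfl⟩
  have h35 : Fintype.card F = 3 ∨ 5 ≤ Fintype.card F := by
    obtain ⟨r, hr⟩ := hodd
    omega
  rcases h with ⟨h2, hev⟩ | ⟨h4, hnc⟩ | ⟨⟨e⟩⟩
  · rcases h35 with h3 | h5
    · exact ext_R2_three X h3 hev h2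
    · exact ext_R2 X (by omega) h2
  · have hQ2 : ∀ q : G ⧸ N, q * q = 1 := sq_of_card_four h4 hnc
    obtain ⟨H, hH, hβ⟩ := exists_triv_min X hmin' h4 hQ2
    exact ext_V_odd X hodd h4 hQ2 H hH hβ
  · rcases h35 with h3 | h5
    · exact ext_Q8_three X h3 e
    · obtain ⟨θ, h, x, f, w, hP⟩ := exists_Q8P e
      obtain ⟨H, hH⟩ := X.π_surj h
      rcases act_pm X hmin' h hP.hh hP.comm H hH with hb | hb
      · exact ext_Q8_odd X hodd h5 θ h x f w hP H hH 1 (Or.inl rfl)
          (fun n => by rw [hb n, one_mul])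
      · exact ext_Q8_odd X hodd h5 θ h x f w hP H hH (-1) (Or.inr rfl)
          (fun n => by rw [hb n, neg_one_mul])

/-- Strong induction on `card G`. `K = ⊥`: `G ≃* G ⧸ K`, `R2_two` (`n = 0, 1` are cyclic, `n = 2`: order four). `K ≠ ⊥`:
`exists_min_normal K`, `G' = G ⧸ N`, `K' = K.map (QuotientGroup.mk' N)`, `G' ⧸ K' ≃* G ⧸ K`, induction hypothesis for `G'`,
`R2_step_odd`. -/
theorem R2_main (m : ℕ) : ∀ (G : Type) [Group G] [Finite G] (K : Subgroup G) [K.Normal] (n : ℕ),
    Nat.card G = m → Group.IsSolvable G → Odd (Nat.card K) → K.index = 2 ^ n →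
    ¬ IsCyclic (G ⧸ K) → R2 G ∨ Nat.card G = 4 ∨ Nonempty (G ≃* QuaternionGroup 2) := by
  induction m using Nat.strong_induction_on with
  | _ m ih =>
  intro G _ _ K hKn n hm hsol hodd hind hnc
  by_cases hK : K = ⊥
  · subst hK
    have hcard : Nat.card G = 2 ^ n := by rw [← hind, Subgroup.index_bot]
    have hncG : ¬ IsCyclic G := fun hc =>
      hnc (isCyclic_of_surjective (QuotientGroup.mk' (⊥ : Subgroup G))
        (QuotientGroup.mk'_surjective _))
    rcases Nat.lt_or_ge n 3 with hn | hn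
    · have h012 : n = 0 ∨ n = 1 ∨ n = 2 := by omega
      rcases h012 with rfl | rfl | rfl
      · have hs : Subsingleton G := by
          rw [pow_zero] at hcard
          exact (Nat.card_eq_one_iff_unique.mp hcard).1
        exact absurd isCyclic_of_subsingleton hncG
      · have : Fact (Nat.Prime 2) := ⟨Nat.prime_two⟩
        rw [pow_one] at hcard
        exact absurd (isCyclic_of_prime_card hcard) hncG
      · exact Or.inr (Or.inl (by rw [hcard]; norm_num))
    · rcases R2_two n G hcard hn hncG with h | h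
      · exact Or.inl h
      · exact Or.inr (Or.inr h)
  · obtain ⟨p, N, hp, hNn, hN0, hNK, hab, hexp, hmin⟩ := exists_min_normal K hKn hK
    have hp2 : p ≠ 2 := by
      rintro rfl
      obtain ⟨⟨a, haN⟩, ha0⟩ := Subgroup.ne_bot_iff_exists_ne_one.mp hN0
      have ha1 : a ≠ 1 := fun h => ha0 (Subtype.ext h)
      have ho : orderOf a = 2 := orderOf_eq_prime (hexp a haN) ha1
      have hd : 2 ∣ Nat.card K := by
        have := orderOf_dvd_natCard (⟨a, hNK haN⟩ : K)
        rwa [Subgroup.orderOf_mk, ho] at this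
      exact (Nat.not_even_iff_odd.mpr hodd) (even_iff_two_dvd.mpr hd)
    have hind1 : K.index ≠ 1 := by
      intro h1
      rw [Subgroup.index_eq_one] at h1
      subst h1
      have hs : Subsingleton (G ⧸ (⊤ : Subgroup G)) := QuotientGroup.subsingleton_quotient_top
      exact hnc isCyclic_of_subsingleton
    have hn0 : n ≠ 0 := by
      rintro rfl
      exact hind1 (by rw [hind, pow_zero])
    let f := QuotientGroup.mk' N
    have hf : Function.Surjective f := QuotientGroup.mk'_surjective N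
    have hK'n : (K.map f).Normal := hKn.map f hf
    have hker : f.ker ≤ K := by
      rw [QuotientGroup.ker_mk']
      exact hNK
    have hind' : (K.map f).index = 2 ^ n := by
      rw [Subgroup.index_map_eq K hf hker, hind]
    have hodd' : Odd (Nat.card (K.map f)) := hodd.of_dvd_nat (Subgroup.card_map_dvd K f)
    let e : (G ⧸ N) ⧸ (K.map f) ≃* G ⧸ K := QuotientGroup.quotientQuotientEquivQuotient N K hNK
    have hnc' : ¬ IsCyclic ((G ⧸ N) ⧸ (K.map f)) := fun hc =>
      hnc (isCyclic_of_surjective e e.surjective)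
    have hcm : Nat.card (G ⧸ N) * Nat.card N = m := by
      rw [← hm, mul_comm]
      exact (Subgroup.card_mul_index N)
    have hN1 : 1 < Nat.card N := by
      rw [Finite.one_lt_card_iff_nontrivial]
      exact (Subgroup.nontrivial_iff_ne_bot N).mpr hN0
    have hlt : Nat.card (G ⧸ N) < m := by
      have h0 : 0 < Nat.card (G ⧸ N) := Nat.card_pos
      calc Nat.card (G ⧸ N) < Nat.card (G ⧸ N) * Nat.card N := lt_mul_of_one_lt_right h0 hN1
        _ = m := hcm
    have hev : Even (Nat.card (G ⧸ N)) := by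
      have h1 := Subgroup.card_mul_index (K.map f)
      rw [hind'] at h1
      rw [← h1]
      exact Even.mul_left ((even_two).pow_of_ne_zero hn0) _
    refine Or.inl (R2_step_odd p hp hp2 N hN0 hab hexp hmin ?_)
    rcases ih _ hlt (G ⧸ N) (K.map f) n rfl inferInstance hodd' hind' hnc' with h | h | h
    · exact Or.inl ⟨h, hev⟩
    · exact Or.inr (Or.inl ⟨h, fun hc => hnc' (isCyclic_of_surjective
        (QuotientGroup.mk' (K.map f)) (QuotientGroup.mk'_surjective _))⟩)
    · exact Or.inr (Or.inr h)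

end LibRE
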