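import Pool.Agent.LibRE29.Defs
set_option autoImplicit false
namespace LibRE
open LibRS Equiv

/-- `P → G ⧸ K` is an isomorphism (injective: `P ⊓ K` has 2-power and odd order; cardinalities) -/
theorem sylow_quot {G : Type} [Group G] [Finite G] (K : Subgroup G) [K.Normal]
    (hK : Odd (Nat.card K)) (n : ℕ) (hn : K.index = 2 ^ n) (P : Sylow 2 G) :
    Nonempty ((P : Subgroup G) ≃* G ⧸ K) := by
  have hG : Nat.card K * 2 ^ n = Nat.card G := by
    rw [← hn, Subgroup.card_mul_index]
  have hP : Nat.card P = 2 ^ n := by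
    rw [Sylow.card_eq_multiplicity, ← hG, Nat.factorization_mul Nat.card_pos.ne' (by positivity)]
    have h0 : (Nat.card K).factorization 2 = 0 := by
      apply Nat.factorization_eq_zero_of_not_dvd
      intro h
      rw [← even_iff_two_dvd] at h
      exact (Nat.not_even_iff_odd.mpr hK) h
    have h1 : (2 ^ n).factorization 2 = n := by
      rw [Nat.Prime.factorization_pow Nat.prime_two]
      simp
    rw [Finsupp.add_apply, h0, h1, zero_add]
  have hP' : Nat.card (P : Subgroup G) = 2 ^ n := hP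
  have hc : Subgroup.IsComplement' (P : Subgroup G) K := by
    apply Subgroup.isComplement'_of_coprime
    · rw [hP', mul_comm, hG]
    · rw [hP']
      exact Nat.Coprime.pow_left n (Nat.coprime_two_left.mpr hK)
  exact ⟨hc.QuotientMulEquiv.symm⟩

/-- The product of all elements of a cyclic group of order `2 ^ n`, `n ≥ 1`, is not 1: for a generator `g` it is
`g ^ (0 + 1 + ... + (2 ^ n - 1)) = g ^ (2 ^ (n - 1) * (2 ^ n - 1))`. -/
theorem prod_cyclic {C : Type} [CommGroup C] [Fintype C] (hc : IsCyclic C) (n : ℕ) (hn : 1 ≤ n)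
    (h : Fintype.card C = 2 ^ n) : ∏ c : C, c ≠ 1 := by
  classical
  obtain ⟨g, hg⟩ := hc.exists_generator
  have ho : orderOf g = 2 ^ n := by
    rw [orderOf_eq_card_of_forall_mem_zpowers hg, Nat.card_eq_fintype_card, h]
  have hinj : Set.InjOn (fun i : ℕ => g ^ i) (Finset.range (2 ^ n) : Set ℕ) := by
    intro i hi j hj hij
    rw [Finset.coe_range, Set.mem_Iio] at hi hj
    exact pow_injOn_Iio_orderOf (by rw [ho]; exact hi) (by rw [ho]; exact hj) hij
  have himg : (Finset.range (2 ^ n)).image (fun i : ℕ => g ^ i) = Finset.univ := by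
    apply Finset.eq_univ_of_card
    rw [Finset.card_image_of_injOn hinj, Finset.card_range, h]
  rw [← himg, Finset.prod_image hinj, Finset.prod_pow_eq_pow_sum]
  intro h1
  have h2 := orderOf_dvd_of_pow_eq_one h1
  rw [ho] at h2
  obtain ⟨t, ht⟩ := h2
  have h3 := Finset.sum_range_id_mul_two (2 ^ n)
  have h4 : ∑ i ∈ Finset.range (2 ^ n), i = 2 ^ n * t := ht
  rw [h4, mul_assoc] at h3
  have h5 : t * 2 = 2 ^ n - 1 := Nat.eq_of_mul_eq_mul_left (by positivity) h3
  obtain ⟨m, rfl⟩ : ∃ m, n = m + 1 := ⟨n - 1, by omega⟩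
  have h6 : 1 ≤ 2 ^ m := Nat.one_le_two_pow
  rw [pow_succ] at h5
  omega

/-- An R-sequenceable group has no non-trivial cyclic quotient `G ⧸ K` of 2-power order with `K` of odd order: the quotients
`(f i)⁻¹ * f (i + 1)` are all the elements ≠ 1 (they are distinct, ≠ 1, and there are `card G - 1` of them; `card G ≥ 3` or small cases
separately), so their product in the commutative group `G ⧸ K` is the product of the images of all elements of `G`, which is
`(∏ c) ^ card K`; but the product telescopes to 1. `card K` is odd and `(∏ c) ^ 2 = 1`. -/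
theorem not_cyclic_of_rseq {G : Type} [Group G] [Fintype G] (h : RSeq G) (h2 : Fintype.card G ≠ 2)
    (K : Subgroup G) [K.Normal]
    (hK : Odd (Nat.card K)) (n : ℕ) (hn1 : 1 ≤ n) (hn : K.index = 2 ^ n) : ¬ IsCyclic (G ⧸ K) := by
  classical
  intro hcyc
  let _ : CommGroup (G ⧸ K) := IsCyclic.commGroup
  have _ : Fintype (G ⧸ K) := Fintype.ofFinite _
  have hcard : Nat.card K * 2 ^ n = Fintype.card G := by
    rw [← hn, Subgroup.card_mul_index, Nat.card_eq_fintype_card]
  have hKpos : 0 < Nat.card K := Nat.card_pos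
  have h2n : 2 ≤ 2 ^ n := by
    calc 2 = 2 ^ 1 := by norm_num
      _ ≤ 2 ^ n := Nat.pow_le_pow_right (by norm_num) hn1
  have hG2 : 2 ≤ Fintype.card G := by
    rw [← hcard]
    calc 2 ≤ 2 ^ n := h2n
      _ = 1 * 2 ^ n := by ring
      _ ≤ _ := Nat.mul_le_mul_right _ hKpos
  obtain ⟨m', hm'⟩ : ∃ m', Fintype.card G - 1 = m' + 1 ∧ 1 ≤ m' :=
    ⟨Fintype.card G - 2, by omega, by omega⟩
  obtain ⟨f, f1, f2, f3⟩ := h
  rw [hm'.1] at f1 f2 f3
  let φ : G →* G ⧸ K := QuotientGroup.mk' K
  have hφs : Function.Surjective φ := QuotientGroup.mk'_surjective K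
  -- the telescoping product
  have hshift : ∀ F : ℕ → G ⧸ K, ∏ i ∈ Finset.range (m' + 1), F ((i + 1) % (m' + 1)) =
      ∏ i ∈ Finset.range (m' + 1), F i := by
    intro F
    rw [Finset.prod_range_succ, Finset.prod_range_succ' F, Nat.mod_self]
    congr 1
    apply Finset.prod_congr rfl
    intro i hi
    rw [Finset.mem_range] at hi
    rw [Nat.mod_eq_of_lt (by omega)]
  have hA : ∏ i ∈ Finset.range (m' + 1), φ ((f i)⁻¹ * f ((i + 1) % (m' + 1))) = 1 := by
    have : ∀ i ∈ Finset.range (m' + 1), φ ((f i)⁻¹ * f ((i + 1) % (m' + 1))) =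
        (φ (f i))⁻¹ * φ (f ((i + 1) % (m' + 1))) := by
      intro i _
      rw [map_mul, map_inv]
    rw [Finset.prod_congr rfl this, Finset.prod_mul_distrib, hshift (fun i => φ (f i)),
      ← Finset.prod_mul_distrib]
    apply Finset.prod_eq_one
    intro i _
    exact inv_mul_cancel _
  -- the quotients are all the elements different from one
  have hqinj : Set.InjOn (fun i : ℕ => (f i)⁻¹ * f ((i + 1) % (m' + 1)))
      (Finset.range (m' + 1) : Set ℕ) := by
    intro i hi j hj hij
    rw [Finset.coe_range, Set.mem_Iio] at hi hj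
    exact f3 i j hi hj hij
  have hqimg : (Finset.range (m' + 1)).image (fun i : ℕ => (f i)⁻¹ * f ((i + 1) % (m' + 1))) =
      Finset.univ.erase 1 := by
    apply Finset.eq_of_subset_of_card_le
    · intro g hg
      rw [Finset.mem_image] at hg
      obtain ⟨i, hi, rfl⟩ := hg
      rw [Finset.mem_range] at hi
      rw [Finset.mem_erase]
      refine ⟨?_, Finset.mem_univ _⟩
      intro h1
      have h3 : f i = f ((i + 1) % (m' + 1)) := (inv_mul_eq_one.mp h1)
      have h4 := f2 i ((i + 1) % (m' + 1)) hi (Nat.mod_lt _ (by omega)) h3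
      rcases Nat.lt_or_ge (i + 1) (m' + 1) with h5 | h5
      · rw [Nat.mod_eq_of_lt h5] at h4
        omega
      · have h6 : i = m' := by omega
        rw [h6, Nat.mod_self] at h4
        omega
    · rw [Finset.card_image_of_injOn hqinj, Finset.card_erase_of_mem (Finset.mem_univ _),
        Finset.card_univ, Finset.card_range, hm'.1]
  have hB : ∏ g : G, φ g = 1 := by
    rw [← Finset.mul_prod_erase Finset.univ (fun g => φ g) (Finset.mem_univ (1 : G)), map_one,
      one_mul, ← hqimg, Finset.prod_image hqinj]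
    exact hA
  -- the fibres
  have hfib : ∀ c : G ⧸ K, (Finset.univ.filter (fun g : G => φ g = c)).card = Nat.card K := by
    intro c
    rw [MonoidHom.card_fiber_eq_of_mem_range φ (hφs c) ⟨1, map_one φ⟩]
    rw [Nat.card_eq_fintype_card, Fintype.card_subtype]
    congr 1
    ext g
    simp only [Finset.mem_filter, Finset.mem_univ, true_and]
    exact QuotientGroup.eq_one_iff g
  have hC : ∏ g : G, φ g = (∏ c : G ⧸ K, c) ^ Nat.card K := by
    rw [← Finset.prod_pow, ← Finset.prod_fiberwise Finset.univ φ (fun g => φ g)]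
    apply Finset.prod_congr rfl
    intro c _
    rw [Finset.prod_congr rfl (g := fun _ => c) (by
      intro g hg
      exact (Finset.mem_filter.mp hg).2), Finset.prod_const, hfib]
  have hcq : Fintype.card (G ⧸ K) = 2 ^ n := by
    rw [← hn, Subgroup.index, Nat.card_eq_fintype_card]
  apply prod_cyclic hcyc n hn1 hcq
  rw [hB] at hC
  have h3 : orderOf (∏ c : G ⧸ K, c) ∣ Nat.card K := orderOf_dvd_of_pow_eq_one hC.symm
  have h4 : orderOf (∏ c : G ⧸ K, c) ∣ 2 ^ n := by
    rw [← hcq]; exact orderOf_dvd_card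
  have h5 : Nat.Coprime (Nat.card K) (2 ^ n) :=
    Nat.Coprime.pow_right n (Nat.coprime_two_right.mpr hK)
  exact orderOf_eq_one_iff.mp (Nat.eq_one_of_dvd_coprimes h5 h3 h4)

end LibRE
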