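import Pool.Agent.LibRE29.Defs
set_option autoImplicit false
namespace LibRE
open LibRS Equiv

/-- R-sequenceability is invariant under isomorphism -/
theorem rseq_of_equiv {G H : Type} [Group G] [Group H] [Fintype G] [Fintype H] (e : G ≃* H)
    (h : RSeq G) : RSeq H := by
  obtain ⟨f, h1, h2, h3⟩ := h
  have hc : Fintype.card H = Fintype.card G := (Fintype.card_congr e.toEquiv).symm
  refine ⟨fun i => e (f i), ?_, ?_, ?_⟩
  · intro i hi h0
    rw [hc] at hi
    exact h1 i hi (e.injective (h0.trans e.map_one.symm))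
  · intro i j hi hj hij
    rw [hc] at hi hj
    exact h2 i j hi hj (e.injective hij)
  · intro i j hi hj hij
    rw [hc] at hi hj
    rw [hc] at hij
    apply h3 i j hi hj
    apply e.injective
    simpa only [map_mul, map_inv] using hij

/-- codes of the elements of `Q_8` -/
private def cd : QuaternionGroup 2 → ℕ
  | QuaternionGroup.a i => ZMod.val i
  | QuaternionGroup.xa i => 4 + ZMod.val i

/-- the table of the codes of `x⁻¹ * y` -/
private def T8 (x y : ℕ) : ℕ :=
  321245311397870317628987367179237799584450285438838163080 / 8 ^ (8 * x + y) % 8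

private theorem cd_lt : ∀ x : QuaternionGroup 2, cd x < 8 := by decide +kernel

private theorem cd_inj : ∀ x y : QuaternionGroup 2, cd x = cd y → x = y := by decide +kernel

private theorem cd_one : cd 1 = 0 := by decide +kernel

private theorem cd_T8 : ∀ x y : QuaternionGroup 2, cd (x⁻¹ * y) = T8 (cd x) (cd y) := by
  decide +kernel

/-- the exhaustive search as a Boolean -/
private def S8 : Bool :=
  (List.range 8).all fun x0 => decide (x0 = 0) || (List.range 8).all fun x1 =>
    decide (x1 ∈ [0, x0]) || (List.range 8).all fun x2 =>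
    decide (x2 ∈ [0, x0, x1]) || (decide (T8 x1 x2 ∈ [T8 x0 x1]) || (List.range 8).all fun x3 =>
    decide (x3 ∈ [0, x0, x1, x2]) || (decide (T8 x2 x3 ∈ [T8 x0 x1, T8 x1 x2]) ||
      (List.range 8).all fun x4 =>
    decide (x4 ∈ [0, x0, x1, x2, x3]) ||
      (decide (T8 x3 x4 ∈ [T8 x0 x1, T8 x1 x2, T8 x2 x3]) || (List.range 8).all fun x5 =>
    decide (x5 ∈ [0, x0, x1, x2, x3, x4]) ||
      (decide (T8 x4 x5 ∈ [T8 x0 x1, T8 x1 x2, T8 x2 x3, T8 x3 x4]) ||
      (List.range 8).all fun x6 =>
    decide (x6 ∈ [0, x0, x1, x2, x3, x4, x5]) ||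
      (decide (T8 x5 x6 ∈ [T8 x0 x1, T8 x1 x2, T8 x2 x3, T8 x3 x4, T8 x4 x5]) ||
      decide (T8 x6 x0 ∈ [T8 x0 x1, T8 x1 x2, T8 x2 x3, T8 x3 x4, T8 x4 x5, T8 x5 x6]))))))

private theorem S8_eq : S8 = true := by decide +kernel

private theorem search8 (x0 : ℕ) (l0 : x0 < 8) (n0 : x0 ≠ 0) (x1 : ℕ) (l1 : x1 < 8)
    (n1 : x1 ∉ [0, x0]) (x2 : ℕ) (l2 : x2 < 8) (n2 : x2 ∉ [0, x0, x1])
    (t2 : T8 x1 x2 ∉ [T8 x0 x1])
    (x3 : ℕ) (l3 : x3 < 8) (n3 : x3 ∉ [0, x0, x1, x2]) (t3 : T8 x2 x3 ∉ [T8 x0 x1, T8 x1 x2])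
    (x4 : ℕ) (l4 : x4 < 8) (n4 : x4 ∉ [0, x0, x1, x2, x3])
    (t4 : T8 x3 x4 ∉ [T8 x0 x1, T8 x1 x2, T8 x2 x3])
    (x5 : ℕ) (l5 : x5 < 8) (n5 : x5 ∉ [0, x0, x1, x2, x3, x4])
    (t5 : T8 x4 x5 ∉ [T8 x0 x1, T8 x1 x2, T8 x2 x3, T8 x3 x4])
    (x6 : ℕ) (l6 : x6 < 8) (n6 : x6 ∉ [0, x0, x1, x2, x3, x4, x5])
    (t6 : T8 x5 x6 ∉ [T8 x0 x1, T8 x1 x2, T8 x2 x3, T8 x3 x4, T8 x4 x5]) :
      T8 x6 x0 ∈ [T8 x0 x1, T8 x1 x2, T8 x2 x3, T8 x3 x4, T8 x4 x5, T8 x5 x6] := by
  have h := S8_eq
  unfold S8 at h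
  simp only [List.all_eq_true, List.mem_range, Bool.or_eq_true, decide_eq_true_eq] at h
  have h1 := ((h x0 l0).resolve_left n0 x1 l1).resolve_left n1 x2 l2
  have h2 := ((h1.resolve_left n2).resolve_left t2) x3 l3
  have h3 := ((h2.resolve_left n3).resolve_left t3) x4 l4
  have h4 := ((h3.resolve_left n4).resolve_left t4) x5 l5
  have h5 := ((h4.resolve_left n5).resolve_left t5) x6 l6
  exact (h5.resolve_left n6).resolve_left t6

/-- `Q_8` is not R-sequenceable: rotate the cyclic list so that `f 0 = a 1` and search exhaustively (5040 or less orderings of the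
other 6 elements with pruning, verified in the kernel by `decide` on a Boolean depth first search over `Fin 8` tables, proved
sound), or any other argument. -/
theorem not_rseq_Q8 : ¬ RSeq (QuaternionGroup 2) := by
  rintro ⟨f, h1, h2, h3⟩
  have hc : Fintype.card (QuaternionGroup 2) - 1 = 7 := by
    rw [QuaternionGroup.card]
  rw [hc] at h1 h2 h3
  have n0 : ∀ i < 7, cd (f i) ≠ 0 := fun i hi h0 =>
    h1 i hi (cd_inj _ _ (h0.trans cd_one.symm))
  have nd : ∀ i < 7, ∀ j < 7, i ≠ j → cd (f i) ≠ cd (f j) := fun i hi j hj hij h0 =>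
    hij (h2 i j hi hj (cd_inj _ _ h0))
  have nq : ∀ i < 7, ∀ j < 7, i ≠ j → T8 (cd (f i)) (cd (f ((i + 1) % 7))) ≠
      T8 (cd (f j)) (cd (f ((j + 1) % 7))) := fun i hi j hj hij h0 => by
    rw [← cd_T8, ← cd_T8] at h0
    exact hij (h3 i j hi hj (cd_inj _ _ h0))
  have key := search8 (cd (f 0)) (cd_lt _) (n0 0 (by norm_num))
    (cd (f 1)) (cd_lt _)
    (by
      simp only [List.mem_cons, List.not_mem_nil, or_false, not_or]
      exact ⟨n0 1 (by norm_num), nd 1 (by norm_num) 0 (by norm_num) (by norm_num)⟩)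
    (cd (f 2)) (cd_lt _)
    (by
      simp only [List.mem_cons, List.not_mem_nil, or_false, not_or]
      exact ⟨n0 2 (by norm_num), nd 2 (by norm_num) 0 (by norm_num) (by norm_num),
        nd 2 (by norm_num) 1 (by norm_num) (by norm_num)⟩)
    (by
      simp only [List.mem_cons, List.not_mem_nil, or_false]
      exact nq 1 (by norm_num) 0 (by norm_num) (by norm_num))
    (cd (f 3)) (cd_lt _)
    (by
      simp only [List.mem_cons, List.not_mem_nil, or_false, not_or]
      exact ⟨n0 3 (by norm_num), nd 3 (by norm_num) 0 (by norm_num) (by norm_num),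
        nd 3 (by norm_num) 1 (by norm_num) (by norm_num),
        nd 3 (by norm_num) 2 (by norm_num) (by norm_num)⟩)
    (by
      simp only [List.mem_cons, List.not_mem_nil, or_false, not_or]
      exact ⟨nq 2 (by norm_num) 0 (by norm_num) (by norm_num),
        nq 2 (by norm_num) 1 (by norm_num) (by norm_num)⟩)
    (cd (f 4)) (cd_lt _)
    (by
      simp only [List.mem_cons, List.not_mem_nil, or_false, not_or]
      exact ⟨n0 4 (by norm_num), nd 4 (by norm_num) 0 (by norm_num) (by norm_num),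
        nd 4 (by norm_num) 1 (by norm_num) (by norm_num),
        nd 4 (by norm_num) 2 (by norm_num) (by norm_num),
        nd 4 (by norm_num) 3 (by norm_num) (by norm_num)⟩)
    (by
      simp only [List.mem_cons, List.not_mem_nil, or_false, not_or]
      exact ⟨nq 3 (by norm_num) 0 (by norm_num) (by norm_num),
        nq 3 (by norm_num) 1 (by norm_num) (by norm_num),
        nq 3 (by norm_num) 2 (by norm_num) (by norm_num)⟩)
    (cd (f 5)) (cd_lt _)
    (by
      simp only [List.mem_cons, List.not_mem_nil, or_false, not_or]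
      exact ⟨n0 5 (by norm_num), nd 5 (by norm_num) 0 (by norm_num) (by norm_num),
        nd 5 (by norm_num) 1 (by norm_num) (by norm_num),
        nd 5 (by norm_num) 2 (by norm_num) (by norm_num),
        nd 5 (by norm_num) 3 (by norm_num) (by norm_num),
        nd 5 (by norm_num) 4 (by norm_num) (by norm_num)⟩)
    (by
      simp only [List.mem_cons, List.not_mem_nil, or_false, not_or]
      exact ⟨nq 4 (by norm_num) 0 (by norm_num) (by norm_num),
        nq 4 (by norm_num) 1 (by norm_num) (by norm_num),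
        nq 4 (by norm_num) 2 (by norm_num) (by norm_num),
        nq 4 (by norm_num) 3 (by norm_num) (by norm_num)⟩)
    (cd (f 6)) (cd_lt _)
    (by
      simp only [List.mem_cons, List.not_mem_nil, or_false, not_or]
      exact ⟨n0 6 (by norm_num), nd 6 (by norm_num) 0 (by norm_num) (by norm_num),
        nd 6 (by norm_num) 1 (by norm_num) (by norm_num),
        nd 6 (by norm_num) 2 (by norm_num) (by norm_num),
        nd 6 (by norm_num) 3 (by norm_num) (by norm_num),
        nd 6 (by norm_num) 4 (by norm_num) (by norm_num),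
        nd 6 (by norm_num) 5 (by norm_num) (by norm_num)⟩)
    (by
      simp only [List.mem_cons, List.not_mem_nil, or_false, not_or]
      exact ⟨nq 5 (by norm_num) 0 (by norm_num) (by norm_num),
        nq 5 (by norm_num) 1 (by norm_num) (by norm_num),
        nq 5 (by norm_num) 2 (by norm_num) (by norm_num),
        nq 5 (by norm_num) 3 (by norm_num) (by norm_num),
        nq 5 (by norm_num) 4 (by norm_num) (by norm_num)⟩)
  simp only [List.mem_cons, List.not_mem_nil, or_false] at key
  rcases key with h | h | h | h | h | h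
  · exact nq 6 (by norm_num) 0 (by norm_num) (by norm_num) h
  · exact nq 6 (by norm_num) 1 (by norm_num) (by norm_num) h
  · exact nq 6 (by norm_num) 2 (by norm_num) (by norm_num) h
  · exact nq 6 (by norm_num) 3 (by norm_num) (by norm_num) h
  · exact nq 6 (by norm_num) 4 (by norm_num) (by norm_num) h
  · exact nq 6 (by norm_num) 5 (by norm_num) (by norm_num) h

end LibRE
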