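import Pool.Agent.LibRS.T01
import Pool.Agent.LibRS.T24
import Pool.Agent.LibRE29.Main2
import Pool.Agent.LibRE29.OnlyHP
import Pool.Agent.LibRE29.OnlyQ8
set_option autoImplicit false
namespace LibRE
open LibRS Equiv

/-- non-cyclic groups of order four (`four_pat` and `rseq_of_orth`) -/
theorem rseq_four {G : Type} [Group G] [Fintype G] (hc : Nat.card G = 4) (hnc : ¬ IsCyclic G) :
    RSeq G := by
  have hsq : ∀ q : G, q * q = 1 := by
    intro q
    have h1 : orderOf q ∣ 4 := by rw [← hc]; exact orderOf_dvd_natCard q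
    have h2 : orderOf q ≠ 4 := fun h2 => hnc (isCyclic_of_orderOf_eq_card q (h2.trans hc.symm))
    have h3 : orderOf q ∣ 2 := by
      have h4 : orderOf q ≤ 4 := Nat.le_of_dvd (by norm_num) h1
      interval_cases h5 : orderOf q <;> simp_all
    rw [← sq]
    exact orderOf_dvd_iff_pow_eq_one.mp h3
  obtain ⟨h, hh⟩ : ∃ h : G, h ≠ 1 := by
    by_contra hcon
    push Not at hcon
    have : Nat.card G = 1 := by
      rw [Nat.card_eq_one_iff_unique]
      exact ⟨⟨fun a b => (hcon a).trans (hcon b).symm⟩, ⟨1⟩⟩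
    omega
  obtain ⟨θ, x, hO, h1, h2, h3, hnd, hall⟩ := four_pat hc hsq h hh
  refine rseq_of_orth θ hO ?_
  have c1 : θ.SameCycle x (h * x) := ⟨1, by simpa using h1⟩
  have c2 : θ.SameCycle (h * x) h := ⟨1, by simpa using h2⟩
  have c3 : θ.SameCycle x h := c1.trans c2
  have key : ∀ y : G, y ≠ 1 → θ.SameCycle x y := by
    intro y hy
    rcases hall y with rfl | rfl | rfl | rfl
    · exact absurd rfl hy
    · exact Perm.SameCycle.refl _ _
    · exact c1
    · exact c3
  intro a b ha hb
  exact (key a ha).symm.trans (key b hb)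

/-- `G ⧸ K` is a 2-group and `K` is solvable, so `G` is solvable -/
theorem solvable_of {G : Type} [Group G] [Finite G] (K : Subgroup G) [K.Normal]
    (hs : Group.IsSolvable K) (n : ℕ) (hn : K.index = 2 ^ n) : Group.IsSolvable G := by
  have _ : Fact (Nat.Prime 2) := ⟨Nat.prime_two⟩
  have h1 : IsPGroup 2 (G ⧸ K) := IsPGroup.of_card (n := n) hn
  have h2 : Group.IsNilpotent (G ⧸ K) := h1.isNilpotent
  exact (Group.isSolvable_iff_subgroup_quotient K).mpr ⟨hs, inferInstance⟩

theorem final (G : Type) [Group G] [Fintype G] (K : Subgroup G) [K.Normal]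
    (hs : Group.IsSolvable K) (hK : Odd (Nat.card K)) (hn : ∃ n, K.index = 2 ^ n)
    (h2 : Fintype.card G ≠ 2) :
    RSeq G ↔ (∀ P : Sylow 2 G, (P : Subgroup G) = ⊥ ∨ ¬ IsCyclic (P : Subgroup G)) ∧
      ¬ Nonempty (G ≃* QuaternionGroup 2) := by
  obtain ⟨n, hn⟩ := hn
  have hPn : ∀ P : Sylow 2 G, (P : Subgroup G) ≠ ⊥ → 1 ≤ n := by
    intro P hP
    by_contra hn0
    have hn0 : n = 0 := by omega
    subst hn0
    obtain ⟨e⟩ := sylow_quot K hK 0 hn P
    apply hP
    rw [← Subgroup.card_eq_one, Nat.card_congr e.toEquiv]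
    exact hn
  constructor
  · intro h
    refine ⟨?_, ?_⟩
    · intro P
      by_cases hP : (P : Subgroup G) = ⊥
      · exact Or.inl hP
      · refine Or.inr fun hcyc => ?_
        obtain ⟨e⟩ := sylow_quot K hK n hn P
        exact not_cyclic_of_rseq h h2 K hK n (hPn P hP) hn (e.isCyclic.mp hcyc)
    · rintro ⟨e⟩
      exact not_rseq_Q8 (rseq_of_equiv e h)
  · rintro ⟨hP, hQ⟩
    have hsG := solvable_of K hs n hn
    obtain ⟨P⟩ : Nonempty (Sylow 2 G) := inferInstance
    obtain ⟨e⟩ := sylow_quot K hK n hn P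
    rcases hP P with hP0 | hPc
    · apply rseq_odd G hsG
      have h1 : K.index = 1 := by
        have h3 : Nat.card (P : Subgroup G) = 1 := by rw [hP0]; exact Subgroup.card_bot
        rw [Nat.card_congr e.toEquiv] at h3
        exact h3
      have h4 := K.card_mul_index
      rw [h1, mul_one] at h4
      rw [← Nat.card_eq_fintype_card, ← h4]
      exact hK
    · have hGK : ¬ IsCyclic (G ⧸ K) := fun hc => hPc (e.isCyclic.mpr hc)
      rcases R2_main _ G K n rfl hsG hK hn hGK with ⟨θ, x, h, hO, hC, -⟩ | h4 | h8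
      · exact rseq_of_orth θ hO hC
      · refine rseq_four h4 fun hc => hGK ?_
        exact isCyclic_of_surjective (QuotientGroup.mk' K) (QuotientGroup.mk'_surjective K)
      · exact absurd h8 hQ

end LibRE
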