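import Pool.Agent.LibRS.T16
import Pool.Agent.LibRE29.Main2
set_option autoImplicit false
namespace LibRE
open LibRS Equiv

/-- No chief factor of `G` below `M` has order two. -/
def NoTwo {G : Type} [Group G] (M : Subgroup G) : Prop :=
  ∀ A B : Subgroup G, A.Normal → B.Normal → A ≤ B → B ≤ M → A.relIndex B ≠ 2

theorem R2_main' (m : ℕ) : ∀ (G : Type) [Group G] [Finite G] (K : Subgroup G) [K.Normal] (n : ℕ),
    Nat.card G = m → Group.IsSolvable G → NoTwo K → K.index = 2 ^ n →
    ¬ IsCyclic (G ⧸ K) → R2 G ∨ Nat.card G = 4 ∨ Nonempty (G ≃* QuaternionGroup 2) := by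
  induction m using Nat.strong_induction_on with
  | _ m ih =>
  intro G _ _ K hKn n hm hsol htwo hind hnc
  by_cases hK : K = ⊥
  · subst hK
    have hcard : Nat.card G = 2 ^ n := by rw [← hind, Subgroup.index_bot]
    have hncG : ¬ IsCyclic G := fun hc =>
      hnc (isCyclic_of_surjective (QuotientGroup.mk' (⊥ : Subgroup G))
        (QuotientGroup.mk'_surjective _))
    rcases Nat.lt_or_ge n 3 with hn | hn
    · have h012 : n = 0 ∨ n = 1 ∨ n = 2 := by omega
      rcases h012 with rfl | rfl | rfl
      · have hs : Subsingleton G := by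
          rw [pow_zero] at hcard
          exact (Nat.card_eq_one_iff_unique.mp hcard).1
        exact absurd isCyclic_of_subsingleton hncG
      · have : Fact (Nat.Prime 2) := ⟨Nat.prime_two⟩
        rw [pow_one] at hcard
        exact absurd (isCyclic_of_prime_card hcard) hncG
      · exact Or.inr (Or.inl (by rw [hcard]; norm_num))
    · rcases R2_two n G hcard hn hncG with h | h
      · exact Or.inl h
      · exact Or.inr (Or.inr h)
  · obtain ⟨p, N, hp, hNn, hN0, hNK, hab, hexp, hmin⟩ := exists_min_normal K hKn hK
    have hind1 : K.index ≠ 1 := by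
      intro h1
      rw [Subgroup.index_eq_one] at h1
      subst h1
      have hs : Subsingleton (G ⧸ (⊤ : Subgroup G)) := QuotientGroup.subsingleton_quotient_top
      exact hnc isCyclic_of_subsingleton
    have hn0 : n ≠ 0 := by
      rintro rfl
      exact hind1 (by rw [hind, pow_zero])
    let f := QuotientGroup.mk' N
    have hf : Function.Surjective f := QuotientGroup.mk'_surjective N
    have hK'n : (K.map f).Normal := hKn.map f hf
    have hker : f.ker ≤ K := by
      rw [QuotientGroup.ker_mk']
      exact hNK
    have hind' : (K.map f).index = 2 ^ n := by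
      rw [Subgroup.index_map_eq K hf hker, hind]
    have htwo' : NoTwo (K.map f) := by
      intro A B hA hB hAB hBK
      have h1 := htwo (A.comap f) (B.comap f) (hA.comap f) (hB.comap f)
        (Subgroup.comap_mono hAB) (by
          refine (Subgroup.comap_mono hBK).trans ?_
          rw [Subgroup.comap_map_eq, sup_eq_left.mpr hker])
      rwa [Subgroup.relIndex_comap, Subgroup.map_comap_eq_self_of_surjective hf] at h1
    let e : (G ⧸ N) ⧸ (K.map f) ≃* G ⧸ K := QuotientGroup.quotientQuotientEquivQuotient N K hNK
    have hnc' : ¬ IsCyclic ((G ⧸ N) ⧸ (K.map f)) := fun hc =>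
      hnc (isCyclic_of_surjective e e.surjective)
    have hcm : Nat.card (G ⧸ N) * Nat.card N = m := by
      rw [← hm, mul_comm]
      exact (Subgroup.card_mul_index N)
    have hN1 : 1 < Nat.card N := by
      rw [Finite.one_lt_card_iff_nontrivial]
      exact (Subgroup.nontrivial_iff_ne_bot N).mpr hN0
    have hN2 : Nat.card N ≠ 2 := by
      have := htwo ⊥ N inferInstance hNn bot_le hNK
      rwa [Subgroup.relIndex_bot_left] at this
    have hlt : Nat.card (G ⧸ N) < m := by
      have h0 : 0 < Nat.card (G ⧸ N) := Nat.card_pos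
      calc Nat.card (G ⧸ N) < Nat.card (G ⧸ N) * Nat.card N := lt_mul_of_one_lt_right h0 hN1
        _ = m := hcm
    have hev : Even (Nat.card (G ⧸ N)) := by
      have h1 := Subgroup.card_mul_index (K.map f)
      rw [hind'] at h1
      rw [← h1]
      exact Even.mul_left ((even_two).pow_of_ne_zero hn0) _
    have hih := ih _ hlt (G ⧸ N) (K.map f) n rfl inferInstance htwo' hind' hnc'
    refine Or.inl ?_
    by_cases hp2 : p = 2
    · subst hp2
      have hNp : IsPGroup 2 N := by
        intro a
        exact ⟨1, by
          rw [pow_one]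
          exact Subtype.ext (hexp a a.2)⟩
      have h2 : Fact (Nat.Prime 2) := ⟨Nat.prime_two⟩
      have key : (∃ r, Nat.card (G ⧸ N) = 2 ^ r) → False := by
        rintro ⟨r, hr⟩
        obtain ⟨r', hr'⟩ := IsPGroup.iff_card.mp hNp
        have hGp : IsPGroup 2 G := by
          refine IsPGroup.of_card (n := r + r') ?_
          rw [hm, ← hcm, hr, hr', pow_add]
        exact hN2 (min_normal_pgroup 2 Nat.prime_two hGp N hNn hN0 hmin)
      rcases hih with h | h | ⟨⟨e8⟩⟩
      · obtain ⟨F, iF, iFt, X, hchar, hcard, hN, hπ⟩ := exists_ext 2 Nat.prime_two N hN0 hab hexp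
        refine ext_R2 X ?_ h
        rw [hcard]
        obtain ⟨r', hr'⟩ := IsPGroup.iff_card.mp hNp
        rw [hr'] at hN1 hN2 ⊢
        rcases r' with _ | _ | r'
        · norm_num at hN1
        · norm_num at hN2
        · have : 1 ≤ 2 ^ r' := Nat.one_le_two_pow
          rw [pow_succ, pow_succ]
          omega
      · exact absurd ⟨2, by rw [h]; norm_num⟩ key
      · exact absurd ⟨3, by rw [Nat.card_congr e8.toEquiv, Nat.card_eq_fintype_card,
          QuaternionGroup.card]; norm_num⟩ key
    · refine R2_step_odd p hp hp2 N hN0 hab hexp hmin ?_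
      rcases hih with h | h | h
      · exact Or.inl ⟨h, hev⟩
      · exact Or.inr (Or.inl ⟨h, fun hc => hnc' (isCyclic_of_surjective
          (QuotientGroup.mk' (K.map f)) (QuotientGroup.mk'_surjective _))⟩)
      · exact Or.inr (Or.inr h)

end LibRE
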