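import Pool.Agent.LibRE29.Arith
set_option autoImplicit false
namespace LibRE
open LibRS Equiv

/-- a normal cyclic subgroup `A (ℤ/2^k)`; `g` acts on it as multiplication by `conj g` -/
structure NC (G : Type) [Group G] (k : ℕ) where
  A : ZMod (2 ^ k) → G
  A_add : ∀ i j, A (i + j) = A i * A j
  A_inj : Function.Injective A
  conj : G → ZMod (2 ^ k)
  spec : ∀ g i, g * A i = A (conj g * i) * g

variable {G : Type} [Group G] {k : ℕ}

theorem NC.A_zero (X : NC G k) : X.A 0 = 1 := by
  have h := X.A_add 0 0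
  rw [add_zero] at h
  exact left_eq_mul.mp h

theorem NC.A_neg (X : NC G k) (i : ZMod (2 ^ k)) : X.A (-i) = (X.A i)⁻¹ := by
  have h := X.A_add (-i) i
  rw [neg_add_cancel, X.A_zero] at h
  exact eq_inv_of_mul_eq_one_left h.symm

theorem NC.conj_one (X : NC G k) : X.conj 1 = 1 := by
  have h := X.spec 1 1
  rw [one_mul, mul_one, mul_one] at h
  exact (X.A_inj h).symm

theorem NC.conj_mul (X : NC G k) (g h : G) : X.conj (g * h) = X.conj g * X.conj h := by
  have h1 := X.spec (g * h) 1
  have h2 := X.spec h 1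
  have h3 := X.spec g (X.conj h * 1)
  rw [mul_one] at h1 h2 h3
  have h4 : g * h * X.A 1 = X.A (X.conj g * X.conj h) * (g * h) := by
    rw [mul_assoc, h2, ← mul_assoc, h3, mul_assoc]
  rw [h4] at h1
  exact (X.A_inj (mul_right_cancel h1)).symm

theorem NC.conj_A (X : NC G k) (i : ZMod (2 ^ k)) : X.conj (X.A i) = 1 := by
  have h := X.spec (X.A i) 1
  rw [← X.A_add, add_comm, X.A_add, mul_one] at h
  exact (X.A_inj (mul_right_cancel h)).symm

theorem NC.conj_inv (X : NC G k) (g : G) : X.conj g * X.conj g⁻¹ = 1 := by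
  rw [← X.conj_mul, mul_inv_cancel, X.conj_one]

/-- the homomorphism of `NC` -/
private def ncHom (X : NC G k) : Multiplicative (ZMod (2 ^ k)) →* G where
  toFun i := X.A (Multiplicative.toAdd i)
  map_one' := by rw [toAdd_one, X.A_zero]
  map_mul' i j := by rw [toAdd_mul, X.A_add]

private theorem ncHom_inj (X : NC G k) : Function.Injective (ncHom X) := by
  intro i j h
  exact Multiplicative.toAdd.injective (X.A_inj h)

/-- `orderOf (A 1) = 2 ^ k` -/
theorem NC.order (X : NC G k) : orderOf (X.A 1) = 2 ^ k := by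
  have h := orderOf_injective (ncHom X) (ncHom_inj X) (Multiplicative.ofAdd 1)
  have h2 : ncHom X (Multiplicative.ofAdd 1) = X.A 1 := rfl
  rw [h2] at h
  rw [h, orderOf_ofAdd_eq_addOrderOf, ZMod.addOrderOf_one]

/-- a normal cyclic subgroup of order `2 ^ k` gives `NC G k` (`A i = a ^ i.val`, `conj` by choice) -/
theorem exists_NC [Finite G] (B : Subgroup G) (hB : B.Normal) (hc : IsCyclic B)
    (hcard : Nat.card B = 2 ^ k) : ∃ X : NC G k, ∀ g, g ∈ B ↔ ∃ i, X.A i = g := by
  have e := zmodCyclicMulEquiv hc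
  rw [hcard] at e
  have hadd : ∀ i j : ZMod (2 ^ k), ((e (Multiplicative.ofAdd (i + j)) : B) : G)
      = ((e (Multiplicative.ofAdd i) : B) : G) * ((e (Multiplicative.ofAdd j) : B) : G) := by
    intro i j
    rw [ofAdd_add, map_mul, Subgroup.coe_mul]
  have hinj : Function.Injective (fun i : ZMod (2 ^ k) => ((e (Multiplicative.ofAdd i) : B) : G)) := by
    intro i j h
    exact Multiplicative.ofAdd.injective (e.injective (Subtype.val_injective h))
  have hz : ((e (Multiplicative.ofAdd (0 : ZMod (2 ^ k))) : B) : G) = 1 := by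
    rw [ofAdd_zero, map_one, Subgroup.coe_one]
  have hpow : ∀ (n : ℕ) (x : ZMod (2 ^ k)), ((e (Multiplicative.ofAdd (n • x)) : B) : G)
      = ((e (Multiplicative.ofAdd x) : B) : G) ^ n := by
    intro n x
    induction n with
    | zero => rw [zero_smul, hz, pow_zero]
    | succ n ih => rw [add_smul, one_smul, hadd, ih, pow_succ]
  have hmem : ∀ g, g ∈ B ↔ ∃ i : ZMod (2 ^ k), ((e (Multiplicative.ofAdd i) : B) : G) = g := by
    intro g
    constructor
    · intro hg
      refine ⟨Multiplicative.toAdd (e.symm ⟨g, hg⟩), ?_⟩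
      rw [ofAdd_toAdd, MulEquiv.apply_symm_apply]
    · rintro ⟨i, rfl⟩
      exact (e (Multiplicative.ofAdd i)).2
  have hconj : ∀ g : G, ∃ c : ZMod (2 ^ k), ((e (Multiplicative.ofAdd c) : B) : G)
      = g * ((e (Multiplicative.ofAdd (1 : ZMod (2 ^ k))) : B) : G) * g⁻¹ := by
    intro g
    exact (hmem _).mp (hB.conj_mem _ (e (Multiplicative.ofAdd 1)).2 g)
  choose conj hconj using hconj
  refine ⟨⟨fun i => ((e (Multiplicative.ofAdd i) : B) : G), hadd, hinj, conj, ?_⟩, hmem⟩
  intro g i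
  have h1 : i = i.val • (1 : ZMod (2 ^ k)) := by
    rw [nsmul_eq_mul, mul_one, ZMod.natCast_zmod_val]
  have h2 : conj g * i = i.val • conj g := by
    rw [nsmul_eq_mul, ZMod.natCast_zmod_val, mul_comm]
  have h3 : ((e (Multiplicative.ofAdd i) : B) : G)
      = ((e (Multiplicative.ofAdd (1 : ZMod (2 ^ k))) : B) : G) ^ i.val := by
    conv_lhs => rw [h1]
    exact hpow _ _
  show g * ((e (Multiplicative.ofAdd i) : B) : G)
    = ((e (Multiplicative.ofAdd (conj g * i)) : B) : G) * g
  rw [h2, hpow, hconj, conj_pow, h3]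
  group

/-- the subgroup -/
theorem NC.exists_sub (X : NC G k) : ∃ B : Subgroup G, B.Normal ∧ Nat.card B = 2 ^ k ∧
    ∀ g, g ∈ B ↔ ∃ i, X.A i = g := by
  refine ⟨(ncHom X).range, ⟨?_⟩, ?_, ?_⟩
  · rintro _ ⟨i, rfl⟩ g
    refine ⟨Multiplicative.ofAdd (X.conj g * Multiplicative.toAdd i), ?_⟩
    show X.A (X.conj g * Multiplicative.toAdd i) = g * X.A (Multiplicative.toAdd i) * g⁻¹
    rw [X.spec, mul_inv_cancel_right]
  · have h : Nat.card (ncHom X).range = Nat.card (Multiplicative (ZMod (2 ^ k))) :=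
      Nat.card_range_of_injective (ncHom_inj X)
    rw [h, Nat.card_congr Multiplicative.toAdd, Nat.card_zmod]
  · intro g
    constructor
    · rintro ⟨i, rfl⟩
      exact ⟨Multiplicative.toAdd i, rfl⟩
    · rintro ⟨i, rfl⟩
      exact ⟨Multiplicative.ofAdd i, rfl⟩

end LibRE
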