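import Pool.Agent.LibRE29.CMEx
import Pool.Agent.LibRE29.Arith
set_option autoImplicit false
namespace LibRE
open LibRS Equiv

private def CM.castT {G : Type} [Group G] {k : ℕ} {s s' t t' : ZMod (2 ^ k)} (X : CM G k s t)
    (hs : s = s') (ht : t = t') : CM G k s' t' := hs ▸ ht ▸ X

/-- normal forms of the groups with a cyclic subgroup of index two -/
theorem cm_normal {G : Type} [Group G] [Finite G] {k : ℕ} (hk : 2 ≤ k) {s t : ZMod (2 ^ k)}
    (X : CM G k s t) (hnc : ¬ IsCyclic G) :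
    Nonempty (CM G k 1 0) ∨ Nonempty (CM G k (-1) 0) ∨ Nonempty (CM G k (-1) (hf k)) ∨
    (3 ≤ k ∧ Nonempty (CM G k (1 + hf k) 0)) ∨ (3 ≤ k ∧ Nonempty (CM G k (-1 + hf k) (hf k))) := by
  obtain ⟨hss, hst⟩ := X.ss
  have c1 : s = 1 → Nonempty (CM G k 1 0) := by
    rintro rfl
    rcases unit_or_even (by omega : 1 ≤ k) t with hu | ⟨u, hu⟩
    · exact absurd (X.cyclic hu) hnc
    · exact ⟨(X.change (-u)).castT rfl (by rw [hu]; ring)⟩
  have c2 : s = -1 → Nonempty (CM G k (-1) 0) ∨ Nonempty (CM G k (-1) (hf k)) := by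
    rintro rfl
    rcases eq_zero_or_hf (by omega : 1 ≤ k) t (by linear_combination -hst) with h | h
    · exact Or.inl ⟨X.castT rfl h⟩
    · exact Or.inr ⟨X.castT rfl h⟩
  by_cases hk3 : 3 ≤ k
  · rcases sq_one_cases hk3 s hss with h | h | h | h
    · exact Or.inl (c1 h)
    · rcases c2 h with h | h
      · exact Or.inr (Or.inl h)
      · exact Or.inr (Or.inr (Or.inl h))
    · subst h
      obtain ⟨j, hj⟩ := modular_solve hk3 t hst
      exact Or.inr (Or.inr (Or.inr (Or.inl ⟨hk3, ⟨(X.change j).castT rfl hj⟩⟩)))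
    · subst h
      refine Or.inr (Or.inr (Or.inr (Or.inr ⟨hk3, ?_⟩)))
      rcases semidihedral_t hk3 t hst with h | h
      · exact ⟨(X.change 1).castT rfl (by rw [h]; ring)⟩
      · exact ⟨X.castT rfl h⟩
  · obtain rfl : k = 2 := by omega
    rcases sq_one_cases_two s hss with h | h
    · exact Or.inl (c1 h)
    · rcases c2 h with h | h
      · exact Or.inr (Or.inl h)
      · exact Or.inr (Or.inr (Or.inl h))

end LibRE
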