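import Pool.Agent.LibRE29.Defs
set_option autoImplicit false
namespace LibRE
open LibRS Equiv

/-- the number with the binary digits `c 0, ..., c (k - 1)`, as a residue -/
def num (k : ℕ) (c : ℕ → Bool) : ZMod (2 ^ k) := ∑ l ∈ Finset.range k, (2 : ZMod (2 ^ k)) ^ l * bz (c l)

private def nn (k : ℕ) (c : ℕ → Bool) : ℕ := ∑ l ∈ Finset.range k, 2 ^ l * (c l).toNat

private theorem nn_lt (k : ℕ) (c : ℕ → Bool) : nn k c < 2 ^ k := by
  induction k with
  | zero => simp [nn]
  | succ k ih =>
    have h : nn (k + 1) c = nn k c + 2 ^ k * (c k).toNat := by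
      rw [nn, Finset.sum_range_succ]; rfl
    have h2 : (c k).toNat ≤ 1 := Bool.toNat_le _
    rw [h, pow_succ]
    nlinarith [Nat.one_le_two_pow (n := k)]

private theorem nn_succ (k : ℕ) (c : ℕ → Bool) :
    nn (k + 1) c = 2 * nn k (fun l => c (l + 1)) + (c 0).toNat := by
  rw [nn, Finset.sum_range_succ', nn, Finset.mul_sum]
  congr 1
  · exact Finset.sum_congr rfl fun l _ => by rw [pow_succ]; ring
  · simp

private theorem nn_inj (k : ℕ) : ∀ (c d : ℕ → Bool), nn k c = nn k d → ∀ l < k, c l = d l := by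
  induction k with
  | zero => intro c d _ l hl; omega
  | succ k ih =>
    intro c d h l hl
    rw [nn_succ, nn_succ] at h
    have hc : (c 0).toNat ≤ 1 := Bool.toNat_le _
    have hd : (d 0).toNat ≤ 1 := Bool.toNat_le _
    cases l with
    | zero =>
      have h3 : (c 0).toNat = (d 0).toNat := by omega
      revert h3
      cases c 0 <;> cases d 0 <;> simp
    | succ l =>
      exact ih (fun l => c (l + 1)) (fun l => d (l + 1)) (by omega) l (by omega)

private theorem num_cast (k : ℕ) (c : ℕ → Bool) : num k c = ((nn k c : ℕ) : ZMod (2 ^ k)) := by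
  rw [num, nn, Nat.cast_sum]
  refine Finset.sum_congr rfl fun l _ => ?_
  cases c l <;> simp [bz]

/-- uniqueness of binary digits (the sum is the cast of a natural number `< 2 ^ k`; e.g. `Nat.ofBits`, or induction on
natural numbers `∑ 2 ^ l * (c l).toNat`) -/
theorem num_inj {k : ℕ} {c d : ℕ → Bool} (h : num k c = num k d) : ∀ l < k, c l = d l := by
  rw [num_cast, num_cast, ZMod.natCast_eq_natCast_iff', Nat.mod_eq_of_lt (nn_lt k c),
    Nat.mod_eq_of_lt (nn_lt k d)] at h
  exact nn_inj k c d h

theorem num_congr {k : ℕ} {c d : ℕ → Bool} (h : ∀ l < k, c l = d l) : num k c = num k d :=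
  Finset.sum_congr rfl fun l hl => by rw [h l (Finset.mem_range.mp hl)]

private theorem two_pow_zero (k : ℕ) : (2 : ZMod (2 ^ k)) ^ k = 0 := by
  have := ZMod.natCast_self (2 ^ k)
  rwa [Nat.cast_pow, Nat.cast_ofNat] at this

/-- shift -/
theorem num_step {k : ℕ} {c d : ℕ → Bool} (h : ∀ l, d (l + 1) = c l) :
    num k d = 2 * num k c + bz (d 0) := by
  have h1 : ∑ l ∈ Finset.range (k + 1), (2 : ZMod (2 ^ k)) ^ l * bz (d l) = num k d := by
    rw [Finset.sum_range_succ, two_pow_zero, zero_mul, add_zero]; rfl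
  rw [← h1, Finset.sum_range_succ', num, Finset.mul_sum, pow_zero, one_mul]
  congr 1
  exact Finset.sum_congr rfl fun l _ => by rw [h, pow_succ]; ring

private theorem sum_two_pow (k m : ℕ) :
    ∑ l ∈ Finset.range m, (2 : ZMod (2 ^ k)) ^ l = 2 ^ m - 1 := by
  induction m with
  | zero => simp
  | succ m ih => rw [Finset.sum_range_succ, ih, pow_succ]; ring

/-- complement -/
theorem num_compl {k : ℕ} (c : ℕ → Bool) : num k (fun l => !(c l)) = -1 - num k c := by
  have h1 : num k (fun l => !(c l)) + num k c = -1 := by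
    rw [num, num, ← Finset.sum_add_distrib]
    have h2 : ∀ l ∈ Finset.range k, (2 : ZMod (2 ^ k)) ^ l * bz (!(c l)) + 2 ^ l * bz (c l) =
        2 ^ l := by
      intro l _
      cases c l <;> simp [bz]
    rw [Finset.sum_congr rfl h2, sum_two_pow, two_pow_zero, zero_sub]
  rw [← h1]; ring

theorem num_ones {k : ℕ} : num k (fun _ => true) = -1 := by
  have h := num_compl (k := k) (fun _ => false)
  have h0 : num k (fun _ => false) = 0 := by
    rw [num]; exact Finset.sum_eq_zero fun l _ => by simp [bz]
  rw [h0, sub_zero] at h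
  exact h

/-- flipping the last digit -/
theorem num_flip {k : ℕ} (hk : 1 ≤ k) (c : ℕ → Bool) :
    num k (fun l => xor (c l) (decide (l + 1 = k))) = num k c + hf k := by
  obtain ⟨m, rfl⟩ : ∃ m, k = m + 1 := ⟨k - 1, by omega⟩
  rw [num, num, Finset.sum_range_succ, Finset.sum_range_succ, add_assoc]
  congr 1
  · refine Finset.sum_congr rfl fun l hl => ?_
    have hl' : l < m := Finset.mem_range.mp hl
    have : decide (l + 1 = m + 1) = false := decide_eq_false (by omega)
    rw [this, Bool.xor_false]
  · have h0 : (2 : ZMod (2 ^ (m + 1))) ^ m * 2 = 0 := by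
      rw [← pow_succ]; exact two_pow_zero (m + 1)
    have h1 : hf (m + 1) = (2 : ZMod (2 ^ (m + 1))) ^ m := by
      rw [hf, Nat.add_sub_cancel, Nat.cast_pow, Nat.cast_ofNat]
    rw [h1, decide_eq_true rfl, Bool.xor_true]
    cases c m
    · simp [bz]
    · simp only [bz, Bool.not_true, if_true, Bool.false_eq_true, if_false, mul_zero, mul_one]
      rw [← mul_two, h0]

theorem num_hf {k : ℕ} (hk : 1 ≤ k) : num k (fun l => decide (l + 1 = k)) = hf k := by
  have h := num_flip hk (fun _ => false)
  have h0 : num k (fun _ => false) = 0 := by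
    rw [num]; exact Finset.sum_eq_zero fun l _ => by simp [bz]
  simp only [Bool.false_xor] at h
  rw [h0, zero_add] at h
  exact h

end LibRE
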