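import Pool.Agent.LibRE29.NC
set_option autoImplicit false
namespace LibRE
open LibRS Equiv

private theorem V4a_hf_two {k : ℕ} (hk : 1 ≤ k) : 2 * hf k = 0 := by
  obtain ⟨n, rfl⟩ : ∃ n, k = n + 1 := ⟨k - 1, by omega⟩
  have h1 : ((2 * 2 ^ n : ℕ) : ZMod (2 ^ (n + 1))) = 0 := by
    rw [← pow_succ']
    exact ZMod.natCast_self _
  unfold hf
  rw [Nat.add_sub_cancel]
  have h2 : (2 : ZMod (2 ^ (n + 1))) = ((2 : ℕ) : ZMod (2 ^ (n + 1))) := by norm_num
  rw [h2, ← Nat.cast_mul]
  exact h1

private theorem V4a_hf_ne {k : ℕ} (hk : 1 ≤ k) : hf k ≠ 0 := by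
  obtain ⟨n, rfl⟩ : ∃ n, k = n + 1 := ⟨k - 1, by omega⟩
  unfold hf
  rw [Nat.add_sub_cancel]
  intro h
  rw [ZMod.natCast_eq_zero_iff] at h
  have h1 := Nat.le_of_dvd (by positivity) h
  have h2 : 2 ^ n < 2 ^ (n + 1) := Nat.pow_lt_pow_right (by norm_num) (Nat.lt_succ_self n)
  omega

private theorem V4a_hf_mul {k : ℕ} (hk : 3 ≤ k) (m : ZMod (2 ^ k)) (h : 4 * m = 0) :
    hf k * m = 0 := by
  obtain ⟨n, rfl⟩ : ∃ n, k = n + 3 := ⟨k - 3, by omega⟩
  unfold hf
  have h1 : ((2 ^ (n + 3 - 1) : ℕ) : ZMod (2 ^ (n + 3))) = ((2 ^ n : ℕ) : ZMod (2 ^ (n + 3))) * 4 := by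
    have h2 : 2 ^ (n + 3 - 1) = 2 ^ n * 4 := by
      rw [show n + 3 - 1 = n + 2 by omega, pow_add]
      norm_num
    rw [h2]
    push_cast
    ring
  rw [h1, mul_assoc, h, mul_zero]

private theorem V4a_mk {G : Type} [Group G] (z b : G) (hz : z * z = 1) (hb : b * b = 1)
    (hzb : b * z = z * b) (h1 : z ≠ 1) (h2 : b ≠ 1) (h3 : b ≠ z)
    (hn : ∀ g, g * z * g⁻¹ = z) (hn' : ∀ g, g * b * g⁻¹ = b ∨ g * b * g⁻¹ = z * b) :
    ∃ V : Subgroup G, IsV4 V := by
  classical
  have e4 : z * (z * b) = b := by rw [← mul_assoc, hz, one_mul]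
  have e5 : b * (z * b) = z := by rw [← mul_assoc, hzb, mul_assoc, hb, mul_one]
  have e6 : z * b * z = b := by rw [mul_assoc, hzb, e4]
  have e7 : z * b * b = z := by rw [mul_assoc, hb, mul_one]
  have e8 : z * b * (z * b) = 1 := by rw [mul_assoc, e5, hz]
  have h4 : z * b ≠ 1 := by
    intro h
    apply h3
    have := congrArg (fun x => z * x) h
    simp only [e4, mul_one] at this
    exact this
  have h5 : z * b ≠ z := by
    intro h
    apply h2
    have := congrArg (fun x => z * x) h
    simp only [e4, hz] at this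
    exact this
  have h6 : z * b ≠ b := by
    intro h
    apply h1
    have := congrArg (fun x => x * b) h
    simp only [e7, hb] at this
    exact this
  have hsq : ∀ x, x = 1 ∨ x = z ∨ x = b ∨ x = z * b → x * x = 1 := by
    rintro x (rfl | rfl | rfl | rfl)
    · exact one_mul 1
    · exact hz
    · exact hb
    · exact e8
  let V : Subgroup G :=
    { carrier := {x | x = 1 ∨ x = z ∨ x = b ∨ x = z * b}
      one_mem' := Or.inl rfl
      mul_mem' := by
        rintro x y (rfl | rfl | rfl | rfl) (rfl | rfl | rfl | rfl) <;>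
        simp only [Set.mem_ofPred_eq, one_mul, mul_one, hz, hb, hzb, e4, e5, e6, e7, e8,
          true_or, or_true]
      inv_mem' := by
        intro x hx
        have h7 : x⁻¹ = x := inv_eq_of_mul_eq_one_left (hsq x hx)
        rw [h7]
        exact hx }
  have hmem : ∀ x, x ∈ V ↔ x = 1 ∨ x = z ∨ x = b ∨ x = z * b := fun x => Iff.rfl
  refine ⟨V, ?_, ?_, ?_⟩
  · constructor
    intro x hx g
    rw [hmem] at hx ⊢
    rcases hx with rfl | rfl | rfl | rfl
    · left
      rw [mul_one, mul_inv_cancel]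
    · right; left
      exact hn g
    · rcases hn' g with h | h
      · right; right; left; exact h
      · right; right; right; exact h
    · have h8 : g * (z * b) * g⁻¹ = (g * z * g⁻¹) * (g * b * g⁻¹) := by group
      rw [h8, hn g]
      rcases hn' g with h | h
      · right; right; right; rw [h]
      · right; right; left; rw [h, e4]
  · have h9 : (V : Set G) = (({1, z, b, z * b} : Finset G) : Set G) := by
      ext x
      rw [SetLike.mem_coe, hmem]
      simp
    have h10 : Nat.card V = ({1, z, b, z * b} : Finset G).card := by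
      have h11 : Nat.card V = Nat.card (V : Set G) := rfl
      rw [h11, h9, Nat.card_coe_set_eq, Set.ncard_coe_finset]
    rw [h10]
    rw [Finset.card_insert_of_notMem, Finset.card_insert_of_notMem, Finset.card_insert_of_notMem,
      Finset.card_singleton]
    · rw [Finset.mem_singleton]
      exact h6.symm
    · rw [Finset.mem_insert, Finset.mem_singleton, not_or]
      exact ⟨h3.symm, h5.symm⟩
    · rw [Finset.mem_insert, Finset.mem_insert, Finset.mem_singleton, not_or, not_or]
      exact ⟨h1.symm, h2.symm, h4.symm⟩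
  · intro v hv
    exact hsq v ((hmem v).1 hv)

/-- Let `b` be outside of the normal cyclic subgroup `A`, `b² = A t`, `M = A ∪ A b` normal in `G`, and let `b` act on `A`
trivially with `t` even, or as `1 + 2 ^ (k - 1)`, `k ≥ 3`. Then the elements of `M` with square 1 form a normal four group:
choose `j` with `b' = A j * b`, `b' * b' = A (j + s * j + t) = 1` (`j = -u`, resp. `modular_solve`; `s * t = t` because `b`
commutes with `b²`); `A i` and `A i * b'` have square `A (2 * i)`, resp. `A (i + s * i)`, which is 1 iff `i = 0` or `i = hf k`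
(`(1 + 2^(k-2))` is a unit for `k ≥ 3`; `i + (1 + hf) * i = 0` implies `4 i = 0`, so `hf * i = 0` if k ≥ 3, so `2 i = 0`). So
`V = {1, A hf, b', A hf * b'}`; `V = {x ∈ M | x * x = 1}` is invariant under conjugation. -/
theorem V4_of_sub {G : Type} [Group G] [Finite G] {k : ℕ} (hk : 1 ≤ k) (X : NC G k) (b : G)
    (hb : ∀ i, X.A i ≠ b) (t : ZMod (2 ^ k)) (ht : b * b = X.A t)
    (hn : ∀ g, ∃ j, g * b * g⁻¹ = X.A j * b)
    (hs : (X.conj b = 1 ∧ ∃ u, t = 2 * u) ∨ (3 ≤ k ∧ X.conj b = 1 + hf k)) :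
    ∃ V : Subgroup G, IsV4 V := by
  have h2hf := V4a_hf_two hk
  have hhf := V4a_hf_ne hk
  have hA0 := X.A_zero
  -- `b * A i * b⁻¹`
  have hst : X.conj b * t = t := by
    apply X.A_inj
    have h1 := X.spec b t
    have h2 : b * X.A t = X.A t * b := by rw [← ht, mul_assoc]
    rw [h2] at h1
    exact (mul_right_cancel h1).symm
  -- the solution
  obtain ⟨j, hj⟩ : ∃ j, j + X.conj b * j + t = 0 := by
    rcases hs with ⟨h1, u, hu⟩ | ⟨h1, h2⟩
    · exact ⟨-u, by rw [h1, hu]; ring⟩
    · obtain ⟨j, hj⟩ := modular_solve h1 t (by rw [← h2]; exact hst)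
      exact ⟨j, by rw [h2]; exact hj⟩
  -- elements killed
  have hker : ∀ m, m + X.conj b * m = 0 → m = 0 ∨ m = hf k := by
    intro m hm
    rcases hs with ⟨h1, -⟩ | ⟨h1, h2⟩
    · rw [h1] at hm
      exact eq_zero_or_hf hk m (by rw [← hm]; ring)
    · rw [h2] at hm
      have h4 : 4 * m = 0 := by
        have h5 : 2 * (m + (1 + hf k) * m) = 0 := by rw [hm, mul_zero]
        have h6 : 2 * (m + (1 + hf k) * m) = 4 * m + (2 * hf k) * m := by ring
        rw [h6, h2hf, zero_mul, add_zero] at h5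
        exact h5
      have h7 := V4a_hf_mul h1 m h4
      refine eq_zero_or_hf hk m ?_
      have h8 : m + (1 + hf k) * m = 2 * m + hf k * m := by ring
      rw [h8, h7, add_zero] at hm
      exact hm
  have hshf : X.conj b * hf k = hf k := by
    rcases hs with ⟨h1, -⟩ | ⟨h1, h2⟩
    · rw [h1, one_mul]
    · rw [h2, add_mul, one_mul]
      have h4 : (4 : ZMod (2 ^ k)) * hf k = 0 := by
        have : (4 : ZMod (2 ^ k)) * hf k = 2 * (2 * hf k) := by ring
        rw [this, h2hf, mul_zero]
      rw [V4a_hf_mul h1 _ h4, add_zero]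
  -- squares
  have hbA : ∀ i, b * X.A i = X.A (X.conj b * i) * b := fun i => X.spec b i
  have hsq : ∀ m, (X.A m * b) * (X.A m * b) = X.A (m + X.conj b * m + t) := by
    intro m
    have h1 : (X.A m * b) * (X.A m * b) = X.A m * (b * X.A m) * b := by group
    rw [h1, hbA, X.A_add, X.A_add, ← ht]
    group
  have hb' : (X.A j * b) * (X.A j * b) = 1 := by rw [hsq, hj, hA0]
  have hz : X.A (hf k) * X.A (hf k) = 1 := by
    rw [← X.A_add, ← two_mul, h2hf, hA0]
  have hz1 : X.A (hf k) ≠ 1 := by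
    intro h
    rw [← hA0] at h
    exact hhf (X.A_inj h)
  have hAb : ∀ i i', X.A i * b ≠ X.A i' := by
    intro i i' h
    apply hb (-i + i')
    rw [X.A_add, X.A_neg, ← h]
    group
  have hcomm : X.A j * b * X.A (hf k) = X.A (hf k) * (X.A j * b) := by
    rw [mul_assoc, hbA, hshf, ← mul_assoc, ← X.A_add, add_comm, X.A_add, mul_assoc]
  refine V4a_mk (X.A (hf k)) (X.A j * b) hz hb' hcomm hz1 ?_ (hAb j (hf k)) ?_ ?_
  · rw [← hA0]
    exact hAb j 0
  · intro g
    have h1 : g * X.A (hf k) * g⁻¹ = X.A (X.conj g * hf k) := by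
      rw [X.spec, mul_assoc, mul_inv_cancel, mul_one]
    have h2 : 2 * (X.conj g * hf k) = 0 := by
      have : 2 * (X.conj g * hf k) = X.conj g * (2 * hf k) := by ring
      rw [this, h2hf, mul_zero]
    rcases eq_zero_or_hf hk _ h2 with h3 | h3
    · exfalso
      rw [h3, hA0] at h1
      apply hz1
      have h4 : g⁻¹ * (g * X.A (hf k) * g⁻¹) * g = g⁻¹ * 1 * g := by rw [h1]
      have h5 : g⁻¹ * (g * X.A (hf k) * g⁻¹) * g = X.A (hf k) := by group
      rw [h5] at h4
      rw [h4]
      group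
    · rw [h1, h3]
  · intro g
    obtain ⟨j', hj'⟩ := hn g
    have h1 : g * (X.A j * b) * g⁻¹ = X.A (X.conj g * j + j') * b := by
      have h2 : g * (X.A j * b) * g⁻¹ = (g * X.A j) * (b * g⁻¹) := by group
      rw [h2, X.spec]
      have h3 : X.A (X.conj g * j) * g * (b * g⁻¹) = X.A (X.conj g * j) * (g * b * g⁻¹) := by group
      rw [h3, hj', X.A_add, mul_assoc]
    set n := X.conj g * j + j' with hndef
    have h4 : (X.A n * b) * (X.A n * b) = 1 := by
      rw [← h1]
      have h5 : g * (X.A j * b) * g⁻¹ * (g * (X.A j * b) * g⁻¹) =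
          g * ((X.A j * b) * (X.A j * b)) * g⁻¹ := by group
      rw [h5, hb']
      group
    have h6 : n + X.conj b * n + t = 0 := by
      rw [hsq, ← hA0] at h4
      exact X.A_inj h4
    have h7 : (n - j) + X.conj b * (n - j) = 0 := by
      have h8 : (n - j) + X.conj b * (n - j) =
          (n + X.conj b * n + t) - (j + X.conj b * j + t) := by ring
      rw [h8, h6, hj, sub_zero]
    rw [h1]
    rcases hker _ h7 with h9 | h9
    · left
      rw [sub_eq_zero.1 h9]
    · right
      have h10 : n = hf k + j := by rw [← h9]; ring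
      rw [h10, X.A_add, mul_assoc]

end LibRE
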