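import Pool.Agent.LibRE29.V4a
set_option autoImplicit false
namespace LibRE
open LibRS Equiv

/-- In a finite 2-group take a normal cyclic subgroup of maximal order. -/
theorem exists_max_NC {G : Type} [Group G] [Finite G] (hG : IsPGroup 2 G) :
    ∃ (k : ℕ) (X : NC G k), ∀ B : Subgroup G, B.Normal → IsCyclic B → Nat.card B ≤ 2 ^ k := by
  have : Fact (Nat.Prime 2) := ⟨Nat.prime_two⟩
  have hfin : {B : Subgroup G | B.Normal ∧ IsCyclic B}.Finite := Set.toFinite _
  have hne : {B : Subgroup G | B.Normal ∧ IsCyclic B}.Nonempty :=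
    ⟨⊥, inferInstance, inferInstance⟩
  obtain ⟨B, hB, hmax⟩ := Set.exists_max_image _ (fun B : Subgroup G => Nat.card B) hfin hne
  obtain ⟨k, hk⟩ := IsPGroup.iff_card.mp (hG.to_subgroup B)
  obtain ⟨X, -⟩ := exists_NC (k := k) B hB.1 hB.2 hk
  exact ⟨k, X, fun C hC hC' => hk ▸ hmax C ⟨hC, hC'⟩⟩

private theorem inf_center {Q : Type} [Group Q] [Finite Q] (hQ : IsPGroup 2 Q)
    (D : Subgroup Q) [D.Normal] (hD : D ≠ ⊥) :
    ∃ w ∈ D, w ≠ 1 ∧ w * w = 1 ∧ ∀ g, g * w = w * g := by
  have : Fact (Nat.Prime 2) := ⟨Nat.prime_two⟩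
  have hC : IsPGroup 2 (ConjAct Q) := hQ.of_equiv ConjAct.toConjAct
  have hDnt : Nontrivial D := (Subgroup.nontrivial_iff_ne_bot D).mpr hD
  have dvd : 2 ∣ Nat.card D := by
    obtain ⟨n, hn0, hn⟩ := (hQ.to_subgroup D).nontrivial_iff_card.mp inferInstance
    exact hn.symm ▸ dvd_pow_self _ (ne_of_gt hn0)
  obtain ⟨z, hz, hz1⟩ := hC.exists_fixed_point_of_prime_dvd_card_of_fixed_point D dvd
    (a := (1 : D)) (by intro g; simp)
  have hzc : ∀ g : Q, g * z = z * g := by
    intro g
    have h2 := congrArg Subtype.val (hz (ConjAct.toConjAct g))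
    rw [ConjAct.Subgroup.val_conj_smul, ConjAct.smul_def, ConjAct.ofConjAct_toConjAct] at h2
    calc g * (z : Q) = g * z * g⁻¹ * g := by group
      _ = z * g := by rw [h2]
  obtain ⟨m, hm⟩ := (IsPGroup.iff_orderOf.mp hQ) (z : Q)
  have hz1' : (z : Q) ≠ 1 := by
    intro h
    exact hz1 (Subtype.ext h).symm
  cases m with
  | zero =>
    rw [pow_zero, orderOf_eq_one_iff] at hm
    exact absurd hm hz1'
  | succ m =>
    refine ⟨(z : Q) ^ (2 ^ m), D.pow_mem z.2 _, ?_, ?_, ?_⟩
    · intro h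
      have h1 := orderOf_dvd_of_pow_eq_one h
      rw [hm] at h1
      have h2 := Nat.le_of_dvd (by positivity) h1
      have h3 : 2 ^ m < 2 ^ (m + 1) := Nat.pow_lt_pow_right (by norm_num) (by omega)
      omega
    · rw [← pow_add, ← two_mul, ← pow_succ', ← hm, pow_orderOf_eq_one]
    · intro g
      exact ((show Commute g (z : Q) from hzc g).pow_right _)

/-- If `A` is a normal subgroup of the finite 2-group `G` properly contained in its centraliser, then there is `b` in the
centraliser, outside of `A`, with `b * b ∈ A` and `g b g⁻¹ ∈ A b` for all `g`: the image of the centraliser in `G ⧸ A` is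
a non-trivial normal subgroup of a 2-group, so it meets the centre (e.g. `IsPGroup.card_modEq_card_fixedPoints` for the
conjugation action, or Mathlib's statement on normal subgroups of nilpotent groups), and a central element of
2-power order has a power of order two. -/
theorem exists_central {G : Type} [Group G] [Finite G] (hG : IsPGroup 2 G) {k : ℕ} (X : NC G k)
    (h : ∃ g, X.conj g = 1 ∧ ∀ i, X.A i ≠ g) :
    ∃ (b : G) (t : ZMod (2 ^ k)), X.conj b = 1 ∧ (∀ i, X.A i ≠ b) ∧ b * b = X.A t ∧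
      ∀ g, ∃ j, g * b * g⁻¹ = X.A j * b := by
  obtain ⟨B, hBn, -, hB⟩ := X.exists_sub
  have := hBn
  let C : Subgroup G :=
    { carrier := {g | X.conj g = 1}
      mul_mem' := by
        intro a b ha hb
        show X.conj (a * b) = 1
        rw [X.conj_mul, show X.conj a = 1 from ha, show X.conj b = 1 from hb, one_mul]
      one_mem' := X.conj_one
      inv_mem' := by
        intro a ha
        show X.conj a⁻¹ = 1
        have := X.conj_inv a
        rwa [show X.conj a = 1 from ha, one_mul] at this }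
  have hC : ∀ g, g ∈ C ↔ X.conj g = 1 := fun g => Iff.rfl
  have hCn : C.Normal := ⟨by
    intro n hn g
    rw [hC] at hn ⊢
    rw [X.conj_mul, X.conj_mul, hn, mul_one, X.conj_inv]⟩
  let D : Subgroup (G ⧸ B) := C.map (QuotientGroup.mk' B)
  have hDn : D.Normal := hCn.map _ (QuotientGroup.mk'_surjective B)
  obtain ⟨g0, hg0, hg0'⟩ := h
  have hD : D ≠ ⊥ := by
    intro hbot
    have h1 : (QuotientGroup.mk' B) g0 ∈ D := ⟨g0, (hC g0).mpr hg0, rfl⟩
    rw [hbot, Subgroup.mem_bot] at h1
    have h2 : g0 ∈ B := (QuotientGroup.eq_one_iff g0).mp h1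
    obtain ⟨i, hi⟩ := (hB g0).mp h2
    exact hg0' i hi
  obtain ⟨w, hwD, hw1, hw2, hwc⟩ := inf_center (hG.to_quotient B) D hD
  obtain ⟨b, hbC, rfl⟩ := hwD
  have hbb : b * b ∈ B := by
    rw [← QuotientGroup.eq_one_iff]
    exact hw2
  obtain ⟨t, ht⟩ := (hB _).mp hbb
  refine ⟨b, t, hbC, ?_, ht.symm, ?_⟩
  · intro i hi
    apply hw1
    have : b ∈ B := (hB b).mpr ⟨i, hi⟩
    exact (QuotientGroup.eq_one_iff b).mpr this
  · intro g
    have h1 : g * b * g⁻¹ * b⁻¹ ∈ B := by
      rw [← QuotientGroup.eq_one_iff]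
      have h2 := hwc (QuotientGroup.mk' B g)
      have h3 : ((g * b * g⁻¹ * b⁻¹ : G) : G ⧸ B) =
          QuotientGroup.mk' B g * QuotientGroup.mk' B b * (QuotientGroup.mk' B g)⁻¹ *
            (QuotientGroup.mk' B b)⁻¹ := rfl
      rw [h3, h2]
      group
    obtain ⟨j, hj⟩ := (hB _).mp h1
    exact ⟨j, by rw [hj]; group⟩

/-- A maximal normal cyclic subgroup is its own centraliser if there is no normal four group: with `b` from
`exists_central`: if `t` is even (and `k ≥ 1`) use `V4_of_sub`; if `t` is a unit (or `k = 0`) then `A ∪ A b` is the cyclic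
normal subgroup generated by `b`, of order `2 ^ (k + 1)`: contradiction to maximality. -/
theorem self_centralizing {G : Type} [Group G] [Finite G] (hG : IsPGroup 2 G) {k : ℕ} (X : NC G k)
    (hmax : ∀ B : Subgroup G, B.Normal → IsCyclic B → Nat.card B ≤ 2 ^ k)
    (hV : ¬ ∃ V : Subgroup G, IsV4 V) (g : G) (hg : X.conj g = 1) : ∃ i, X.A i = g := by
  by_contra hcon
  push Not at hcon
  obtain ⟨b, t, hb1, hb, ht, hn⟩ := exists_central hG X ⟨g, hg, hcon⟩
  have hcase : IsUnit t ∨ (1 ≤ k ∧ ∃ u, t = 2 * u) := by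
    rcases Nat.eq_zero_or_pos k with hk | hk
    · left
      subst hk
      have : Subsingleton (ZMod (2 ^ 0)) := by
        rw [pow_zero]; infer_instance
      exact ⟨1, Subsingleton.elim _ _⟩
    · rcases unit_or_even hk t with h | h
      · exact Or.inl h
      · exact Or.inr ⟨hk, h⟩
  rcases hcase with hu | ⟨hk, hu⟩
  · -- the subgroup generated by b
    have hA : ∀ i, X.A i ∈ Subgroup.zpowers b := by
      intro i
      obtain ⟨u, rfl⟩ := hu
      have h1 : ∀ m : ℕ, X.A (m • (u : ZMod (2 ^ k))) = (b * b) ^ m := by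
        intro m
        induction m with
        | zero => rw [zero_smul, X.A_zero, pow_zero]
        | succ m ih => rw [succ_nsmul, X.A_add, ih, ht, pow_succ]
      have h2 : i = ((↑u⁻¹ * i : ZMod (2 ^ k)).val) • (u : ZMod (2 ^ k)) := by
        have : NeZero (2 ^ k) := ⟨by positivity⟩
        rw [nsmul_eq_mul, ZMod.natCast_zmod_val, mul_comm, ← mul_assoc, Units.mul_inv, one_mul]
      rw [h2, h1]
      exact Subgroup.pow_mem _ (Subgroup.mul_mem _ (Subgroup.mem_zpowers b)
        (Subgroup.mem_zpowers b)) _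
    obtain ⟨B, hBn, hBc, hB⟩ := X.exists_sub
    have hBle : B ≤ Subgroup.zpowers b := by
      intro x hx
      obtain ⟨i, rfl⟩ := (hB x).mp hx
      exact hA i
    have hnorm : (Subgroup.zpowers b).Normal := ⟨by
      intro x hx y
      obtain ⟨n, rfl⟩ := Subgroup.mem_zpowers_iff.mp hx
      obtain ⟨j, hj⟩ := hn y
      have h1 : y * b ^ n * y⁻¹ = (y * b * y⁻¹) ^ n := by
        rw [conj_zpow]
      rw [h1, hj]
      exact Subgroup.zpow_mem _ (Subgroup.mul_mem _ (hA j) (Subgroup.mem_zpowers b)) _⟩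
    have hcard := hmax (Subgroup.zpowers b) hnorm inferInstance
    have heq : B = Subgroup.zpowers b := by
      apply Subgroup.eq_of_le_of_card_ge hBle
      rw [hBc]; exact hcard
    have hbB : b ∈ B := by rw [heq]; exact Subgroup.mem_zpowers b
    obtain ⟨i, hi⟩ := (hB b).mp hbB
    exact hb i hi
  · exact hV (V4_of_sub hk X b hb t ht hn (Or.inl ⟨hb1, hu⟩))

end LibRE
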