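import Pool.Agent.LibRE29.CMApi
import Pool.Agent.LibRE29.RegApi
set_option autoImplicit false
namespace LibRE
open LibRS Equiv

/-- a permutation from a cyclic system of states -/
private theorem zig_of_states {G S : Type} [Group G] [Finite G] (φ : S → G) (nx : S → S) (s0 : S)
    (h1 : ∀ s, φ s ≠ 1) (hs : ∀ g, g ≠ 1 → ∃ s, φ s = g) (hφ : Function.Injective φ)
    (hnx : Function.Surjective nx) (hfix : ∀ s, nx s ≠ s)
    (hq : ∀ s t, (φ s)⁻¹ * φ (nx s) = (φ t)⁻¹ * φ (nx t) → s = t)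
    (hcyc : ∀ s, ∃ n, nx^[n] s0 = s) :
    ∃ θ : Perm G, Orth θ ∧ OneCyc θ ∧ ∀ s, θ (φ s) = φ (nx s) := by
  classical
  have : Nonempty S := ⟨s0⟩
  choose! ψ hψ using hs
  have hψφ : ∀ s, ψ (φ s) = s := fun s => hφ (hψ _ (h1 s))
  let F : G → G := fun g => if g = 1 then 1 else φ (nx (ψ g))
  have hF1 : F 1 = 1 := by simp [F]
  have hFφ : ∀ s, F (φ s) = φ (nx s) := by
    intro s
    simp only [F, h1 s, if_false, hψφ]
  have hsurj : Function.Surjective F := by
    intro g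
    by_cases hg : g = 1
    · exact ⟨1, by rw [hF1, hg]⟩
    · obtain ⟨t, ht⟩ := hnx (ψ g)
      exact ⟨φ t, by rw [hFφ, ht, hψ g hg]⟩
  have hbij : Function.Bijective F := ⟨Finite.injective_iff_surjective.mpr hsurj, hsurj⟩
  let θ : Perm G := Equiv.ofBijective F hbij
  have hθ1 : θ 1 = 1 := hF1
  have hθφ : ∀ s, θ (φ s) = φ (nx s) := hFφ
  refine ⟨θ, ⟨hθ1, ?_⟩, ?_, hθφ⟩
  · intro x y hxy
    simp only at hxy
    by_cases hx : x = 1
    · by_cases hy : y = 1
      · rw [hx, hy]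
      · exfalso
        rw [hx, hθ1, ← hψ y hy, hθφ] at hxy
        have : φ (ψ y) = φ (nx (ψ y)) := by
          have h2 : (φ (ψ y))⁻¹ * φ (nx (ψ y)) = 1 := by rw [← hxy]; simp
          exact (inv_mul_eq_one.mp h2)
        exact hfix _ (hφ this).symm
    · by_cases hy : y = 1
      · exfalso
        rw [hy, hθ1, ← hψ x hx, hθφ] at hxy
        have : φ (ψ x) = φ (nx (ψ x)) := by
          have h2 : (φ (ψ x))⁻¹ * φ (nx (ψ x)) = 1 := by rw [hxy]; simp
          exact (inv_mul_eq_one.mp h2)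
        exact hfix _ (hφ this).symm
      · rw [← hψ x hx, ← hψ y hy, hθφ, hθφ] at hxy
        rw [← hψ x hx, ← hψ y hy, hq _ _ hxy]
  · have hpow : ∀ n, (θ ^ n) (φ s0) = φ (nx^[n] s0) := by
      intro n
      induction n with
      | zero => simp
      | succ n ih =>
        rw [pow_succ', Perm.mul_apply, ih, hθφ, Function.iterate_succ_apply']
    have hsc : ∀ s, θ.SameCycle (φ s0) (φ s) := by
      intro s
      obtain ⟨n, hn⟩ := hcyc s
      exact ⟨n, by rw [zpow_natCast, hpow, hn]⟩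
    intro x y hx hy
    rw [← hψ x hx, ← hψ y hy]
    exact (hsc _).symm.trans (hsc _)

/-- integer coordinates -/
private def ZE {G : Type} [Group G] {k : ℕ} (X : CM G k (-1) (hf k)) (z : ℤ) (c : Bool) : G :=
  X.A ((z : ℤ) : ZMod (2 ^ k)) * X.B c

private theorem ZE_eq {G : Type} [Group G] {k : ℕ} (X : CM G k (-1) (hf k)) {M : ℕ}
    (hM : 2 * M = 2 ^ k) {z w : ℤ} (c : Bool) (h : (2 * M : ℤ) ∣ z - w) :
    ZE X z c = ZE X w c := by
  unfold ZE
  have : ((z : ℤ) : ZMod (2 ^ k)) = ((w : ℤ) : ZMod (2 ^ k)) := by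
    rw [ZMod.intCast_eq_intCast_iff_dvd_sub]
    have h2 : ((2 ^ k : ℕ) : ℤ) = 2 * M := by rw [← hM]; push_cast; ring
    rw [h2]
    have := (dvd_neg.mpr h)
    simpa using this
  rw [this]

private theorem ZE_inj {G : Type} [Group G] {k : ℕ} (X : CM G k (-1) (hf k)) {M : ℕ}
    (hM : 2 * M = 2 ^ k) {z w : ℤ} {c d : Bool} (h : ZE X z c = ZE X w d) :
    c = d ∧ (2 * M : ℤ) ∣ z - w := by
  obtain ⟨h1, h2⟩ := X.coord_inj h
  refine ⟨h2, ?_⟩
  rw [ZMod.intCast_eq_intCast_iff_dvd_sub] at h1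
  have h3 : ((2 ^ k : ℕ) : ℤ) = 2 * M := by rw [← hM]; push_cast; ring
  rw [h3] at h1
  have := (dvd_neg.mpr h1)
  simpa using this

private theorem ZE_hf {k M : ℕ} (hM : 2 * M = 2 ^ k) (hM4 : 4 ≤ M) :
    hf k = (((M : ℕ) : ℤ) : ZMod (2 ^ k)) := by
  have : M = 2 ^ (k - 1) := by
    cases k with
    | zero => omega
    | succ k => rw [pow_succ] at hM; simp; omega
  unfold hf
  rw [← this]
  push_cast
  rfl

private theorem ZE_quot {G : Type} [Group G] {k : ℕ} (X : CM G k (-1) (hf k)) {M : ℕ}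
    (hM : 2 * M = 2 ^ k) (hM4 : 4 ≤ M) (z w : ℤ) (c d : Bool) :
    (ZE X z c)⁻¹ * ZE X w d =
      ZE X ((if c then z - w else w - z) - (if c && !d then (M : ℤ) else 0)) (xor c d) := by
  unfold ZE
  rw [X.quot]
  have h := ZE_hf hM hM4
  congr 2
  cases c <;> cases d <;> push_cast <;> simp [h]

private theorem ZE_mul {G : Type} [Group G] {k : ℕ} (X : CM G k (-1) (hf k)) {M : ℕ}
    (hM : 2 * M = 2 ^ k) (hM4 : 4 ≤ M) (z w : ℤ) (c d : Bool) :
    ZE X z c * ZE X w d =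
      ZE X (z + (if c then - w else w) + (if c && d then (M : ℤ) else 0)) (xor c d) := by
  unfold ZE
  rw [X.mul]
  have h := ZE_hf hM hM4
  congr 2
  cases c <;> cases d <;> push_cast <;> simp [h]

private theorem ZE_one {G : Type} [Group G] {k : ℕ} (X : CM G k (-1) (hf k)) :
    ZE X 0 false = 1 := by
  unfold ZE CM.B
  simp [X.A_zero]

private theorem zig_dvd {M d : ℤ} (hM : 0 < M) (h : 2 * M ∣ d) (h1 : d < 4 * M)
    (h2 : -(4 * M) < d) : d = 0 ∨ d = 2 * M ∨ d = -(2 * M) := by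
  obtain ⟨t, rfl⟩ := h
  have ht1 : t < 2 := by nlinarith
  have ht2 : -2 < t := by nlinarith
  have : t = 0 ∨ t = 1 ∨ t = -1 := by omega
  rcases this with rfl | rfl | rfl
  · left; ring
  · right; left; ring
  · right; right; ring

/-- states -/
private def ZS (M : ℕ) : Type := {p : ℕ × ℕ // p.1 < M ∧ p.2 < 4 ∧ (p.1 = M - 1 → p.2 ≠ 1)}

private def zz (σ : ℕ → ℕ) (a c : ℕ) : ℤ :=
  if c = 0 then a + 1 else if c = 1 then -(a + 1) else if c = 2 then -(σ a : ℤ) else σ a + 1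

private def zb (c : ℕ) : Bool := if c = 0 then false else if c = 1 then false else true

private def zn (M a c : ℕ) : ℕ × ℕ :=
  if c = 0 then (if a = M - 1 then (a, 2) else (a, 1))
  else if c = 1 then (a, 2)
  else if c = 2 then (a, 3)
  else (if a = M - 1 then (0, 0) else (a + 1, 0))

private theorem zn_mem {M : ℕ} (hM4 : 4 ≤ M) (a c : ℕ) (h : a < M ∧ c < 4 ∧ (a = M - 1 → c ≠ 1)) :
    (zn M a c).1 < M ∧ (zn M a c).2 < 4 ∧ ((zn M a c).1 = M - 1 → (zn M a c).2 ≠ 1) := by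
  unfold zn
  split_ifs <;> simp <;> omega

/-- the classification of the quotients: six kinds -/
private theorem zig_kinds {G : Type} [Group G] {k : ℕ} (X : CM G k (-1) (hf k)) {M : ℕ}
    (hM : 2 * M = 2 ^ k) (hM4 : 4 ≤ M) (σ : ℕ → ℕ) (a c : ℕ)
    (h : a < M ∧ c < 4 ∧ (a = M - 1 → c ≠ 1)) :
    ∃ (z : ℤ) (e : Bool), (ZE X (zz σ a c) (zb c))⁻¹ *
        ZE X (zz σ (zn M a c).1 (zn M a c).2) (zb (zn M a c).2) = ZE X z e ∧
      ((c = 0 ∧ a < M - 1 ∧ e = false ∧ z = -(2 * (a + 1))) ∨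
       (c = 0 ∧ a = M - 1 ∧ e = true ∧ z = -(σ a : ℤ) - (a + 1)) ∨
       (c = 1 ∧ a < M - 1 ∧ e = true ∧ z = -(σ a : ℤ) + (a + 1)) ∨
       (c = 2 ∧ e = false ∧ z = -(2 * (σ a : ℤ) + 1)) ∨
       (c = 3 ∧ a < M - 1 ∧ e = true ∧ z = (σ a : ℤ) - a - 1 - M) ∨
       (c = 3 ∧ a = M - 1 ∧ e = true ∧ z = (σ a : ℤ) - M)) := by
  obtain ⟨ha, hc, hac⟩ := h
  rw [ZE_quot X hM hM4]
  refine ⟨_, _, rfl, ?_⟩
  have hc' : c = 0 ∨ c = 1 ∨ c = 2 ∨ c = 3 := by omega
  rcases hc' with rfl | rfl | rfl | rfl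
  · by_cases h : a = M - 1
    · right; left
      refine ⟨rfl, h, ?_, ?_⟩
      · simp [zn, zb, h]
      · simp [zn, zb, zz, h]
    · left
      refine ⟨rfl, by omega, ?_, ?_⟩
      · simp [zn, zb, h]
      · simp [zn, zb, zz, h]; ring
  · have h : a ≠ M - 1 := fun h => hac h rfl
    right; right; left
    refine ⟨rfl, by omega, ?_, ?_⟩
    · simp [zn, zb]
    · simp [zn, zb, zz]; ring
  · right; right; right; left
    refine ⟨rfl, ?_, ?_⟩
    · simp [zn, zb]
    · simp [zn, zb, zz]; ring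
  · by_cases h : a = M - 1
    · right; right; right; right; right
      refine ⟨rfl, h, ?_, ?_⟩
      · simp [zn, zb, h]
      · simp [zn, zb, zz, h]
    · right; right; right; right; left
      refine ⟨rfl, by omega, ?_, ?_⟩
      · simp [zn, zb, h]
      · simp [zn, zb, zz, h]; ring

/-- the arithmetic of the quotients -/
private theorem zig_arith (M : ℕ) (hM4 : 4 ≤ M) (hMe : 2 * (M / 2) = M) (σ : ℕ → ℕ)
    (h1 : ∀ a < M, σ a < M)
    (h2 : ∀ a < M, ∀ b < M, σ a = σ b → a = b)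
    (h3 : ∀ a < M, ∀ b < M, σ a + b = σ b + a → a = b)
    (h4 : ∀ a < M, ∀ b < M - 1, σ a + σ b + M ≠ a + b + 2)
    (h5 : ∀ a < M, ∀ b < M - 1, σ a + σ b ≠ a + b + 2 + M)
    (h6 : ∀ a < M, σ a ≠ a + 1 + M / 2)
    (h8 : σ (M - 1) = M / 2) (a c a' c' : ℕ) (z z' : ℤ) (e e' : Bool)
    (ha : a < M) (ha' : a' < M)
    (hk : (c = 0 ∧ a < M - 1 ∧ e = false ∧ z = -(2 * (a + 1))) ∨
       (c = 0 ∧ a = M - 1 ∧ e = true ∧ z = -(σ a : ℤ) - (a + 1)) ∨
       (c = 1 ∧ a < M - 1 ∧ e = true ∧ z = -(σ a : ℤ) + (a + 1)) ∨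
       (c = 2 ∧ e = false ∧ z = -(2 * (σ a : ℤ) + 1)) ∨
       (c = 3 ∧ a < M - 1 ∧ e = true ∧ z = (σ a : ℤ) - a - 1 - M) ∨
       (c = 3 ∧ a = M - 1 ∧ e = true ∧ z = (σ a : ℤ) - M))
    (hk' : (c' = 0 ∧ a' < M - 1 ∧ e' = false ∧ z' = -(2 * (a' + 1))) ∨
       (c' = 0 ∧ a' = M - 1 ∧ e' = true ∧ z' = -(σ a' : ℤ) - (a' + 1)) ∨
       (c' = 1 ∧ a' < M - 1 ∧ e' = true ∧ z' = -(σ a' : ℤ) + (a' + 1)) ∨
       (c' = 2 ∧ e' = false ∧ z' = -(2 * (σ a' : ℤ) + 1)) ∨
       (c' = 3 ∧ a' < M - 1 ∧ e' = true ∧ z' = (σ a' : ℤ) - a' - 1 - M) ∨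
       (c' = 3 ∧ a' = M - 1 ∧ e' = true ∧ z' = (σ a' : ℤ) - M))
    (hee : e = e') (hd : (2 * M : ℤ) ∣ z - z') : a = a' ∧ c = c' := by
  have s1 := h1 a ha
  have s1' := h1 a' ha'
  have s2 := h2 a ha a' ha'
  have s3 := h3 a ha a' ha'
  have s6 := h6 a ha
  have s6' := h6 a' ha'
  have t4 : a' < M - 1 → σ a + σ a' + M ≠ a + a' + 2 := h4 a ha a'
  have t4' : a < M - 1 → σ a' + σ a + M ≠ a' + a + 2 := h4 a' ha' a
  have t5 : a' < M - 1 → σ a + σ a' ≠ a + a' + 2 + M := h5 a ha a'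
  have t5' : a < M - 1 → σ a' + σ a ≠ a' + a + 2 + M := h5 a' ha' a
  have hM0 : (0 : ℤ) < M := by omega
  have e8 : a = M - 1 → σ a = M / 2 := fun h => by rw [h]; exact h8
  have e8' : a' = M - 1 → σ a' = M / 2 := fun h => by rw [h]; exact h8
  have hb : z - z' < 4 * M := by
    rcases hk with hk | hk | hk | hk | hk | hk <;> rcases hk' with hk' | hk' | hk' | hk' | hk' | hk' <;>
      omega
  have hb' : -(4 * (M : ℤ)) < z - z' := by
    rcases hk with hk | hk | hk | hk | hk | hk <;> rcases hk' with hk' | hk' | hk' | hk' | hk' | hk' <;>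
      omega
  have hcase := zig_dvd hM0 hd hb hb'
  clear hd h1 h2 h3 h4 h5 h6 h8 hb hb'
  subst hee
  rcases hk with ⟨q1, q2, q3, q4⟩ | ⟨q1, q2, q3, q4⟩ | ⟨q1, q2, q3, q4⟩ | ⟨q1, q3, q4⟩ |
      ⟨q1, q2, q3, q4⟩ | ⟨q1, q2, q3, q4⟩ <;>
    rcases hk' with ⟨r1, r2, r3, r4⟩ | ⟨r1, r2, r3, r4⟩ | ⟨r1, r2, r3, r4⟩ | ⟨r1, r3, r4⟩ |
      ⟨r1, r2, r3, r4⟩ | ⟨r1, r2, r3, r4⟩ <;>
    first
    | (rw [q3] at r3; cases r3; done)
    | (rcases hcase with hcase | hcase | hcase <;> omega)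

/-- Zigzag construction for the generalised quaternion groups (`s = -1`, `t = 2 ^ (k-1) = M`, `A : ZMod (2 M) → G`).
For `a < M` let `u a = A (a+1)`, `v a = A (-(a+1))`, `p a = A (-σ a) * b`, `r a = A (σ a + 1) * b`
(`u a = v a` for `a = M - 1`, all others are distinct, they are all elements ≠ 1: `A i`, `i ≠ 0`; and `A (-j) * b`,
`A (j + 1) * b` for `0 ≤ j < M` are all `A i * b`). The cycle is
 `u 0 → v 0 → p 0 → r 0 → u 1 → v 1 → p 1 → r 1 → ... → u (M-1) = v (M-1) → p (M-1) → r (M-1) → u 0`.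
As a map: `A n ↦ A (2M - n)` for `1 ≤ n < M`; `A n ↦ A (-σ (2M-1-n)) * b` for `M ≤ n < 2M`; `A (-j) * b ↦ A (j+1) * b` for
`0 ≤ j < M`; `A (j+1) * b ↦ A (σ⁻¹ j + 2)` for `j < M`, `σ⁻¹ j ≠ M-1`, and `A (σ (M-1) + 1) * b ↦ A 1`.
Quotients `x⁻¹ θ x` (`CM.quot`): `u a → v a`: `A (-2(a+1))` (`a ≤ M-2`); `p a → r a`: `A (-(2 σ a + 1))`;
 `v a → p a`: `A (a + 1 - σ a) * b`; `r a → u (a+1)`: `A (σ a - a - 1 + M) * b` (`a ≤ M-2`); `r (M-1) → u 0`:
 `A (M/2 + M) * b`; and `1 → 1`. They are distinct by `h1 ... h6` (integers between `-2M` and `2M` modulo `2M`).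
Pattern: `x = A (M/2 + 1) * b = r (M-1)` (h8), `θ x = A 1`, `h * x = A (3 M / 2) = v (M/2 - 1)`,
 `h = A (M + 1) * b = A (-(M-1)) * b = p (M/2 - 1)` (h7), `θ h = A M * b = h * A 1`.
(Write `zmod` elements as casts of natural numbers; `M` is even, as `2 * M = 2 ^ k`, `M ≥ 4`.) -/
theorem zig {G : Type} [Group G] [Finite G] {k : ℕ} (X : CM G k (-1) (hf k)) (M : ℕ)
    (hM : 2 * M = 2 ^ k) (hM4 : 4 ≤ M) (σ : ℕ → ℕ) (h1 : ∀ a < M, σ a < M)
    (h2 : ∀ a < M, ∀ b < M, σ a = σ b → a = b)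
    (h3 : ∀ a < M, ∀ b < M, σ a + b = σ b + a → a = b)
    (h4 : ∀ a < M, ∀ b < M - 1, σ a + σ b + M ≠ a + b + 2)
    (h5 : ∀ a < M, ∀ b < M - 1, σ a + σ b ≠ a + b + 2 + M)
    (h6 : ∀ a < M, σ a ≠ a + 1 + M / 2)
    (h7 : σ (M / 2 - 1) = M - 1) (h8 : σ (M - 1) = M / 2) : R2 G := by
  have hMe : 2 * (M / 2) = M := by
    have hk : ∃ j, k = j + 2 := by
      have : 2 ≤ k := by
        by_contra h
        have : k = 0 ∨ k = 1 := by omega
        rcases this with rfl | rfl <;> omega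
      exact ⟨k - 2, by omega⟩
    obtain ⟨j, rfl⟩ := hk
    have : 2 ^ (j + 2) = 4 * 2 ^ j := by rw [pow_add]; ring
    omega
  have hM0 : (0 : ℤ) < M := by omega
  let φ : ZS M → G := fun s => ZE X (zz σ s.1.1 s.1.2) (zb s.1.2)
  let nx : ZS M → ZS M := fun s => ⟨zn M s.1.1 s.1.2, zn_mem hM4 _ _ s.2⟩
  let s0 : ZS M := ⟨(0, 0), by refine ⟨by omega, by norm_num, fun _ => by norm_num⟩⟩
  have hσs : ∀ j < M, ∃ a < M, σ a = j := by
    intro j hj
    have hinj : Function.Injective (fun a : Fin M => (⟨σ a, h1 a a.2⟩ : Fin M)) := by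
      intro a b hab
      simp only [Fin.mk.injEq] at hab
      exact Fin.ext (h2 a a.2 b b.2 hab)
    obtain ⟨a, ha⟩ := (Finite.injective_iff_surjective.mp hinj) ⟨j, hj⟩
    exact ⟨a, a.2, by simpa using congrArg Fin.val ha⟩
  have hφ1 : ∀ s, φ s ≠ 1 := by
    rintro ⟨⟨a, c⟩, ha, hc, hac⟩ h
    simp only [φ] at h
    rw [← ZE_one X] at h
    obtain ⟨e1, e2⟩ := ZE_inj X hM h
    simp only at ha hc hac e1 e2
    have hs1 := h1 a ha
    have hc' : c = 0 ∨ c = 1 ∨ c = 2 ∨ c = 3 := by omega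
    rcases hc' with rfl | rfl | rfl | rfl
    · simp only [zz, if_true] at e2
      have := zig_dvd hM0 e2 (by omega) (by omega)
      omega
    · simp only [zz, if_true] at e2
      norm_num at e2
      have := zig_dvd hM0 e2 (by omega) (by omega)
      have := hac
      omega
    · simp [zb] at e1
    · simp [zb] at e1
  have hφinj : Function.Injective φ := by
    rintro ⟨⟨a, c⟩, ha, hc, hac⟩ ⟨⟨a', c'⟩, ha', hc', hac'⟩ h
    simp only [φ] at h
    obtain ⟨e1, e2⟩ := ZE_inj X hM h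
    simp only at ha hc hac e1 e2 ha' hc' hac'
    have hs1 := h1 a ha
    have hs1' := h1 a' ha'
    have hs2 := h2 a ha a' ha'
    have key : a = a' ∧ c = c' := by
      have hcc : c = 0 ∨ c = 1 ∨ c = 2 ∨ c = 3 := by omega
      have hcc' : c' = 0 ∨ c' = 1 ∨ c' = 2 ∨ c' = 3 := by omega
      have hb : zz σ a c - zz σ a' c' < 4 * M := by
        unfold zz; split_ifs <;> omega
      have hb' : -(4 * (M : ℤ)) < zz σ a c - zz σ a' c' := by
        unfold zz; split_ifs <;> omega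
      have h3 := zig_dvd hM0 e2 hb hb'
      have hp : (c < 2 ∧ c' < 2) ∨ (2 ≤ c ∧ 2 ≤ c') := by
        unfold zb at e1
        split_ifs at e1 <;> omega
      clear hb hb' e2 e1 h h2 h4 h5 h6 h7 h8
      rcases hcc with rfl | rfl | rfl | rfl <;> rcases hcc' with rfl | rfl | rfl | rfl <;>
        first
        | omega
        | (simp only [zz] at h3; norm_num at h3; omega)
    obtain ⟨rfl, rfl⟩ := key
    rfl
  have hφs : ∀ g, g ≠ 1 → ∃ s, φ s = g := by
    intro g hg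
    obtain ⟨i, c, rfl⟩ := X.exists_coord g
    have : NeZero (2 ^ k) := ⟨by positivity⟩
    obtain ⟨n, hn, hni⟩ : ∃ n : ℕ, n < 2 * M ∧ i = ((n : ℤ) : ZMod (2 ^ k)) :=
      ⟨i.val, by rw [hM]; exact ZMod.val_lt i, by
        rw [Int.cast_natCast, ZMod.natCast_zmod_val]⟩
    subst hni
    have hgE : X.A ((n : ℤ) : ZMod (2 ^ k)) * X.B c = ZE X n c := rfl
    rw [hgE] at hg ⊢
    have hst : ∀ a d, (h : a < M ∧ d < 4 ∧ (a = M - 1 → d ≠ 1)) → zb d = c →
        (2 * M : ℤ) ∣ zz σ a d - n → ∃ s, φ s = ZE X n c := by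
      intro a d h hd hz
      refine ⟨⟨(a, d), h⟩, ?_⟩
      change ZE X (zz σ a d) (zb d) = _
      rw [hd]
      exact ZE_eq X hM c hz
    cases c with
    | false =>
      have hn0 : n ≠ 0 := by
        rintro rfl
        exact hg (ZE_one X)
      by_cases hnM : n ≤ M
      · refine hst (n - 1) 0 ⟨by omega, by norm_num, fun _ => by norm_num⟩ rfl ?_
        have : zz σ (n - 1) 0 - n = 0 := by simp only [zz]; norm_num; omega
        rw [this]; exact dvd_zero _
      · refine hst (2 * M - n - 1) 1 ⟨by omega, by norm_num, fun h => by omega⟩ rfl ?_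
        have : zz σ (2 * M - n - 1) 1 - n = 2 * M * (-1) := by simp only [zz]; norm_num; omega
        rw [this]; exact dvd_mul_right _ _
    | true =>
      by_cases hn0 : n = 0
      · obtain ⟨a, ha, haσ⟩ := hσs 0 (by omega)
        refine hst a 2 ⟨ha, by norm_num, fun _ => by norm_num⟩ rfl ?_
        have : zz σ a 2 - n = 0 := by simp only [zz]; norm_num; omega
        rw [this]; exact dvd_zero _
      · by_cases hnM : n ≤ M
        · obtain ⟨a, ha, haσ⟩ := hσs (n - 1) (by omega)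
          refine hst a 3 ⟨ha, by norm_num, fun _ => by norm_num⟩ rfl ?_
          have : zz σ a 3 - n = 0 := by simp only [zz]; norm_num; omega
          rw [this]; exact dvd_zero _
        · obtain ⟨a, ha, haσ⟩ := hσs (2 * M - n) (by omega)
          refine hst a 2 ⟨ha, by norm_num, fun _ => by norm_num⟩ rfl ?_
          have : zz σ a 2 - n = 2 * M * (-1) := by simp only [zz]; norm_num; omega
          rw [this]; exact dvd_mul_right _ _
  have hnx : Function.Surjective nx := by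
    rintro ⟨⟨a, c⟩, ha, hc, hac⟩
    simp only at ha hc hac
    have hst : ∀ a' c', (h : a' < M ∧ c' < 4 ∧ (a' = M - 1 → c' ≠ 1)) → zn M a' c' = (a, c) →
        ∃ s, nx s = ⟨(a, c), ha, hc, hac⟩ := by
      intro a' c' h h2
      exact ⟨⟨(a', c'), h⟩, Subtype.ext h2⟩
    have hcc : c = 0 ∨ c = 1 ∨ c = 2 ∨ c = 3 := by omega
    rcases hcc with rfl | rfl | rfl | rfl
    · by_cases h0 : a = 0
      · refine hst (M - 1) 3 ⟨by omega, by norm_num, fun _ => by norm_num⟩ ?_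
        simp [zn, h0]
      · refine hst (a - 1) 3 ⟨by omega, by norm_num, fun _ => by norm_num⟩ ?_
        have h1 : a - 1 ≠ M - 1 := by omega
        have h2 : a - 1 + 1 = a := by omega
        simp [zn, h1, h2]
    · refine hst a 0 ⟨by omega, by norm_num, fun _ => by norm_num⟩ ?_
      have h1 : a ≠ M - 1 := fun h => hac h rfl
      simp [zn, h1]
    · by_cases h0 : a = M - 1
      · refine hst a 0 ⟨by omega, by norm_num, fun _ => by norm_num⟩ ?_
        simp [zn, h0]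
      · refine hst a 1 ⟨by omega, by norm_num, fun h => absurd h h0⟩ ?_
        simp [zn]
    · refine hst a 2 ⟨by omega, by norm_num, fun _ => by norm_num⟩ ?_
      simp [zn]
  have hfix : ∀ s, nx s ≠ s := by
    rintro ⟨⟨a, c⟩, ha, hc, hac⟩ h
    have h' : zn M a c = (a, c) := congrArg Subtype.val h
    simp only at ha hc hac
    unfold zn at h'
    split_ifs at h' <;> simp only [Prod.mk.injEq] at h' <;> omega
  have hq : ∀ s t, (φ s)⁻¹ * φ (nx s) = (φ t)⁻¹ * φ (nx t) → s = t := by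
    rintro ⟨⟨a, c⟩, h⟩ ⟨⟨a', c'⟩, h'⟩ hq
    obtain ⟨z, e, hz, hk⟩ := zig_kinds X hM hM4 σ a c h
    obtain ⟨z', e', hz', hk'⟩ := zig_kinds X hM hM4 σ a' c' h'
    have hq' : ZE X z e = ZE X z' e' := by
      rw [← hz, ← hz']
      exact hq
    obtain ⟨e1, e2⟩ := ZE_inj X hM hq'
    obtain ⟨rfl, rfl⟩ := zig_arith M hM4 hMe σ h1 h2 h3 h4 h5 h6 h8 a c a' c' z z' e e' h.1 h'.1
      hk hk' e1 e2
    rfl
  have hcyc : ∀ s, ∃ n, nx^[n] s0 = s := by
    have step : ∀ s t, nx s = t → (∃ n, nx^[n] s0 = s) → ∃ n, nx^[n] s0 = t := by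
      rintro s t hst ⟨n, hn⟩
      exact ⟨n + 1, by rw [Function.iterate_succ_apply', hn, hst]⟩
    have row : ∀ a (ha : a < M), (∃ n, nx^[n] s0 = ⟨(a, 0), ha, by norm_num, fun _ => by norm_num⟩) →
        (∀ (h : a ≠ M - 1), ∃ n, nx^[n] s0 = ⟨(a, 1), ha, by norm_num, fun h' => absurd h' h⟩) ∧
        (∃ n, nx^[n] s0 = ⟨(a, 2), ha, by norm_num, fun _ => by norm_num⟩) ∧
        (∃ n, nx^[n] s0 = ⟨(a, 3), ha, by norm_num, fun _ => by norm_num⟩) := by
      intro a ha h0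
      have r1 : ∀ (h : a ≠ M - 1), ∃ n, nx^[n] s0 =
          ⟨(a, 1), ha, by norm_num, fun h' => absurd h' h⟩ := by
        intro h
        refine step _ _ ?_ h0
        apply Subtype.ext
        simp [nx, zn, h]
      have r2 : ∃ n, nx^[n] s0 = ⟨(a, 2), ha, by norm_num, fun _ => by norm_num⟩ := by
        by_cases h : a = M - 1
        · refine step _ _ ?_ h0
          apply Subtype.ext
          simp [nx, zn, h]
        · refine step _ _ ?_ (r1 h)
          apply Subtype.ext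
          simp [nx, zn]
      refine ⟨r1, r2, step _ _ ?_ r2⟩
      apply Subtype.ext
      simp [nx, zn]
    have row0 : ∀ a (ha : a < M),
        (∃ n, nx^[n] s0 = ⟨(a, 0), ha, by norm_num, fun _ => by norm_num⟩) := by
      intro a
      induction a with
      | zero => intro _; exact ⟨0, rfl⟩
      | succ a ih =>
        intro ha
        have h := (row a (by omega) (ih (by omega))).2.2
        refine step _ _ ?_ h
        apply Subtype.ext
        have h1 : a ≠ M - 1 := by omega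
        simp [nx, zn, h1]
    rintro ⟨⟨a, c⟩, ha, hc, hac⟩
    simp only at ha hc hac
    have hcc : c = 0 ∨ c = 1 ∨ c = 2 ∨ c = 3 := by omega
    have hr := row a ha (row0 a ha)
    rcases hcc with rfl | rfl | rfl | rfl
    · exact row0 a ha
    · exact hr.1 (fun h => hac h rfl)
    · exact hr.2.1
    · exact hr.2.2
  obtain ⟨θ, hO, hC, hθ⟩ := zig_of_states φ nx s0 hφ1 hφs hφinj hnx hfix hq hcyc
  -- the pattern
  have e1 : θ (ZE X (M / 2 + 1 : ℕ) true) = ZE X 1 false := by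
    have h := hθ ⟨(M - 1, 3), by omega, by norm_num, fun _ => by norm_num⟩
    have a1 : φ ⟨(M - 1, 3), by omega, by norm_num, fun _ => by norm_num⟩ =
        ZE X (M / 2 + 1 : ℕ) true := by
      simp [φ, zz, zb, h8]
    have a2 : φ (nx ⟨(M - 1, 3), by omega, by norm_num, fun _ => by norm_num⟩) = ZE X 1 false := by
      simp [φ, nx, zn, zz, zb]
    rw [a1, a2] at h
    exact h
  have hm1 : M / 2 - 1 < M := by omega
  have hm2 : M / 2 - 1 ≠ M - 1 := by omega
  have e2 : θ (ZE X (-((M / 2 : ℕ) : ℤ)) false) = ZE X (1 - M) true := by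
    have h := hθ ⟨(M / 2 - 1, 1), hm1, by norm_num, fun h => absurd h hm2⟩
    have a1 : φ ⟨(M / 2 - 1, 1), hm1, by norm_num, fun h => absurd h hm2⟩ =
        ZE X (-((M / 2 : ℕ) : ℤ)) false := by
      apply ZE_eq X hM
      have : zz σ (M / 2 - 1) 1 - (-((M / 2 : ℕ) : ℤ)) = 0 := by
        simp only [zz]; norm_num; omega
      simp only
      rw [this]
      exact dvd_zero _
    have a2 : φ (nx ⟨(M / 2 - 1, 1), hm1, by norm_num, fun h => absurd h hm2⟩) =
        ZE X (1 - M) true := by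
      apply ZE_eq X hM
      have : zz σ (M / 2 - 1) 2 - (1 - M) = 0 := by
        simp only [zz, h7]; norm_num; omega
      simp only [nx, zn]
      norm_num
      rw [this]
      exact dvd_zero _
    rw [a1, a2] at h
    exact h
  have e3 : θ (ZE X (1 - M) true) = ZE X M true := by
    have h := hθ ⟨(M / 2 - 1, 2), hm1, by norm_num, fun _ => by norm_num⟩
    have a1 : φ ⟨(M / 2 - 1, 2), hm1, by norm_num, fun _ => by norm_num⟩ =
        ZE X (1 - M) true := by
      apply ZE_eq X hM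
      have : zz σ (M / 2 - 1) 2 - (1 - M) = 0 := by
        simp only [zz, h7]; norm_num; omega
      simp only
      rw [this]
      exact dvd_zero _
    have a2 : φ (nx ⟨(M / 2 - 1, 2), hm1, by norm_num, fun _ => by norm_num⟩) =
        ZE X M true := by
      apply ZE_eq X hM
      have : zz σ (M / 2 - 1) 3 - M = 0 := by
        simp only [zz, h7]; norm_num; omega
      simp only [nx, zn]
      norm_num
      rw [this]
      exact dvd_zero _
    rw [a1, a2] at h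
    exact h
  have hx : ZE X (1 - M) true * ZE X (M / 2 + 1 : ℕ) true = ZE X (-((M / 2 : ℕ) : ℤ)) false := by
    rw [ZE_mul X hM hM4]
    apply ZE_eq X hM
    have : (1 - M + (if true = true then -((M / 2 + 1 : ℕ) : ℤ) else ((M / 2 + 1 : ℕ) : ℤ)) +
        if (true && true) = true then (M : ℤ) else 0) - -((M / 2 : ℕ) : ℤ) = 0 := by
      simp
      ring
    rw [this]
    exact dvd_zero _
  have hx2 : ZE X (1 - M) true * ZE X 1 false = ZE X M true := by
    rw [ZE_mul X hM hM4]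
    apply ZE_eq X hM
    have : (1 - (M : ℤ) + (if true = true then -(1 : ℤ) else 1) +
        if (true && false) = true then (M : ℤ) else 0) - M = 2 * M * (-1) := by
      simp
      ring
    rw [this]
    exact dvd_mul_right _ _
  have ne_of_bool : ∀ (z w : ℤ), ZE X z false ≠ ZE X w true := by
    intro z w h
    exact absurd (ZE_inj X hM h).1 (by simp)
  have ne_of_dvd : ∀ (z w : ℤ) (c : Bool), z - w < 4 * M → -(4 * (M : ℤ)) < z - w →
      z - w ≠ 0 → z - w ≠ 2 * M → z - w ≠ -(2 * M) → ZE X z c ≠ ZE X w c := by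
    intro z w c h1 h2 h3 h4 h5 h
    rcases zig_dvd hM0 (ZE_inj X hM h).2 h1 h2 with h | h | h
    · exact h3 h
    · exact h4 h
    · exact h5 h
  refine ⟨θ, ZE X (M / 2 + 1 : ℕ) true, ZE X (1 - M) true, hO, hC, ?_, ?_, ?_⟩
  · rw [hx, e2]
  · rw [e3, e1, hx2]
  · rw [hx, e1, hx2, ← ZE_one X]
    simp only [List.nodup_cons, List.mem_cons, List.not_mem_nil, or_false, not_or,
      List.nodup_nil, and_true, not_false_eq_true]
    refine ⟨⟨ne_of_bool _ _, ?_, ne_of_bool _ _, ?_, ne_of_bool _ _⟩,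
      ⟨(ne_of_bool _ _).symm, ?_, (ne_of_bool _ _).symm, ?_⟩,
      ⟨ne_of_bool _ _, ?_, ne_of_bool _ _⟩, ⟨(ne_of_bool _ _).symm, ?_⟩, ne_of_bool _ _⟩ <;>
    (apply ne_of_dvd <;> push_cast <;> omega)

end LibRE
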